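import Pool.Agent.H5.AF.Defs

set_option autoImplicit false
open MeasureTheory Set Filter Topology
open scoped ENNReal NNReal

namespace Pool.Agent.H5.AF

/-!
Part ARC. The arcsine law and its potential.
Paper proof: for `|t| ≤ 1` write `t = cos α`; then
`‖exp (iθ) - exp (iα)‖ * ‖exp (iθ) - exp (-iα)‖ = 2 * |cos θ - t|` and Mathlib's
`circleAverage_log_norm_sub_const_eq_posLog` gives that the average of `log |cos θ - t|` is
`- log 2` (average over `[0,2π]` = average over `[0,π]` by symmetry).  For `|t| > 1` write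
`t = (a + 1/a)/2` with `a` real, `|a| > 1` (`a = t ± sqrt (t²-1)`): the average of
`log |cos θ - t|` is `log |a| - log 2`, and `|t| ≥ 3` implies `|a| ≥ 4`.
-/

theorem arc_prob : IsProbabilityMeasure arc := by
  constructor
  unfold arc
  rw [Measure.smul_apply, Measure.map_apply Real.measurable_cos MeasurableSet.univ,
    preimage_univ, Measure.restrict_apply MeasurableSet.univ, univ_inter, Real.volume_Icc,
    smul_eq_mul, ← ENNReal.ofReal_mul (by positivity), sub_zero,
    one_div_mul_cancel Real.pi_ne_zero, ENNReal.ofReal_one]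

theorem arc_compl : arc (Icc (-1 : ℝ) 1)ᶜ = 0 := by
  unfold arc
  rw [Measure.smul_apply, Measure.map_apply Real.measurable_cos measurableSet_Icc.compl]
  have e : Real.cos ⁻¹' (Icc (-1 : ℝ) 1)ᶜ = ∅ := by
    ext x
    simp only [mem_preimage, mem_compl_iff, mem_Icc, mem_empty_iff_false, iff_false, not_not]
    exact ⟨Real.neg_one_le_cos x, Real.cos_le_one x⟩
  rw [e, measure_empty, smul_zero]

theorem arc_atom (s : ℝ) : arc {s} = 0 := by
  unfold arc
  rw [Measure.smul_apply, Measure.map_apply Real.measurable_cos (measurableSet_singleton s),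
    Measure.restrict_apply (Real.measurable_cos (measurableSet_singleton s))]
  have e : (Real.cos ⁻¹' {s} ∩ Icc 0 Real.pi).Subsingleton := by
    intro x hx y hy
    refine Real.injOn_cos hx.2 hy.2 ?_
    have h1 : Real.cos x = s := hx.1
    have h2 : Real.cos y = s := hy.1
    rw [h1, h2]
  rw [e.measure_zero, smul_zero]

theorem arc_pos {a b : ℝ} (ha : -1 ≤ a) (hab : a < b) (hb : b ≤ 1) : 0 < arc (Ioo a b) := by
  unfold arc
  rw [Measure.smul_apply, Measure.map_apply Real.measurable_cos measurableSet_Ioo,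
    Measure.restrict_apply (Real.measurable_cos measurableSet_Ioo), smul_eq_mul]
  have h1 : 0 < ENNReal.ofReal (1 / Real.pi) := by
    rw [ENNReal.ofReal_pos]; positivity
  refine ENNReal.mul_pos h1.ne' ?_
  have hsub : Ioo (Real.arccos b) (Real.arccos a) ⊆ Real.cos ⁻¹' Ioo a b ∩ Icc 0 Real.pi := by
    intro x hx
    have hx0 : 0 ≤ x := (Real.arccos_nonneg b).trans hx.1.le
    have hxp : x ≤ Real.pi := hx.2.le.trans (Real.arccos_le_pi a)
    refine ⟨⟨?_, ?_⟩, hx0, hxp⟩
    · have h := Real.cos_lt_cos_of_nonneg_of_le_pi hx0 (Real.arccos_le_pi a) hx.2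
      rwa [Real.cos_arccos ha (hab.le.trans hb)] at h
    · have h := Real.cos_lt_cos_of_nonneg_of_le_pi (Real.arccos_nonneg b) hxp hx.1
      rwa [Real.cos_arccos (ha.trans hab.le) hb] at h
  have h2 : 0 < volume (Ioo (Real.arccos b) (Real.arccos a)) := by
    rw [Real.volume_Ioo, ENNReal.ofReal_pos, sub_pos]
    exact Real.strictAntiOn_arccos ⟨ha, hab.le.trans hb⟩ ⟨ha.trans hab.le, hb⟩ hab
  exact (h2.trans_le (measure_mono hsub)).ne'

/-! ### the kernel on the circle -/

theorem arc_kernel {a : ℂ} (ha : a ≠ 0) {t : ℝ} (h : a + a⁻¹ = 2 * (t : ℂ)) (θ : ℝ) :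
    ‖circleMap 0 1 θ - a‖ * ‖circleMap 0 1 θ - a⁻¹‖ = 2 * |Real.cos θ - t| := by
  rw [← norm_mul]
  set z : ℂ := circleMap 0 1 θ with hz
  have hz1 : ‖z‖ = 1 := by simp [hz]
  have hz0 : z ≠ 0 := by
    intro h0; rw [h0, norm_zero] at hz1; exact zero_ne_one hz1
  have e2 : z + z⁻¹ = 2 * (Real.cos θ : ℂ) := by
    rw [hz, circleMap, zero_add, Complex.ofReal_one, one_mul, ← Complex.exp_neg,
      Complex.ofReal_cos, Complex.two_cos, neg_mul]
  have e1 : (z - a) * (z - a⁻¹) = z * (2 * ((Real.cos θ - t : ℝ) : ℂ)) := by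
    have : (z - a) * (z - a⁻¹) = z * (z + z⁻¹ - (a + a⁻¹)) := by
      field_simp
      ring
    rw [this, e2, h]
    push_cast
    ring
  rw [e1, norm_mul, hz1, one_mul, norm_mul, Complex.norm_real, Real.norm_eq_abs]
  norm_num

theorem arc_codisc (t : ℝ) : ∀ᶠ θ in codiscrete ℝ, Real.cos θ - t ≠ 0 := by
  have hA : AnalyticOnNhd ℝ (fun θ : ℝ => Real.cos θ - t) Set.univ := fun _ _ ↦ by fun_prop
  have hx : ∃ x : ℝ, Real.cos x - t ≠ 0 := by
    by_cases h : t = 1
    · refine ⟨Real.pi, ?_⟩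
      rw [Real.cos_pi, h]; norm_num
    · refine ⟨0, ?_⟩
      rw [Real.cos_zero]
      intro h2; exact h (by linarith)
  obtain ⟨x, hx⟩ := hx
  have := hA.preimage_zero_mem_codiscrete (x := x) hx
  filter_upwards [this] with θ hθ
  exact hθ

theorem arc_ae (t : ℝ) : ∀ᵐ θ : ℝ, Real.cos θ - t ≠ 0 := by
  have h := arc_codisc t
  have h2 : {θ : ℝ | Real.cos θ - t ≠ 0} ∈ ae (volume : Measure ℝ) := by
    have := ae_restrict_le_codiscreteWithin (μ := (volume : Measure ℝ)) (U := Set.univ)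
      MeasurableSet.univ
    rw [Measure.restrict_univ] at this
    exact this h
  exact h2

theorem arc_log {a : ℂ} (ha : a ≠ 0) {t : ℝ} (h : a + a⁻¹ = 2 * (t : ℂ)) {θ : ℝ}
    (hθ : Real.cos θ - t ≠ 0) :
    Real.log |Real.cos θ - t| = Real.log ‖circleMap 0 1 θ - a‖
      + Real.log ‖circleMap 0 1 θ - a⁻¹‖ - Real.log 2 := by
  have hk := arc_kernel ha h θ
  have h3 : ‖circleMap 0 1 θ - a‖ * ‖circleMap 0 1 θ - a⁻¹‖ ≠ 0 := by
    rw [hk]; exact mul_ne_zero two_ne_zero (abs_ne_zero.2 hθ)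
  rw [← Real.log_mul (left_ne_zero_of_mul h3) (right_ne_zero_of_mul h3), hk,
    Real.log_mul two_ne_zero (abs_ne_zero.2 hθ)]
  ring

theorem arc_exists (t : ℝ) : ∃ a : ℂ, a ≠ 0 ∧ a + a⁻¹ = 2 * (t : ℂ) ∧ (|t| ≤ 1 → ‖a‖ = 1) := by
  by_cases ht : |t| ≤ 1
  · have h2 := abs_le.1 ht
    refine ⟨Complex.exp (Real.arccos t * Complex.I), Complex.exp_ne_zero _, ?_, fun _ => ?_⟩
    · rw [← Complex.exp_neg, ← neg_mul, ← Complex.two_cos, ← Complex.ofReal_cos,
        Real.cos_arccos h2.1 h2.2]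
    · exact Complex.norm_exp_ofReal_mul_I _
  · push Not at ht
    have h1 : 0 ≤ t ^ 2 - 1 := by
      have : 1 ≤ |t| ^ 2 := one_le_pow₀ ht.le
      rw [sq_abs] at this; linarith
    have hs : Real.sqrt (t ^ 2 - 1) ^ 2 = t ^ 2 - 1 := Real.sq_sqrt h1
    set s := Real.sqrt (t ^ 2 - 1) with hsd
    have hne : t + s ≠ 0 := by
      intro h0
      have : s = -t := by linarith
      rw [this] at hs
      nlinarith
    have hinv : (t + s)⁻¹ = t - s := inv_eq_of_mul_eq_one_right (by nlinarith)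
    refine ⟨((t + s : ℝ) : ℂ), ?_, ?_, fun h => absurd h (not_le.2 ht)⟩
    · exact_mod_cast hne
    · rw [← Complex.ofReal_inv, hinv]
      push_cast
      ring

/-! ### integrals over `[0, 2π]` and `[0, π]` -/

theorem arc_ii1 {a : ℂ} (ha : a ≠ 0) {t : ℝ} (h : a + a⁻¹ = 2 * (t : ℂ)) :
    IntervalIntegrable (fun θ => Real.log |Real.cos θ - t|) volume 0 (2 * Real.pi) := by
  have h1 : IntervalIntegrable (fun θ => Real.log ‖circleMap 0 1 θ - a‖) volume 0 (2 * Real.pi) :=
    circleIntegrable_log_norm_sub_const (a := a) (c := 0) 1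
  have h2 : IntervalIntegrable (fun θ => Real.log ‖circleMap 0 1 θ - a⁻¹‖) volume 0
    (2 * Real.pi) := circleIntegrable_log_norm_sub_const (a := a⁻¹) (c := 0) 1
  have h3 := (h1.add h2).sub
    (intervalIntegrable_const (μ := volume) (c := Real.log 2) (a := 0) (b := 2 * Real.pi))
  refine h3.congr_ae ?_
  refine (ae_restrict_of_ae (arc_ae t)).mono fun θ hθ => ?_
  exact (arc_log ha h hθ).symm

theorem arc_ii2 {a : ℂ} (ha : a ≠ 0) {t : ℝ} (h : a + a⁻¹ = 2 * (t : ℂ)) :
    ∫ θ in (0 : ℝ)..(2 * Real.pi), Real.log |Real.cos θ - t| =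
      2 * Real.pi * (Real.posLog ‖a‖ + Real.posLog ‖a⁻¹‖ - Real.log 2) := by
  have h1 : IntervalIntegrable (fun θ => Real.log ‖circleMap 0 1 θ - a‖) volume 0 (2 * Real.pi) :=
    circleIntegrable_log_norm_sub_const (a := a) (c := 0) 1
  have h2 : IntervalIntegrable (fun θ => Real.log ‖circleMap 0 1 θ - a⁻¹‖) volume 0
    (2 * Real.pi) := circleIntegrable_log_norm_sub_const (a := a⁻¹) (c := 0) 1
  have e : ∫ θ in (0 : ℝ)..(2 * Real.pi), Real.log |Real.cos θ - t| =
      ∫ θ in (0 : ℝ)..(2 * Real.pi), (Real.log ‖circleMap 0 1 θ - a‖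
      + Real.log ‖circleMap 0 1 θ - a⁻¹‖ - Real.log 2) := by
    refine intervalIntegral.integral_congr_ae ?_
    exact (arc_ae t).mono fun θ hθ _ => arc_log ha h hθ
  rw [e, intervalIntegral.integral_sub (h1.add h2) intervalIntegrable_const,
    intervalIntegral.integral_add h1 h2, intervalIntegral.integral_const]
  have c1 := circleAverage_log_norm_sub_const_eq_posLog (a := a)
  have c2 := circleAverage_log_norm_sub_const_eq_posLog (a := a⁻¹)
  rw [Real.circleAverage_def, smul_eq_mul, inv_mul_eq_iff_eq_mul₀ (by positivity)] at c1 c2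
  rw [c1, c2, smul_eq_mul]
  ring

theorem arc_ii3 (t : ℝ) :
    IntervalIntegrable (fun θ => Real.log |Real.cos θ - t|) volume 0 (2 * Real.pi) := by
  obtain ⟨a, ha, h, -⟩ := arc_exists t
  exact arc_ii1 ha h

theorem arc_ii4 (t : ℝ) :
    IntervalIntegrable (fun θ => Real.log |Real.cos θ - t|) volume 0 Real.pi := by
  refine (arc_ii3 t).mono_set ?_
  rw [uIcc_of_le Real.pi_pos.le, uIcc_of_le (by positivity)]
  exact Icc_subset_Icc_right (by linarith [Real.pi_pos])

theorem arc_ii5 {a : ℂ} (ha : a ≠ 0) {t : ℝ} (h : a + a⁻¹ = 2 * (t : ℂ)) :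
    ∫ θ in (0 : ℝ)..Real.pi, Real.log |Real.cos θ - t| =
      Real.pi * (Real.posLog ‖a‖ + Real.posLog ‖a⁻¹‖ - Real.log 2) := by
  have h1 := arc_ii2 ha h
  have hpi : (Real.pi : ℝ) ∈ uIcc 0 (2 * Real.pi) := by
    rw [uIcc_of_le (by positivity)]
    exact ⟨Real.pi_pos.le, by linarith [Real.pi_pos]⟩
  have h4 : IntervalIntegrable (fun θ => Real.log |Real.cos θ - t|) volume Real.pi
      (2 * Real.pi) := by
    refine (arc_ii3 t).mono_set ?_
    rw [uIcc_of_le (by linarith [Real.pi_pos]), uIcc_of_le (by positivity)]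
    exact Icc_subset_Icc_left Real.pi_pos.le
  have h2 : ∫ θ in Real.pi..(2 * Real.pi), Real.log |Real.cos θ - t| =
      ∫ θ in (0 : ℝ)..Real.pi, Real.log |Real.cos θ - t| := by
    have := intervalIntegral.integral_comp_sub_left (a := 0) (b := Real.pi)
      (fun θ => Real.log |Real.cos θ - t|) (2 * Real.pi)
    simp only [Real.cos_two_pi_sub, sub_zero] at this
    rw [this]
    congr 1
    ring
  rw [← intervalIntegral.integral_add_adjacent_intervals (arc_ii4 t) h4, h2] at h1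
  linarith

theorem arc_integral (t : ℝ) :
    ∫ s, -Real.log |t - s| ∂arc =
      -((1 / Real.pi) * ∫ θ in (0 : ℝ)..Real.pi, Real.log |Real.cos θ - t|) := by
  unfold arc
  rw [integral_smul_measure, integral_map Real.measurable_cos.aemeasurable
    (by fun_prop : Measurable fun s : ℝ => -Real.log |t - s|).aestronglyMeasurable,
    ENNReal.toReal_ofReal (by positivity), integral_neg, smul_eq_mul,
    intervalIntegral.integral_of_le Real.pi_pos.le, integral_Icc_eq_integral_Ioc, mul_neg]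
  simp_rw [abs_sub_comm t]

theorem arc_pot_int (t : ℝ) : Integrable (fun s => -Real.log |t - s|) arc := by
  unfold arc
  refine Integrable.smul_measure ?_ ENNReal.ofReal_ne_top
  rw [integrable_map_measure
    (by fun_prop : Measurable fun s : ℝ => -Real.log |t - s|).aestronglyMeasurable
    Real.measurable_cos.aemeasurable]
  have h := (intervalIntegrable_iff_integrableOn_Icc_of_le Real.pi_pos.le).1 (arc_ii4 t)
  have h2 := h.neg
  refine h2.congr (ae_of_all _ fun θ => ?_)
  simp only [Pi.neg_apply, Function.comp, abs_sub_comm t]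

theorem arc_pot_formula {a : ℂ} (ha : a ≠ 0) {t : ℝ} (h : a + a⁻¹ = 2 * (t : ℂ)) :
    ∫ s, -Real.log |t - s| ∂arc = Real.log 2 - (Real.posLog ‖a‖ + Real.posLog ‖a⁻¹‖) := by
  rw [arc_integral, arc_ii5 ha h]
  have := Real.pi_ne_zero
  field_simp
  ring

theorem arc_pot_eq {t : ℝ} (ht : |t| ≤ 1) : ∫ s, -Real.log |t - s| ∂arc = Real.log 2 := by
  obtain ⟨a, ha, h, h1⟩ := arc_exists t
  rw [arc_pot_formula ha h, norm_inv, h1 ht, inv_one, Real.posLog_one]
  ring

theorem arc_pot_le (t : ℝ) : ∫ s, -Real.log |t - s| ∂arc ≤ Real.log 2 := by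
  obtain ⟨a, ha, h, -⟩ := arc_exists t
  rw [arc_pot_formula ha h]
  have h1 := Real.posLog_nonneg (x := ‖a‖)
  have h2 := Real.posLog_nonneg (x := ‖a⁻¹‖)
  linarith

theorem arc_pot_far {t : ℝ} (ht : 3 ≤ |t|) : ∫ s, -Real.log |t - s| ∂arc ≤ -Real.log 2 := by
  obtain ⟨a, ha, h, -⟩ := arc_exists t
  rw [arc_pot_formula ha h]
  have hx : 0 < ‖a‖ := norm_pos_iff.2 ha
  have h6 : 6 ≤ ‖a‖ + ‖a⁻¹‖ := by
    have h1 : ‖a + a⁻¹‖ = 2 * |t| := by
      rw [h, norm_mul, Complex.norm_real, Real.norm_eq_abs]; norm_num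
    have h2 := norm_add_le a a⁻¹
    linarith
  have key : ∀ x : ℝ, 0 < x → 1 ≤ x → 6 ≤ x + x⁻¹ → 2 * Real.log 2 ≤ Real.log x := by
    intro x hx0 hx1 h6
    have hinv : x⁻¹ ≤ 1 := inv_le_one_of_one_le₀ hx1
    have h4 : (4 : ℝ) ≤ x := by linarith
    have : Real.log 4 ≤ Real.log x := Real.log_le_log (by norm_num) h4
    have h5 : Real.log 4 = 2 * Real.log 2 := by
      rw [show (4 : ℝ) = 2 ^ 2 by norm_num, Real.log_pow]; norm_num
    linarith
  have hp1 := Real.posLog_nonneg (x := ‖a‖)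
  have hp2 := Real.posLog_nonneg (x := ‖a⁻¹‖)
  rw [norm_inv] at h6 hp2 ⊢
  rcases le_total 1 ‖a‖ with h1 | h1
  · have := key ‖a‖ hx h1 h6
    have h2 : Real.posLog ‖a‖ = Real.log ‖a‖ := Real.posLog_eq_log (by rwa [abs_of_pos hx])
    linarith
  · have h1' : 1 ≤ ‖a‖⁻¹ := (one_le_inv₀ hx).2 h1
    have := key ‖a‖⁻¹ (inv_pos.2 hx) h1' (by rw [inv_inv]; linarith)
    have h2 : Real.posLog ‖a‖⁻¹ = Real.log ‖a‖⁻¹ :=
      Real.posLog_eq_log (by rwa [abs_of_pos (inv_pos.2 hx)])
    linarith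

/-! scaled versions -/

theorem arcS_meas (m r : ℝ) : Measurable (fun s : ℝ => m + r * s) := by fun_prop

theorem arcS_prob (m r : ℝ) : IsProbabilityMeasure (arcS m r) := by
  haveI := arc_prob
  exact Measure.isProbabilityMeasure_map (arcS_meas m r).aemeasurable

theorem arcS_compl (m : ℝ) {r : ℝ} (hr : 0 < r) : arcS m r (Icc (m - r) (m + r))ᶜ = 0 := by
  unfold arcS
  rw [Measure.map_apply (arcS_meas m r) measurableSet_Icc.compl]
  refine measure_mono_null ?_ arc_compl
  intro s hs hs2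
  apply hs
  have h1 := mul_le_mul_of_nonneg_left hs2.1 hr.le
  have h2 := mul_le_mul_of_nonneg_left hs2.2 hr.le
  show m - r ≤ m + r * s ∧ m + r * s ≤ m + r
  constructor <;> linarith

theorem arcS_atom (m : ℝ) {r : ℝ} (hr : 0 < r) (s : ℝ) : arcS m r {s} = 0 := by
  unfold arcS
  rw [Measure.map_apply (arcS_meas m r) (measurableSet_singleton s)]
  refine measure_mono_null ?_ (arc_atom ((s - m) / r))
  intro x hx
  have : m + r * x = s := hx
  rw [mem_singleton_iff, eq_div_iff hr.ne']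
  linarith

theorem arcS_log (m : ℝ) {r : ℝ} (hr : 0 < r) (t : ℝ) :
    ∀ᵐ s ∂arc, -Real.log |t - (m + r * s)| = -Real.log |(t - m) / r - s| - Real.log r := by
  have h0 : ∀ᵐ s ∂arc, s ≠ (t - m) / r := by
    rw [ae_iff]
    simpa using arc_atom ((t - m) / r)
  refine h0.mono fun s hs => ?_
  have e : t - (m + r * s) = r * ((t - m) / r - s) := by
    field_simp
    ring
  have hne : (t - m) / r - s ≠ 0 := sub_ne_zero.2 hs.symm
  rw [e, abs_mul, abs_of_pos hr, Real.log_mul hr.ne' (abs_ne_zero.2 hne)]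
  ring

theorem arcS_pot_int (m : ℝ) {r : ℝ} (hr : 0 < r) (t : ℝ) :
    Integrable (fun s => -Real.log |t - s|) (arcS m r) := by
  haveI := arc_prob
  unfold arcS
  rw [integrable_map_measure
    (by fun_prop : Measurable fun s : ℝ => -Real.log |t - s|).aestronglyMeasurable
    (arcS_meas m r).aemeasurable]
  have h := (arc_pot_int ((t - m) / r)).sub (integrable_const (Real.log r))
  refine h.congr ?_
  exact (arcS_log m hr t).mono fun s hs => hs.symm

theorem arcS_pot_le (m : ℝ) {r : ℝ} (hr : 0 < r) (t : ℝ) :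
    ∫ s, -Real.log |t - s| ∂(arcS m r) ≤ Real.log 2 - Real.log r := by
  haveI := arc_prob
  unfold arcS
  rw [integral_map (arcS_meas m r).aemeasurable
    (by fun_prop : Measurable fun s : ℝ => -Real.log |t - s|).aestronglyMeasurable,
    integral_congr_ae (arcS_log m hr t),
    integral_sub (arc_pot_int ((t - m) / r)) (integrable_const _), integral_const]
  have := arc_pot_le ((t - m) / r)
  simp only [probReal_univ, one_smul]
  linarith

theorem arcS_zero_one : arcS 0 1 = arc := by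
  unfold arcS
  have e : (fun s : ℝ => 0 + 1 * s) = id := by
    funext s; simp
  rw [e, Measure.map_id]

end Pool.Agent.H5.AF
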