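import Pool.Agent.H5.AF.Defs

set_option autoImplicit false
open MeasureTheory Set Filter Topology
open scoped ENNReal NNReal

namespace Pool.Agent.H5.AF

/-!
Part SECT. Measurable sections of continuous functions on compact plane sets.
Proof: a compact `Γ` is a continuous image `F` of the Cantor set `⊆ ℝ`; take the smallest point of
the Cantor set in `{c | p (F c) = s}` (it is a measurable function of `s`).
-/

theorem exists_section {Γ : Set ℂ} (hΓ : IsCompact Γ) {p : ℂ → ℝ} (hp : Continuous p) :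
    ∃ g : ℝ → ℂ, Measurable g ∧ ∀ s ∈ p '' Γ, g s ∈ Γ ∧ p (g s) = s := by
  rcases Γ.eq_empty_or_nonempty with rfl | hne
  · exact ⟨fun _ => 0, measurable_const, by simp⟩
  have : CompactSpace Γ := isCompact_iff_compactSpace.1 hΓ
  have : Nonempty Γ := hne.to_subtype
  obtain ⟨f, hf, hfs⟩ := exists_nat_bool_continuous_surjective_of_compact Γ
  let e := cantorSetHomeomorphNatToBool
  let F : cantorSet → ℂ := fun c => (f (e c) : ℂ)
  have hF : Continuous F := continuous_subtype_val.comp (hf.comp e.continuous)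
  have hFΓ : ∀ c, F c ∈ Γ := fun c => (f (e c)).2
  have hcpt : CompactSpace cantorSet := isCompact_iff_compactSpace.1 isCompact_cantorSet
  have hsurj : ∀ s ∈ p '' Γ, ∃ c, p (F c) = s := by
    rintro s ⟨z, hz, rfl⟩
    obtain ⟨c, hc⟩ := hfs ⟨z, hz⟩
    exact ⟨e.symm c, by simp [F, hc]⟩
  let A : ℝ → Set ℝ := fun s => (fun c : cantorSet => (c : ℝ)) '' {c | p (F c) = s}
  have hAc : ∀ s, IsCompact (A s) := by
    intro s
    have h1 : IsClosed {c : cantorSet | p (F c) = s} :=
      isClosed_eq (hp.comp hF) continuous_const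
    exact h1.isCompact.image continuous_subtype_val
  have hAne : ∀ s ∈ p '' Γ, (A s).Nonempty := by
    intro s hs
    obtain ⟨c, hc⟩ := hsurj s hs
    exact ⟨c, c, hc, rfl⟩
  let h : ℝ → ℝ := fun s => sInf (A s)
  have hmem : ∀ s ∈ p '' Γ, h s ∈ A s := fun s hs => (hAc s).sInf_mem (hAne s hs)
  have hmeas : Measurable h := by
    refine measurable_of_Iic (fun a => ?_)
    have key : h ⁻¹' Iic a = ((fun c => p (F c)) '' {c : cantorSet | (c : ℝ) ≤ a}) ∪
        ((p '' Γ)ᶜ ∩ {_s : ℝ | 0 ≤ a}) := by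
      ext s
      by_cases hs : s ∈ p '' Γ
      · constructor
        · intro hsa
          obtain ⟨c, hc, hc'⟩ := hmem s hs
          refine Or.inl ⟨c, ?_, hc⟩
          have hc'' : (c : ℝ) = h s := hc'
          show (c : ℝ) ≤ a
          rw [hc'']; exact hsa
        · rintro (⟨c, hc, hc'⟩ | ⟨h1, -⟩)
          · have h2 : h s ≤ c := csInf_le (hAc s).bddBelow ⟨c, hc', rfl⟩
            exact h2.trans hc
          · exact absurd hs h1
      · have hA : A s = ∅ := by
          rw [Set.eq_empty_iff_forall_notMem]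
          rintro x ⟨c, hc, -⟩
          exact hs ⟨F c, hFΓ c, hc⟩
        have h0 : h s = 0 := by
          show sInf (A s) = 0
          rw [hA, Real.sInf_empty]
        constructor
        · intro hsa
          refine Or.inr ⟨hs, ?_⟩
          have : h s ≤ a := hsa
          rw [h0] at this; exact this
        · rintro (⟨c, hc, hc'⟩ | ⟨-, h1⟩)
          · exact absurd ⟨F c, hFΓ c, hc'⟩ hs
          · show h s ≤ a
            rw [h0]; exact h1
    rw [key]
    refine MeasurableSet.union ?_ ?_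
    · have h1 : IsClosed {c : cantorSet | (c : ℝ) ≤ a} :=
        isClosed_le continuous_subtype_val continuous_const
      exact (h1.isCompact.image (hp.comp hF)).measurableSet
    · exact ((hΓ.image hp).measurableSet.compl).inter (MeasurableSet.const _)
  obtain ⟨G, hG, hGF⟩ := (MeasurableEmbedding.subtype_coe
    isClosed_cantorSet.measurableSet).exists_measurable_extend hF.measurable
    (fun _ => ⟨(0 : ℂ)⟩)
  refine ⟨fun s => G (h s), hG.comp hmeas, fun s hs => ?_⟩
  obtain ⟨c, hc, hc'⟩ := hmem s hs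
  have h1 : G (h s) = F c := by
    rw [← hc']; exact congrFun hGF c
  show G (h s) ∈ Γ ∧ p (G (h s)) = s
  rw [h1]
  exact ⟨hFΓ c, hc⟩

/-- vertical section of a continuum of the class. -/
theorem exists_im_section {ε₁ ε₂ : ℝ} {Γ : Set ℂ} (hΓ : Cls ε₁ ε₂ Γ) :
    ∃ g : ℝ → ℂ, Measurable g ∧ ∀ y ∈ Icc (-1 : ℝ) 1, g y ∈ Γ ∧ (g y).im = y := by
  obtain ⟨g, hg, h⟩ := exists_section hΓ.1 Complex.continuous_im
  refine ⟨g, hg, fun y hy => h y ?_⟩
  have := hΓ.2.1.isPreconnected.intermediate_value hΓ.2.2.2 hΓ.2.2.1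
    (Complex.continuous_im.continuousOn)
  exact this hy

/-- radial section of a continuum. -/
theorem exists_norm_section {Γ : Set ℂ} (hΓ : IsCompact Γ) (hc : IsPreconnected Γ) {c a b : ℂ}
    (ha : a ∈ Γ) (hb : b ∈ Γ) :
    ∃ g : ℝ → ℂ, Measurable g ∧ ∀ s ∈ Icc ‖a - c‖ ‖b - c‖, g s ∈ Γ ∧ ‖g s - c‖ = s := by
  have hp : Continuous (fun z : ℂ => ‖z - c‖) := by fun_prop
  obtain ⟨g, hg, h⟩ := exists_section hΓ hp
  refine ⟨g, hg, fun y hy => h y ?_⟩
  exact hc.intermediate_value ha hb hp.continuousOn hy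

end Pool.Agent.H5.AF
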