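import Pool.Agent.H5.AF.Defs
import Pool.Agent.H5.AF.Arc
import Pool.Agent.H5.AF.Sect
set_option autoImplicit false
open MeasureTheory Set Filter Topology
open scoped ENNReal NNReal

namespace Pool.Agent.H5.AF

/-!
Part DOM. Push-forward of the (scaled) arcsine law by a measurable section `g` of a 1-Lipschitz
function `p`: `‖g s - w‖ ≥ |s - p w|`, hence `K w (g s) ≤ - log |p w - s|` for `s ≠ p w`, and the
kernel is bounded below on the compact set `Γ` (and for a fixed `w`, `K w` is bounded below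
on `Γ`).  Everything follows by Fubini/Tonelli from the bound on the potential of `arcS m r`.
-/

theorem dom_prob {p : ℂ → ℝ} {m r : ℝ} (hr : 0 < r) {g : ℝ → ℂ} (hg : Measurable g) {Γ : Set ℂ}
    (hgΓ : ∀ s ∈ Icc (m - r) (m + r), g s ∈ Γ ∧ p (g s) = s) (hΓ : IsCompact Γ) :
    IsProbabilityMeasure ((arcS m r).map g) ∧ ((arcS m r).map g) Γᶜ = 0 := by
  have := arcS_prob m r
  refine ⟨Measure.isProbabilityMeasure_map hg.aemeasurable, ?_⟩
  rw [Measure.map_apply hg hΓ.isClosed.measurableSet.compl]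
  refine measure_mono_null ?_ (arcS_compl m hr)
  intro s hs hs'
  exact hs (hgΓ s hs').1

theorem dom_ae (m : ℝ) {r : ℝ} (hr : 0 < r) : ∀ᵐ s ∂(arcS m r), s ∈ Icc (m - r) (m + r) := by
  have h := arcS_compl m hr
  rw [ae_iff]
  exact h

theorem dom_ae_ne (m : ℝ) {r : ℝ} (hr : 0 < r) (t : ℝ) : ∀ᵐ s ∂(arcS m r), s ≠ t := by
  have h := arcS_atom m hr t
  rw [ae_iff]
  simpa using h

/-- A norm bound for compact sets. -/
theorem dom_bdd {Γ : Set ℂ} (hΓ : IsCompact Γ) : ∃ R : ℝ, 0 ≤ R ∧ ∀ z ∈ Γ, ‖z‖ ≤ R := by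
  obtain ⟨R, hR⟩ := hΓ.isBounded.exists_norm_le
  exact ⟨max R 0, le_max_right _ _, fun z hz => (hR z hz).trans (le_max_left _ _)⟩

/-- pointwise bounds: for a.e. `s`, `-(2R) ≤ K w (g s) ≤ -log |p w - s|`. -/
theorem dom_bounds {Γ : Set ℂ} {R : ℝ} (hR : ∀ z ∈ Γ, ‖z‖ ≤ R) {p : ℂ → ℝ}
    (hp : ∀ z w, |p z - p w| ≤ ‖z - w‖) {m r : ℝ} (hr : 0 < r) {g : ℝ → ℂ}
    (hgΓ : ∀ s ∈ Icc (m - r) (m + r), g s ∈ Γ ∧ p (g s) = s) {w : ℂ} (hw : ‖w‖ ≤ R) :
    ∀ᵐ s ∂(arcS m r), -(2 * R) ≤ K w (g s) ∧ K w (g s) ≤ -Real.log |p w - s| := by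
  filter_upwards [dom_ae m hr, dom_ae_ne m hr (p w)] with s hs hne
  obtain ⟨h1, h2⟩ := hgΓ s hs
  refine ⟨K_ge hw (hR _ h1), ?_⟩
  have h3 := hp w (g s)
  rw [h2] at h3
  have h4 : 0 < |p w - s| := abs_pos.2 (sub_ne_zero.2 (Ne.symm hne))
  have h5 := Real.log_le_log h4 h3
  unfold K
  linarith

theorem dom_K_int {Γ : Set ℂ} {R : ℝ} (hR : ∀ z ∈ Γ, ‖z‖ ≤ R) {p : ℂ → ℝ}
    (hp : ∀ z w, |p z - p w| ≤ ‖z - w‖) {m r : ℝ} (hr : 0 < r) {g : ℝ → ℂ} (hg : Measurable g)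
    (hgΓ : ∀ s ∈ Icc (m - r) (m + r), g s ∈ Γ ∧ p (g s) = s) {w : ℂ} (hw : ‖w‖ ≤ R) :
    Integrable (fun s => K w (g s)) (arcS m r) := by
  have := arcS_prob m r
  have hi : Integrable (fun s => abs (-Real.log |p w - s|) + 2 * R) (arcS m r) :=
    (arcS_pot_int m hr (p w)).abs.add (integrable_const _)
  have hmeas : Measurable (fun s => K w (g s)) := (measurable_K_left w).comp hg
  refine hi.mono' hmeas.aestronglyMeasurable ?_
  filter_upwards [dom_bounds hR hp hr hgΓ hw] with s hs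
  have hR0 : 0 ≤ R := (norm_nonneg w).trans hw
  rw [Real.norm_eq_abs, abs_le]
  constructor
  · have := abs_nonneg (-Real.log |p w - s|)
    linarith [hs.1]
  · have := le_abs_self (-Real.log |p w - s|)
    linarith [hs.2]

/-- the potential of the push-forward is dominated by the potential of `arcS m r`. -/
theorem dom_U {Γ : Set ℂ} (hΓ : IsCompact Γ) {p : ℂ → ℝ} (hp : ∀ z w, |p z - p w| ≤ ‖z - w‖)
    {m r : ℝ} (hr : 0 < r) {g : ℝ → ℂ} (hg : Measurable g)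
    (hgΓ : ∀ s ∈ Icc (m - r) (m + r), g s ∈ Γ ∧ p (g s) = s) (w : ℂ) :
    Integrable (K w) ((arcS m r).map g) ∧
      U ((arcS m r).map g) w ≤ ∫ s, -Real.log |p w - s| ∂(arcS m r) := by
  obtain ⟨R₀, hR₀, hR₁⟩ := dom_bdd hΓ
  have hR : ∀ z ∈ Γ, ‖z‖ ≤ max R₀ ‖w‖ := fun z hz => (hR₁ z hz).trans (le_max_left _ _)
  have hw : ‖w‖ ≤ max R₀ ‖w‖ := le_max_right _ _
  have hi := dom_K_int hR hp hr hg hgΓ hw
  refine ⟨?_, ?_⟩
  · rw [integrable_map_measure (measurable_K_left w).aestronglyMeasurable hg.aemeasurable]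
    exact hi
  · unfold U
    rw [integral_map hg.aemeasurable (measurable_K_left w).aestronglyMeasurable]
    refine integral_mono_ae hi (arcS_pot_int m hr (p w)) ?_
    filter_upwards [dom_bounds hR hp hr hgΓ hw] with s hs
    exact hs.2

/-- mutual energy with another probability measure carried by a compact set. -/
theorem dom_M {Γ Γ' : Set ℂ} (hΓ : IsCompact Γ) (hΓ' : IsCompact Γ') {p : ℂ → ℝ}
    (hp : ∀ z w, |p z - p w| ≤ ‖z - w‖)
    {m r : ℝ} (hr : 0 < r) {g : ℝ → ℂ} (hg : Measurable g)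
    (hgΓ : ∀ s ∈ Icc (m - r) (m + r), g s ∈ Γ ∧ p (g s) = s)
    {l : Measure ℂ} (hl : IsProbabilityMeasure l) (hl' : l Γ'ᶜ = 0) :
    Integrable (fun q : ℂ × ℂ => K q.1 q.2) (l.prod ((arcS m r).map g)) ∧
      M l ((arcS m r).map g) = ∫ w, U ((arcS m r).map g) w ∂l ∧
      Integrable (U ((arcS m r).map g)) l := by
  obtain ⟨hν, hν'⟩ := dom_prob (p := p) hr hg hgΓ hΓ
  set ν : Measure ℂ := (arcS m r).map g with hνdef
  obtain ⟨R₁, hR₁, hR₁'⟩ := dom_bdd hΓ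
  obtain ⟨R₂, hR₂, hR₂'⟩ := dom_bdd hΓ'
  have hR : ∀ z ∈ Γ, ‖z‖ ≤ max R₁ R₂ := fun z hz => (hR₁' z hz).trans (le_max_left _ _)
  have hR' : ∀ z ∈ Γ', ‖z‖ ≤ max R₁ R₂ := fun z hz => (hR₂' z hz).trans (le_max_right _ _)
  have hR0 : 0 ≤ max R₁ R₂ := hR₁.trans (le_max_left _ _)
  have key : Integrable (fun q : ℂ × ℂ => K q.1 q.2) (l.prod ν) := by
    rw [integrable_prod_iff measurable_K.aestronglyMeasurable]
    refine ⟨Eventually.of_forall fun w => (dom_U hΓ hp hr hg hgΓ w).1, ?_⟩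
    have hmeas : AEStronglyMeasurable (fun w => ∫ z, ‖K w z‖ ∂ν) l :=
      (measurable_K.norm.stronglyMeasurable.integral_prod_right (ν := ν)).aestronglyMeasurable
    refine (integrable_const (Real.log 2 - Real.log r + 4 * max R₁ R₂)).mono' hmeas ?_
    have hae : ∀ᵐ w ∂l, w ∈ Γ' := by rw [ae_iff]; exact hl'
    filter_upwards [hae] with w hw
    have hw' := hR' w hw
    have hnn : 0 ≤ ∫ z, ‖K w z‖ ∂ν := integral_nonneg fun z => norm_nonneg _
    rw [Real.norm_eq_abs, abs_of_nonneg hnn]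
    have hKi := (dom_U hΓ hp hr hg hgΓ w).1
    have hU := (dom_U hΓ hp hr hg hgΓ w).2.trans (arcS_pot_le m hr (p w))
    have hae2 : ∀ᵐ z ∂ν, z ∈ Γ := by rw [ae_iff]; exact hν'
    have h1 : ∫ z, ‖K w z‖ ∂ν ≤ ∫ z, (K w z + 4 * max R₁ R₂) ∂ν := by
      refine integral_mono_ae hKi.norm (hKi.add (integrable_const _)) ?_
      filter_upwards [hae2] with z hz
      have h2 := K_ge hw' (hR z hz)
      simp only [Real.norm_eq_abs]
      rw [abs_le]
      constructor <;> linarith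
    rw [integral_add hKi (integrable_const _)] at h1
    simp only [integral_const, probReal_univ, smul_eq_mul, one_mul] at h1
    unfold U at hU
    linarith
  refine ⟨key, ?_, ?_⟩
  · unfold M U
    exact integral_prod _ key
  · exact key.integral_prod_left

theorem dom_FE {Γ : Set ℂ} (hΓ : IsCompact Γ) {p : ℂ → ℝ} (hp : ∀ z w, |p z - p w| ≤ ‖z - w‖)
    {m r : ℝ} (hr : 0 < r) {g : ℝ → ℂ} (hg : Measurable g)
    (hgΓ : ∀ s ∈ Icc (m - r) (m + r), g s ∈ Γ ∧ p (g s) = s) :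
    FE Γ ((arcS m r).map g) := by
  obtain ⟨hν, hν'⟩ := dom_prob (p := p) hr hg hgΓ hΓ
  refine ⟨hν, hν', ?_, (dom_M hΓ hΓ hp hr hg hgΓ hν hν').1⟩
  intro z
  rw [Measure.map_apply hg (measurableSet_singleton z)]
  refine measure_mono_null (t := (Icc (m - r) (m + r))ᶜ ∪ {p z}) ?_
    (measure_union_null (arcS_compl m hr) (arcS_atom m hr (p z)))
  intro s hs
  by_cases h : s ∈ Icc (m - r) (m + r)
  · right
    have h1 := (hgΓ s h).2
    have h2 : g s = z := hs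
    rw [h2] at h1
    exact h1.symm
  · left; exact h

/-- every continuum of the class carries a measure of finite energy. -/
theorem cls_FE {ε₁ ε₂ : ℝ} {Γ : Set ℂ} (hΓ : Cls ε₁ ε₂ Γ) : ∃ μ, FE Γ μ := by
  obtain ⟨g, hg, hgs⟩ := exists_im_section hΓ
  refine ⟨(arcS 0 1).map g, dom_FE (p := Complex.im) hΓ.1 ?_ one_pos hg ?_⟩
  · intro z w
    rw [← Complex.sub_im]
    exact Complex.abs_im_le_norm _
  · intro s hs
    apply hgs
    simpa using hs

end Pool.Agent.H5.AF
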