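import Pool.Agent.H5.AF.Defs

set_option autoImplicit false
open MeasureTheory Set Filter Topology
open scoped ENNReal NNReal

namespace Pool.Agent.H5.AF

/-!
Part ENVA. The deformation `T_s (x + iy) = ((1 - s β(y)²) x, y)` and the kernel inequality.
Paper proof of `K_TT_ge`: with `X = x - x'`, `Y = β²x - β'²x'`, `r = ‖a - b‖`,
`‖T a - T b‖² = r² - 2 s X Y + s² Y²` and `log (1+u) ≤ u` give
`K (T a) (T b) ≥ K a b + s X Y / r² - s² Y² / (2 r²)`; `X Y = (βx - β'x')² - x x' (β - β')² ≥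
-(β-β')² |x||x'|`; `|Y| ≤ |x - x'| + |x'| |β² - β'²| ≤ (1 + 2 L R) r`.
-/

/-- the deformation -/
noncomputable def TT (β : ℝ → ℝ) (s : ℝ) (z : ℂ) : ℂ := ⟨(1 - s * (β z.im) ^ 2) * z.re, z.im⟩

/-- its inverse -/
noncomputable def SS (β : ℝ → ℝ) (s : ℝ) (z : ℂ) : ℂ := ⟨z.re / (1 - s * (β z.im) ^ 2), z.im⟩

theorem EnvA_mk_continuous {X : Type} [TopologicalSpace X] {f g : X → ℝ} (hf : Continuous f)
    (hg : Continuous g) : Continuous (fun x => (⟨f x, g x⟩ : ℂ)) := by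
  have e : (fun x => (⟨f x, g x⟩ : ℂ)) = fun x => ((f x : ℝ) : ℂ) + ((g x : ℝ) : ℂ) * Complex.I := by
    funext x
    apply Complex.ext <;> simp
  rw [e]
  fun_prop

theorem TT_continuous {β : ℝ → ℝ} (hβ : Continuous β) (s : ℝ) : Continuous (TT β s) := by
  unfold TT
  apply EnvA_mk_continuous
  · have h1 : Continuous fun z : ℂ => β z.im := hβ.comp Complex.continuous_im
    have h2 : Continuous fun z : ℂ => z.re := Complex.continuous_re
    fun_prop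
  · exact Complex.continuous_im

theorem EnvA_den {β : ℝ → ℝ} (h01 : ∀ y, 0 ≤ β y ∧ β y ≤ 1) {s : ℝ}
    (h0 : 0 ≤ s) (h1 : s ≤ 1 / 2) (y : ℝ) : 1 / 2 ≤ 1 - s * (β y) ^ 2 := by
  have h2 : (β y) ^ 2 ≤ 1 := pow_le_one₀ (h01 y).1 (h01 y).2
  have h3 : 0 ≤ (β y) ^ 2 := sq_nonneg _
  nlinarith

theorem SS_continuous {β : ℝ → ℝ} (hβ : Continuous β) (h01 : ∀ y, 0 ≤ β y ∧ β y ≤ 1) {s : ℝ}
    (h0 : 0 ≤ s) (h1 : s ≤ 1 / 2) : Continuous (SS β s) := by
  unfold SS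
  apply EnvA_mk_continuous
  · have h2 : Continuous fun z : ℂ => β z.im := hβ.comp Complex.continuous_im
    have h3 : Continuous fun z : ℂ => z.re := Complex.continuous_re
    refine h3.div (by fun_prop) ?_
    intro z
    have := EnvA_den h01 h0 h1 z.im
    exact ne_of_gt (by linarith)
  · exact Complex.continuous_im

theorem TT_SS {β : ℝ → ℝ} (h01 : ∀ y, 0 ≤ β y ∧ β y ≤ 1) {s : ℝ}
    (h0 : 0 ≤ s) (h1 : s ≤ 1 / 2) (z : ℂ) : TT β s (SS β s z) = z := by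
  have h := EnvA_den h01 h0 h1 z.im
  have h' : 1 - s * (β z.im) ^ 2 ≠ 0 := ne_of_gt (by linarith)
  apply Complex.ext
  · show (1 - s * (β z.im) ^ 2) * (z.re / (1 - s * (β z.im) ^ 2)) = z.re
    field_simp
  · rfl

theorem SS_TT {β : ℝ → ℝ} (h01 : ∀ y, 0 ≤ β y ∧ β y ≤ 1) {s : ℝ}
    (h0 : 0 ≤ s) (h1 : s ≤ 1 / 2) (z : ℂ) : SS β s (TT β s z) = z := by
  have h := EnvA_den h01 h0 h1 z.im
  have h' : 1 - s * (β z.im) ^ 2 ≠ 0 := ne_of_gt (by linarith)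
  apply Complex.ext
  · show (1 - s * (β z.im) ^ 2) * z.re / (1 - s * (β z.im) ^ 2) = z.re
    field_simp
  · rfl

theorem TT_cls {ε₁ ε₂ : ℝ} {Γ : Set ℂ} (hΓ : Cls ε₁ ε₂ Γ) {β : ℝ → ℝ} (hβ : Continuous β)
    (hs : ∀ y, 1 ≤ |y| → β y = 0) (s : ℝ) : Cls ε₁ ε₂ (TT β s '' Γ) := by
  obtain ⟨hc, hcon, hz1, hz2⟩ := hΓ
  refine ⟨hc.image (TT_continuous hβ s), hcon.image _ (TT_continuous hβ s).continuousOn,
    ⟨_, hz1, ?_⟩, ⟨_, hz2, ?_⟩⟩
  · have h1 : β 1 = 0 := hs 1 (by simp)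
    apply Complex.ext
    · show (1 - s * (β 1) ^ 2) * (-ε₁) = -ε₁
      rw [h1]; ring
    · rfl
  · have h1 : β (-1) = 0 := hs (-1) (by simp)
    apply Complex.ext
    · show (1 - s * (β (-1)) ^ 2) * ε₂ = ε₂
      rw [h1]; ring
    · rfl

theorem qk_nonneg (β : ℝ → ℝ) (p : ℂ × ℂ) : 0 ≤ qk β p := by
  unfold qk
  positivity

theorem EnvA_lip {β : ℝ → ℝ} {L : ℝ≥0} (hL : LipschitzWith L β) (a b : ℂ) :
    |β a.im - β b.im| ≤ L * ‖a - b‖ := by
  have h1 := hL.dist_le_mul a.im b.im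
  rw [Real.dist_eq, Real.dist_eq] at h1
  have h2 : |a.im - b.im| ≤ ‖a - b‖ := by
    have := Complex.abs_im_le_norm (a - b)
    rwa [Complex.sub_im] at this
  exact h1.trans (mul_le_mul_of_nonneg_left h2 L.2)

theorem qk_le {β : ℝ → ℝ} {L : ℝ≥0} (hL : LipschitzWith L β) (p : ℂ × ℂ) :
    qk β p ≤ L ^ 2 * (|p.1.re| * |p.2.re|) := by
  unfold qk
  apply mul_le_mul_of_nonneg_right _ (by positivity)
  rcases eq_or_ne (‖p.1 - p.2‖) 0 with h | h
  · rw [h]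
    simp
  · have h1 := EnvA_lip hL p.1 p.2
    have h2 : 0 < ‖p.1 - p.2‖ := lt_of_le_of_ne (norm_nonneg _) (Ne.symm h)
    rw [div_le_iff₀ (by positivity), ← mul_pow, ← sq_abs (β p.1.im - β p.2.im)]
    exact pow_le_pow_left₀ (abs_nonneg _) h1 2

theorem K_TT_ge {β : ℝ → ℝ} {L : ℝ≥0} (hL : LipschitzWith L β) (h01 : ∀ y, 0 ≤ β y ∧ β y ≤ 1)
    {R : ℝ} (hR : 0 ≤ R) {s : ℝ} (h0 : 0 ≤ s) (h1 : s ≤ 1 / 2) {a b : ℂ} (hab : a ≠ b)
    (ha : ‖a‖ ≤ R) (hb : ‖b‖ ≤ R) :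
    K a b - s * qk β (a, b) - s ^ 2 * (1 + 2 * L * R) ^ 2 ≤ K (TT β s a) (TT β s b) := by
  have hne : TT β s a ≠ TT β s b := by
    intro h
    apply hab
    rw [← SS_TT h01 h0 h1 a, ← SS_TT h01 h0 h1 b, h]
  set r : ℝ := ‖a - b‖ with hr
  set r' : ℝ := ‖TT β s a - TT β s b‖ with hr'
  have hrpos : 0 < r := norm_pos_iff.2 (sub_ne_zero.2 hab)
  have hr'pos : 0 < r' := norm_pos_iff.2 (sub_ne_zero.2 hne)
  set X : ℝ := a.re - b.re with hX
  set Y : ℝ := (β a.im) ^ 2 * a.re - (β b.im) ^ 2 * b.re with hY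
  have hr2 : r ^ 2 = X ^ 2 + (a.im - b.im) ^ 2 := by
    rw [hr, ← Complex.normSq_eq_norm_sq, Complex.normSq_apply, Complex.sub_re, Complex.sub_im]
    ring
  have hr'2 : r' ^ 2 = r ^ 2 - 2 * s * (X * Y) + s ^ 2 * Y ^ 2 := by
    rw [hr2, hr', ← Complex.normSq_eq_norm_sq, Complex.normSq_apply, Complex.sub_re,
      Complex.sub_im]
    simp only [TT, hX, hY]
    ring
  have hlog : Real.log (r' ^ 2) - Real.log (r ^ 2) ≤ r' ^ 2 / r ^ 2 - 1 := by
    rw [← Real.log_div (by positivity) (by positivity)]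
    exact Real.log_le_sub_one_of_pos (by positivity)
  rw [Real.log_pow, Real.log_pow] at hlog
  push_cast at hlog
  have hdiv : r' ^ 2 / r ^ 2 - 1 = (- 2 * s * (X * Y) + s ^ 2 * Y ^ 2) / r ^ 2 := by
    rw [hr'2]
    field_simp
    ring
  rw [hdiv] at hlog
  -- lower bound of `X Y`
  have hXY : -((β a.im - β b.im) ^ 2 * (|a.re| * |b.re|)) ≤ X * Y := by
    have e : X * Y = (β a.im * a.re - β b.im * b.re) ^ 2
        - (a.re * b.re) * (β a.im - β b.im) ^ 2 := by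
      rw [hX, hY]; ring
    have h3 : a.re * b.re ≤ |a.re| * |b.re| := by rw [← abs_mul]; exact le_abs_self _
    have h4 := mul_le_mul_of_nonneg_right h3 (sq_nonneg (β a.im - β b.im))
    have h5 := sq_nonneg (β a.im * a.re - β b.im * b.re)
    rw [e]
    linarith
  -- bound of `Y`
  have hYb : |Y| ≤ (1 + 2 * L * R) * r := by
    have e : Y = (β a.im) ^ 2 * (a.re - b.re) + b.re * ((β a.im + β b.im) * (β a.im - β b.im)) := by
      rw [hY]; ring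
    have h3 : |(β a.im) ^ 2 * (a.re - b.re)| ≤ r := by
      rw [abs_mul]
      have h4 : |(β a.im) ^ 2| ≤ 1 := by
        rw [abs_of_nonneg (sq_nonneg _)]
        exact pow_le_one₀ (h01 _).1 (h01 _).2
      have h5 : |a.re - b.re| ≤ r := by
        have := Complex.abs_re_le_norm (a - b)
        rwa [Complex.sub_re] at this
      calc |(β a.im) ^ 2| * |a.re - b.re| ≤ 1 * r :=
            mul_le_mul h4 h5 (abs_nonneg _) zero_le_one
        _ = r := one_mul r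
    have h6 : |b.re * ((β a.im + β b.im) * (β a.im - β b.im))| ≤ R * (2 * (L * r)) := by
      rw [abs_mul, abs_mul]
      have h7 : |b.re| ≤ R := (Complex.abs_re_le_norm b).trans hb
      have h8 : |β a.im + β b.im| ≤ 2 := by
        rw [abs_of_nonneg (add_nonneg (h01 _).1 (h01 _).1)]
        have := (h01 a.im).2; have := (h01 b.im).2
        linarith
      have h9 : |β a.im - β b.im| ≤ L * r := EnvA_lip hL a b
      exact mul_le_mul h7 (mul_le_mul h8 h9 (abs_nonneg _) (by norm_num)) (by positivity) hR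
    rw [e]
    calc _ ≤ |(β a.im) ^ 2 * (a.re - b.re)| + |b.re * ((β a.im + β b.im) * (β a.im - β b.im))| :=
          abs_add_le _ _
      _ ≤ r + R * (2 * (L * r)) := add_le_add h3 h6
      _ = (1 + 2 * L * R) * r := by ring
  have hY2 : Y ^ 2 / r ^ 2 ≤ (1 + 2 * L * R) ^ 2 := by
    rw [div_le_iff₀ (by positivity), ← mul_pow, ← sq_abs Y]
    exact pow_le_pow_left₀ (abs_nonneg _) hYb 2
  have hq : qk β (a, b) = (β a.im - β b.im) ^ 2 * (|a.re| * |b.re|) / r ^ 2 := by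
    unfold qk
    simp only [← hr]
    ring
  have hXY' : -(qk β (a, b)) ≤ X * Y / r ^ 2 := by
    rw [hq, ← neg_div]
    exact div_le_div_of_nonneg_right hXY (by positivity)
  have e2 : (- 2 * s * (X * Y) + s ^ 2 * Y ^ 2) / r ^ 2
      = -2 * s * (X * Y / r ^ 2) + s ^ 2 * (Y ^ 2 / r ^ 2) := by ring
  rw [e2] at hlog
  have h10 := mul_le_mul_of_nonneg_left hXY' h0
  have h11 := mul_le_mul_of_nonneg_left hY2 (sq_nonneg s)
  have h12 : 0 ≤ s ^ 2 * (1 + 2 * L * R) ^ 2 := by positivity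
  unfold K
  rw [← hr, ← hr']
  nlinarith

theorem phi_TT {k₁ k₂ : ℝ} (h₁ : 0 < k₁) (h₂ : 0 < k₂) {β : ℝ → ℝ}
    (h01 : ∀ y, 0 ≤ β y ∧ β y ≤ 1) {s : ℝ} (h0 : 0 ≤ s) (h1 : s ≤ 1 / 2) (z : ℂ) :
    phi k₁ k₂ z + s * min k₁ k₂ * ((β z.im) ^ 2 * |z.re|) ≤ phi k₁ k₂ (TT β s z) := by
  have hd := EnvA_den h01 h0 h1 z.im
  have hre : (TT β s z).re = (1 - s * (β z.im) ^ 2) * z.re := rfl
  unfold phi
  rw [hre]
  by_cases hz : 0 < z.re
  · have h3 : 0 < (1 - s * (β z.im) ^ 2) * z.re := mul_pos (by linarith) hz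
    rw [if_pos hz, if_pos h3, abs_of_pos hz]
    have h4 : s * min k₁ k₂ * ((β z.im) ^ 2 * z.re) ≤ s * k₁ * ((β z.im) ^ 2 * z.re) := by
      apply mul_le_mul_of_nonneg_right _ (by positivity)
      exact mul_le_mul_of_nonneg_left (min_le_left _ _) h0
    nlinarith
  · have hz' : z.re ≤ 0 := not_lt.1 hz
    have h3 : ¬ (0 < (1 - s * (β z.im) ^ 2) * z.re) :=
      not_lt.2 (mul_nonpos_of_nonneg_of_nonpos (by linarith) hz')
    rw [if_neg hz, if_neg h3, abs_of_nonpos hz']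
    have h4 : s * min k₁ k₂ * ((β z.im) ^ 2 * (-z.re)) ≤ s * k₂ * ((β z.im) ^ 2 * (-z.re)) := by
      apply mul_le_mul_of_nonneg_right _ (mul_nonneg (sq_nonneg _) (by linarith))
      exact mul_le_mul_of_nonneg_left (min_le_right _ _) h0
    nlinarith

end Pool.Agent.H5.AF
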