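import Pool.Agent.H5.AF.Defs
import Pool.Graph.R_seed8.Helper88.RB.P_lsc_energy
set_option autoImplicit false
open MeasureTheory Set Filter Topology
open scoped ENNReal NNReal

namespace Pool.Agent.H5.AF

/-!
Part CMP. Compactness and lower semicontinuity.
Paper proof: `X = ↥Γ` is a compact metric space, `ProbabilityMeasure X` is compact and metrizable
(Mathlib: `CompactSpace (ProbabilityMeasure _)` in `Measure/Prokhorov.lean`, metrizability in
`LevyProkhorovMetric.lean`), so a subsequence of the measures (`comap`/`map` by `Subtype.val`)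
converges weakly; products converge by `ProbabilityMeasure.continuous_prod`.  The kernel
`k p = if p.1 = p.2 then ⊤ else ofReal (K p.1 p.2 + 2R)` is continuous `X × X → ℝ≥0∞`; the library
theorem `lsc_energy` gives lower semicontinuity of `∫⁻ k`.  Finite `∫⁻ k` for the limit gives
the diagonal null (so no atoms) and integrability of `K`.
-/

/-- The shifted kernel as a function of the distance. -/
noncomputable def cmpf (R : ℝ) (t : ℝ) : ℝ≥0∞ :=
  if t ≤ 0 then ⊤ else ENNReal.ofReal (-Real.log t + 2 * R)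

theorem cmpf_cont (R : ℝ) : Continuous (cmpf R) := by
  rw [continuous_iff_continuousAt]
  intro t
  rcases lt_trichotomy t 0 with h | h | h
  · have h1 : (fun _ : ℝ => (⊤ : ℝ≥0∞)) =ᶠ[𝓝 t] cmpf R := by
      filter_upwards [Iio_mem_nhds h] with s hs
      unfold cmpf
      rw [if_pos (le_of_lt hs)]
    exact continuousAt_const.congr h1
  · subst h
    have h0 : cmpf R 0 = ⊤ := by unfold cmpf; rw [if_pos le_rfl]
    rw [ContinuousAt, h0, ENNReal.tendsto_nhds_top_iff_nnreal]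
    intro x
    have h1 : Tendsto (fun t => -Real.log t + 2 * R) (𝓝[>] 0) atTop :=
      tendsto_atTop_add_const_right _ _
        (tendsto_neg_atBot_atTop.comp Real.tendsto_log_nhdsGT_zero)
    have h2 := h1.eventually_gt_atTop (x : ℝ)
    rw [eventually_nhdsWithin_iff] at h2
    filter_upwards [h2] with t ht
    unfold cmpf
    split_ifs with h3
    · exact ENNReal.coe_lt_top
    · rw [← ENNReal.ofReal_coe_nnreal]
      exact (ENNReal.ofReal_lt_ofReal_iff_of_nonneg x.2).2 (ht (not_le.1 h3))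
  · have h1 : (fun t => ENNReal.ofReal (-Real.log t + 2 * R)) =ᶠ[𝓝 t] cmpf R := by
      filter_upwards [Ioi_mem_nhds h] with s hs
      unfold cmpf
      rw [if_neg (not_le.2 hs)]
    have hc : ContinuousAt (fun t => ENNReal.ofReal (-Real.log t + 2 * R)) t :=
      ENNReal.continuous_ofReal.continuousAt.comp
        (((Real.continuousAt_log h.ne').neg).add continuousAt_const)
    exact hc.congr h1

theorem cmpf_meas (R : ℝ) : Measurable (fun p : ℂ × ℂ => cmpf R ‖p.1 - p.2‖) := by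
  have h : Continuous (fun p : ℂ × ℂ => cmpf R ‖p.1 - p.2‖) :=
    (cmpf_cont R).comp (by fun_prop)
  exact h.measurable

theorem cmp_ae_mem {Γ : Set ℂ} {ν : Measure ℂ} [IsProbabilityMeasure ν] (hs : ν Γᶜ = 0) :
    ∀ᵐ p ∂(ν.prod ν), p.1 ∈ Γ ∧ p.2 ∈ Γ := by
  have h1 : ∀ᵐ z ∂ν, z ∈ Γ := by
    rw [ae_iff]; exact hs
  have h2 : ∀ᵐ p ∂(ν.prod ν), p.1 ∈ Γ := Measure.quasiMeasurePreserving_fst.ae h1
  have h3 : ∀ᵐ p ∂(ν.prod ν), p.2 ∈ Γ := Measure.quasiMeasurePreserving_snd.ae h1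
  filter_upwards [h2, h3] with p h4 h5 using ⟨h4, h5⟩

theorem cmp_off_diag {ν : Measure ℂ} [IsProbabilityMeasure ν] (ha : ∀ z, ν {z} = 0) :
    ∀ᵐ p ∂(ν.prod ν), p.1 ≠ p.2 := by
  have hm : MeasurableSet {p : ℂ × ℂ | p.1 ≠ p.2} :=
    (measurableSet_eq_fun measurable_fst measurable_snd).compl
  rw [Measure.ae_prod_iff_ae_ae hm]
  refine Filter.Eventually.of_forall fun z => ?_
  rw [ae_iff]
  have e : {w : ℂ | ¬ z ≠ w} = {z} := by
    ext w; simp [eq_comm]
  change ν {w : ℂ | ¬ z ≠ w} = 0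
  rw [e]; exact ha z

theorem cmp_val {R : ℝ} {p : ℂ × ℂ} (h : p.1 ≠ p.2) :
    cmpf R ‖p.1 - p.2‖ = ENNReal.ofReal (K p.1 p.2 + 2 * R) := by
  unfold cmpf K
  rw [if_neg]
  exact not_le.2 (norm_pos_iff.2 (sub_ne_zero.2 h))

theorem cmp_energy {Γ : Set ℂ} {R : ℝ} (hR : ∀ z ∈ Γ, ‖z‖ ≤ R) {ν : Measure ℂ} (hν : FE Γ ν) :
    ∫⁻ p, cmpf R ‖p.1 - p.2‖ ∂(ν.prod ν) = ENNReal.ofReal (M ν ν + 2 * R) ∧
      0 ≤ M ν ν + 2 * R := by
  have := hν.prob
  have h1 := cmp_ae_mem hν.supp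
  have h2 := cmp_off_diag hν.atom
  have h3 : Integrable (fun p : ℂ × ℂ => K p.1 p.2 + 2 * R) (ν.prod ν) :=
    hν.int.add (integrable_const _)
  have h4 : 0 ≤ᵐ[ν.prod ν] fun p : ℂ × ℂ => K p.1 p.2 + 2 * R := by
    filter_upwards [h1] with p hp
    have := K_ge (hR _ hp.1) (hR _ hp.2)
    simp only [Pi.zero_apply]
    linarith
  have h5 : ∫ p : ℂ × ℂ, (K p.1 p.2 + 2 * R) ∂(ν.prod ν) = M ν ν + 2 * R := by
    rw [integral_add hν.int (integrable_const _), integral_const]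
    simp [M]
  refine ⟨?_, ?_⟩
  · rw [← h5, ofReal_integral_eq_lintegral_ofReal h3 h4]
    refine lintegral_congr_ae ?_
    filter_upwards [h2] with p hp using cmp_val hp
  · rw [← h5]; exact integral_nonneg_of_ae h4

theorem cmp_FE {Γ : Set ℂ} {R : ℝ} (hR : ∀ z ∈ Γ, ‖z‖ ≤ R) {ν : Measure ℂ}
    (hp : IsProbabilityMeasure ν) (hs : ν Γᶜ = 0)
    (hf : ∫⁻ p, cmpf R ‖p.1 - p.2‖ ∂(ν.prod ν) ≠ ⊤) : FE Γ ν := by
  have h1 := cmp_ae_mem hs
  have h2 : ∀ᵐ p ∂(ν.prod ν), p.1 ≠ p.2 := by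
    filter_upwards [ae_lt_top (cmpf_meas R) hf] with p hp he
    rw [he, sub_self, norm_zero] at hp
    unfold cmpf at hp
    rw [if_pos le_rfl] at hp
    exact lt_irrefl _ hp
  refine ⟨hp, hs, ?_, ?_⟩
  · intro z
    have h3 : (ν.prod ν) ({z} ×ˢ {z}) = 0 := by
      refine measure_mono_null ?_ (ae_iff.1 h2)
      rintro ⟨a, b⟩ hab
      simp only [mem_prod, mem_singleton_iff] at hab
      simp [hab.1, hab.2]
    rw [Measure.prod_prod] at h3
    exact mul_self_eq_zero.1 h3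
  · have h4 : 0 ≤ᵐ[ν.prod ν] fun p : ℂ × ℂ => K p.1 p.2 + 2 * R := by
      filter_upwards [h1] with p hp
      have := K_ge (hR _ hp.1) (hR _ hp.2)
      simp only [Pi.zero_apply]
      linarith
    have h5 : Integrable (fun p : ℂ × ℂ => K p.1 p.2 + 2 * R) (ν.prod ν) := by
      refine ⟨(measurable_K.add_const _).aestronglyMeasurable, ?_⟩
      rw [hasFiniteIntegral_iff_ofReal h4]
      refine lt_of_le_of_lt (le_of_eq ?_) (lt_top_iff_ne_top.2 hf)
      refine lintegral_congr_ae ?_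
      filter_upwards [h2] with p hp using (cmp_val hp).symm
    have h6 := h5.sub (integrable_const (2 * R))
    refine h6.congr (Filter.Eventually.of_forall fun p => ?_)
    simp

theorem compactness {Γ : Set ℂ} (hΓ : IsCompact Γ) {k₁ k₂ : ℝ} (h₁ : 0 < k₁) (h₂ : 0 < k₂)
    {μ : ℕ → Measure ℂ} (hμ : ∀ n, FE Γ (μ n)) {e : ℕ → ℝ} {B : ℝ}
    (he : ∀ n, E k₁ k₂ (μ n) ≤ e n) (hB : Tendsto e atTop (𝓝 B)) :
    ∃ (φ : ℕ → ℕ) (μ' : Measure ℂ), StrictMono φ ∧ FE Γ μ' ∧ E k₁ k₂ μ' ≤ B ∧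
      ∀ q : ℂ × ℂ → ℝ, Continuous q →
        Tendsto (fun n => ∫ p, q p ∂((μ (φ n)).prod (μ (φ n)))) atTop
          (𝓝 (∫ p, q p ∂(μ'.prod μ'))) := by
  classical
  obtain ⟨R, hR0⟩ := hΓ.isBounded.exists_norm_le
  have hR : ∀ z ∈ Γ, ‖z‖ ≤ R := hR0
  have hms : MeasurableSet Γ := hΓ.measurableSet
  have : CompactSpace Γ := isCompact_iff_compactSpace.1 hΓ
  -- the measures on the compact space
  have hcom : ∀ n, ((μ n).comap (Subtype.val : Γ → ℂ)).map Subtype.val = μ n := by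
    intro n
    rw [map_comap_subtype_coe hms]
    refine Measure.restrict_eq_self_of_ae_mem ?_
    rw [ae_iff]; exact (hμ n).supp
  have hprob : ∀ n, IsProbabilityMeasure ((μ n).comap (Subtype.val : Γ → ℂ)) := by
    intro n
    have := (hμ n).prob
    constructor
    have h3 : (((μ n).comap (Subtype.val : Γ → ℂ)).map Subtype.val) univ = 1 := by
      rw [hcom n]; exact measure_univ
    rwa [Measure.map_apply measurable_subtype_coe MeasurableSet.univ, preimage_univ] at h3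
  obtain ⟨P, hP⟩ : ∃ P : ℕ → ProbabilityMeasure Γ,
      P = fun n => ⟨(μ n).comap (Subtype.val : Γ → ℂ), hprob n⟩ := ⟨_, rfl⟩
  obtain ⟨P', φ, hφ, hlim⟩ := CompactSpace.tendsto_subseq P
  have hPm : ∀ n, (P n : Measure Γ).map Subtype.val = μ n := by
    intro n; rw [hP]; exact hcom n
  set μ' : Measure ℂ := (P' : Measure Γ).map Subtype.val with hμ'
  have hprob' : IsProbabilityMeasure μ' :=
    Measure.isProbabilityMeasure_map measurable_subtype_coe.aemeasurable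
  have hsupp' : μ' Γᶜ = 0 := by
    rw [hμ', Measure.map_apply measurable_subtype_coe hms.compl]
    have e : (Subtype.val ⁻¹' Γᶜ : Set Γ) = ∅ := by
      ext x; simp
    rw [e, measure_empty]
  -- transfer of integrals
  have htrI : ∀ (ν : ProbabilityMeasure Γ) (q : ℂ × ℂ → ℝ), Continuous q →
      ∫ p, q p ∂(((ν : Measure Γ).map Subtype.val).prod ((ν : Measure Γ).map Subtype.val)) =
      ∫ p : Γ × Γ, q ((p.1 : ℂ), (p.2 : ℂ)) ∂((ν : Measure Γ).prod (ν : Measure Γ)) := by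
    intro ν q hq
    rw [Measure.map_prod_map _ _ measurable_subtype_coe measurable_subtype_coe,
      integral_map (measurable_subtype_coe.prodMap measurable_subtype_coe).aemeasurable
        hq.aestronglyMeasurable]
    rfl
  have htrL : ∀ (ν : ProbabilityMeasure Γ),
      ∫⁻ p, cmpf R ‖p.1 - p.2‖
        ∂(((ν : Measure Γ).map Subtype.val).prod ((ν : Measure Γ).map Subtype.val)) =
      ∫⁻ p : Γ × Γ, cmpf R ‖(p.1 : ℂ) - (p.2 : ℂ)‖ ∂((ν : Measure Γ).prod (ν : Measure Γ)) := by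
    intro ν
    rw [Measure.map_prod_map _ _ measurable_subtype_coe measurable_subtype_coe,
      lintegral_map (cmpf_meas R) (measurable_subtype_coe.prodMap measurable_subtype_coe)]
    rfl
  -- convergence of integrals of continuous functions
  have hconv : ∀ q : ℂ × ℂ → ℝ, Continuous q →
        Tendsto (fun n => ∫ p, q p ∂((μ (φ n)).prod (μ (φ n)))) atTop
          (𝓝 (∫ p, q p ∂(μ'.prod μ'))) := by
    intro q hq
    have hprod : Tendsto (fun n => (P (φ n)).prod (P (φ n))) atTop (𝓝 (P'.prod P')) :=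
      (ProbabilityMeasure.continuous_prod.comp (continuous_id.prodMk continuous_id)).continuousAt.tendsto.comp
        hlim
    have hqc : Continuous (fun p : Γ × Γ => q ((p.1 : ℂ), (p.2 : ℂ))) := by fun_prop
    have h3 := (ProbabilityMeasure.tendsto_iff_forall_integral_tendsto.1 hprod)
      (BoundedContinuousFunction.mkOfCompact ⟨_, hqc⟩)
    rw [htrI P' q hq]
    refine h3.congr fun n => ?_
    rw [← hPm (φ n), htrI (P (φ n)) q hq]
    rfl
  -- the field
  have hphi : Tendsto (fun n => ∫ z, phi k₁ k₂ z ∂(μ (φ n))) atTop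
      (𝓝 (∫ z, phi k₁ k₂ z ∂μ')) := by
    have h3 := hconv (fun p => phi k₁ k₂ p.1) ((phi_continuous h₁ h₂).comp continuous_fst)
    have h4 : ∀ ν : Measure ℂ, IsProbabilityMeasure ν →
        ∫ p : ℂ × ℂ, phi k₁ k₂ p.1 ∂(ν.prod ν) = ∫ z, phi k₁ k₂ z ∂ν := by
      intro ν hν
      rw [integral_fun_fst]
      simp
    rw [h4 μ' hprob'] at h3
    refine h3.congr fun n => ?_
    exact h4 _ (hμ _).prob
  -- the energy
  have hlsc := Pool.Agent.Helper88.RB.lsc_energy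
    (fun p : Γ × Γ => cmpf R ‖(p.1 : ℂ) - (p.2 : ℂ)‖)
    ((cmpf_cont R).comp (by fun_prop))
  set C : ℝ := B - 2 * ∫ z, phi k₁ k₂ z ∂μ' with hC
  have hCn : Tendsto (fun n => e (φ n) - 2 * ∫ z, phi k₁ k₂ z ∂(μ (φ n)) + 2 * R) atTop
      (𝓝 (C + 2 * R)) :=
    ((hB.comp hφ.tendsto_atTop).sub (hphi.const_mul 2)).add_const _
  have hen : ∀ n, ∫⁻ p : Γ × Γ, cmpf R ‖(p.1 : ℂ) - (p.2 : ℂ)‖
      ∂((P (φ n) : Measure Γ).prod (P (φ n) : Measure Γ)) =
      ENNReal.ofReal (M (μ (φ n)) (μ (φ n)) + 2 * R) ∧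
      0 ≤ M (μ (φ n)) (μ (φ n)) + 2 * R := by
    intro n
    have h3 := cmp_energy hR (hμ (φ n))
    rw [← htrL (P (φ n)), hPm (φ n)]
    exact h3
  have hMn : ∀ n, M (μ (φ n)) (μ (φ n)) + 2 * R ≤
      e (φ n) - 2 * ∫ z, phi k₁ k₂ z ∂(μ (φ n)) + 2 * R := by
    intro n
    have h3 := he (φ n)
    unfold E at h3
    linarith
  have hC0 : 0 ≤ C + 2 * R :=
    ge_of_tendsto' hCn fun n => (hen n).2.trans (hMn n)
  have hlim' : ∫⁻ p : Γ × Γ, cmpf R ‖(p.1 : ℂ) - (p.2 : ℂ)‖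
      ∂((P' : Measure Γ).prod (P' : Measure Γ)) ≤ ENNReal.ofReal (C + 2 * R) := by
    have h3 : Tendsto (fun n => ENNReal.ofReal
        (e (φ n) - 2 * ∫ z, phi k₁ k₂ z ∂(μ (φ n)) + 2 * R)) atTop
        (𝓝 (ENNReal.ofReal (C + 2 * R))) := ENNReal.tendsto_ofReal hCn
    refine le_of_forall_lt_imp_le_of_dense fun y hy => ?_
    have h5 := hlim.eventually ((hlsc P') y hy)
    refine ge_of_tendsto h3 ?_
    filter_upwards [h5] with n hn
    have h6 : y < ∫⁻ p : Γ × Γ, cmpf R ‖(p.1 : ℂ) - (p.2 : ℂ)‖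
      ∂((P (φ n) : Measure Γ).prod (P (φ n) : Measure Γ)) := hn
    rw [(hen n).1] at h6
    exact h6.le.trans (ENNReal.ofReal_le_ofReal (hMn n))
  have hfin : ∫⁻ p, cmpf R ‖p.1 - p.2‖ ∂(μ'.prod μ') ≤ ENNReal.ofReal (C + 2 * R) := by
    rw [hμ', htrL P']; exact hlim'
  have hFE : FE Γ μ' := cmp_FE hR hprob' hsupp' (ne_top_of_le_ne_top ENNReal.ofReal_ne_top hfin)
  refine ⟨φ, μ', hφ, hFE, ?_, hconv⟩
  have h7 := cmp_energy hR hFE
  rw [h7.1, ENNReal.ofReal_le_ofReal_iff hC0] at hfin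
  unfold E
  linarith

end Pool.Agent.H5.AF
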