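import Pool.Agent.H5.AF.Defs
import Pool.Graph.R_seed8.Y775.CC.LogEnergy
set_option autoImplicit false
open MeasureTheory Set Filter Topology
open scoped ENNReal NNReal

namespace Pool.Agent.H5.AF

/-!
Part POS. Positivity of the logarithmic energy.
Paper proof: for probability measures `μ, ν` on a compact `Γ` (in the ball of radius `R`) use the
library (`Pool.Graph.R_seed8.Y775.CC`): `Ω = ℂ ⊕ ℂ`, `P = μ.map Sum.inl + ν.map Sum.inr`,
`f = Sum.elim 1 (-1)`, `X = Sum.elim c c` with `c z = if ‖z‖ ≤ R then z else 0` (so `BMC X`).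
`lE P f X s` is increasing in `s > 0` (derivative `hE ≥ 0` by `hE_eq` and `gE_nonneg`), tends to
`0` as `s → ∞` (`exists_lE_le`), so `lE P f X s ≤ 0`.  With `K_s z w = -(1/2) log (s + ‖z-w‖²)`
this says `2 ∬ K_s dμ dν ≤ ∬ K_s dμ dμ + ∬ K_s dν dν ≤ M μ μ + M ν ν` (`K_s ≤ K` off the diagonal).
As `s ↓ 0`, `K_s ↑ K`: Fatou / monotone convergence (everything bounded below) gives integrability
of `K` for `μ × ν` and the inequality.
-/

open Pool.Agent.Y775.CC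

/-- truncation -/
noncomputable def pos_c (R : ℝ) (z : ℂ) : ℂ := if ‖z‖ ≤ R then z else 0

theorem pos_c_meas (R : ℝ) : Measurable (pos_c R) :=
  Measurable.ite (measurableSet_le measurable_norm measurable_const) measurable_id
    measurable_const

theorem pos_c_bdd {R : ℝ} (hR : 0 ≤ R) (z : ℂ) : ‖pos_c R z‖ ≤ R := by
  unfold pos_c
  split_ifs with h
  · exact h
  · simpa using hR

theorem pos_c_eq {R : ℝ} {z : ℂ} (h : ‖z‖ ≤ R) : pos_c R z = z := if_pos h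

/-- the combined measure -/
noncomputable def pos_P (μ ν : Measure ℂ) : Measure (ℂ ⊕ ℂ) := μ.map Sum.inl + ν.map Sum.inr

/-- the signs -/
noncomputable def pos_f : ℂ ⊕ ℂ → ℝ := Sum.elim (fun _ => 1) (fun _ => -1)

/-- the positions -/
noncomputable def pos_X (R : ℝ) : ℂ ⊕ ℂ → ℂ := Sum.elim (pos_c R) (pos_c R)

theorem pos_f_BM : BM pos_f := by
  refine ⟨measurable_const.sumElim measurable_const, 1, zero_le_one, fun ω => ?_⟩
  rcases ω with z | z <;> simp [pos_f]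

theorem pos_X_BMC {R : ℝ} (hR : 0 ≤ R) : BMC (pos_X R) := by
  refine ⟨(pos_c_meas R).sumElim (pos_c_meas R), R, hR, fun ω => ?_⟩
  rcases ω with z | z
  · exact pos_c_bdd hR z
  · exact pos_c_bdd hR z

instance pos_P_fin (μ ν : Measure ℂ) [IsProbabilityMeasure μ] [IsProbabilityMeasure ν] :
    IsFiniteMeasure (pos_P μ ν) := by
  unfold pos_P
  infer_instance

theorem pos_int {μ ν : Measure ℂ} [IsProbabilityMeasure μ] [IsProbabilityMeasure ν]
    {G : ℂ ⊕ ℂ → ℝ} (hG : BM G) :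
    ∫ ω, G ω ∂(pos_P μ ν) = ∫ z, G (Sum.inl z) ∂μ + ∫ z, G (Sum.inr z) ∂ν := by
  unfold pos_P
  rw [integral_add_measure hG.integrable hG.integrable,
    integral_map measurable_inl.aemeasurable hG.meas.aestronglyMeasurable,
    integral_map measurable_inr.aemeasurable hG.meas.aestronglyMeasurable]

theorem pos_prod {μ ν : Measure ℂ} [IsProbabilityMeasure μ] [IsProbabilityMeasure ν]
    {H : (ℂ ⊕ ℂ) × (ℂ ⊕ ℂ) → ℝ} (hH : BM H) :
    ∫ p, H p ∂((pos_P μ ν).prod (pos_P μ ν)) =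
      ∫ p : ℂ × ℂ, H (Sum.inl p.1, Sum.inl p.2) ∂(μ.prod μ)
      + ∫ p : ℂ × ℂ, H (Sum.inl p.1, Sum.inr p.2) ∂(μ.prod ν)
      + (∫ p : ℂ × ℂ, H (Sum.inr p.1, Sum.inl p.2) ∂(ν.prod μ)
      + ∫ p : ℂ × ℂ, H (Sum.inr p.1, Sum.inr p.2) ∂(ν.prod ν)) := by
  have hm : ∀ (a b : Measure ℂ) [IsProbabilityMeasure a] [IsProbabilityMeasure b]
      (f g : ℂ → ℂ ⊕ ℂ), Measurable f → Measurable g →
      Integrable H ((a.map f).prod (b.map g)) ∧
      ∫ p, H p ∂((a.map f).prod (b.map g)) = ∫ p : ℂ × ℂ, H (f p.1, g p.2) ∂(a.prod b) := by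
    intro a b _ _ f g hf hg
    refine ⟨hH.integrable, ?_⟩
    rw [Measure.map_prod_map _ _ hf hg,
      integral_map (hf.prodMap hg).aemeasurable hH.meas.aestronglyMeasurable]
    rfl
  have i1 := hm μ μ Sum.inl Sum.inl measurable_inl measurable_inl
  have i2 := hm μ ν Sum.inl Sum.inr measurable_inl measurable_inr
  have i3 := hm ν μ Sum.inr Sum.inl measurable_inr measurable_inl
  have i4 := hm ν ν Sum.inr Sum.inr measurable_inr measurable_inr
  unfold pos_P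
  rw [Measure.prod_add, Measure.add_prod, Measure.add_prod]
  rw [integral_add_measure (i1.1.add_measure i3.1) (i2.1.add_measure i4.1),
    integral_add_measure i1.1 i3.1, integral_add_measure i2.1 i4.1, i1.2, i2.2, i3.2, i4.2]
  ring

theorem pos_ae {Γ : Set ℂ} {μ ν : Measure ℂ} (hμ : FE Γ μ) (hν : FE Γ ν) :
    ∀ᵐ p : ℂ × ℂ ∂(μ.prod ν), p.1 ∈ Γ ∧ p.2 ∈ Γ ∧ p.1 ≠ p.2 := by
  have := hμ.prob
  have := hν.prob
  have h1 : ∀ᵐ p : ℂ × ℂ ∂(μ.prod ν), p.1 ∈ Γ :=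
    Measure.quasiMeasurePreserving_fst.ae (show ∀ᵐ z ∂μ, z ∈ Γ from hμ.supp)
  have h2 : ∀ᵐ p : ℂ × ℂ ∂(μ.prod ν), p.2 ∈ Γ :=
    Measure.quasiMeasurePreserving_snd.ae (show ∀ᵐ z ∂ν, z ∈ Γ from hν.supp)
  have h3 : ∀ᵐ p : ℂ × ℂ ∂(μ.prod ν), p.1 ≠ p.2 := by
    have hs : MeasurableSet {p : ℂ × ℂ | p.1 = p.2} :=
      measurableSet_eq_fun measurable_fst measurable_snd
    have h4 : (μ.prod ν) {p : ℂ × ℂ | p.1 = p.2} = 0 := by
      rw [Measure.measure_prod_null hs]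
      refine Eventually.of_forall fun x => ?_
      have e : Prod.mk x ⁻¹' {p : ℂ × ℂ | p.1 = p.2} = {x} := by
        ext y
        simp [eq_comm]
      simp only [e, Pi.zero_apply]
      exact hν.atom x
    have h5 : {p : ℂ × ℂ | ¬ p.1 ≠ p.2} = {p : ℂ × ℂ | p.1 = p.2} := by
      ext p; simp
    rw [ae_iff, h5]
    exact h4
  filter_upwards [h1, h2, h3] with p a b c using ⟨a, b, c⟩

theorem M_comm {μ ν : Measure ℂ} (hμ : IsProbabilityMeasure μ) (hν : IsProbabilityMeasure ν) :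
    M μ ν = M ν μ := by
  unfold M
  rw [← integral_prod_swap (μ := ν) (ν := μ)]
  refine integral_congr_ae (Eventually.of_forall fun p => ?_)
  simp only [Prod.fst_swap, Prod.snd_swap]
  exact K_comm _ _

/-- regularised energies -/
noncomputable def pos_A (R : ℝ) (s : ℝ) (μ ν : Measure ℂ) : ℝ :=
  ∫ p : ℂ × ℂ, Real.log (s + ‖pos_c R p.1 - pos_c R p.2‖ ^ 2) ∂(μ.prod ν)

theorem pos_A_comm (R s : ℝ) {μ ν : Measure ℂ} [IsProbabilityMeasure μ]
    [IsProbabilityMeasure ν] : pos_A R s μ ν = pos_A R s ν μ := by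
  unfold pos_A
  rw [← integral_prod_swap (μ := ν) (ν := μ)]
  refine integral_congr_ae (Eventually.of_forall fun p => ?_)
  simp only [Prod.fst_swap, Prod.snd_swap]
  rw [norm_sub_rev]

theorem pos_lE_eq {R : ℝ} (hR : 0 ≤ R) {μ ν : Measure ℂ} [IsProbabilityMeasure μ]
    [IsProbabilityMeasure ν] {s : ℝ} (hs : 0 < s) :
    lE (pos_P μ ν) pos_f (pos_X R) s =
      pos_A R s μ μ + pos_A R s ν ν - 2 * pos_A R s μ ν := by
  have hB : BM fun p : (ℂ ⊕ ℂ) × (ℂ ⊕ ℂ) => pos_f p.1 * pos_f p.2 *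
      Real.log (s + ‖pos_X R p.1 - pos_X R p.2‖ ^ 2) :=
    (bm_ff pos_f_BM).mul (bm_log (pos_X_BMC hR).dist (fun p => by positivity) hs)
  unfold lE
  rw [pos_prod hB]
  have e1 : ∀ z w : ℂ, pos_f (Sum.inl z) * pos_f (Sum.inl w) *
      Real.log (s + ‖pos_X R (Sum.inl z) - pos_X R (Sum.inl w)‖ ^ 2) =
      Real.log (s + ‖pos_c R z - pos_c R w‖ ^ 2) := by
    intro z w; simp [pos_f, pos_X]
  have e2 : ∀ z w : ℂ, pos_f (Sum.inl z) * pos_f (Sum.inr w) *
      Real.log (s + ‖pos_X R (Sum.inl z) - pos_X R (Sum.inr w)‖ ^ 2) =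
      -Real.log (s + ‖pos_c R z - pos_c R w‖ ^ 2) := by
    intro z w; simp [pos_f, pos_X]
  have e3 : ∀ z w : ℂ, pos_f (Sum.inr z) * pos_f (Sum.inl w) *
      Real.log (s + ‖pos_X R (Sum.inr z) - pos_X R (Sum.inl w)‖ ^ 2) =
      -Real.log (s + ‖pos_c R z - pos_c R w‖ ^ 2) := by
    intro z w; simp [pos_f, pos_X]
  have e4 : ∀ z w : ℂ, pos_f (Sum.inr z) * pos_f (Sum.inr w) *
      Real.log (s + ‖pos_X R (Sum.inr z) - pos_X R (Sum.inr w)‖ ^ 2) =
      Real.log (s + ‖pos_c R z - pos_c R w‖ ^ 2) := by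
    intro z w; simp [pos_f, pos_X]
  simp only [e1, e2, e3, e4, integral_neg]
  have h := pos_A_comm R s (μ := μ) (ν := ν)
  unfold pos_A at *
  linarith

theorem pos_f_int {μ ν : Measure ℂ} [IsProbabilityMeasure μ] [IsProbabilityMeasure ν] :
    ∫ ω, pos_f ω ∂(pos_P μ ν) = 0 := by
  rw [pos_int pos_f_BM]
  simp [pos_f]

theorem pos_mono {R : ℝ} (hR : 0 ≤ R) {μ ν : Measure ℂ} [IsProbabilityMeasure μ]
    [IsProbabilityMeasure ν] :
    MonotoneOn (lE (pos_P μ ν) pos_f (pos_X R)) (Ioi 0) := by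
  refine monotoneOn_of_deriv_nonneg (convex_Ioi 0) (fun s hs =>
    (hasDerivAt_lE pos_f_BM (pos_X_BMC hR) hs).continuousAt.continuousWithinAt)
    (fun s hs => ?_) fun s hs => ?_
  · rw [interior_Ioi] at hs
    exact (hasDerivAt_lE pos_f_BM (pos_X_BMC hR) hs).differentiableAt.differentiableWithinAt
  · rw [interior_Ioi] at hs
    rw [(hasDerivAt_lE pos_f_BM (pos_X_BMC hR) hs).deriv,
      (hE_eq pos_f_BM (pos_X_BMC hR) hs).1]
    refine setIntegral_nonneg measurableSet_Ioi fun t ht => ?_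
    exact mul_nonneg (Real.exp_pos _).le (gE_nonneg pos_f_BM (pos_X_BMC hR) (le_of_lt ht))

theorem pos_lE_nonpos {R : ℝ} (hR : 0 ≤ R) {μ ν : Measure ℂ} [IsProbabilityMeasure μ]
    [IsProbabilityMeasure ν] {s : ℝ} (hs : 0 < s) :
    lE (pos_P μ ν) pos_f (pos_X R) s ≤ 0 := by
  obtain ⟨C, hC⟩ := exists_lE_le (P := pos_P μ ν) pos_f_BM (pos_X_BMC hR) pos_f_int
  have hlim : Tendsto (fun s : ℝ => C / s) atTop (𝓝 0) := tendsto_const_nhds.div_atTop tendsto_id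
  refine ge_of_tendsto hlim ?_
  filter_upwards [eventually_ge_atTop (max s 1)] with r hr
  have h1 : s ≤ r := (le_max_left _ _).trans hr
  have h2 : 1 ≤ r := (le_max_right _ _).trans hr
  exact (pos_mono hR hs (show (0 : ℝ) < r by linarith) h1).trans
    ((le_abs_self _).trans (hC r h2))

theorem pos_exists_R {Γ : Set ℂ} (hΓ : IsCompact Γ) : ∃ R : ℝ, 1 ≤ R ∧ ∀ z ∈ Γ, ‖z‖ ≤ R := by
  obtain ⟨C, hC⟩ := hΓ.isBounded.exists_norm_le
  exact ⟨max C 1, le_max_right _ _, fun z hz => (hC z hz).trans (le_max_left _ _)⟩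

/-- pointwise comparison of the regularised kernel with the kernel -/
theorem pos_log_ge {s : ℝ} (hs : 0 < s) {z w : ℂ} (h : z ≠ w) :
    -(2 * K z w) ≤ Real.log (s + ‖z - w‖ ^ 2) := by
  have h0 : 0 < ‖z - w‖ := norm_pos_iff.2 (sub_ne_zero.2 h)
  have h1 : Real.log (‖z - w‖ ^ 2) ≤ Real.log (s + ‖z - w‖ ^ 2) :=
    Real.log_le_log (by positivity) (by linarith)
  rw [Real.log_pow] at h1
  unfold K
  push_cast at h1
  linarith

theorem pos_log_le {s R : ℝ} (hs : 0 < s) (hs1 : s ≤ 1) (hR : 1 ≤ R) {z w : ℂ} (hz : ‖z‖ ≤ R)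
    (hw : ‖w‖ ≤ R) : Real.log (s + ‖z - w‖ ^ 2) ≤ 5 * R ^ 2 := by
  have h : ‖z - w‖ ≤ 2 * R := (norm_sub_le z w).trans (by linarith)
  have h2 : ‖z - w‖ ^ 2 ≤ (2 * R) ^ 2 := pow_le_pow_left₀ (norm_nonneg _) h 2
  refine (Real.log_le_self (by positivity)).trans ?_
  nlinarith

theorem pos_A_meas (R s : ℝ) :
    Measurable fun p : ℂ × ℂ => Real.log (s + ‖pos_c R p.1 - pos_c R p.2‖ ^ 2) := by
  refine Real.measurable_log.comp (measurable_const.add ?_)
  exact (((pos_c_meas R).comp measurable_fst).sub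
    ((pos_c_meas R).comp measurable_snd)).norm.pow_const 2

/-- dominated convergence for the regularised energy -/
theorem pos_A_tendsto {Γ : Set ℂ} {R : ℝ} (hR1 : 1 ≤ R) (hR : ∀ z ∈ Γ, ‖z‖ ≤ R)
    {μ ν : Measure ℂ} (hμ : FE Γ μ) (hν : FE Γ ν)
    (hi : Integrable (fun p : ℂ × ℂ => K p.1 p.2) (μ.prod ν)) :
    Tendsto (fun n : ℕ => pos_A R (1 / ((n : ℝ) + 1)) μ ν) atTop (𝓝 (-(2 * M μ ν))) := by
  have := hμ.prob
  have := hν.prob
  have e : -(2 * M μ ν) = ∫ p : ℂ × ℂ, -(2 * K p.1 p.2) ∂(μ.prod ν) := by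
    unfold M
    rw [integral_neg, integral_const_mul]
  rw [e]
  unfold pos_A
  refine tendsto_integral_of_dominated_convergence
    (fun p : ℂ × ℂ => 2 * |K p.1 p.2| + 5 * R ^ 2) (fun n => (pos_A_meas R _).aestronglyMeasurable)
    ((hi.abs.const_mul 2).add (integrable_const _)) (fun n => ?_) ?_
  · filter_upwards [pos_ae hμ hν] with p hp
    have hs : (0 : ℝ) < 1 / ((n : ℝ) + 1) := by positivity
    have hs1 : 1 / ((n : ℝ) + 1) ≤ 1 := by
      rw [div_le_one (by positivity)]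
      have : (0 : ℝ) ≤ n := Nat.cast_nonneg n
      linarith
    rw [pos_c_eq (hR _ hp.1), pos_c_eq (hR _ hp.2.1), Real.norm_eq_abs, abs_le]
    have h1 := pos_log_ge hs hp.2.2
    have h2 := pos_log_le hs hs1 hR1 (hR _ hp.1) (hR _ hp.2.1)
    have h3 := le_abs_self (K p.1 p.2)
    have h4 := abs_nonneg (K p.1 p.2)
    have h5 : 0 ≤ R ^ 2 := sq_nonneg R
    constructor <;> linarith
  · filter_upwards [pos_ae hμ hν] with p hp
    rw [pos_c_eq (hR _ hp.1), pos_c_eq (hR _ hp.2.1)]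
    have h0 : 0 < ‖p.1 - p.2‖ := norm_pos_iff.2 (sub_ne_zero.2 hp.2.2)
    have e2 : -(2 * K p.1 p.2) = Real.log (0 + ‖p.1 - p.2‖ ^ 2) := by
      rw [zero_add, Real.log_pow]
      unfold K
      push_cast
      ring
    rw [e2]
    refine Tendsto.log ?_ (by positivity)
    exact tendsto_one_div_add_atTop_nhds_zero_nat.add_const _

theorem pos_A_le {Γ : Set ℂ} {R : ℝ} (hR : ∀ z ∈ Γ, ‖z‖ ≤ R) {μ : Measure ℂ} (hR1 : 1 ≤ R)
    (hμ : FE Γ μ) {s : ℝ} (hs : 0 < s) : -(2 * M μ μ) ≤ pos_A R s μ μ := by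
  have := hμ.prob
  have e : -(2 * M μ μ) = ∫ p : ℂ × ℂ, -(2 * K p.1 p.2) ∂(μ.prod μ) := by
    unfold M
    rw [integral_neg, integral_const_mul]
  rw [e]
  unfold pos_A
  refine integral_mono_ae (hμ.int.const_mul 2).neg ?_ ?_
  · have hc : BMC (pos_c R) := ⟨pos_c_meas R, R, by linarith, pos_c_bdd (by linarith)⟩
    exact (bm_log hc.dist (fun p => by positivity) hs).integrable
  · filter_upwards [pos_ae hμ hμ] with p hp
    rw [pos_c_eq (hR _ hp.1), pos_c_eq (hR _ hp.2.1)]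
    exact pos_log_ge hs hp.2.2

theorem mut_int {Γ : Set ℂ} (hΓ : IsCompact Γ) {μ ν : Measure ℂ} (hμ : FE Γ μ) (hν : FE Γ ν) :
    Integrable (fun p : ℂ × ℂ => K p.1 p.2) (μ.prod ν) := by
  have := hμ.prob
  have := hν.prob
  obtain ⟨R, hR1, hR⟩ := pos_exists_R hΓ
  -- lower bounded kernels
  set F : ℕ → ℂ × ℂ → ℝ≥0∞ := fun n p =>
    ENNReal.ofReal (5 * R ^ 2 - Real.log (1 / ((n : ℝ) + 1) + ‖pos_c R p.1 - pos_c R p.2‖ ^ 2))
    with hF
  have hFm : ∀ n, Measurable (F n) := fun n =>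
    (measurable_const.sub (pos_A_meas R _)).ennreal_ofReal
  have hs : ∀ n : ℕ, (0 : ℝ) < 1 / ((n : ℝ) + 1) := fun n => by positivity
  have hs1 : ∀ n : ℕ, 1 / ((n : ℝ) + 1) ≤ 1 := fun n => by
    rw [div_le_one (by positivity)]
    have : (0 : ℝ) ≤ n := Nat.cast_nonneg n
    linarith
  have hc : BMC (pos_c R) := ⟨pos_c_meas R, R, by linarith, pos_c_bdd (by linarith)⟩
  have hbi : ∀ n : ℕ, Integrable (fun p : ℂ × ℂ =>
      Real.log (1 / ((n : ℝ) + 1) + ‖pos_c R p.1 - pos_c R p.2‖ ^ 2)) (μ.prod ν) := by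
    intro n
    have hB : BM fun p : ℂ × ℂ =>
        Real.log (1 / ((n : ℝ) + 1) + ‖pos_c R p.1 - pos_c R p.2‖ ^ 2) :=
      bm_log hc.dist (fun p => by positivity) (hs n)
    exact hB.integrable
  have hle : ∀ n, ∫⁻ p, F n p ∂(μ.prod ν) ≤ ENNReal.ofReal (5 * R ^ 2 + (M μ μ + M ν ν)) := by
    intro n
    have h1 : ∫⁻ p, F n p ∂(μ.prod ν) = ENNReal.ofReal (∫ p : ℂ × ℂ, (5 * R ^ 2 -
        Real.log (1 / ((n : ℝ) + 1) + ‖pos_c R p.1 - pos_c R p.2‖ ^ 2)) ∂(μ.prod ν)) := by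
      rw [ofReal_integral_eq_lintegral_ofReal]
      · exact (integrable_const _).sub (hbi n)
      · refine Eventually.of_forall fun p => ?_
        have := pos_log_le (hs n) (hs1 n) hR1 (pos_c_bdd (R := R) (by linarith) p.1)
          (pos_c_bdd (R := R) (by linarith) p.2)
        simp only [Pi.zero_apply]
        linarith
    rw [h1]
    refine ENNReal.ofReal_le_ofReal ?_
    rw [integral_sub (integrable_const _) (hbi n)]
    have h2 := pos_lE_nonpos (R := R) (by linarith) (μ := μ) (ν := ν) (hs n)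
    rw [pos_lE_eq (by linarith) (hs n)] at h2
    have h3 := pos_A_le hR hR1 hμ (hs n)
    have h4 := pos_A_le hR hR1 hν (hs n)
    have h5 : ∫ p : ℂ × ℂ, Real.log (1 / ((n : ℝ) + 1) + ‖pos_c R p.1 - pos_c R p.2‖ ^ 2)
        ∂(μ.prod ν) = pos_A R (1 / ((n : ℝ) + 1)) μ ν := rfl
    rw [h5]
    simp only [integral_const, probReal_univ, one_smul]
    linarith
  have hfat := lintegral_liminf_le (μ := μ.prod ν) (u := atTop) hFm
  have hlim : ∀ᵐ p : ℂ × ℂ ∂(μ.prod ν),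
      liminf (fun n => F n p) atTop = ENNReal.ofReal (5 * R ^ 2 + 2 * K p.1 p.2) := by
    filter_upwards [pos_ae hμ hν] with p hp
    refine Tendsto.liminf_eq ?_
    simp only [hF]
    rw [pos_c_eq (hR _ hp.1), pos_c_eq (hR _ hp.2.1)]
    refine ENNReal.tendsto_ofReal ?_
    have h0 : 0 < ‖p.1 - p.2‖ := norm_pos_iff.2 (sub_ne_zero.2 hp.2.2)
    have e2 : 5 * R ^ 2 + 2 * K p.1 p.2 = 5 * R ^ 2 - Real.log (0 + ‖p.1 - p.2‖ ^ 2) := by
      rw [zero_add, Real.log_pow]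
      unfold K
      push_cast
      ring
    rw [e2]
    refine Tendsto.sub tendsto_const_nhds (Tendsto.log ?_ (by positivity))
    exact tendsto_one_div_add_atTop_nhds_zero_nat.add_const _
  rw [lintegral_congr_ae hlim] at hfat
  have hfin : ∫⁻ p : ℂ × ℂ, ENNReal.ofReal (5 * R ^ 2 + 2 * K p.1 p.2) ∂(μ.prod ν) < ∞ := by
    refine (hfat.trans (b := liminf (fun i => ∫⁻ (a : ℂ × ℂ), F i a ∂μ.prod ν) atTop) ?_).trans_lt
      (ENNReal.ofReal_lt_top (r := 5 * R ^ 2 + (M μ μ + M ν ν)))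
    refine (liminf_le_liminf (Eventually.of_forall hle)).trans ?_
    rw [liminf_const]
  have hint : Integrable (fun p : ℂ × ℂ => 5 * R ^ 2 + 2 * K p.1 p.2) (μ.prod ν) := by
    refine ⟨(measurable_const.add (measurable_const.mul measurable_K)).aestronglyMeasurable, ?_⟩
    refine lt_of_le_of_lt (le_of_eq ?_) hfin
    refine lintegral_congr_ae ?_
    filter_upwards [pos_ae hμ hν] with p hp
    rw [← ofReal_norm, Real.norm_eq_abs, abs_of_nonneg]
    have h6 := pos_log_le (hs 0) (hs1 0) hR1 (hR _ hp.1) (hR _ hp.2.1)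
    have h7 := pos_log_ge (hs 0) hp.2.2
    linarith
  have h8 : Integrable (fun p : ℂ × ℂ => (1 / 2) * ((5 * R ^ 2 + 2 * K p.1 p.2) - 5 * R ^ 2))
      (μ.prod ν) := (hint.sub (integrable_const _)).const_mul _
  refine h8.congr (Eventually.of_forall fun p => ?_)
  simp only
  ring

theorem mut_le {Γ : Set ℂ} (hΓ : IsCompact Γ) {μ ν : Measure ℂ} (hμ : FE Γ μ) (hν : FE Γ ν) :
    2 * M μ ν ≤ M μ μ + M ν ν := by
  have := hμ.prob
  have := hν.prob
  obtain ⟨R, hR1, hR⟩ := pos_exists_R hΓ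
  have h1 := pos_A_tendsto hR1 hR hμ hμ hμ.int
  have h2 := pos_A_tendsto hR1 hR hν hν hν.int
  have h3 := pos_A_tendsto hR1 hR hμ hν (mut_int hΓ hμ hν)
  have h4 := (h1.add h2).sub (h3.const_mul 2)
  have h5 : -(2 * M μ μ) + -(2 * M ν ν) - 2 * -(2 * M μ ν) ≤ 0 := by
    refine le_of_tendsto h4 (Eventually.of_forall fun n => ?_)
    have hs : (0 : ℝ) < 1 / ((n : ℝ) + 1) := by positivity
    have h6 := pos_lE_nonpos (R := R) (by linarith) (μ := μ) (ν := ν) hs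
    rw [pos_lE_eq (by linarith) hs] at h6
    exact h6
  linarith

theorem pos_gE_cont {R : ℝ} (hR : 0 ≤ R) {μ ν : Measure ℂ} [IsProbabilityMeasure μ]
    [IsProbabilityMeasure ν] : ContinuousOn (gE (pos_P μ ν) pos_f (pos_X R)) (Ioi 0) := by
  intro t ht
  refine ContinuousAt.continuousWithinAt ?_
  unfold gE
  have hr0 : ∀ p : (ℂ ⊕ ℂ) × (ℂ ⊕ ℂ), 0 ≤ ‖pos_X R p.1 - pos_X R p.2‖ ^ 2 := fun p => by
    positivity
  obtain ⟨C, hC0, hC⟩ := (bm_ff pos_f_BM).bdd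
  refine continuousAt_of_dominated (bound := fun _ => C) ?_ ?_ (integrable_const _) ?_
  · refine Eventually.of_forall fun x => ?_
    refine Measurable.aestronglyMeasurable ?_
    refine (bm_ff pos_f_BM).meas.mul ?_
    exact Real.measurable_exp.comp ((measurable_const.mul (pos_X_BMC hR).dist.meas).neg)
  · filter_upwards [Ioi_mem_nhds ht] with x hx
    refine Eventually.of_forall fun p => ?_
    rw [Real.norm_eq_abs, abs_mul, Real.abs_exp]
    have h1 : Real.exp (-(x * ‖pos_X R p.1 - pos_X R p.2‖ ^ 2)) ≤ 1 := by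
      rw [Real.exp_le_one_iff]
      have := mul_nonneg (le_of_lt hx) (hr0 p)
      linarith
    calc _ ≤ C * 1 := mul_le_mul (hC p) h1 (Real.exp_pos _).le hC0
      _ = C := mul_one C
  · refine Eventually.of_forall fun p => ?_
    have : Continuous fun x : ℝ => pos_f p.1 * pos_f p.2 *
        Real.exp (-(x * ‖pos_X R p.1 - pos_X R p.2‖ ^ 2)) := by fun_prop
    exact this.continuousAt

/-- regularised form: this is what is needed for uniqueness. -/
theorem mut_reg_le {Γ : Set ℂ} (hΓ : IsCompact Γ) {μ ν : Measure ℂ} (hμ : FE Γ μ) (hν : FE Γ ν)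
    (h : 2 * M μ ν = M μ μ + M ν ν) {t : ℝ} (ht : 0 < t) (p : ℂ) :
    ∫ z, Real.exp (-(t * ‖z - p‖ ^ 2)) ∂μ = ∫ z, Real.exp (-(t * ‖z - p‖ ^ 2)) ∂ν := by
  have := hμ.prob
  have := hν.prob
  obtain ⟨R, hR1, hR⟩ := pos_exists_R hΓ
  have hR0 : 0 ≤ R := by linarith
  have h1 := pos_A_tendsto hR1 hR hμ hμ hμ.int
  have h2 := pos_A_tendsto hR1 hR hν hν hν.int
  have h3 := pos_A_tendsto hR1 hR hμ hν (mut_int hΓ hμ hν)
  have h4 := (h1.add h2).sub (h3.const_mul 2)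
  have e0 : -(2 * M μ μ) + -(2 * M ν ν) - 2 * -(2 * M μ ν) = 0 := by linarith
  rw [e0] at h4
  have hz : ∀ s : ℝ, 0 < s → lE (pos_P μ ν) pos_f (pos_X R) s = 0 := by
    intro s hs
    refine le_antisymm (pos_lE_nonpos hR0 hs) ?_
    refine le_of_tendsto h4 ?_
    have h5 : ∀ᶠ n : ℕ in atTop, 1 / ((n : ℝ) + 1) < s :=
      tendsto_one_div_add_atTop_nhds_zero_nat.eventually (gt_mem_nhds hs)
    filter_upwards [h5] with n hn
    have hs' : (0 : ℝ) < 1 / ((n : ℝ) + 1) := by positivity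
    rw [← pos_lE_eq hR0 hs']
    exact pos_mono hR0 hs' hs hn.le
  -- the derivative vanishes
  have hd : hE (pos_P μ ν) pos_f (pos_X R) 1 = 0 := by
    have h6 := hasDerivAt_lE (P := pos_P μ ν) pos_f_BM (pos_X_BMC hR0) (zero_lt_one (α := ℝ))
    have h7 : lE (pos_P μ ν) pos_f (pos_X R) =ᶠ[𝓝 1] fun _ => 0 := by
      filter_upwards [Ioi_mem_nhds (zero_lt_one (α := ℝ))] with s hs using hz s hs
    exact h6.unique ((hasDerivAt_const (1 : ℝ) (0 : ℝ)).congr_of_eventuallyEq h7)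
  obtain ⟨h8, h9⟩ := hE_eq (P := pos_P μ ν) pos_f_BM (pos_X_BMC hR0) (zero_lt_one (α := ℝ))
  rw [h8] at hd
  have h10 : (fun t => Real.exp (-(t * 1)) * gE (pos_P μ ν) pos_f (pos_X R) t)
      =ᵐ[(volume : Measure ℝ).restrict (Ioi 0)] fun _ => 0 := by
    refine (integral_eq_zero_iff_of_nonneg_ae ?_ h9).1 hd
    filter_upwards [ae_restrict_mem measurableSet_Ioi] with t ht
    exact mul_nonneg (Real.exp_pos _).le (gE_nonneg pos_f_BM (pos_X_BMC hR0) (le_of_lt ht))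
  have h11 := Measure.eqOn_open_of_ae_eq h10 isOpen_Ioi
    (ContinuousOn.mul (by fun_prop) (pos_gE_cont hR0)) continuousOn_const
  have h12 : gE (pos_P μ ν) pos_f (pos_X R) t = 0 := by
    have := h11 (show t ∈ Ioi (0 : ℝ) from ht)
    simp only [mul_eq_zero] at this
    rcases this with h | h
    · exact absurd h (Real.exp_pos _).ne'
    · exact h
  have h13 := sq_le_gE (P := pos_P μ ν) pos_f_BM (pos_X_BMC hR0) ht.le p
  rw [h12] at h13
  have h14 : ∫ ω, pos_f ω * Real.exp (-(t * ‖pos_X R ω - p‖ ^ 2)) ∂(pos_P μ ν) = 0 :=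
    pow_eq_zero_iff (two_ne_zero) |>.1 (le_antisymm h13 (sq_nonneg _))
  have hB : BM fun ω => pos_f ω * Real.exp (-(t * ‖pos_X R ω - p‖ ^ 2)) :=
    pos_f_BM.mul (BM.continuous_comp ((pos_X_BMC hR0).sq p) (h := fun x => Real.exp (-(t * x)))
      (Real.continuous_exp.comp (continuous_const.mul continuous_id).neg))
  rw [pos_int hB] at h14
  have e1 : ∫ z, pos_f (Sum.inl z) * Real.exp (-(t * ‖pos_X R (Sum.inl z) - p‖ ^ 2)) ∂μ =
      ∫ z, Real.exp (-(t * ‖z - p‖ ^ 2)) ∂μ := by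
    refine integral_congr_ae ?_
    filter_upwards [show ∀ᵐ z ∂μ, z ∈ Γ from hμ.supp] with z hz
    simp [pos_f, pos_X, pos_c_eq (hR z hz)]
  have e2 : ∫ z, pos_f (Sum.inr z) * Real.exp (-(t * ‖pos_X R (Sum.inr z) - p‖ ^ 2)) ∂ν =
      -∫ z, Real.exp (-(t * ‖z - p‖ ^ 2)) ∂ν := by
    rw [← integral_neg]
    refine integral_congr_ae ?_
    filter_upwards [show ∀ᵐ z ∂ν, z ∈ Γ from hν.supp] with z hz
    simp [pos_f, pos_X, pos_c_eq (hR z hz)]
  rw [e1, e2] at h14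
  linarith

end Pool.Agent.H5.AF
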