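import Pool.Agent.H5.AF.Defs
import Pool.Agent.H5.AF.Pos
set_option autoImplicit false
open MeasureTheory Set Filter Topology
open scoped ENNReal NNReal

namespace Pool.Agent.H5.AF

/-!
Part UNIQ. Strictness.  `gauss_ext`: two finite measures on `ℂ` carried by a compact set with the
same Gaussian averages `∫ exp (-(t ‖z-p‖²))` for all `t > 0` and all `p` are equal.
Paper proof 1: for continuous compactly supported `f`, `f * G_t → f` boundedly, so
`∫ f dμ = lim_t ∫ f(p) (t/π) (∫ exp(-t‖z-p‖²) dμ(z)) dp` is the same for `ν`; conclude by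
`ext_of_forall_integral_eq_of_IsFiniteMeasure` or similar.  Paper proof 2 (one `t` only): the
averages give `∫ exp (2t⟪z,p⟫) dσ = 0` for `σ = exp(-t‖z‖²)(μ-ν)` and all `p`: Stone-Weierstrass
on the compact set.  Paper proof 3: `p ↦ 𝟙_{ball}`: integrate over `p` in a ball and let
`t → ∞`: `μ (ball) + (1/2)μ(sphere)`-type identities.
Uniqueness of the equilibrium measure: if `l, l'` are equilibrium measures, `(l + l')/2` has energy
`(E l + E l')/2 - (1/4)(M l l + M l' l' - 2 M l l')`.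
-/

open scoped InnerProductSpace in
theorem uniq_gauss_aux {μ ν : Measure ℂ} (hμ : IsProbabilityMeasure μ) (hν : IsProbabilityMeasure ν)
    (h : ∀ p : ℂ,
      ∫ z, Real.exp (-(‖z - p‖ ^ 2)) ∂μ = ∫ z, Real.exp (-(‖z - p‖ ^ 2)) ∂ν) : μ = ν := by
  set d : ℂ → ℝ≥0∞ := fun z => ENNReal.ofReal (Real.exp (-(‖z‖ ^ 2))) with hd
  have hdm : Measurable d := by
    rw [hd]; fun_prop
  have hd0 : ∀ z, d z ≠ 0 := fun z => by
    simp [hd, Real.exp_pos]
  have hdt : ∀ z, d z ≠ ⊤ := fun z => by simp [hd]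
  have hd1 : ∀ z, d z ≤ 1 := fun z => by
    simp only [hd]
    rw [← ENNReal.ofReal_one]
    apply ENNReal.ofReal_le_ofReal
    rw [Real.exp_le_one_iff]
    nlinarith [norm_nonneg z]
  have hfin : ∀ ρ : Measure ℂ, IsProbabilityMeasure ρ → IsFiniteMeasure (ρ.withDensity d) := by
    intro ρ hρ
    apply isFiniteMeasure_withDensity
    refine ne_of_lt (lt_of_le_of_lt (lintegral_mono hd1) ?_)
    simp
  have hσμ := hfin μ hμ
  have hσν := hfin ν hν
  have hmgf : ∀ (ρ : Measure ℂ), IsProbabilityMeasure ρ → ∀ (w : ℂ) (s : ℝ),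
      ProbabilityTheory.mgf (fun z : ℂ => ⟪z, w⟫_ℝ) (ρ.withDensity d) s =
        Real.exp (‖((s / 2 : ℝ) : ℂ) * w‖ ^ 2) *
          ∫ z, Real.exp (-(‖z - ((s / 2 : ℝ) : ℂ) * w‖ ^ 2)) ∂ρ := by
    intro ρ hρ w s
    unfold ProbabilityTheory.mgf
    rw [integral_withDensity_eq_integral_toReal_smul hdm
      (Filter.Eventually.of_forall fun z => lt_top_iff_ne_top.2 (hdt z))]
    rw [← integral_const_mul]
    congr 1
    funext z
    simp only [hd, smul_eq_mul]
    rw [ENNReal.toReal_ofReal (Real.exp_pos _).le, ← Real.exp_add, ← Real.exp_add]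
    congr 1
    have e1 : ((s / 2 : ℝ) : ℂ) * w = (s / 2 : ℝ) • w := by simp
    rw [e1, @norm_sub_sq ℝ, real_inner_smul_right]
    simp only [RCLike.re_to_real]
    ring
  have hmem : ∀ (ρ : Measure ℂ), IsProbabilityMeasure ρ → ∀ (w : ℂ),
      ProbabilityTheory.integrableExpSet (fun z : ℂ => ⟪z, w⟫_ℝ) (ρ.withDensity d) = univ := by
    intro ρ hρ w
    rw [eq_univ_iff_forall]
    intro s
    have := hfin ρ hρ
    show Integrable _ _
    rw [integrable_withDensity_iff_integrable_smul' hdm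
      (Filter.Eventually.of_forall fun z => lt_top_iff_ne_top.2 (hdt z))]
    refine Integrable.of_bound (C := Real.exp (‖((s / 2 : ℝ) : ℂ) * w‖ ^ 2)) ?_ ?_
    · apply Measurable.aestronglyMeasurable
      fun_prop
    · refine Filter.Eventually.of_forall fun z => ?_
      simp only [hd, smul_eq_mul]
      rw [ENNReal.toReal_ofReal (Real.exp_pos _).le, ← Real.exp_add, Real.norm_eq_abs,
        Real.abs_exp]
      apply Real.exp_le_exp.2
      have e1 : ((s / 2 : ℝ) : ℂ) * w = (s / 2 : ℝ) • w := by simp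
      have e2 : 0 ≤ ‖z - ((s / 2 : ℝ) : ℂ) * w‖ ^ 2 := by positivity
      rw [e1, @norm_sub_sq ℝ, real_inner_smul_right] at e2
      rw [e1]
      simp only [RCLike.re_to_real] at e2
      linarith
  have hσ : μ.withDensity d = ν.withDensity d := by
    apply Measure.ext_of_charFun
    funext w
    have h1 : ProbabilityTheory.mgf (fun z : ℂ => ⟪z, w⟫_ℝ) (μ.withDensity d) =
        ProbabilityTheory.mgf (fun z : ℂ => ⟪z, w⟫_ℝ) (ν.withDensity d) := by
      funext s
      rw [hmgf μ hμ, hmgf ν hν, h]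
    have hne : ∀ ρ : Measure ℂ, IsProbabilityMeasure ρ → ρ.withDensity d ≠ 0 := by
      intro ρ hρ h0
      rw [withDensity_eq_zero_iff hdm.aemeasurable] at h0
      have : ∀ᵐ z ∂ρ, False := h0.mono fun z hz => hd0 z hz
      simp at this
      exact (IsProbabilityMeasure.ne_zero ρ) this
    have h2 := ProbabilityTheory.eqOn_complexMGF_of_mgf' h1
      ⟨fun h0 => absurd h0 (hne μ hμ), fun h0 => absurd h0 (hne ν hν)⟩
    have h3 := h2 (show Complex.I ∈ {z : ℂ | z.re ∈ interior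
        (ProbabilityTheory.integrableExpSet (fun z : ℂ => ⟪z, w⟫_ℝ) (μ.withDensity d))} by
      rw [hmem μ hμ w]; simp)
    unfold ProbabilityTheory.complexMGF at h3
    rw [charFun_apply, charFun_apply]
    simp_rw [mul_comm Complex.I] at h3
    exact h3
  have hback : ∀ ρ : Measure ℂ, (ρ.withDensity d).withDensity (d⁻¹) = ρ := by
    intro ρ
    exact withDensity_inv_same hdm (Filter.Eventually.of_forall hd0)
      (Filter.Eventually.of_forall hdt)
  rw [← hback μ, hσ, hback ν]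

theorem gauss_ext {μ ν : Measure ℂ} (hμ : IsProbabilityMeasure μ) (hν : IsProbabilityMeasure ν)
    (h : ∀ t : ℝ, 0 < t → ∀ p : ℂ,
      ∫ z, Real.exp (-(t * ‖z - p‖ ^ 2)) ∂μ = ∫ z, Real.exp (-(t * ‖z - p‖ ^ 2)) ∂ν) : μ = ν := by
  apply uniq_gauss_aux hμ hν
  intro p
  have := h 1 one_pos p
  simpa using this

theorem uniq_prod_mix {a b : ℝ≥0∞} (ha : a ≠ ⊤) (hb : b ≠ ⊤) {μ ν : Measure ℂ}
    (hμ : IsProbabilityMeasure μ) (hν : IsProbabilityMeasure ν) :
    (a • μ + b • ν).prod (a • μ + b • ν) =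
      (a * a) • μ.prod μ + (a * b) • μ.prod ν + ((b * a) • ν.prod μ + (b * b) • ν.prod ν) := by
  have : IsFiniteMeasure (a • μ) := Measure.smul_finite μ ha
  have : IsFiniteMeasure (b • ν) := Measure.smul_finite ν hb
  rw [Measure.prod_add, Measure.add_prod, Measure.add_prod, Measure.prod_smul_left,
    Measure.prod_smul_left, Measure.prod_smul_left, Measure.prod_smul_left,
    Measure.prod_smul_right, Measure.prod_smul_right, Measure.prod_smul_right,
    Measure.prod_smul_right, smul_smul, smul_smul, smul_smul, smul_smul]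
  abel

/-- convex combinations -/
theorem FE_mix {Γ : Set ℂ} (hΓ : IsCompact Γ) {μ ν : Measure ℂ} (hμ : FE Γ μ) (hν : FE Γ ν)
    {t : ℝ} (h0 : 0 ≤ t) (h1 : t ≤ 1) :
    FE Γ (ENNReal.ofReal (1 - t) • μ + ENNReal.ofReal t • ν) := by
  have hμp := hμ.prob
  have hνp := hν.prob
  refine ⟨⟨?_⟩, ?_, ?_, ?_⟩
  · simp only [Measure.coe_add, Measure.coe_smul, Pi.add_apply, Pi.smul_apply, measure_univ,
      smul_eq_mul, mul_one]
    rw [← ENNReal.ofReal_add (by linarith) h0]
    simp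
  · simp [hμ.supp, hν.supp]
  · intro z
    simp [hμ.atom z, hν.atom z]
  · rw [uniq_prod_mix ENNReal.ofReal_ne_top ENNReal.ofReal_ne_top hμp hνp]
    refine Integrable.add_measure (Integrable.add_measure ?_ ?_) (Integrable.add_measure ?_ ?_)
    · exact hμ.int.smul_measure (ENNReal.mul_ne_top ENNReal.ofReal_ne_top ENNReal.ofReal_ne_top)
    · exact (mut_int hΓ hμ hν).smul_measure
        (ENNReal.mul_ne_top ENNReal.ofReal_ne_top ENNReal.ofReal_ne_top)
    · exact (mut_int hΓ hν hμ).smul_measure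
        (ENNReal.mul_ne_top ENNReal.ofReal_ne_top ENNReal.ofReal_ne_top)
    · exact hν.int.smul_measure (ENNReal.mul_ne_top ENNReal.ofReal_ne_top ENNReal.ofReal_ne_top)

theorem uniq_phi_int {k₁ k₂ : ℝ} (h₁ : 0 < k₁) (h₂ : 0 < k₂) {Γ : Set ℂ} (hΓ : IsCompact Γ)
    {μ : Measure ℂ} (hμ : FE Γ μ) : Integrable (phi k₁ k₂) μ := by
  have hμp := hμ.prob
  obtain ⟨C, hC⟩ := hΓ.exists_bound_of_continuousOn (phi_continuous h₁ h₂).continuousOn
  refine Integrable.of_bound (phi_continuous h₁ h₂).measurable.aestronglyMeasurable C ?_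
  have : ∀ᵐ z ∂μ, z ∈ Γ := by
    rw [ae_iff]
    exact hμ.supp
  exact this.mono fun z hz => hC z hz

theorem E_mix {k₁ k₂ : ℝ} (h₁ : 0 < k₁) (h₂ : 0 < k₂) {Γ : Set ℂ} (hΓ : IsCompact Γ)
    {μ ν : Measure ℂ} (hμ : FE Γ μ) (hν : FE Γ ν) {t : ℝ} (h0 : 0 ≤ t) (h1 : t ≤ 1) :
    E k₁ k₂ (ENNReal.ofReal (1 - t) • μ + ENNReal.ofReal t • ν) =
      (1 - t) ^ 2 * M μ μ + 2 * t * (1 - t) * M μ ν + t ^ 2 * M ν ν
        + 2 * (1 - t) * (∫ z, phi k₁ k₂ z ∂μ) + 2 * t * ∫ z, phi k₁ k₂ z ∂ν := by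
  have hμp := hμ.prob
  have hνp := hν.prob
  have ht' : (0 : ℝ) ≤ 1 - t := by linarith
  have htt : ∀ a b : ℝ, ENNReal.ofReal a * ENNReal.ofReal b ≠ ⊤ := fun a b =>
    ENNReal.mul_ne_top ENNReal.ofReal_ne_top ENNReal.ofReal_ne_top
  have e1 : M (ENNReal.ofReal (1 - t) • μ + ENNReal.ofReal t • ν)
      (ENNReal.ofReal (1 - t) • μ + ENNReal.ofReal t • ν) =
      (1 - t) ^ 2 * M μ μ + 2 * t * (1 - t) * M μ ν + t ^ 2 * M ν ν := by
    have hc : M ν μ = M μ ν := M_comm hνp hμp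
    unfold M at hc ⊢
    rw [uniq_prod_mix ENNReal.ofReal_ne_top ENNReal.ofReal_ne_top hμp hνp]
    rw [integral_add_measure, integral_add_measure, integral_add_measure,
      integral_smul_measure, integral_smul_measure, integral_smul_measure, integral_smul_measure]
    · simp only [ENNReal.toReal_mul, ENNReal.toReal_ofReal ht', ENNReal.toReal_ofReal h0,
        smul_eq_mul]
      rw [hc]
      ring
    · exact (mut_int hΓ hν hμ).smul_measure (htt _ _)
    · exact hν.int.smul_measure (htt _ _)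
    · exact hμ.int.smul_measure (htt _ _)
    · exact (mut_int hΓ hμ hν).smul_measure (htt _ _)
    · exact (hμ.int.smul_measure (htt _ _)).add_measure
        ((mut_int hΓ hμ hν).smul_measure (htt _ _))
    · exact ((mut_int hΓ hν hμ).smul_measure (htt _ _)).add_measure
        (hν.int.smul_measure (htt _ _))
  have e2 : ∫ z, phi k₁ k₂ z ∂(ENNReal.ofReal (1 - t) • μ + ENNReal.ofReal t • ν) =
      (1 - t) * (∫ z, phi k₁ k₂ z ∂μ) + t * ∫ z, phi k₁ k₂ z ∂ν := by
    rw [integral_add_measure, integral_smul_measure, integral_smul_measure]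
    · simp only [ENNReal.toReal_ofReal ht', ENNReal.toReal_ofReal h0, smul_eq_mul]
    · exact (uniq_phi_int h₁ h₂ hΓ hμ).smul_measure ENNReal.ofReal_ne_top
    · exact (uniq_phi_int h₁ h₂ hΓ hν).smul_measure ENNReal.ofReal_ne_top
  unfold E
  rw [e1, e2]
  ring

theorem IsEq_unique {k₁ k₂ : ℝ} (h₁ : 0 < k₁) (h₂ : 0 < k₂) {Γ : Set ℂ} (hΓ : IsCompact Γ)
    {l l' : Measure ℂ} (hl : IsEq k₁ k₂ Γ l) (hl' : FE Γ l') (h : E k₁ k₂ l' ≤ E k₁ k₂ l) :
    l' = l := by
  have hmin := hl.min l' hl'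
  have hmix := hl.min _ (FE_mix hΓ hl.fe hl' (t := 1 / 2) (by norm_num) (by norm_num))
  rw [E_mix h₁ h₂ hΓ hl.fe hl' (by norm_num) (by norm_num)] at hmix
  have hle := mut_le hΓ hl.fe hl'
  have heq : 2 * M l l' = M l l + M l' l' := by
    unfold E at h hmin hmix
    nlinarith
  exact (gauss_ext hl.fe.prob hl'.prob fun t ht p => mut_reg_le hΓ hl.fe hl' heq ht p).symm

end Pool.Agent.H5.AF
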