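import Pool.Agent.H5.AF.Defs
import Pool.Agent.H5.AF.Cmp
import Pool.Agent.H5.AF.Uniq
set_option autoImplicit false
open MeasureTheory Set Filter Topology
open scoped ENNReal NNReal

namespace Pool.Agent.H5.AF

/-!
Part EQUI. Existence of equilibrium measures and stability of near minimisers.
Paper proof: `E` is bounded below on `FE Γ`; take a minimising sequence and `compactness`.
Stability: every subsequence has a further subsequence with limit `μ'`, `E μ' ≤ E l`, so `μ' = l`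
by `IsEq_unique`; hence the whole sequence converges (`tendsto_of_subseq_tendsto`).
-/

/-- The energy is bounded below on the measures carried by a compact set. -/
theorem equi_bdd {Γ : Set ℂ} (hΓ : IsCompact Γ) {k₁ k₂ : ℝ} (h₁ : 0 < k₁) (h₂ : 0 < k₂) :
    ∃ c : ℝ, ∀ μ, FE Γ μ → c ≤ E k₁ k₂ μ := by
  obtain ⟨R, hR⟩ := hΓ.isBounded.exists_norm_le
  refine ⟨-(2 * R) + 2 * (-(max k₁ k₂ * R)), fun μ hμ => ?_⟩
  have := hμ.prob
  have hae : ∀ᵐ z ∂μ, z ∈ Γ := by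
    rw [ae_iff]
    exact hμ.supp
  have h1 : -(2 * R) ≤ M μ μ := by
    have hae2 : ∀ᵐ p ∂(μ.prod μ), -(2 * R) ≤ K p.1 p.2 := by
      have e1 : ∀ᵐ p ∂(μ.prod μ), p.1 ∈ Γ :=
        Measure.quasiMeasurePreserving_fst.ae hae
      have e2 : ∀ᵐ p ∂(μ.prod μ), p.2 ∈ Γ :=
        Measure.quasiMeasurePreserving_snd.ae hae
      filter_upwards [e1, e2] with p hp1 hp2
      exact K_ge (hR _ hp1) (hR _ hp2)
    have h := integral_mono_ae (integrable_const (-(2 * R))) hμ.int hae2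
    simpa [M] using h
  have h2 : -(max k₁ k₂ * R) ≤ ∫ z, phi k₁ k₂ z ∂μ := by
    have hb : ∀ᵐ z ∂μ, -(max k₁ k₂ * R) ≤ phi k₁ k₂ z := by
      filter_upwards [hae] with z hz
      refine le_trans ?_ (le_phi h₁ h₂ z)
      have hz2 : |z.re| ≤ R := (Complex.abs_re_le_norm z).trans (hR z hz)
      have hk : 0 ≤ max k₁ k₂ := h₁.le.trans (le_max_left _ _)
      have := mul_le_mul_of_nonneg_left hz2 hk
      linarith
    have hint : Integrable (phi k₁ k₂) μ := by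
      refine Integrable.of_bound (phi_continuous h₁ h₂).aestronglyMeasurable (max k₁ k₂ * R) ?_
      filter_upwards [hb] with z hz
      rw [Real.norm_eq_abs, abs_of_nonpos (phi_nonpos h₁ h₂ z)]
      linarith
    have h := integral_mono_ae (integrable_const (-(max k₁ k₂ * R))) hint hb
    simpa using h
  unfold E
  linarith

theorem exists_eq {Γ : Set ℂ} (hΓ : IsCompact Γ) {k₁ k₂ : ℝ} (h₁ : 0 < k₁) (h₂ : 0 < k₂)
    (hne : ∃ μ, FE Γ μ) : ∃ l, IsEq k₁ k₂ Γ l := by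
  obtain ⟨c, hc⟩ := equi_bdd hΓ h₁ h₂
  obtain ⟨μ₀, hμ₀⟩ := hne
  set S : Set ℝ := {x | ∃ μ, FE Γ μ ∧ E k₁ k₂ μ = x} with hS
  have hSne : S.Nonempty := ⟨_, μ₀, hμ₀, rfl⟩
  have hSb : BddBelow S := ⟨c, by rintro x ⟨μ, hμ, rfl⟩; exact hc μ hμ⟩
  have hex : ∀ n : ℕ, ∃ μ, FE Γ μ ∧ E k₁ k₂ μ ≤ sInf S + 1 / ((n : ℝ) + 1) := by
    intro n
    have hpos : (0 : ℝ) < 1 / ((n : ℝ) + 1) := by positivity
    obtain ⟨x, ⟨μ, hμ, rfl⟩, hx⟩ := exists_lt_of_csInf_lt hSne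
      (lt_add_of_pos_right (sInf S) hpos)
    exact ⟨μ, hμ, hx.le⟩
  choose μ hμ hμe using hex
  have hlim : Tendsto (fun n : ℕ => sInf S + 1 / ((n : ℝ) + 1)) atTop (𝓝 (sInf S)) := by
    have := tendsto_one_div_add_atTop_nhds_zero_nat (𝕜 := ℝ)
    simpa using this.const_add (sInf S)
  obtain ⟨φ, l, -, hl, hle, -⟩ := compactness hΓ h₁ h₂ hμ hμe hlim
  exact ⟨l, hl, fun ν hν => hle.trans (csInf_le hSb ⟨ν, hν, rfl⟩)⟩

theorem stab {Γ : Set ℂ} (hΓ : IsCompact Γ) {k₁ k₂ : ℝ} (h₁ : 0 < k₁) (h₂ : 0 < k₂)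
    {l : Measure ℂ} (hl : IsEq k₁ k₂ Γ l) {μ : ℕ → Measure ℂ} (hμ : ∀ n, FE Γ (μ n))
    {e : ℕ → ℝ} (he : ∀ n, E k₁ k₂ (μ n) ≤ e n) (hB : Tendsto e atTop (𝓝 (E k₁ k₂ l)))
    {q : ℂ × ℂ → ℝ} (hq : Continuous q) :
    Tendsto (fun n => ∫ p, q p ∂((μ n).prod (μ n))) atTop (𝓝 (∫ p, q p ∂(l.prod l))) := by
  refine tendsto_of_subseq_tendsto fun ns hns => ?_
  obtain ⟨φ, μ', -, hμ', hle, hlim⟩ := compactness hΓ h₁ h₂ (μ := fun n => μ (ns n))
    (fun n => hμ _) (e := fun n => e (ns n)) (fun n => he _) (hB.comp hns)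
  have h := IsEq_unique h₁ h₂ hΓ hl hμ' hle
  subst h
  exact ⟨φ, hlim q hq⟩

end Pool.Agent.H5.AF
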