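import Pool.Agent.H5.AF.Defs
import Pool.Agent.H5.AF.EnvA
import Pool.Agent.H5.AF.Equi
import Pool.Agent.H5.AF.Dom
set_option autoImplicit false
open MeasureTheory Set Filter Topology
open scoped ENNReal NNReal

namespace Pool.Agent.H5.AF

/-!
Part ENVB. The envelope inequality for a finite `s`.
Paper proof: `Γ' = TT β s '' Γ` is in the class (`TT_cls`), has an equilibrium measure `l'`
(`exists_eq`, `cls_FE`) and `E l' ≤ E l` by maximality. `μ = l'.map (SS β s)` is `FE Γ`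
(`K a b ≤ K (T a) (T b) + const` by `K_TT_ge` and `qk_le`; `K ≥ -2R` on `Γ`), `l' = μ.map (TT β s)`, and
`E l' = ∬ K (T a) (T b) dμ dμ + 2 ∫ φ (T z) dμ ≥ E μ - s ∬ qk dμ dμ - s² C + 2 s κ ∫ β² |re| dμ`.
Since `E l' ≤ E l ≤ E μ` (`hl.eq.min`) the third item follows on dividing by `s`; the second item
from `E μ ≤ E l' + s ∬ qk + s² C ≤ E l + C' s`.
-/

theorem ENVB_bdd {Γ : Set ℂ} (hΓ : IsCompact Γ) : ∃ R : ℝ, 0 ≤ R ∧ ∀ z ∈ Γ, ‖z‖ ≤ R := by
  obtain ⟨R, hR⟩ := hΓ.isBounded.subset_closedBall (0 : ℂ)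
  refine ⟨max R 0, le_max_right _ _, fun z hz => ?_⟩
  have := hR hz
  rw [Metric.mem_closedBall, dist_zero_right] at this
  exact this.trans (le_max_left _ _)

theorem ENVB_ae {Γ : Set ℂ} {μ : Measure ℂ} (h : μ Γᶜ = 0) : ∀ᵐ z ∂μ, z ∈ Γ := by
  rw [ae_iff]
  exact h

theorem ENVB_ae2 {Γ : Set ℂ} {μ : Measure ℂ} [IsProbabilityMeasure μ] (h : μ Γᶜ = 0) :
    ∀ᵐ p ∂(μ.prod μ), p.1 ∈ Γ ∧ p.2 ∈ Γ := by
  have h1 : ∀ᵐ p ∂(μ.prod μ), p.1 ∈ Γ := by
    exact (Measure.quasiMeasurePreserving_fst (μ := μ) (ν := μ)).ae (ENVB_ae h)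
  have h2 : ∀ᵐ p ∂(μ.prod μ), p.2 ∈ Γ := by
    exact (Measure.quasiMeasurePreserving_snd (μ := μ) (ν := μ)).ae (ENVB_ae h)
  filter_upwards [h1, h2] with p hp1 hp2
  exact ⟨hp1, hp2⟩

theorem ENVB_diag {μ : Measure ℂ} [IsProbabilityMeasure μ] (h : ∀ z, μ {z} = 0) :
    ∀ᵐ p ∂(μ.prod μ), p.1 ≠ p.2 := by
  rw [ae_iff]
  have hm : MeasurableSet {p : ℂ × ℂ | ¬ (p.1 ≠ p.2)} := by
    have : {p : ℂ × ℂ | ¬ (p.1 ≠ p.2)} = {p : ℂ × ℂ | p.1 = p.2} := by
      ext p; simp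
    rw [this]
    exact (isClosed_eq continuous_fst continuous_snd).measurableSet
  rw [Measure.prod_apply hm]
  rw [lintegral_eq_zero_iff (measurable_measure_prodMk_left hm)]
  refine Filter.Eventually.of_forall fun z => ?_
  have : (Prod.mk z ⁻¹' {p : ℂ × ℂ | ¬ (p.1 ≠ p.2)}) = {z} := by
    ext w
    simp only [mem_preimage, mem_ofPred_eq, mem_singleton_iff, not_not]
    exact eq_comm
  show μ (Prod.mk z ⁻¹' {p : ℂ × ℂ | ¬ (p.1 ≠ p.2)}) = 0
  rw [this]
  exact h z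

theorem ENVB_FE {Γ : Set ℂ} (hΓ : IsCompact Γ) {β : ℝ → ℝ} {L : ℝ≥0} (hL : LipschitzWith L β)
    (h01 : ∀ y, 0 ≤ β y ∧ β y ≤ 1) {s : ℝ} (h0 : 0 ≤ s) (h1 : s ≤ 1 / 2) {l' : Measure ℂ}
    (hl' : FE (TT β s '' Γ) l') : FE Γ (l'.map (SS β s)) := by
  have hβ : Continuous β := hL.continuous
  have hT := TT_continuous hβ s
  have hS := SS_continuous hβ h01 h0 h1
  have := hl'.prob
  obtain ⟨R, hR0, hR⟩ := ENVB_bdd hΓ
  have hSΓ : ∀ z ∈ TT β s '' Γ, SS β s z ∈ Γ := by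
    rintro z ⟨a, ha, rfl⟩
    rw [SS_TT h01 h0 h1]
    exact ha
  refine ⟨?_, ?_, ?_, ?_⟩
  · exact Measure.isProbabilityMeasure_map hS.measurable.aemeasurable
  · rw [Measure.map_apply hS.measurable hΓ.isClosed.measurableSet.compl]
    refine measure_mono_null ?_ hl'.supp
    intro z hz hz'
    exact hz (hSΓ z hz')
  · intro z
    rw [Measure.map_apply hS.measurable (measurableSet_singleton z)]
    refine measure_mono_null ?_ (hl'.atom (TT β s z))
    intro w hw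
    have hw' : SS β s w = z := hw
    show w = TT β s z
    rw [← hw', TT_SS h01 h0 h1]
  · have hprod : (l'.map (SS β s)).prod (l'.map (SS β s)) =
        (l'.prod l').map (Prod.map (SS β s) (SS β s)) :=
      (Measure.map_prod_map l' l' hS.measurable hS.measurable)
    rw [hprod]
    rw [integrable_map_measure measurable_K.aestronglyMeasurable
      (hS.measurable.prodMap hS.measurable).aemeasurable]
    have hb : Integrable (fun p : ℂ × ℂ => |K p.1 p.2| + (2 * R + s * (L ^ 2 * (R * R)) +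
        s ^ 2 * (1 + 2 * L * R) ^ 2)) (l'.prod l') :=
      hl'.int.abs.add (integrable_const _)
    refine hb.mono' ?_ ?_
    · exact (measurable_K.comp (hS.measurable.prodMap hS.measurable)).aestronglyMeasurable
    · filter_upwards [ENVB_ae2 hl'.supp, ENVB_diag hl'.atom] with p hp hne
      have ha := hSΓ _ hp.1
      have hb := hSΓ _ hp.2
      have hab : SS β s p.1 ≠ SS β s p.2 := by
        intro h
        apply hne
        rw [← TT_SS h01 h0 h1 p.1, ← TT_SS h01 h0 h1 p.2, h]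
      have k1 := K_TT_ge hL h01 hR0 h0 h1 hab (hR _ ha) (hR _ hb)
      rw [TT_SS h01 h0 h1, TT_SS h01 h0 h1] at k1
      have k2 := K_ge (hR _ ha) (hR _ hb)
      have k3 := qk_le hL (SS β s p.1, SS β s p.2)
      have k4 : |(SS β s p.1).re| * |(SS β s p.2).re| ≤ R * R := by
        have e1 := (Complex.abs_re_le_norm (SS β s p.1)).trans (hR _ ha)
        have e2 := (Complex.abs_re_le_norm (SS β s p.2)).trans (hR _ hb)
        exact mul_le_mul e1 e2 (abs_nonneg _) hR0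
      have k5 : qk β (SS β s p.1, SS β s p.2) ≤ L ^ 2 * (R * R) :=
        k3.trans (mul_le_mul_of_nonneg_left k4 (by positivity))
      have k6 : s * qk β (SS β s p.1, SS β s p.2) ≤ s * (L ^ 2 * (R * R)) :=
        mul_le_mul_of_nonneg_left k5 h0
      have k7 : 0 ≤ s * (L ^ 2 * (R * R)) + s ^ 2 * (1 + 2 * L * R) ^ 2 := by positivity
      have k8 : K p.1 p.2 ≤ |K p.1 p.2| := le_abs_self _
      have k9 : 0 ≤ |K p.1 p.2| := abs_nonneg _
      show ‖K (SS β s p.1) (SS β s p.2)‖ ≤ _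
      rw [Real.norm_eq_abs, abs_le]
      constructor
      · linarith
      · linarith

theorem envB {k₁ k₂ ε₁ ε₂ : ℝ} (h₁ : 0 < k₁) (h₂ : 0 < k₂) {Γ : Set ℂ} {l : Measure ℂ}
    (hl : RMax k₁ k₂ ε₁ ε₂ Γ l) {β : ℝ → ℝ} {L : ℝ≥0} (hL : LipschitzWith L β)
    (h01 : ∀ y, 0 ≤ β y ∧ β y ≤ 1) (hs : ∀ y, 1 ≤ |y| → β y = 0) :
    ∃ C : ℝ, ∀ s : ℝ, 0 < s → s ≤ 1 / 2 → ∃ μ : Measure ℂ, FE Γ μ ∧
      E k₁ k₂ μ ≤ E k₁ k₂ l + C * s ∧
      2 * min k₁ k₂ * ∫ z, (β z.im) ^ 2 * |z.re| ∂μ ≤ ∫ p, qk β p ∂(μ.prod μ) + C * s := by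
  have hβ : Continuous β := hL.continuous
  have hΓ : IsCompact Γ := hl.cls.1
  obtain ⟨R, hR0, hR⟩ := ENVB_bdd hΓ
  refine ⟨L ^ 2 * (R * R) + (1 + 2 * L * R) ^ 2, fun s hs0 hs1 => ?_⟩
  have h0 := hs0.le
  have hT := TT_continuous hβ s
  have hS := SS_continuous hβ h01 h0 hs1
  have hcls' := TT_cls hl.cls hβ hs s
  obtain ⟨l', hl'⟩ := exists_eq hcls'.1 h₁ h₂ (cls_FE hcls')
  have hmax := hl.max _ l' hcls' hl'
  have := hl'.fe.prob
  set μ : Measure ℂ := l'.map (SS β s) with hμdef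
  have hμ : FE Γ μ := ENVB_FE hΓ hL h01 h0 hs1 hl'.fe
  have := hμ.prob
  have hmap : μ.map (TT β s) = l' := by
    rw [hμdef, Measure.map_map hT.measurable hS.measurable]
    have : TT β s ∘ SS β s = id := by
      funext z
      exact TT_SS h01 h0 hs1 z
    rw [this, Measure.map_id]
  have hprod : l'.prod l' = (μ.prod μ).map (Prod.map (TT β s) (TT β s)) := by
    have := Measure.map_prod_map μ μ hT.measurable hT.measurable
    rw [hmap] at this
    exact this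
  have hTT := hT.measurable.prodMap hT.measurable
  -- mutual energy of `l'`
  have hintK : Integrable (fun p : ℂ × ℂ => K (TT β s p.1) (TT β s p.2)) (μ.prod μ) := by
    have := hl'.fe.int
    rw [hprod, integrable_map_measure measurable_K.aestronglyMeasurable hTT.aemeasurable] at this
    exact this
  have hM' : M l' l' = ∫ p : ℂ × ℂ, K (TT β s p.1) (TT β s p.2) ∂(μ.prod μ) := by
    unfold M
    rw [hprod, integral_map hTT.aemeasurable measurable_K.aestronglyMeasurable]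
    rfl
  have hphi' : ∫ z, phi k₁ k₂ z ∂l' = ∫ z, phi k₁ k₂ (TT β s z) ∂μ := by
    rw [← hmap, integral_map hT.measurable.aemeasurable
      (phi_continuous h₁ h₂).aestronglyMeasurable]
  -- measurability and bounds
  have hqm : Measurable (qk β) := by
    unfold qk
    have hβm := hβ.measurable
    fun_prop
  have hqb : ∀ᵐ p ∂(μ.prod μ), qk β p ≤ L ^ 2 * (R * R) := by
    filter_upwards [ENVB_ae2 hμ.supp] with p hp
    refine (qk_le hL p).trans (mul_le_mul_of_nonneg_left ?_ (by positivity))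
    exact mul_le_mul ((Complex.abs_re_le_norm _).trans (hR _ hp.1))
      ((Complex.abs_re_le_norm _).trans (hR _ hp.2)) (abs_nonneg _) hR0
  have hqi : Integrable (qk β) (μ.prod μ) := by
    refine (integrable_const (L ^ 2 * (R * R) : ℝ)).mono' hqm.aestronglyMeasurable ?_
    filter_upwards [hqb] with p hp
    rw [Real.norm_eq_abs, abs_of_nonneg (qk_nonneg β p)]
    exact hp
  have hQ : ∫ p, qk β p ∂(μ.prod μ) ≤ L ^ 2 * (R * R) := by
    have := integral_mono_ae hqi (integrable_const (L ^ 2 * (R * R) : ℝ)) hqb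
    simpa using this
  -- integrability of the linear terms
  have hbd : ∀ f : ℂ → ℝ, Continuous f → Integrable f μ := by
    intro f hf
    obtain ⟨B, hB⟩ := hΓ.exists_bound_of_continuousOn hf.continuousOn
    refine (integrable_const B).mono' hf.aestronglyMeasurable ?_
    filter_upwards [ENVB_ae hμ.supp] with z hz
    exact hB z hz
  have hbc : Continuous fun z : ℂ => (β z.im) ^ 2 * |z.re| := by fun_prop
  have hBi := hbd _ hbc
  have hφi := hbd _ (phi_continuous h₁ h₂)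
  have hφTi := hbd (fun z => phi k₁ k₂ (TT β s z)) ((phi_continuous h₁ h₂).comp hT)
  have hφge : ∫ z, phi k₁ k₂ z ∂μ + s * min k₁ k₂ * ∫ z, (β z.im) ^ 2 * |z.re| ∂μ ≤
      ∫ z, phi k₁ k₂ (TT β s z) ∂μ := by
    rw [← integral_const_mul, ← integral_add hφi (hBi.const_mul _)]
    exact integral_mono (hφi.add (hBi.const_mul _)) hφTi fun z => phi_TT h₁ h₂ h01 h0 hs1 z
  have hKge : M μ μ - s * ∫ p, qk β p ∂(μ.prod μ) - s ^ 2 * (1 + 2 * L * R) ^ 2 ≤
      ∫ p : ℂ × ℂ, K (TT β s p.1) (TT β s p.2) ∂(μ.prod μ) := by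
    have hI0 : Integrable (fun p : ℂ × ℂ => K p.1 p.2 - s * qk β p) (μ.prod μ) :=
      hμ.int.sub (hqi.const_mul _)
    have hI : Integrable (fun p : ℂ × ℂ => K p.1 p.2 - s * qk β p - s ^ 2 * (1 + 2 * L * R) ^ 2)
        (μ.prod μ) := hI0.sub (integrable_const _)
    have heq : ∫ p : ℂ × ℂ, (K p.1 p.2 - s * qk β p - s ^ 2 * (1 + 2 * L * R) ^ 2) ∂(μ.prod μ) =
        M μ μ - s * ∫ p, qk β p ∂(μ.prod μ) - s ^ 2 * (1 + 2 * L * R) ^ 2 := by
      rw [integral_sub hI0 (integrable_const _),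
        integral_sub hμ.int (hqi.const_mul _), integral_const_mul]
      simp [M]
    rw [← heq]
    refine integral_mono_ae hI hintK ?_
    filter_upwards [ENVB_ae2 hμ.supp, ENVB_diag hμ.atom] with p hp hne
    exact K_TT_ge hL h01 hR0 h0 hs1 hne (hR _ hp.1) (hR _ hp.2)
  have hE' : E k₁ k₂ l' = (∫ p : ℂ × ℂ, K (TT β s p.1) (TT β s p.2) ∂(μ.prod μ)) +
      2 * ∫ z, phi k₁ k₂ (TT β s z) ∂μ := by
    unfold E
    rw [hM', hphi']
  have hEμ : E k₁ k₂ μ = M μ μ + 2 * ∫ z, phi k₁ k₂ z ∂μ := rfl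
  have hmin := hl.eq.min μ hμ
  have hB0 : 0 ≤ ∫ z, (β z.im) ^ 2 * |z.re| ∂μ := integral_nonneg fun z => by positivity
  have hκ : 0 < min k₁ k₂ := lt_min h₁ h₂
  set Q := ∫ p, qk β p ∂(μ.prod μ) with hQdef
  set B := ∫ z, (β z.im) ^ 2 * |z.re| ∂μ with hBdef
  set C₀ : ℝ := (1 + 2 * L * R) ^ 2 with hC₀
  have hC₀0 : 0 ≤ C₀ := by positivity
  -- main inequality
  have hmain : E k₁ k₂ μ - s * Q - s ^ 2 * C₀ + 2 * (s * min k₁ k₂ * B) ≤ E k₁ k₂ l' := by
    rw [hE', hEμ]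
    linarith
  have hs2 : s ^ 2 * C₀ ≤ s * C₀ := by
    have : s ^ 2 ≤ s := by nlinarith
    exact mul_le_mul_of_nonneg_right this hC₀0
  refine ⟨μ, hμ, ?_, ?_⟩
  · have e1 : s * Q ≤ s * (L ^ 2 * (R * R)) := mul_le_mul_of_nonneg_left hQ h0
    have e2 : 0 ≤ s * min k₁ k₂ * B := by positivity
    nlinarith
  · have e3 : s * (2 * min k₁ k₂ * B) ≤ s * (Q + C₀ * s) := by nlinarith
    have e4 := le_of_mul_le_mul_left e3 hs0
    have e5 : 0 ≤ L ^ 2 * (R * R) * s := by positivity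
    nlinarith

end Pool.Agent.H5.AF
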