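import Pool.Agent.H5.AF.Defs
import Pool.Agent.H5.AF.EnvB
set_option autoImplicit false
open MeasureTheory Set Filter Topology
open scoped ENNReal NNReal

namespace Pool.Agent.H5.AF

/-!
Part ENVC. The envelope inequality.
Paper proof: apply `envB` with `s = 1/(n+2)`, and `stab`. For `δ > 0` let
`q_δ = ((β-β')² + L² δ) / (‖a-b‖² + δ) * (|re||re'|)`: continuous on `ℂ × ℂ`,
`q_δ ≥ qk` (as `(β-β')² ≤ L² ‖a-b‖²`), so in the limit
`2κ ∫ β²|re| dl ≤ ∬ q_δ dl dl` (the left side: `stab` with `q p = β(im p.1)² |re p.1|`);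
then `δ → 0` by dominated convergence (`l × l` does not charge the diagonal).
Finally `qk ≤ (β-β')²/(y-y')² |x||x'|` (denominator `‖a-b‖² ≥ (y-y')²`; if `y = y'`, both
sides are `0`), everything bounded by `L² R²` on `Γ`.
-/

theorem envC_ae {Γ : Set ℂ} {μ : Measure ℂ} [IsProbabilityMeasure μ] (hs : μ Γᶜ = 0) :
    ∀ᵐ p ∂(μ.prod μ), p.1 ∈ Γ ∧ p.2 ∈ Γ := by
  have h1 : ∀ᵐ z ∂μ, z ∈ Γ := by
    rw [ae_iff]; exact hs
  have h2 : ∀ᵐ p ∂(μ.prod μ), p.1 ∈ Γ := Measure.quasiMeasurePreserving_fst.ae h1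
  have h3 : ∀ᵐ p ∂(μ.prod μ), p.2 ∈ Γ := Measure.quasiMeasurePreserving_snd.ae h1
  filter_upwards [h2, h3] with p a b using ⟨a, b⟩

theorem envC_int {Γ : Set ℂ} {μ : Measure ℂ} [IsProbabilityMeasure μ] (hs : μ Γᶜ = 0)
    {f : ℂ × ℂ → ℝ} (hf : Measurable f) {C : ℝ}
    (hb : ∀ z ∈ Γ, ∀ w ∈ Γ, |f (z, w)| ≤ C) : Integrable f (μ.prod μ) := by
  refine Integrable.of_bound hf.aestronglyMeasurable C ?_
  filter_upwards [envC_ae hs] with p hp
  exact hb p.1 hp.1 p.2 hp.2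

theorem envC_diag {μ : Measure ℂ} [IsProbabilityMeasure μ] (ha : ∀ z, μ {z} = 0) :
    ∀ᵐ p ∂(μ.prod μ), p.1 ≠ p.2 := by
  rw [ae_iff]
  simp only [ne_eq, not_not]
  rw [Measure.measure_prod_null (measurableSet_eq_fun measurable_fst measurable_snd)]
  refine Eventually.of_forall (fun z => ?_)
  have : Prod.mk z ⁻¹' {p : ℂ × ℂ | p.1 = p.2} = {z} := by
    ext w; simp [eq_comm]
  show μ (Prod.mk z ⁻¹' {p : ℂ × ℂ | p.1 = p.2}) = 0
  rw [this]; exact ha z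

theorem envC_tends : Tendsto (fun n : ℕ => 1 / ((n : ℝ) + 2)) atTop (𝓝 0) := by
  have h : Tendsto (fun n : ℕ => ((n : ℝ) + 2)) atTop atTop :=
    tendsto_atTop_add_const_right _ _ tendsto_natCast_atTop_atTop
  simp only [one_div]
  exact h.inv_tendsto_atTop

/-- the regularised kernel -/
noncomputable def envC_q (β : ℝ → ℝ) (L δ : ℝ) (p : ℂ × ℂ) : ℝ :=
  ((β p.1.im - β p.2.im) ^ 2 + L ^ 2 * δ) / (‖p.1 - p.2‖ ^ 2 + δ) * (|p.1.re| * |p.2.re|)

theorem envC_sq_le {β : ℝ → ℝ} {L : ℝ≥0} (hL : LipschitzWith L β) (a b : ℝ) :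
    (β a - β b) ^ 2 ≤ (L : ℝ) ^ 2 * (a - b) ^ 2 := by
  have h := hL.dist_le_mul a b
  rw [Real.dist_eq, Real.dist_eq] at h
  have h2 : |β a - β b| ^ 2 ≤ ((L : ℝ) * |a - b|) ^ 2 := by gcongr
  rw [sq_abs, mul_pow, sq_abs] at h2
  exact h2

theorem envC_im_sq (p : ℂ × ℂ) : (p.1.im - p.2.im) ^ 2 ≤ ‖p.1 - p.2‖ ^ 2 := by
  have h := Complex.abs_im_le_norm (p.1 - p.2)
  rw [Complex.sub_im] at h
  rw [← sq_abs (p.1.im - p.2.im)]
  gcongr

theorem envC_q_cont {β : ℝ → ℝ} (hβ : Continuous β) (L : ℝ) {δ : ℝ} (hδ : 0 < δ) :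
    Continuous (envC_q β L δ) := by
  unfold envC_q
  refine Continuous.mul (Continuous.div ?_ ?_ ?_) ?_
  · fun_prop
  · fun_prop
  · intro p; positivity
  · fun_prop

theorem envC_qk_le_q {β : ℝ → ℝ} {L : ℝ≥0} (hL : LipschitzWith L β) {δ : ℝ} (hδ : 0 < δ)
    (p : ℂ × ℂ) : qk β p ≤ envC_q β L δ p := by
  unfold qk envC_q
  refine mul_le_mul_of_nonneg_right ?_ (by positivity)
  have hB : (β p.1.im - β p.2.im) ^ 2 ≤ (L : ℝ) ^ 2 * ‖p.1 - p.2‖ ^ 2 :=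
    (envC_sq_le hL _ _).trans (mul_le_mul_of_nonneg_left (envC_im_sq p) (by positivity))
  rcases eq_or_lt_of_le (sq_nonneg ‖p.1 - p.2‖) with h0 | h0
  · rw [← h0, div_zero]; positivity
  · rw [div_le_div_iff₀ h0 (by positivity)]
    nlinarith [mul_le_mul_of_nonneg_right hB hδ.le]

theorem envC_q_le {β : ℝ → ℝ} {L : ℝ≥0} (hL : LipschitzWith L β) {δ : ℝ} (hδ : 0 < δ)
    (p : ℂ × ℂ) : envC_q β L δ p ≤ (L : ℝ) ^ 2 * (|p.1.re| * |p.2.re|) := by
  unfold envC_q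
  refine mul_le_mul_of_nonneg_right ?_ (by positivity)
  have hB : (β p.1.im - β p.2.im) ^ 2 ≤ (L : ℝ) ^ 2 * ‖p.1 - p.2‖ ^ 2 :=
    (envC_sq_le hL _ _).trans (mul_le_mul_of_nonneg_left (envC_im_sq p) (by positivity))
  rw [div_le_iff₀ (by positivity)]
  nlinarith

theorem envC_q_nonneg (β : ℝ → ℝ) (L : ℝ) {δ : ℝ} (hδ : 0 < δ) (p : ℂ × ℂ) :
    0 ≤ envC_q β L δ p := by
  unfold envC_q; positivity

theorem envelope {k₁ k₂ ε₁ ε₂ : ℝ} (h₁ : 0 < k₁) (h₂ : 0 < k₂) {Γ : Set ℂ} {l : Measure ℂ}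
    (hl : RMax k₁ k₂ ε₁ ε₂ Γ l) {β : ℝ → ℝ} {L : ℝ≥0} (hL : LipschitzWith L β)
    (h01 : ∀ y, 0 ≤ β y ∧ β y ≤ 1) (hs : ∀ y, 1 ≤ |y| → β y = 0) :
    2 * min k₁ k₂ * ∫ z, (β z.im) ^ 2 * |z.re| ∂l ≤
      ∫ p : ℂ × ℂ, (β p.1.im - β p.2.im) ^ 2 / (p.1.im - p.2.im) ^ 2 * (|p.1.re| * |p.2.re|)
        ∂(l.prod l) := by
  have hβ : Continuous β := hL.continuous
  have hlp : IsProbabilityMeasure l := hl.eq.fe.prob
  have hΓ : IsCompact Γ := hl.cls.1
  obtain ⟨R, hR⟩ := hΓ.isBounded.exists_norm_le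
  have hΓne : Γ.Nonempty := hl.cls.2.1.nonempty
  have hR0 : 0 ≤ R := by obtain ⟨z, hz⟩ := hΓne; exact (norm_nonneg z).trans (hR z hz)
  have hre : ∀ z ∈ Γ, |z.re| ≤ R := fun z hz => (Complex.abs_re_le_norm z).trans (hR z hz)
  have hre2 : ∀ z ∈ Γ, ∀ w ∈ Γ, |z.re| * |w.re| ≤ R * R := fun z hz w hw =>
    mul_le_mul (hre z hz) (hre w hw) (abs_nonneg _) hR0
  obtain ⟨C, hC⟩ := envB h₁ h₂ hl hL h01 hs
  have hsn : ∀ n : ℕ, (0 : ℝ) < 1 / ((n : ℝ) + 2) ∧ 1 / ((n : ℝ) + 2) ≤ 1 / 2 := by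
    intro n
    refine ⟨by positivity, ?_⟩
    apply one_div_le_one_div_of_le (by norm_num)
    have : (0 : ℝ) ≤ n := Nat.cast_nonneg n
    linarith
  choose μ hFE hE hin using fun n : ℕ => hC (1 / ((n : ℝ) + 2)) (hsn n).1 (hsn n).2
  have hs0 : Tendsto (fun n : ℕ => C * (1 / ((n : ℝ) + 2))) atTop (𝓝 0) := by
    have := envC_tends.const_mul C
    rwa [mul_zero] at this
  have hB : Tendsto (fun n : ℕ => E k₁ k₂ l + C * (1 / ((n : ℝ) + 2))) atTop
      (𝓝 (E k₁ k₂ l)) := by simpa using hs0.const_add (E k₁ k₂ l)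
  have hprod : ∀ (m : Measure ℂ) [IsProbabilityMeasure m],
      ∫ p : ℂ × ℂ, (β p.1.im) ^ 2 * |p.1.re| ∂(m.prod m) = ∫ z, (β z.im) ^ 2 * |z.re| ∂m := by
    intro m _
    have := integral_prod_mul (μ := m) (ν := m) (fun z : ℂ => (β z.im) ^ 2 * |z.re|)
      (fun _ : ℂ => (1 : ℝ))
    simpa using this
  have hlim1 : Tendsto (fun n => ∫ z, (β z.im) ^ 2 * |z.re| ∂(μ n)) atTop
      (𝓝 (∫ z, (β z.im) ^ 2 * |z.re| ∂l)) := by
    have h := stab hΓ h₁ h₂ hl.eq hFE hE hB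
      (q := fun p : ℂ × ℂ => (β p.1.im) ^ 2 * |p.1.re|) (by fun_prop)
    rw [hprod l] at h
    refine h.congr (fun n => ?_)
    have := (hFE n).prob
    exact hprod (μ n)
  have hmeas_qk : Measurable (qk β) := by
    have hβm : Measurable β := hβ.measurable
    unfold qk; fun_prop
  -- step 1 : inequality with the regularised kernel
  have key : ∀ δ : ℝ, 0 < δ → 2 * min k₁ k₂ * ∫ z, (β z.im) ^ 2 * |z.re| ∂l ≤
      ∫ p, envC_q β L δ p ∂(l.prod l) := by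
    intro δ hδ
    have hlim2 := stab hΓ h₁ h₂ hl.eq hFE hE hB (envC_q_cont hβ (L : ℝ) hδ)
    have hlim3 := hlim2.add hs0
    rw [add_zero] at hlim3
    refine le_of_tendsto_of_tendsto (hlim1.const_mul (2 * min k₁ k₂))
      hlim3 (Eventually.of_forall (fun n => ?_))
    have := (hFE n).prob
    refine (hin n).trans (add_le_add ?_ le_rfl)
    refine integral_mono ?_ ?_ (fun p => envC_qk_le_q hL hδ p)
    · refine envC_int (hFE n).supp hmeas_qk (C := (L : ℝ) ^ 2 * (R * R)) ?_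
      intro z hz w hw
      rw [abs_of_nonneg (qk_nonneg β _)]
      refine (qk_le hL _).trans ?_
      exact mul_le_mul_of_nonneg_left (hre2 z hz w hw) (by positivity)
    · refine envC_int (hFE n).supp (envC_q_cont hβ (L : ℝ) hδ).measurable
        (C := (L : ℝ) ^ 2 * (R * R)) ?_
      intro z hz w hw
      rw [abs_of_nonneg (envC_q_nonneg β _ hδ _)]
      refine (envC_q_le hL hδ _).trans ?_
      exact mul_le_mul_of_nonneg_left (hre2 z hz w hw) (by positivity)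
  -- step 2 : `δ → 0`
  have hδlim : Tendsto (fun n : ℕ => ∫ p, envC_q β L (1 / ((n : ℝ) + 2)) p ∂(l.prod l)) atTop
      (𝓝 (∫ p, qk β p ∂(l.prod l))) := by
    refine tendsto_integral_of_dominated_convergence (fun _ => (L : ℝ) ^ 2 * (R * R)) ?_ ?_ ?_ ?_
    · intro n
      exact (envC_q_cont hβ (L : ℝ) (hsn n).1).aestronglyMeasurable
    · exact integrable_const _
    · intro n
      filter_upwards [envC_ae hl.eq.fe.supp] with p hp
      rw [Real.norm_eq_abs, abs_of_nonneg (envC_q_nonneg β _ (hsn n).1 _)]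
      refine (envC_q_le hL (hsn n).1 _).trans ?_
      exact mul_le_mul_of_nonneg_left (hre2 p.1 hp.1 p.2 hp.2) (by positivity)
    · filter_upwards [envC_diag hl.eq.fe.atom] with p hp
      have h0 := envC_tends
      have hne : ‖p.1 - p.2‖ ^ 2 ≠ 0 := by
        have : p.1 - p.2 ≠ 0 := sub_ne_zero.2 hp
        positivity
      unfold envC_q qk
      have h1 : Tendsto (fun n : ℕ => ((β p.1.im - β p.2.im) ^ 2 +
          (L : ℝ) ^ 2 * (1 / ((n : ℝ) + 2))) / (‖p.1 - p.2‖ ^ 2 + 1 / ((n : ℝ) + 2))) atTop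
          (𝓝 (((β p.1.im - β p.2.im) ^ 2 + (L : ℝ) ^ 2 * 0) / (‖p.1 - p.2‖ ^ 2 + 0))) :=
        ((h0.const_mul _).const_add _).div (h0.const_add _) (by simpa using hne)
      rw [mul_zero, add_zero, add_zero] at h1
      exact h1.mul_const _
  have step : 2 * min k₁ k₂ * ∫ z, (β z.im) ^ 2 * |z.re| ∂l ≤ ∫ p, qk β p ∂(l.prod l) :=
    ge_of_tendsto' hδlim (fun n => key _ (hsn n).1)
  refine step.trans ?_
  -- step 3 : comparison of the kernels
  refine integral_mono ?_ ?_ (fun p => ?_)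
  · refine envC_int hl.eq.fe.supp hmeas_qk (C := (L : ℝ) ^ 2 * (R * R)) ?_
    intro z hz w hw
    rw [abs_of_nonneg (qk_nonneg β _)]
    refine (qk_le hL _).trans ?_
    exact mul_le_mul_of_nonneg_left (hre2 z hz w hw) (by positivity)
  · refine envC_int hl.eq.fe.supp ?_ (C := (L : ℝ) ^ 2 * (R * R)) ?_
    · have hβm : Measurable β := hβ.measurable
      fun_prop
    · intro z hz w hw
      rw [abs_of_nonneg (by positivity)]
      refine mul_le_mul ?_ (hre2 z hz w hw) (by positivity) (by positivity)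
      have := envC_sq_le hL z.im w.im
      rcases eq_or_lt_of_le (sq_nonneg (z.im - w.im)) with h0 | h0
      · simp only []
        rw [← h0, div_zero]; positivity
      · simp only []
        rw [div_le_iff₀ h0]; exact this
  · unfold qk
    refine mul_le_mul_of_nonneg_right ?_ (by positivity)
    rcases eq_or_lt_of_le (sq_nonneg (p.1.im - p.2.im)) with h0 | h0
    · have hB := envC_sq_le hL p.1.im p.2.im
      rw [← h0, mul_zero] at hB
      have : (β p.1.im - β p.2.im) ^ 2 = 0 := le_antisymm hB (sq_nonneg _)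
      rw [this]; simp
    · exact div_le_div_of_nonneg_left (sq_nonneg _) h0 (envC_im_sq p)

end Pool.Agent.H5.AF
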