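import Pool.Agent.H5.AF.Defs

set_option autoImplicit false
open MeasureTheory Set Filter Topology
open scoped ENNReal NNReal

namespace Pool.Agent.H5.AF

/-- the piecewise linear cut-off -/
noncomputable def extCut (a' a : ℝ) (y : ℝ) : ℝ := max 0 (min 1 ((a - |y|) / (a - a')))

theorem extCut_lip {a' a : ℝ} (h : a' < a) :
    LipschitzWith (Real.toNNReal (1 / (a - a'))) (extCut a' a) := by
  have h0 : 0 < a - a' := by linarith
  have h1 : LipschitzWith (Real.toNNReal (1 / (a - a'))) (fun y : ℝ => (a - |y|) / (a - a')) := by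
    refine LipschitzWith.of_dist_le_mul fun x y => ?_
    rw [Real.coe_toNNReal _ (by positivity), Real.dist_eq, Real.dist_eq]
    have e : (a - |x|) / (a - a') - (a - |y|) / (a - a') = 1 / (a - a') * (|y| - |x|) := by
      field_simp
      ring
    rw [e, abs_mul, abs_of_pos (by positivity : 0 < 1 / (a - a'))]
    refine mul_le_mul_of_nonneg_left ?_ (by positivity)
    rw [abs_sub_comm x y]
    exact abs_abs_sub_abs_le_abs_sub y x
  exact (h1.const_min 1).const_max 0

theorem extCut_bd {a' a : ℝ} (y : ℝ) : 0 ≤ extCut a' a y ∧ extCut a' a y ≤ 1 :=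
  ⟨le_max_left _ _, max_le zero_le_one (min_le_left _ _)⟩

theorem extCut_zero {a' a : ℝ} (h : a' < a) {y : ℝ} (hy : a ≤ |y|) : extCut a' a y = 0 := by
  unfold extCut
  have : (a - |y|) / (a - a') ≤ 0 := div_nonpos_of_nonpos_of_nonneg (by linarith) (by linarith)
  rw [max_eq_left]
  exact (min_le_right _ _).trans this

theorem extCut_one {a' a : ℝ} (h : a' < a) {y : ℝ} (hy : |y| ≤ a') : extCut a' a y = 1 := by
  unfold extCut
  have : 1 ≤ (a - |y|) / (a - a') := by
    rw [le_div_iff₀ (by linarith)]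
    linarith
  rw [min_eq_left this]
  exact max_eq_right zero_le_one

theorem ext_step {m : Measure ℝ} (hm : IsFiniteMeasure m) {κ : ℝ} (hκ : 0 < κ)
    (H : ∀ (β : ℝ → ℝ) (L : ℝ≥0), LipschitzWith L β → (∀ y, 0 ≤ β y ∧ β y ≤ 1) →
      (∀ y, 1 ≤ |y| → β y = 0) →
      2 * κ * ∫ y, (β y) ^ 2 ∂m ≤ ∫ p : ℝ × ℝ, (β p.1 - β p.2) ^ 2 / (p.1 - p.2) ^ 2 ∂(m.prod m))
    {a' a : ℝ} (h1 : a' < a) (h2 : a ≤ 1) {A : Set ℝ} (hA : MeasurableSet A)
    (hAa : ∀ y, |y| < a → y ∈ A) {t : ℝ → ℝ} (ht0 : ∀ y, 0 ≤ t y) (hti : Integrable t m)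
    (ht : ∀ y y', |y| < a → y' ∉ A → 1 / (y - y') ^ 2 ≤ t y') (hT : ∫ y, t y ∂m ≤ κ / 2) :
    κ * m.real {y | |y| ≤ a'} ≤ (1 / (a - a')) ^ 2 * (m.real A) ^ 2 := by
  have h0 : 0 < a - a' := by linarith
  obtain ⟨β, hβ⟩ : ∃ β : ℝ → ℝ, β = extCut a' a := ⟨_, rfl⟩
  have hL : LipschitzWith (Real.toNNReal (1 / (a - a'))) β := by rw [hβ]; exact extCut_lip h1
  have hb : ∀ y, 0 ≤ β y ∧ β y ≤ 1 := by intro y; rw [hβ]; exact extCut_bd y
  have hz : ∀ y, a ≤ |y| → β y = 0 := by intro y hy; rw [hβ]; exact extCut_zero h1 hy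
  have ho : ∀ y, |y| ≤ a' → β y = 1 := by intro y hy; rw [hβ]; exact extCut_one h1 hy
  have hmain := H β _ hL hb (fun y hy => hz y (h2.trans hy))
  have hβm : Measurable β := hL.continuous.measurable
  have hβi : Integrable (fun y => (β y) ^ 2) m := by
    refine Integrable.of_bound (C := 1) (hβm.pow_const 2).aestronglyMeasurable
      (Eventually.of_forall fun y => ?_)
    rw [Real.norm_eq_abs, abs_of_nonneg (sq_nonneg _)]
    have := hb y
    nlinarith
  obtain ⟨L, hLe⟩ : ∃ L : ℝ, L = 1 / (a - a') := ⟨_, rfl⟩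
  have hL0 : 0 < L := by rw [hLe]; positivity
  -- pointwise bound of the kernel
  have hk : ∀ y y' : ℝ, (β y - β y') ^ 2 / (y - y') ^ 2 ≤ L ^ 2 := by
    intro y y'
    have h3 := hL.dist_le_mul y y'
    rw [Real.coe_toNNReal _ (by positivity), Real.dist_eq, Real.dist_eq, ← hLe] at h3
    by_cases hyy : y = y'
    · rw [hyy]; simp; positivity
    · have h4 : 0 < (y - y') ^ 2 := by
        have : y - y' ≠ 0 := sub_ne_zero.2 hyy
        positivity
      rw [div_le_iff₀ h4, ← sq_abs (β y - β y'), ← sq_abs (y - y'), ← mul_pow]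
      exact pow_le_pow_left₀ (abs_nonneg _) h3 2
  obtain ⟨i, hi⟩ : ∃ i : ℝ → ℝ, i = A.indicator (fun _ => (1 : ℝ)) := ⟨_, rfl⟩
  have hi0 : ∀ y, 0 ≤ i y := by
    intro y; rw [hi]; exact indicator_nonneg (fun _ _ => zero_le_one) y
  have hi1 : ∀ y, y ∈ A → i y = 1 := by
    intro y hy; rw [hi]; exact indicator_of_mem hy _
  have hii : Integrable i m := by
    rw [hi]; exact (integrable_const (1 : ℝ)).indicator hA
  have hiint : ∫ y, i y ∂m = m.real A := by
    rw [hi, integral_indicator hA]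
    simp
  have hpt : ∀ p : ℝ × ℝ, (β p.1 - β p.2) ^ 2 / (p.1 - p.2) ^ 2 ≤
      L ^ 2 * (i p.1 * i p.2) + ((β p.1) ^ 2 * t p.2 + t p.1 * (β p.2) ^ 2) := by
    rintro ⟨y, y'⟩
    simp only
    have n1 : 0 ≤ L ^ 2 * (i y * i y') := by
      have := hi0 y; have := hi0 y'; positivity
    have n2 : 0 ≤ (β y) ^ 2 * t y' := mul_nonneg (sq_nonneg _) (ht0 _)
    have n3 : 0 ≤ t y * (β y') ^ 2 := mul_nonneg (ht0 _) (sq_nonneg _)
    by_cases hy : y ∈ A
    · by_cases hy' : y' ∈ A
      · rw [hi1 y hy, hi1 y' hy']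
        have := hk y y'
        linarith
      · have hb' : β y' = 0 := hz y' (by by_contra hc; push Not at hc; exact hy' (hAa _ hc))
        rw [hb', sub_zero]
        by_cases hya : |y| < a
        · have h5 := ht y y' hya hy'
          have h6 : (β y) ^ 2 / (y - y') ^ 2 ≤ (β y) ^ 2 * t y' := by
            rw [div_eq_mul_one_div]
            exact mul_le_mul_of_nonneg_left h5 (sq_nonneg _)
          linarith
        · push Not at hya
          rw [hz y hya]
          simp only [ne_eq, OfNat.ofNat_ne_zero, not_false_eq_true, zero_pow, zero_div]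
          linarith
    · have hb' : β y = 0 := hz y (by by_contra hc; push Not at hc; exact hy (hAa _ hc))
      rw [hb', zero_sub, neg_sq]
      by_cases hya : |y'| < a
      · have h5 := ht y' y hya hy
        have h6 : (β y') ^ 2 / (y - y') ^ 2 ≤ t y * (β y') ^ 2 := by
          rw [div_eq_mul_one_div, mul_comm, show (y - y') ^ 2 = (y' - y) ^ 2 by ring]
          exact mul_le_mul_of_nonneg_right h5 (sq_nonneg _)
        linarith
      · push Not at hya
        rw [hz y' hya]
        simp only [ne_eq, OfNat.ofNat_ne_zero, not_false_eq_true, zero_pow, zero_div]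
        linarith
  have g1 : Integrable (fun p : ℝ × ℝ => L ^ 2 * (i p.1 * i p.2)) (m.prod m) :=
    (hii.mul_prod hii).const_mul _
  have g2 : Integrable (fun p : ℝ × ℝ => (β p.1) ^ 2 * t p.2) (m.prod m) := hβi.mul_prod hti
  have g3 : Integrable (fun p : ℝ × ℝ => t p.1 * (β p.2) ^ 2) (m.prod m) := hti.mul_prod hβi
  have hle : ∫ p : ℝ × ℝ, (β p.1 - β p.2) ^ 2 / (p.1 - p.2) ^ 2 ∂(m.prod m) ≤
      L ^ 2 * (m.real A) ^ 2 + 2 * ((∫ y, (β y) ^ 2 ∂m) * ∫ y, t y ∂m) := by
    refine (integral_mono_of_nonneg (Eventually.of_forall fun p => by positivity)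
      (g1.add (g2.add g3)) (Eventually.of_forall hpt)).trans (le_of_eq ?_)
    have e1 : ∫ p : ℝ × ℝ, (L ^ 2 * (i p.1 * i p.2) + ((β p.1) ^ 2 * t p.2 + t p.1 * (β p.2) ^ 2))
        ∂(m.prod m) = (∫ p : ℝ × ℝ, L ^ 2 * (i p.1 * i p.2) ∂(m.prod m)) +
          ∫ p : ℝ × ℝ, ((β p.1) ^ 2 * t p.2 + t p.1 * (β p.2) ^ 2) ∂(m.prod m) :=
      integral_add g1 (g2.add g3)
    have e2 : ∫ p : ℝ × ℝ, ((β p.1) ^ 2 * t p.2 + t p.1 * (β p.2) ^ 2) ∂(m.prod m) =
        (∫ y, (β y) ^ 2 ∂m) * (∫ y, t y ∂m) + (∫ y, t y ∂m) * ∫ y, (β y) ^ 2 ∂m := by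
      rw [integral_add g2 g3, integral_prod_mul (fun y => (β y) ^ 2) t,
        integral_prod_mul t (fun y => (β y) ^ 2)]
    simp only [Pi.add_apply]
    rw [e1, e2, integral_const_mul, integral_prod_mul i i, hiint]
    ring
  have hlow : m.real {y | |y| ≤ a'} ≤ ∫ y, (β y) ^ 2 ∂m := by
    have hms : MeasurableSet {y : ℝ | |y| ≤ a'} := measurableSet_le measurable_norm measurable_const
    have e3 : m.real {y | |y| ≤ a'} = ∫ y, ({y | |y| ≤ a'} : Set ℝ).indicator (fun _ => (1 : ℝ)) y ∂m := by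
      rw [integral_indicator hms]
      simp
    rw [e3]
    refine integral_mono ((integrable_const (1 : ℝ)).indicator hms) hβi fun y => ?_
    by_cases hy : y ∈ {y : ℝ | |y| ≤ a'}
    · simp only [indicator_of_mem hy]
      rw [ho y hy]; norm_num
    · simp only [indicator_of_notMem hy]
      positivity
  have hB0 : 0 ≤ ∫ y, (β y) ^ 2 ∂m := integral_nonneg fun y => sq_nonneg _
  rw [← hLe]
  have h7 : (∫ y, (β y) ^ 2 ∂m) * ∫ y, t y ∂m ≤ (∫ y, (β y) ^ 2 ∂m) * (κ / 2) :=
    mul_le_mul_of_nonneg_left hT hB0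
  have h8 : κ * m.real {y | |y| ≤ a'} ≤ κ * ∫ y, (β y) ^ 2 ∂m :=
    mul_le_mul_of_nonneg_left hlow hκ.le
  nlinarith

theorem ext_iter {m : Measure ℝ} (hm : IsFiniteMeasure m) {κ b : ℝ} (hκ : 0 < κ) (hb0 : 0 ≤ b)
    (hb : b < 1)
    (H : ∀ (β : ℝ → ℝ) (L : ℝ≥0), LipschitzWith L β → (∀ y, 0 ≤ β y ∧ β y ≤ 1) →
      (∀ y, 1 ≤ |y| → β y = 0) →
      2 * κ * ∫ y, (β y) ^ 2 ∂m ≤ ∫ p : ℝ × ℝ, (β p.1 - β p.2) ^ 2 / (p.1 - p.2) ^ 2 ∂(m.prod m))
    (hM : m.real univ ≤ κ * (1 - b) ^ 2 / 2048) (n : ℕ) :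
    m.real {y | |y| ≤ b + (1 - b) / 2 ^ n} ≤ m.real univ / 8 ^ n := by
  obtain ⟨R, hR⟩ : ∃ R : ℝ, R = 1 - b := ⟨_, rfl⟩
  rw [← hR] at hM ⊢
  have hR0 : 0 < R := by rw [hR]; linarith
  obtain ⟨a, ha⟩ : ∃ a : ℕ → ℝ, ∀ n, a n = b + R / 2 ^ n := ⟨fun n => b + R / 2 ^ n, fun n => rfl⟩
  obtain ⟨M₀, hM₀⟩ : ∃ M₀ : ℝ, M₀ = m.real univ := ⟨_, rfl⟩
  rw [← hM₀] at hM ⊢
  have hM0 : 0 ≤ M₀ := by rw [hM₀]; exact measureReal_nonneg
  have ha0 : a 0 = 1 := by rw [ha, hR]; ring
  have hdiff : ∀ k, a k - a (k + 1) = R / 2 ^ (k + 1) := by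
    intro k
    rw [ha, ha, pow_succ]
    field_simp
    ring
  have hanti : Antitone a := by
    refine antitone_nat_of_succ_le fun k => ?_
    have := hdiff k
    have : 0 < R / 2 ^ (k + 1) := by positivity
    linarith
  have hms : ∀ c : ℝ, MeasurableSet {y : ℝ | |y| ≤ c} := fun c =>
    measurableSet_le measurable_norm measurable_const
  have hMκ : M₀ * 2048 ≤ κ * R ^ 2 := by
    rw [le_div_iff₀ (by norm_num)] at hM
    exact hM
  -- the claim
  have key : ∀ n, m.real {y | |y| ≤ a n} ≤ M₀ / 8 ^ n := by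
    intro n
    induction n using Nat.strong_induction_on with
    | _ n ih =>
      match n, ih with
      | 0, _ =>
        rw [pow_zero, div_one, hM₀]
        exact measureReal_mono (subset_univ _)
      | 1, _ =>
        have h := ext_step hm hκ H (a' := a 1) (a := a 0) (A := univ) (t := fun _ => 0)
          (by have := hdiff 0; have : 0 < R / 2 ^ (0 + 1) := by positivity
              linarith) ha0.le MeasurableSet.univ (fun y _ => mem_univ y)
          (fun _ => le_rfl) (integrable_zero _ _ _) (fun y y' _ h => absurd (mem_univ y') h)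
          (by rw [integral_zero]; positivity)
        rw [hdiff 0, ← hM₀] at h
        have e : (1 / (R / 2 ^ (0 + 1))) ^ 2 * M₀ ^ 2 = 4 * M₀ ^ 2 / R ^ 2 := by
          field_simp
          norm_num
          ring
        rw [e] at h
        rw [le_div_iff₀ (by norm_num)]
        have h2 : 4 * M₀ ^ 2 / R ^ 2 ≤ κ * (M₀ / 512) := by
          rw [div_le_iff₀ (by positivity)]
          nlinarith
        have h3 : m.real {y | |y| ≤ a 1} ≤ M₀ / 512 :=
          le_of_mul_le_mul_left (h.trans h2) hκ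
        linarith
      | (n + 2), ih =>
        obtain ⟨t, ht⟩ : ∃ t : ℝ → ℝ, t = fun y' => (∑ i ∈ Finset.range n, 16 * 4 ^ i / R ^ 2 *
          ({y : ℝ | |y| ≤ a i}.indicator (fun _ => (1 : ℝ)) y')) + 4 / R ^ 2 := ⟨_, rfl⟩
        have hind0 : ∀ i y', 0 ≤ 16 * 4 ^ i / R ^ 2 *
            ({y : ℝ | |y| ≤ a i}.indicator (fun _ => (1 : ℝ)) y') := fun i y' =>
          mul_nonneg (by positivity) (indicator_nonneg (fun _ _ => zero_le_one) _)
        have ht0 : ∀ y, 0 ≤ t y := by
          intro y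
          rw [ht]
          exact add_nonneg (Finset.sum_nonneg fun i _ => hind0 i y) (by positivity)
        have hii : ∀ i, Integrable (fun y' => 16 * 4 ^ i / R ^ 2 *
            ({y : ℝ | |y| ≤ a i}.indicator (fun _ => (1 : ℝ)) y')) m := fun i =>
          ((integrable_const (1 : ℝ)).indicator (hms _)).const_mul _
        have hti : Integrable t m := by
          rw [ht]
          exact (integrable_finsetSum _ fun i _ => hii i).add (integrable_const _)
        have hT : ∫ y, t y ∂m ≤ κ / 2 := by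
          rw [ht, integral_add (integrable_finsetSum _ fun i _ => hii i) (integrable_const _),
            integral_finsetSum _ fun i _ => hii i, integral_const]
          have h1 : ∀ i ∈ Finset.range n, ∫ y', 16 * 4 ^ i / R ^ 2 *
              ({y : ℝ | |y| ≤ a i}.indicator (fun _ => (1 : ℝ)) y') ∂m ≤
              16 * M₀ / R ^ 2 * (1 / 2) ^ i := by
            intro i hi
            rw [integral_const_mul, integral_indicator (hms _)]
            have h2 := ih i (by have := Finset.mem_range.1 hi; omega)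
            simp only [integral_const, smul_eq_mul, mul_one, measureReal_restrict_apply_univ]
            calc 16 * 4 ^ i / R ^ 2 * m.real {y | |y| ≤ a i} ≤ 16 * 4 ^ i / R ^ 2 * (M₀ / 8 ^ i) :=
                  mul_le_mul_of_nonneg_left h2 (by positivity)
              _ = 16 * M₀ / R ^ 2 * (1 / 2) ^ i := by
                  rw [show (8 : ℝ) ^ i = 4 ^ i * 2 ^ i by rw [← mul_pow]; norm_num, one_div,
                    inv_pow]
                  field_simp
          have h3 := Finset.sum_le_sum h1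
          rw [← Finset.mul_sum] at h3
          have h4 : ∑ i ∈ Finset.range n, (1 / 2 : ℝ) ^ i ≤ 2 := sum_geometric_two_le n
          have h5 : 16 * M₀ / R ^ 2 * ∑ i ∈ Finset.range n, (1 / 2 : ℝ) ^ i ≤
              16 * M₀ / R ^ 2 * 2 := mul_le_mul_of_nonneg_left h4 (by positivity)
          have h6 : (16 * M₀ / R ^ 2 * 2) + M₀ * (4 / R ^ 2) ≤ κ / 2 := by
            have : (16 * M₀ / R ^ 2 * 2) + M₀ * (4 / R ^ 2) = 36 * M₀ / R ^ 2 := by ring
            rw [this, div_le_iff₀ (by positivity)]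
            nlinarith
          rw [← hM₀, smul_eq_mul]
          linarith
        have hcond : ∀ y y', |y| < a (n + 1) → y' ∉ {y : ℝ | |y| ≤ a n} →
            1 / (y - y') ^ 2 ≤ t y' := by
          intro y y' hy hy'
          rw [mem_ofPred_eq, not_le] at hy'
          classical
          have hex : ∃ j, a j < |y'| := ⟨n, hy'⟩
          obtain ⟨j, hj, hjmin⟩ : ∃ j, a j < |y'| ∧ ∀ i < j, ¬ a i < |y'| :=
            ⟨Nat.find hex, Nat.find_spec hex, fun i hi => Nat.find_min hex hi⟩
          have hjn : j ≤ n := by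
            by_contra hc
            push Not at hc
            exact hjmin n hc hy'
          have hlow : ∀ δ : ℝ, 0 < δ → δ ≤ |y'| - |y| → 1 / (y - y') ^ 2 ≤ 1 / δ ^ 2 := by
            intro δ hδ hle
            refine one_div_le_one_div_of_le (by positivity) ?_
            rw [← sq_abs (y - y')]
            refine pow_le_pow_left₀ hδ.le (hle.trans ?_) 2
            rw [abs_sub_comm]
            exact abs_sub_abs_le_abs_sub y' y
          rcases j with _ | j
          · have h7 : R / 2 ≤ |y'| - |y| := by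
              have e1 := hdiff 0
              have e2 := hanti (show 1 ≤ n + 1 by omega)
              simp only [zero_add, pow_one] at e1
              linarith
            have h8 := hlow _ (by positivity) h7
            have h9 : 1 / (R / 2) ^ 2 = 4 / R ^ 2 := by
              field_simp
              norm_num
            rw [h9] at h8
            refine h8.trans ?_
            rw [ht]
            have := Finset.sum_nonneg fun i (_ : i ∈ Finset.range n) => hind0 i y'
            simp only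
            linarith
          · have h7 : R / 2 ^ (j + 2) ≤ |y'| - |y| := by
              have e1 := hdiff (j + 1)
              have e2 := hanti (show j + 2 ≤ n + 1 by omega)
              rw [show j + 1 + 1 = j + 2 by ring] at e1
              linarith
            have h8 := hlow _ (by positivity) h7
            have h9 : 1 / (R / 2 ^ (j + 2)) ^ 2 = 16 * 4 ^ j / R ^ 2 := by
              rw [div_pow, one_div_div, ← pow_mul, pow_mul', show (2 : ℝ) ^ 2 = 4 by norm_num,
                pow_add]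
              norm_num
              ring
            rw [h9] at h8
            refine h8.trans ?_
            have hmem : j ∈ Finset.range n := Finset.mem_range.2 (by omega)
            have hin : y' ∈ {y : ℝ | |y| ≤ a j} := not_lt.1 (hjmin j (by omega))
            have h10 := Finset.single_le_sum (fun i (_ : i ∈ Finset.range n) => hind0 i y') hmem
            simp only [indicator_of_mem hin, mul_one] at h10
            rw [ht]
            simp only
            have : 0 < 4 / R ^ 2 := by positivity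
            linarith
        have h := ext_step hm hκ H (a' := a (n + 2)) (a := a (n + 1)) (A := {y | |y| ≤ a n})
          (t := t) (by have := hdiff (n + 1); have : 0 < R / 2 ^ (n + 1 + 1) := by positivity
                       linarith) (by rw [← ha0]; exact hanti (by omega)) (hms _)
          (fun y hy => hy.le.trans (hanti (by omega))) ht0 hti hcond hT
        have h11 := ih n (by omega)
        have h12 : (m.real {y | |y| ≤ a n}) ^ 2 ≤ (M₀ / 8 ^ n) ^ 2 :=
          pow_le_pow_left₀ measureReal_nonneg h11 2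
        rw [show n + 2 = n + 1 + 1 by ring, hdiff (n + 1)] at h
        have h13 : (1 / (R / 2 ^ (n + 1 + 1))) ^ 2 * (m.real {y | |y| ≤ a n}) ^ 2 ≤
            κ * (M₀ / 8 ^ (n + 2)) := by
          refine (mul_le_mul_of_nonneg_left h12 (by positivity)).trans ?_
          have e : (1 / (R / 2 ^ (n + 1 + 1))) ^ 2 * (M₀ / 8 ^ n) ^ 2 =
              (M₀ / 8 ^ (n + 2)) * (1024 * (1 / 2) ^ n * (M₀ / R ^ 2)) := by
            have e8 : (8 : ℝ) ^ n = (2 ^ n) ^ 3 := by rw [← pow_mul, pow_mul']; norm_num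
            have e9 : (1 / 2 : ℝ) ^ n = 1 / 2 ^ n := one_div_pow 2 n
            rw [pow_add 8 n 2, e8, e9, pow_succ (2 : ℝ) (n + 1), pow_succ (2 : ℝ) n]
            field_simp
            norm_num
            ring
          rw [e, mul_comm κ]
          refine mul_le_mul_of_nonneg_left ?_ (by positivity)
          have h14 : (1 / 2 : ℝ) ^ n ≤ 1 := pow_le_one₀ (by norm_num) (by norm_num)
          have h15 : M₀ / R ^ 2 ≤ κ / 2048 := by
            rw [div_le_iff₀ (by positivity)]
            linarith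
          have h16 : 0 ≤ M₀ / R ^ 2 := by positivity
          calc 1024 * (1 / 2 : ℝ) ^ n * (M₀ / R ^ 2) ≤ 1024 * 1 * (κ / 2048) := by
                gcongr
            _ ≤ κ := by linarith
        exact le_of_mul_le_mul_left (h.trans h13) hκ
  rw [← ha n]
  exact key n

theorem extinction {m : Measure ℝ} (hm : IsFiniteMeasure m) {κ b : ℝ} (hκ : 0 < κ) (hb0 : 0 ≤ b)
    (hb : b < 1)
    (h : ∀ (β : ℝ → ℝ) (L : ℝ≥0), LipschitzWith L β → (∀ y, 0 ≤ β y ∧ β y ≤ 1) →
      (∀ y, 1 ≤ |y| → β y = 0) →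
      2 * κ * ∫ y, (β y) ^ 2 ∂m ≤ ∫ p : ℝ × ℝ, (β p.1 - β p.2) ^ 2 / (p.1 - p.2) ^ 2 ∂(m.prod m))
    (hM : m.real univ ≤ κ * (1 - b) ^ 2 / 2048) : m (Icc (-b) b) = 0 := by
  have h1 : ∀ n : ℕ, m.real (Icc (-b) b) ≤ m.real univ * (1 / 8) ^ n := by
    intro n
    refine (measureReal_mono ?_).trans ((ext_iter hm hκ hb0 hb h hM n).trans (le_of_eq ?_))
    · intro y hy
      rw [mem_ofPred_eq]
      have h2 : |y| ≤ b := abs_le.2 hy
      have h3 : 0 < (1 - b) / 2 ^ n := div_pos (by linarith) (by positivity)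
      linarith
    · rw [one_div, inv_pow]
      ring
  have h2 : Tendsto (fun n : ℕ => m.real univ * (1 / 8 : ℝ) ^ n) atTop (𝓝 (m.real univ * 0)) :=
    (tendsto_pow_atTop_nhds_zero_of_lt_one (by norm_num) (by norm_num)).const_mul _
  rw [mul_zero] at h2
  have h3 : m.real (Icc (-b) b) ≤ 0 := ge_of_tendsto' h2 h1
  have h4 : m.real (Icc (-b) b) = 0 := le_antisymm h3 measureReal_nonneg
  exact (measureReal_eq_zero_iff).1 h4

end Pool.Agent.H5.AF
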