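import Pool.Agent.H5.AF.Defs
import Pool.Agent.H5.AF.Ext
import Pool.Agent.H5.AF.EnvC
set_option autoImplicit false
open MeasureTheory Set Filter Topology
open scoped ENNReal NNReal

namespace Pool.Agent.H5.AF

/-!
Part BRI. No mass off the axis.
Paper proof: `m = (l.withDensity (fun z => ENNReal.ofReal |z.re|)).map Complex.im`, total mass
`∫ |re| dl`; the envelope inequality is the hypothesis of `extinction` for `m`
(`κ = min k₁ k₂`).
-/

/-- the density used in part BRI -/
noncomputable def briD (z : ℂ) : ℝ≥0∞ := ENNReal.ofReal |z.re|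

theorem briD_meas : Measurable briD := by
  unfold briD
  exact ENNReal.measurable_ofReal.comp (Complex.measurable_re.abs)

theorem briD_lt (z : ℂ) : briD z < ⊤ := ENNReal.ofReal_lt_top

theorem briD_toReal (z : ℂ) : (briD z).toReal = |z.re| := ENNReal.toReal_ofReal (abs_nonneg _)

theorem bri_integrable {Γ : Set ℂ} (hc : IsCompact Γ) {l : Measure ℂ} [IsFiniteMeasure l]
    (hs : l Γᶜ = 0) : Integrable (fun z : ℂ => |z.re|) l := by
  obtain ⟨R, hR⟩ := hc.isBounded.exists_norm_le
  refine Integrable.of_bound (C := R) (Complex.measurable_re.abs).aestronglyMeasurable ?_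
  have h : ∀ᵐ z ∂l, z ∈ Γ := by
    rw [ae_iff]; exact hs
  filter_upwards [h] with z hz
  rw [Real.norm_eq_abs, abs_abs]
  exact (Complex.abs_re_le_norm z).trans (hR z hz)

/-- the measure used in part BRI -/
noncomputable def briM (l : Measure ℂ) : Measure ℝ := (l.withDensity briD).map Complex.im

theorem bri_finite {l : Measure ℂ} (hi : Integrable (fun z : ℂ => |z.re|) l) :
    IsFiniteMeasure (l.withDensity briD) := isFiniteMeasure_withDensity_ofReal hi.2

theorem bri_mass {l : Measure ℂ} (hi : Integrable (fun z : ℂ => |z.re|) l) :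
    (briM l).real univ = ∫ z, |z.re| ∂l := by
  unfold briM
  rw [measureReal_def, Measure.map_apply Complex.measurable_im MeasurableSet.univ, preimage_univ,
    withDensity_apply _ MeasurableSet.univ, Measure.restrict_univ]
  have h := integral_eq_lintegral_of_nonneg_ae (μ := l) (f := fun z : ℂ => |z.re|)
    (Eventually.of_forall fun z => abs_nonneg z.re) hi.aestronglyMeasurable
  rw [h]
  rfl

theorem bri_int {l : Measure ℂ} (f : ℝ → ℝ) (hf : Measurable f) :
    ∫ y, f y ∂(briM l) = ∫ z, f z.im * |z.re| ∂l := by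
  unfold briM
  rw [integral_map Complex.measurable_im.aemeasurable hf.aestronglyMeasurable,
    integral_withDensity_eq_integral_toReal_smul briD_meas
      (Eventually.of_forall fun z => briD_lt z)]
  refine integral_congr_ae (Eventually.of_forall fun z => ?_)
  simp only [briD_toReal, smul_eq_mul]
  ring

theorem bri_prod {l : Measure ℂ} [IsFiniteMeasure l] (hi : Integrable (fun z : ℂ => |z.re|) l)
    (f : ℝ × ℝ → ℝ) (hf : Measurable f) :
    ∫ p, f p ∂((briM l).prod (briM l)) =
      ∫ p : ℂ × ℂ, f (p.1.im, p.2.im) * (|p.1.re| * |p.2.re|) ∂(l.prod l) := by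
  have := bri_finite hi
  unfold briM
  rw [Measure.map_prod_map _ _ Complex.measurable_im Complex.measurable_im,
    integral_map (Complex.measurable_im.prodMap Complex.measurable_im).aemeasurable
      hf.aestronglyMeasurable, prod_withDensity briD_meas briD_meas]
  have hm : Measurable (fun z : ℂ × ℂ => briD z.1 * briD z.2) :=
    (briD_meas.comp measurable_fst).mul (briD_meas.comp measurable_snd)
  rw [integral_withDensity_eq_integral_toReal_smul hm
      (Eventually.of_forall fun z => ENNReal.mul_lt_top (briD_lt _) (briD_lt _))]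
  refine integral_congr_ae (Eventually.of_forall fun p => ?_)
  simp only [ENNReal.toReal_mul, briD_toReal, smul_eq_mul, Prod.map]
  ring

theorem off_axis_zero {k₁ k₂ ε₁ ε₂ : ℝ} (h₁ : 0 < k₁) (h₂ : 0 < k₂) {Γ : Set ℂ} {l : Measure ℂ}
    (hl : RMax k₁ k₂ ε₁ ε₂ Γ l) {b : ℝ} (hb0 : 0 ≤ b) (hb : b < 1)
    (hM : ∫ z, |z.re| ∂l ≤ min k₁ k₂ * (1 - b) ^ 2 / 2048) :
    l {z : ℂ | |z.im| ≤ b ∧ z.re ≠ 0} = 0 := by
  have := hl.eq.fe.prob
  have hi : Integrable (fun z : ℂ => |z.re|) l := bri_integrable hl.cls.1 hl.eq.fe.supp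
  have := bri_finite hi
  have hfm : IsFiniteMeasure (briM l) := by unfold briM; infer_instance
  have key : (briM l) (Icc (-b) b) = 0 := by
    refine extinction hfm (lt_min h₁ h₂) hb0 hb ?_ ?_
    · intro β L hL h01 hs
      have h := envelope h₁ h₂ hl hL h01 hs
      have hβ : Measurable β := hL.continuous.measurable
      rw [bri_int (fun y => (β y) ^ 2) (hβ.pow_const 2),
        bri_prod hi (fun p : ℝ × ℝ => (β p.1 - β p.2) ^ 2 / (p.1 - p.2) ^ 2) (by fun_prop)]
      exact h
    · rw [bri_mass hi]; exact hM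
  unfold briM at key
  rw [Measure.map_apply Complex.measurable_im measurableSet_Icc,
    withDensity_apply_eq_zero briD_meas] at key
  refine measure_mono_null ?_ key
  rintro z ⟨hz1, hz2⟩
  refine ⟨?_, ?_⟩
  · show briD z ≠ 0
    unfold briD
    rw [Ne, ENNReal.ofReal_eq_zero, not_le]
    exact abs_pos.2 hz2
  · exact abs_le.1 hz1

end Pool.Agent.H5.AF
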