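import Pool.Agent.H5.AF.Defs

set_option autoImplicit false
open MeasureTheory Set Filter Topology
open scoped ENNReal NNReal

namespace Pool.Agent.H5.AF

/-!
Part CONV. Conversions between the extended real level and the real level.
Paper proof: `Γ` compact, hence in a ball of radius `R`; `K ≥ -2R` on it (`K_ge`), `φ` bounded.
`kpos - kneg = K` off the diagonal. If `μ` has no atoms the diagonal is null for `μ × μ`
(`(μ.prod μ) {p | p.1 = p.2} = ∫⁻ μ {x} dμ`). If `μ` has an atom or `K` is not integrable,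
`∫⁻ kpos = ⊤` (`kneg` is bounded on `Γ × Γ`).
-/

theorem conv_mem {Γ : Set ℂ} {μ : Measure ℂ} (hp : IsProbabilityMeasure μ) (hs : μ Γᶜ = 0) :
    ∀ᵐ p : ℂ × ℂ ∂(μ.prod μ), p.1 ∈ Γ ∧ p.2 ∈ Γ := by
  have h1 : ∀ᵐ p : ℂ × ℂ ∂(μ.prod μ), p.1 ∈ Γ :=
    Measure.quasiMeasurePreserving_fst.ae (show ∀ᵐ z ∂μ, z ∈ Γ from hs)
  have h2 : ∀ᵐ p : ℂ × ℂ ∂(μ.prod μ), p.2 ∈ Γ :=
    Measure.quasiMeasurePreserving_snd.ae (show ∀ᵐ z ∂μ, z ∈ Γ from hs)
  filter_upwards [h1, h2] with p a b using ⟨a, b⟩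

theorem conv_ne {μ : Measure ℂ} (hp : IsProbabilityMeasure μ) (ha : ∀ z, μ {z} = 0) :
    ∀ᵐ p : ℂ × ℂ ∂(μ.prod μ), p.1 ≠ p.2 := by
  have hs : MeasurableSet {p : ℂ × ℂ | p.1 = p.2} :=
    measurableSet_eq_fun measurable_fst measurable_snd
  have h4 : (μ.prod μ) {p : ℂ × ℂ | p.1 = p.2} = 0 := by
    rw [Measure.measure_prod_null hs]
    refine Eventually.of_forall fun x => ?_
    have e : Prod.mk x ⁻¹' {p : ℂ × ℂ | p.1 = p.2} = {x} := by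
      ext y
      simp [eq_comm]
    simp only [e, Pi.zero_apply]
    exact ha x
  have h5 : {p : ℂ × ℂ | ¬ p.1 ≠ p.2} = {p : ℂ × ℂ | p.1 = p.2} := by
    ext p; simp
  rw [ae_iff, h5]
  exact h4

theorem conv_kpos {μ : Measure ℂ} (hp : IsProbabilityMeasure μ) (ha : ∀ z, μ {z} = 0) :
    ∫⁻ p, kpos p ∂(μ.prod μ) = ∫⁻ p : ℂ × ℂ, ENNReal.ofReal (K p.1 p.2) ∂(μ.prod μ) := by
  refine lintegral_congr_ae ?_
  filter_upwards [conv_ne hp ha] with p h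
  unfold kpos K
  rw [if_neg h]

theorem conv_kneg (μ : Measure ℂ) :
    ∫⁻ p, kneg p ∂(μ.prod μ) = ∫⁻ p : ℂ × ℂ, ENNReal.ofReal (-K p.1 p.2) ∂(μ.prod μ) := by
  refine lintegral_congr fun p => ?_
  unfold kneg K
  rw [neg_neg]

theorem conv_kneg_lt {Γ : Set ℂ} (hΓ : IsCompact Γ) {μ : Measure ℂ}
    (hp : IsProbabilityMeasure μ) (hs : μ Γᶜ = 0) : ∫⁻ p, kneg p ∂(μ.prod μ) < ⊤ := by
  obtain ⟨R, hR⟩ := hΓ.isBounded.exists_norm_le
  have h : ∫⁻ p, kneg p ∂(μ.prod μ) ≤ ∫⁻ _p, ENNReal.ofReal (2 * R) ∂(μ.prod μ) := by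
    refine lintegral_mono_ae ?_
    filter_upwards [conv_mem hp hs] with p h
    unfold kneg
    refine ENNReal.ofReal_le_ofReal ?_
    have := K_ge (hR _ h.1) (hR _ h.2)
    unfold K at this
    linarith
  refine h.trans_lt ?_
  rw [lintegral_const, measure_univ, mul_one]
  exact ENNReal.ofReal_lt_top

theorem conv_coe {a : ℝ≥0∞} (h : a ≠ ⊤) : (a : EReal) = ((a.toReal : ℝ) : EReal) := by
  conv_lhs => rw [← ENNReal.ofReal_toReal h]
  rw [EReal.coe_ennreal_ofReal, max_eq_left ENNReal.toReal_nonneg]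

theorem conv_meas_kpos : Measurable kpos := by
  unfold kpos
  refine Measurable.ite (measurableSet_eq_fun measurable_fst measurable_snd) measurable_const ?_
  exact (Real.measurable_log.comp (measurable_fst.sub measurable_snd).norm).neg.ennreal_ofReal

theorem En_eq {k₁ k₂ : ℝ} (h₁ : 0 < k₁) (h₂ : 0 < k₂) {Γ : Set ℂ} (hΓ : IsCompact Γ)
    {μ : Measure ℂ} (hμ : FE Γ μ) : En k₁ k₂ μ = ((E k₁ k₂ μ : ℝ) : EReal) := by
  have hp := hμ.prob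
  have e1 := conv_kpos hp hμ.atom
  have e2 := conv_kneg μ
  have f1 : ∫⁻ p, kpos p ∂(μ.prod μ) ≠ ⊤ := by
    rw [e1]
    exact hμ.int.lintegral_lt_top.ne
  have f2 : ∫⁻ p, kneg p ∂(μ.prod μ) ≠ ⊤ := (conv_kneg_lt hΓ hp hμ.supp).ne
  have e3 : M μ μ = (∫⁻ p, kpos p ∂(μ.prod μ)).toReal - (∫⁻ p, kneg p ∂(μ.prod μ)).toReal := by
    rw [e1, e2]
    exact integral_eq_lintegral_pos_part_sub_lintegral_neg_part hμ.int
  unfold En E
  rw [conv_coe f1, conv_coe f2, e3]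
  push_cast
  rfl

theorem En_top {k₁ k₂ : ℝ} (h₁ : 0 < k₁) (h₂ : 0 < k₂) {Γ : Set ℂ} (hΓ : IsCompact Γ)
    {μ : Measure ℂ} (hp : IsProbabilityMeasure μ) (hs : μ Γᶜ = 0) (hμ : ¬ FE Γ μ) :
    En k₁ k₂ μ = ⊤ := by
  have f2 : ∫⁻ p, kneg p ∂(μ.prod μ) ≠ ⊤ := (conv_kneg_lt hΓ hp hs).ne
  have f1 : ∫⁻ p, kpos p ∂(μ.prod μ) = ⊤ := by
    by_cases ha : ∀ z, μ {z} = 0
    · by_contra h
      refine hμ ⟨hp, hs, ha, measurable_K.aestronglyMeasurable, ?_⟩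
      have h3 : ∀ p : ℂ × ℂ, ‖K p.1 p.2‖ₑ ≤ ENNReal.ofReal (K p.1 p.2) +
          ENNReal.ofReal (-K p.1 p.2) := by
        intro p
        rw [← ofReal_norm, Real.norm_eq_abs]
        rcases le_total 0 (K p.1 p.2) with h | h
        · rw [abs_of_nonneg h]; exact le_self_add
        · rw [abs_of_nonpos h]; exact le_add_self
      refine (lintegral_mono h3).trans_lt ?_
      rw [lintegral_add_left measurable_K.ennreal_ofReal, ← conv_kpos hp ha, ← conv_kneg μ]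
      exact ENNReal.add_lt_top.2 ⟨lt_top_iff_ne_top.2 h, lt_top_iff_ne_top.2 f2⟩
    · push Not at ha
      obtain ⟨z, hz⟩ := ha
      refine lintegral_eq_top_of_measure_eq_top_ne_zero conv_meas_kpos.aemeasurable ?_
      have h1 : (μ.prod μ) ({z} ×ˢ {z}) ≠ 0 := by
        rw [Measure.prod_prod]
        exact mul_ne_zero hz hz
      refine fun h => h1 (measure_mono_null ?_ h)
      rintro ⟨a, b⟩ ⟨h2, h3⟩
      simp only [mem_singleton_iff] at h2 h3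
      simp [kpos, h2, h3]
  unfold En
  rw [f1, conv_coe f2, EReal.coe_ennreal_top, EReal.top_sub_coe, EReal.top_add_coe]

theorem EqEn_eq {k₁ k₂ : ℝ} (h₁ : 0 < k₁) (h₂ : 0 < k₂) {Γ : Set ℂ} (hΓ : IsCompact Γ)
    {l : Measure ℂ} (hl : IsEq k₁ k₂ Γ l) : EqEn k₁ k₂ Γ = ((E k₁ k₂ l : ℝ) : EReal) := by
  unfold EqEn
  refine le_antisymm ?_ (le_iInf fun μ => ?_)
  · refine (iInf_le _ (⟨l, hl.fe.prob, hl.fe.supp⟩ :
      {μ : Measure ℂ // IsProbabilityMeasure μ ∧ μ Γᶜ = 0})).trans ?_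
    exact (En_eq h₁ h₂ hΓ hl.fe).le
  · by_cases h : FE Γ μ.1
    · rw [En_eq h₁ h₂ hΓ h]
      exact EReal.coe_le_coe_iff.2 (hl.min _ h)
    · rw [En_top h₁ h₂ hΓ μ.2.1 μ.2.2 h]
      exact le_top

end Pool.Agent.H5.AF
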