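import Pool.Agent.H5.AF.Defs

set_option autoImplicit false
open MeasureTheory Set Filter Topology
open scoped ENNReal NNReal

namespace Pool.Agent.H5.AF

/-!
Part CVXA. Pointwise convexity of `y ↦ K ⟨0,y⟩ w` with explicit constants.
`f y = -(1/2) log (x'² + (y-y')²)`, `f'' = ((y-y')² - x'²)/((y-y')² + x'²)²`.
Write `u = (y-y')²`.
* `x' = 0`, `y' ∉ [p,q]`, all in `[-1,1]`: `f'' = 1/u ≥ 1/4`.
* `u ≥ d²` on `[p,q]`, `|x'| ≤ d/2`, `|y'| ≤ 3`: `f'' ≥ (3/4)u/((25/16)u²) ≥ 0.03` as `u ≤ 16`.
* `u ≥ d²`, `|x'| ≤ d/2`: `f'' ≥ 0`.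
* `u ≥ d²`, any `x'`: `f'' ≥ -1/(8d²)` (`(x'²-u)₊/(u+x'²)² ≤ 1/(8u)`).
So `f - (cw/2) y²` is convex on `[p,q]` (`convexOn_of_deriv2_nonneg` or by hand).
-/

/-- lower bound for the second derivative -/
noncomputable def cw (d : ℝ) (w : ℂ) : ℝ :=
  3 / 100 - (if 3 ≤ |w.im| then 3 / 100 else 0) - (if d / 2 < |w.re| then 1 / d ^ 2 else 0)

theorem CVXA_K (y : ℝ) (w : ℂ) :
    K ⟨0, y⟩ w = -(1 / 2) * Real.log (w.re ^ 2 + (y - w.im) ^ 2) := by
  unfold K
  have h : ‖(⟨0, y⟩ : ℂ) - w‖ ^ 2 = w.re ^ 2 + (y - w.im) ^ 2 := by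
    rw [← Complex.normSq_eq_norm_sq, Complex.normSq_apply]
    simp only [Complex.sub_re, Complex.sub_im]
    ring
  rw [← h, Real.log_pow]
  push_cast
  ring

/-- convexity of the perturbed function -/
theorem CVXA_conv {p q x y c : ℝ} (hv : ∀ s ∈ Icc p q, 0 < x ^ 2 + (s - y) ^ 2)
    (hc : ∀ s ∈ Icc p q, c ≤ ((s - y) ^ 2 - x ^ 2) / (x ^ 2 + (s - y) ^ 2) ^ 2) :
    ConvexOn ℝ (Icc p q)
      (fun s => -(1 / 2) * Real.log (x ^ 2 + (s - y) ^ 2) - c / 2 * s ^ 2) := by
  have hsub : interior (Icc p q) ⊆ Icc p q := interior_subset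
  refine convexOn_of_hasDerivWithinAt2_nonneg (convex_Icc p q)
    (f' := fun s => -((s - y) / (x ^ 2 + (s - y) ^ 2)) - c * s)
    (f'' := fun s => ((s - y) ^ 2 - x ^ 2) / (x ^ 2 + (s - y) ^ 2) ^ 2 - c) ?_ ?_ ?_ ?_
  · refine ContinuousOn.sub ?_ (by fun_prop)
    refine continuousOn_const.mul (ContinuousOn.log (by fun_prop) fun s hs => (hv s hs).ne')
  · intro s hs
    have hvs := hv s (hsub hs)
    have h1 : HasDerivAt (fun s : ℝ => x ^ 2 + (s - y) ^ 2) (2 * (s - y)) s := by
      have := (((hasDerivAt_id s).sub_const y).pow 2).const_add (x ^ 2)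
      simpa using this
    have h2 := (h1.log hvs.ne').const_mul (-(1 / 2 : ℝ))
    have h3 : HasDerivAt (fun s : ℝ => c / 2 * s ^ 2) (c * s) s := by
      have := ((hasDerivAt_id s).pow 2).const_mul (c / 2)
      have e : c / 2 * (((2 : ℕ) : ℝ) * id s ^ (2 - 1) * 1) = c * s := by
        simp; ring
      rw [e] at this
      exact this
    have h4 := h2.sub h3
    have e : -(1 / 2 : ℝ) * (2 * (s - y) / (x ^ 2 + (s - y) ^ 2)) - c * s =
        -((s - y) / (x ^ 2 + (s - y) ^ 2)) - c * s := by ring
    rw [e] at h4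
    exact h4.hasDerivWithinAt
  · intro s hs
    have hvs := hv s (hsub hs)
    have h1 : HasDerivAt (fun s : ℝ => x ^ 2 + (s - y) ^ 2) (2 * (s - y)) s := by
      have := (((hasDerivAt_id s).sub_const y).pow 2).const_add (x ^ 2)
      simpa using this
    have h0 : HasDerivAt (fun s : ℝ => s - y) 1 s := (hasDerivAt_id s).sub_const y
    have h2 := (h0.div h1 hvs.ne').neg
    have h3 : HasDerivAt (fun s : ℝ => c * s) c s := by
      simpa using (hasDerivAt_id s).const_mul c
    have h4 := h2.sub h3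
    have e : -((1 * (x ^ 2 + (s - y) ^ 2) - (s - y) * (2 * (s - y))) /
        (x ^ 2 + (s - y) ^ 2) ^ 2) - c =
        ((s - y) ^ 2 - x ^ 2) / (x ^ 2 + (s - y) ^ 2) ^ 2 - c := by
      field_simp
      ring
    rw [e] at h4
    exact h4.hasDerivWithinAt
  · intro s hs
    have := hc s (hsub hs)
    show 0 ≤ ((s - y) ^ 2 - x ^ 2) / (x ^ 2 + (s - y) ^ 2) ^ 2 - c
    linarith

theorem cvx_pt {b d p q t : ℝ} (hd : 0 < d) (hdb : d < b) (hb : b ≤ 1) (hp : -(b - d) ≤ p)
    (hpq : p < q) (hq : q ≤ b - d) (h0 : 0 ≤ t) (h1 : t ≤ 1) {w : ℂ}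
    (hw : (w.re = 0 ∧ |w.im| ≤ b ∧ (w.im < p ∨ q < w.im)) ∨ b < |w.im|) :
    K ⟨0, (1 - t) * p + t * q⟩ w ≤ (1 - t) * K ⟨0, p⟩ w + t * K ⟨0, q⟩ w
      - cw d w / 2 * (t * (1 - t) * (q - p) ^ 2) := by
  -- the two facts on the second derivative
  have key : (∀ s ∈ Icc p q, 0 < w.re ^ 2 + (s - w.im) ^ 2) ∧
      (∀ s ∈ Icc p q, cw d w ≤ ((s - w.im) ^ 2 - w.re ^ 2) / (w.re ^ 2 + (s - w.im) ^ 2) ^ 2) := by
    rcases hw with ⟨hre, him, hout⟩ | hfar
    · -- on the axis
      have hne : ∀ s ∈ Icc p q, 0 < (s - w.im) ^ 2 := by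
        intro s hs
        have : s - w.im ≠ 0 := by
          intro h
          have hs1 := hs.1
          have hs2 := hs.2
          rcases hout with h' | h'
          · linarith
          · linarith
        positivity
      have hcw : cw d w = 3 / 100 := by
        unfold cw
        rw [if_neg, if_neg, sub_zero, sub_zero]
        · rw [hre, abs_zero]; linarith
        · linarith
      refine ⟨fun s hs => ?_, fun s hs => ?_⟩
      · rw [hre]; have := hne s hs; linarith
      · have h2 := hne s hs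
        rw [hcw, hre]
        have e : ((s - w.im) ^ 2 - 0 ^ 2) / (0 ^ 2 + (s - w.im) ^ 2) ^ 2 = 1 / (s - w.im) ^ 2 := by
          have : s - w.im ≠ 0 := by
            intro h; rw [h] at h2; simp at h2
          field_simp
          ring
        rw [e, le_div_iff₀ h2]
        have ha := abs_le.1 him
        have hs1 := hs.1
        have hs2 := hs.2
        have : (s - w.im) ^ 2 ≤ 4 := by
          have e1 : s - w.im ≤ 2 := by linarith
          have e2 : -2 ≤ s - w.im := by linarith
          nlinarith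
        linarith
    · -- far from the window
      have hu : ∀ s ∈ Icc p q, d ^ 2 ≤ (s - w.im) ^ 2 := by
        intro s hs
        have hs1 := hs.1
        have hs2 := hs.2
        rcases lt_abs.1 hfar with h | h
        · have : d ≤ w.im - s := by linarith
          nlinarith
        · have : d ≤ s - w.im := by linarith
          nlinarith
      have hd2 : 0 < d ^ 2 := by positivity
      have hpos : ∀ s ∈ Icc p q, 0 < w.re ^ 2 + (s - w.im) ^ 2 := by
        intro s hs
        have := hu s hs
        have := sq_nonneg w.re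
        linarith
      refine ⟨hpos, fun s hs => ?_⟩
      have hv := hpos s hs
      have hus := hu s hs
      set X := w.re ^ 2 with hX
      set u := (s - w.im) ^ 2 with hudef
      have hX0 : 0 ≤ X := by positivity
      have hu0 : 0 < u := by linarith
      by_cases hre : d / 2 < |w.re|
      · -- large real part
        have h8 : -(1 / (8 * u)) ≤ (u - X) / (X + u) ^ 2 := by
          rw [neg_le_iff_add_nonneg]
          have : (u - X) / (X + u) ^ 2 + 1 / (8 * u) =
              ((u - X) * (8 * u) + (X + u) ^ 2) / ((X + u) ^ 2 * (8 * u)) := by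
            field_simp
          rw [this]
          apply div_nonneg _ (by positivity)
          nlinarith [sq_nonneg (X - 3 * u)]
        have h9 : 1 / (8 * u) ≤ 1 / (8 * d ^ 2) :=
          one_div_le_one_div_of_le (by positivity) (by linarith)
        have h10 : cw d w ≤ 3 / 100 - 1 / d ^ 2 := by
          unfold cw
          rw [if_pos hre]
          split_ifs <;> linarith
        have h11 : 1 / (8 * d ^ 2) = 1 / 8 * (1 / d ^ 2) := by
          field_simp
        have h12 : 1 ≤ 1 / d ^ 2 := by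
          rw [le_div_iff₀ hd2]
          nlinarith
        linarith
      · -- small real part
        have hX4 : X ≤ d ^ 2 / 4 := by
          have h := not_lt.1 hre
          have : |w.re| ^ 2 ≤ (d / 2) ^ 2 := pow_le_pow_left₀ (abs_nonneg _) h 2
          rw [sq_abs] at this
          rw [hX]
          linarith
        have hXu : X ≤ u / 4 := by linarith
        have hv2 : 0 < (X + u) ^ 2 := by positivity
        by_cases him : 3 ≤ |w.im|
        · have : cw d w = 0 := by
            unfold cw
            rw [if_pos him, if_neg hre]; norm_num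
          rw [this]
          apply div_nonneg _ hv2.le
          linarith
        · have : cw d w = 3 / 100 := by
            unfold cw
            rw [if_neg him, if_neg hre]; norm_num
          rw [this, le_div_iff₀ hv2]
          have hu16 : u ≤ 16 := by
            have h := abs_lt.1 (not_le.1 him)
            have hs1 := hs.1
            have hs2 := hs.2
            have e1 : s - w.im ≤ 4 := by linarith
            have e2 : -4 ≤ s - w.im := by linarith
            rw [hudef]
            nlinarith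
          have e3 : (X + u) ^ 2 ≤ (5 / 4 * u) ^ 2 := by
            apply pow_le_pow_left₀ (by positivity)
            linarith
          have e4 : (5 / 4 * u) ^ 2 = 25 / 16 * u * u := by ring
          have e5 : 25 / 16 * u * u ≤ 25 / 16 * u * 16 :=
            mul_le_mul_of_nonneg_left hu16 (by positivity)
          linarith
  have hconv := CVXA_conv key.1 key.2
  have hP : p ∈ Icc p q := ⟨le_rfl, hpq.le⟩
  have hQ : q ∈ Icc p q := ⟨hpq.le, le_rfl⟩
  have h := hconv.2 hP hQ (show (0 : ℝ) ≤ 1 - t by linarith) h0 (by ring)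
  simp only [smul_eq_mul] at h
  rw [CVXA_K, CVXA_K, CVXA_K]
  have e : cw d w / 2 * (t * (1 - t) * (q - p) ^ 2) =
      cw d w / 2 * ((1 - t) * p ^ 2 + t * q ^ 2 - ((1 - t) * p + t * q) ^ 2) := by ring
  rw [e]
  linarith

end Pool.Agent.H5.AF
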