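import Pool.Agent.H5.AF.Defs

set_option autoImplicit false
open MeasureTheory Set Filter Topology
open scoped ENNReal NNReal

namespace Pool.Agent.H5.AF

/-!
Part OFF. Comparison of the potential off the axis and on the axis, in a gap.
Paper proof: for `w = x' + i y'` in the support, `K ⟨x,y⟩ w - K ⟨0,y⟩ w = (1/2) log(‖iy-w‖²/‖z-w‖²)`.
If `|y'| ≤ b` then `x' = 0` and the difference is `≤ 0`.  If `|y'| > b`, `‖z-w‖ ≥ d` and the
difference is `≤ (1/2)(2xx' - x²)/‖z-w‖² ≤ |x||x'|/d²` (`log t ≤ t - 1`).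
In a gap (`l {|im - y| < η} = 0`) all kernels are bounded: integrable, and
`|K ⟨x,y⟩ w - K ⟨0,y⟩ w| ≤ |x|/η` (`log (a/b) ≤ |a-b|/b`).
-/

theorem off_ae {l : Measure ℂ} {y η : ℝ} (hgap : l {z : ℂ | |z.im - y| < η} = 0) :
    ∀ᵐ w ∂l, η ≤ |w.im - y| := by
  rw [ae_iff]
  have e : {w : ℂ | ¬ η ≤ |w.im - y|} = {z : ℂ | |z.im - y| < η} := by
    ext w; simp
  rw [e]
  exact hgap

theorem off_im_le (x y : ℝ) (w : ℂ) : |w.im - y| ≤ ‖(⟨x, y⟩ : ℂ) - w‖ := by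
  have h := Complex.abs_im_le_norm ((⟨x, y⟩ : ℂ) - w)
  rw [Complex.sub_im] at h
  rwa [abs_sub_comm]

theorem gap_int {Γ : Set ℂ} (hΓ : IsCompact Γ) {l : Measure ℂ} (hl : IsProbabilityMeasure l)
    (hs : l Γᶜ = 0) {y η : ℝ} (hη : 0 < η) (hgap : l {z : ℂ | |z.im - y| < η} = 0) (x : ℝ) :
    Integrable (K ⟨x, y⟩) l := by
  obtain ⟨R, hR⟩ := hΓ.isBounded.exists_norm_le
  have h1 := off_ae hgap
  have h2 : ∀ᵐ w ∂l, w ∈ Γ := by rw [ae_iff]; exact hs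
  refine Integrable.of_bound (measurable_K_left _).aestronglyMeasurable
    (|Real.log η| + |Real.log (‖(⟨x, y⟩ : ℂ)‖ + R)|) ?_
  filter_upwards [h1, h2] with w hw1 hw2
  have h3 : η ≤ ‖(⟨x, y⟩ : ℂ) - w‖ := hw1.trans (off_im_le x y w)
  have h4 : ‖(⟨x, y⟩ : ℂ) - w‖ ≤ ‖(⟨x, y⟩ : ℂ)‖ + R :=
    (norm_sub_le _ _).trans (by linarith [hR w hw2])
  have h5 : Real.log η ≤ Real.log ‖(⟨x, y⟩ : ℂ) - w‖ := Real.log_le_log hη h3
  have h6 : Real.log ‖(⟨x, y⟩ : ℂ) - w‖ ≤ Real.log (‖(⟨x, y⟩ : ℂ)‖ + R) :=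
    Real.log_le_log (hη.trans_le h3) h4
  unfold K
  rw [Real.norm_eq_abs, abs_neg, abs_le]
  constructor
  · have := neg_abs_le (Real.log η)
    have := abs_nonneg (Real.log (‖(⟨x, y⟩ : ℂ)‖ + R))
    linarith
  · have := le_abs_self (Real.log (‖(⟨x, y⟩ : ℂ)‖ + R))
    have := abs_nonneg (Real.log η)
    linarith

theorem off_log {a b η r : ℝ} (hη : 0 < η) (ha : η ≤ a) (hb : η ≤ b) (hr : |a - b| ≤ r) :
    |Real.log a - Real.log b| ≤ r / η := by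
  have ha' : 0 < a := hη.trans_le ha
  have hb' : 0 < b := hη.trans_le hb
  have hr0 : 0 ≤ r := (abs_nonneg _).trans hr
  have key : ∀ {a b : ℝ}, 0 < a → 0 < b → η ≤ b → |a - b| ≤ r →
      Real.log a - Real.log b ≤ r / η := by
    intro a b ha hb hb2 hab
    rw [← Real.log_div ha.ne' hb.ne']
    have h1 := Real.log_le_sub_one_of_pos (div_pos ha hb)
    have h2 : a / b - 1 = (a - b) / b := by field_simp
    have h3 : (a - b) / b ≤ r / b :=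
      div_le_div_of_nonneg_right ((le_abs_self _).trans hab) hb.le
    have h4 : r / b ≤ r / η := div_le_div_of_nonneg_left hr0 hη hb2
    linarith
  rw [abs_le]
  constructor
  · have := key hb' ha' ha (by rw [abs_sub_comm]; exact hr)
    linarith
  · exact key ha' hb' hb hr

theorem off_lip {Γ : Set ℂ} (hΓ : IsCompact Γ) {l : Measure ℂ} (hl : IsProbabilityMeasure l)
    (hs : l Γᶜ = 0) {y η : ℝ} (hη : 0 < η) (hgap : l {z : ℂ | |z.im - y| < η} = 0) (x : ℝ) :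
    |U l ⟨x, y⟩ - U l ⟨0, y⟩| ≤ |x| / η := by
  unfold U
  rw [← integral_sub (gap_int hΓ hl hs hη hgap x) (gap_int hΓ hl hs hη hgap 0)]
  have h : ∀ᵐ w ∂l, ‖K ⟨x, y⟩ w - K ⟨0, y⟩ w‖ ≤ |x| / η := by
    filter_upwards [off_ae hgap] with w hw
    unfold K
    rw [Real.norm_eq_abs]
    have h1 := hw.trans (off_im_le x y w)
    have h2 := hw.trans (off_im_le 0 y w)
    have h3 : |‖(⟨0, y⟩ : ℂ) - w‖ - ‖(⟨x, y⟩ : ℂ) - w‖| ≤ |x| := by
      refine (abs_norm_sub_norm_le _ _).trans ?_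
      have : ((⟨0, y⟩ : ℂ) - w - ((⟨x, y⟩ : ℂ) - w)) = ((-x : ℝ) : ℂ) := by
        apply Complex.ext <;> simp
      rw [this, Complex.norm_real, Real.norm_eq_abs, abs_neg]
    have h4 := off_log hη h2 h1 h3
    have h5 : -Real.log ‖(⟨x, y⟩ : ℂ) - w‖ - -Real.log ‖(⟨0, y⟩ : ℂ) - w‖ =
      Real.log ‖(⟨0, y⟩ : ℂ) - w‖ - Real.log ‖(⟨x, y⟩ : ℂ) - w‖ := by ring
    rw [h5]
    exact h4
  have := norm_integral_le_of_norm_le_const h
  rw [Real.norm_eq_abs, probReal_univ, mul_one] at this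
  exact this

theorem off_pt {x y d x' y' : ℝ} (hd : 0 < d)
    (hpos : 0 < ‖(⟨x, y⟩ : ℂ) - ⟨x', y'⟩‖) (hpos0 : 0 < ‖(⟨0, y⟩ : ℂ) - ⟨x', y'⟩‖)
    (h : x' = 0 ∨ d ≤ |y' - y|) :
    K ⟨x, y⟩ ⟨x', y'⟩ - K ⟨0, y⟩ ⟨x', y'⟩ ≤ |x| / d ^ 2 * |x'| := by
  unfold K
  have hn1 : ‖(⟨x, y⟩ : ℂ) - ⟨x', y'⟩‖ ^ 2 = (x - x') ^ 2 + (y - y') ^ 2 := by
    rw [← Complex.normSq_eq_norm_sq, Complex.normSq_apply]; simp; ring
  have hn0 : ‖(⟨0, y⟩ : ℂ) - ⟨x', y'⟩‖ ^ 2 = x' ^ 2 + (y - y') ^ 2 := by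
    rw [← Complex.normSq_eq_norm_sq, Complex.normSq_apply]; simp; ring
  set A := ‖(⟨x, y⟩ : ℂ) - ⟨x', y'⟩‖ with hA
  set B := ‖(⟨0, y⟩ : ℂ) - ⟨x', y'⟩‖ with hB
  have h1 : Real.log (B ^ 2 / A ^ 2) = 2 * (Real.log B - Real.log A) := by
    rw [Real.log_div (by positivity) (by positivity), Real.log_pow, Real.log_pow]
    push_cast; ring
  have h2 := Real.log_le_sub_one_of_pos (show 0 < B ^ 2 / A ^ 2 by positivity)
  have h3 : B ^ 2 / A ^ 2 - 1 = (2 * x * x' - x ^ 2) / A ^ 2 := by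
    have hA2 : A ^ 2 ≠ 0 := by positivity
    rw [div_sub_one hA2, hn1, hn0]
    congr 1
    ring
  have h4 : -Real.log A - -Real.log B ≤ 1 / 2 * ((2 * x * x' - x ^ 2) / A ^ 2) := by linarith
  refine h4.trans ?_
  rcases h with h | h
  · subst h
    have : (2 * x * 0 - x ^ 2) / A ^ 2 ≤ 0 := by
      apply div_nonpos_of_nonpos_of_nonneg
      · nlinarith [sq_nonneg x]
      · positivity
    simp only [abs_zero, mul_zero]
    simp only [mul_zero] at this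
    linarith
  · have hA2 : d ^ 2 ≤ A ^ 2 := by
      rw [hn1]
      have : d ^ 2 ≤ |y' - y| ^ 2 := pow_le_pow_left₀ hd.le h 2
      rw [sq_abs] at this
      nlinarith [sq_nonneg (x - x')]
    have h5 : 2 * x * x' - x ^ 2 ≤ 2 * (|x| * |x'|) := by
      have := le_abs_self (x * x')
      rw [abs_mul] at this
      nlinarith [sq_nonneg x]
    have h6 : (2 * x * x' - x ^ 2) / A ^ 2 ≤ 2 * (|x| * |x'|) / A ^ 2 :=
      div_le_div_of_nonneg_right h5 (by positivity)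
    have h7 : 2 * (|x| * |x'|) / A ^ 2 ≤ 2 * (|x| * |x'|) / d ^ 2 :=
      div_le_div_of_nonneg_left (by positivity) (by positivity) hA2
    have h8 : 1 / 2 * (2 * (|x| * |x'|) / d ^ 2) = |x| / d ^ 2 * |x'| := by ring
    rw [← h8]
    linarith

theorem off_le {Γ : Set ℂ} (hΓ : IsCompact Γ) {l : Measure ℂ} (hl : IsProbabilityMeasure l)
    (hs : l Γᶜ = 0) {b d κ y η : ℝ} (hκ : 0 < κ) (hd : 0 < d)
    (hax : l {z : ℂ | |z.im| ≤ b ∧ z.re ≠ 0} = 0) (hy : |y| ≤ b - d) (hη : 0 < η)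
    (hgap : l {z : ℂ | |z.im - y| < η} = 0) (hM : ∫ z, |z.re| ∂l ≤ κ / 2 * d ^ 2) (x : ℝ) :
    U l ⟨x, y⟩ ≤ U l ⟨0, y⟩ + κ / 2 * |x| := by
  obtain ⟨R, hR⟩ := hΓ.isBounded.exists_norm_le
  have hre : Integrable (fun z : ℂ => |z.re|) l := by
    refine Integrable.of_bound (by fun_prop) R ?_
    have h2 : ∀ᵐ w ∂l, w ∈ Γ := by rw [ae_iff]; exact hs
    filter_upwards [h2] with w hw
    rw [Real.norm_eq_abs, abs_abs]
    exact (Complex.abs_re_le_norm w).trans (hR w hw)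
  have hax' : ∀ᵐ w ∂l, |w.im| ≤ b → w.re = 0 := by
    rw [ae_iff]
    have e : {w : ℂ | ¬ (|w.im| ≤ b → w.re = 0)} = {z : ℂ | |z.im| ≤ b ∧ z.re ≠ 0} := by
      ext w; simp
    rw [e]
    exact hax
  have hpt : ∀ᵐ w ∂l, K ⟨x, y⟩ w - K ⟨0, y⟩ w ≤ |x| / d ^ 2 * |w.re| := by
    filter_upwards [off_ae hgap, hax'] with w hw1 hw2
    have h1 := hη.trans_le (hw1.trans (off_im_le x y w))
    have h0 := hη.trans_le (hw1.trans (off_im_le 0 y w))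
    refine off_pt (x' := w.re) (y' := w.im) hd h1 h0 ?_
    by_cases hb : |w.im| ≤ b
    · exact Or.inl (hw2 hb)
    · right
      push Not at hb
      have h3 : |w.im| - |y| ≤ |w.im - y| := abs_sub_abs_le_abs_sub _ _
      linarith
  have hi1 := gap_int hΓ hl hs hη hgap x
  have hi0 := gap_int hΓ hl hs hη hgap 0
  have h1 : U l ⟨x, y⟩ - U l ⟨0, y⟩ ≤ ∫ w, |x| / d ^ 2 * |w.re| ∂l := by
    unfold U
    rw [← integral_sub hi1 hi0]
    exact integral_mono_ae (hi1.sub hi0) (hre.const_mul _) hpt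
  rw [integral_const_mul] at h1
  have h2 : |x| / d ^ 2 * ∫ z : ℂ, |z.re| ∂l ≤ |x| / d ^ 2 * (κ / 2 * d ^ 2) :=
    mul_le_mul_of_nonneg_left hM (by positivity)
  have h3 : |x| / d ^ 2 * (κ / 2 * d ^ 2) = κ / 2 * |x| := by
    field_simp
  linarith

end Pool.Agent.H5.AF
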