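import Pool.Agent.H5.AF.Defs
import Pool.Agent.H5.AF.CvxA
import Pool.Agent.H5.AF.Off
set_option autoImplicit false
open MeasureTheory Set Filter Topology
open scoped ENNReal NNReal

namespace Pool.Agent.H5.AF

/-!
Part CVXB. Strong convexity of `y ↦ U l ⟨0,y⟩` in a gap.
Paper proof: `l`-a.e. `w` satisfies the hypothesis of `cvx_pt` (`l {p < im < q} = 0`, points with
`im = p` or `q` are `⟨0,p⟩`, `⟨0,q⟩` a.e., which are null).  Integrate; `∫ cw dl ≥ 0.03 - 0.03 * 0.1 -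
(1/d²) * (2/d) * ∫|re| dl ≥ 0.02` (Markov).  `K` at the intermediate point is integrable
since it is in a gap (`gap_int`), for `0 < t < 1`; `t = 0, 1` are trivial.
-/

theorem cvxB_re_int {Γ : Set ℂ} (hΓ : IsCompact Γ) {l : Measure ℂ} (hl : IsProbabilityMeasure l)
    (hs : l Γᶜ = 0) : Integrable (fun z : ℂ => |z.re|) l := by
  obtain ⟨R, hR⟩ := hΓ.isBounded.subset_closedBall (0 : ℂ)
  refine Integrable.of_bound (by fun_prop : Measurable fun z : ℂ => |z.re|).aestronglyMeasurable R ?_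
  have h1 : ∀ᵐ z ∂l, z ∈ Γ := by
    rw [ae_iff]; exact hs
  refine h1.mono fun z hz => ?_
  have h2 := hR hz
  rw [mem_closedBall_zero_iff] at h2
  rw [Real.norm_eq_abs, abs_abs]
  exact (Complex.abs_re_le_norm z).trans h2

theorem cvxB_cw {Γ : Set ℂ} (hΓ : IsCompact Γ) {l : Measure ℂ} (hl : IsProbabilityMeasure l)
    (hs : l Γᶜ = 0) {d : ℝ} (hd : 0 < d)
    (hfar : l.real {z : ℂ | 3 ≤ |z.im|} ≤ 1 / 10)
    (hM : ∫ z, |z.re| ∂l ≤ d ^ 3 / 1000) :
    Integrable (cw d) l ∧ 1 / 50 ≤ ∫ w, cw d w ∂l := by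
  have hA : MeasurableSet {z : ℂ | 3 ≤ |z.im|} :=
    measurableSet_le measurable_const (by fun_prop)
  have hB : MeasurableSet {z : ℂ | d / 2 < |z.re|} :=
    measurableSet_lt measurable_const (by fun_prop)
  have e : cw d = fun w : ℂ => 3 / 100
      - ({z : ℂ | 3 ≤ |z.im|}.indicator (fun _ => (3 / 100 : ℝ)) w)
      - ({z : ℂ | d / 2 < |z.re|}.indicator (fun _ => (1 / d ^ 2 : ℝ)) w) := by
    funext w
    simp only [cw, indicator, mem_ofPred_eq]
  have i1 : Integrable (fun _ : ℂ => (3 / 100 : ℝ)) l := integrable_const _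
  have i2 : Integrable ({z : ℂ | 3 ≤ |z.im|}.indicator (fun _ => (3 / 100 : ℝ))) l :=
    i1.indicator hA
  have i3 : Integrable ({z : ℂ | d / 2 < |z.re|}.indicator (fun _ => (1 / d ^ 2 : ℝ))) l :=
    (integrable_const _).indicator hB
  have i12 : Integrable (fun w : ℂ => 3 / 100
      - ({z : ℂ | 3 ≤ |z.im|}.indicator (fun _ => (3 / 100 : ℝ)) w)) l := i1.sub i2
  refine ⟨?_, ?_⟩
  · rw [e]; exact i12.sub i3
  · rw [e, integral_sub i12 i3, integral_sub i1 i2, integral_indicator_const _ hA,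
      integral_indicator_const _ hB, integral_const, probReal_univ, one_smul, smul_eq_mul,
      smul_eq_mul]
    have hmk : d / 2 * l.real {z : ℂ | d / 2 ≤ |z.re|} ≤ ∫ z, |z.re| ∂l :=
      mul_meas_ge_le_integral_of_nonneg (ae_of_all _ fun z => abs_nonneg _)
        (cvxB_re_int hΓ hl hs) (d / 2)
    have hmono : l.real {z : ℂ | d / 2 < |z.re|} ≤ l.real {z : ℂ | d / 2 ≤ |z.re|} := by
      refine measureReal_mono ?_
      intro z hz
      have hz' : d / 2 < |z.re| := hz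
      exact hz'.le
    have h3 : d / 2 * l.real {z : ℂ | d / 2 < |z.re|} ≤ d ^ 3 / 1000 :=
      ((mul_le_mul_of_nonneg_left hmono (by positivity)).trans hmk).trans hM
    have h4 : l.real {z : ℂ | d / 2 < |z.re|} * (1 / d ^ 2) ≤ 2 / 1000 := by
      have : l.real {z : ℂ | d / 2 < |z.re|} ≤ 2 / 1000 * d ^ 2 := by
        have h5 : d / 2 * l.real {z : ℂ | d / 2 < |z.re|} ≤ d / 2 * (2 / 1000 * d ^ 2) := by
          refine h3.trans (le_of_eq ?_)
          ring
        exact le_of_mul_le_mul_left h5 (by positivity)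
      rw [mul_one_div, div_le_iff₀ (by positivity)]
      exact this
    linarith

theorem gap_cvx {Γ : Set ℂ} (hΓ : IsCompact Γ) {l : Measure ℂ} (hl : IsProbabilityMeasure l)
    (hs : l Γᶜ = 0) {b d p q t : ℝ} (hd : 0 < d) (hdb : d < b) (hb : b ≤ 1)
    (hax : l {z : ℂ | |z.im| ≤ b ∧ z.re ≠ 0} = 0)
    (hfar : l.real {z : ℂ | 3 ≤ |z.im|} ≤ 1 / 10)
    (hM : ∫ z, |z.re| ∂l ≤ d ^ 3 / 1000)
    (hp : -(b - d) ≤ p) (hpq : p < q) (hq : q ≤ b - d)
    (hgap : l {z : ℂ | p < z.im ∧ z.im < q} = 0)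
    (hp0 : l {(⟨0, p⟩ : ℂ)} = 0) (hq0 : l {(⟨0, q⟩ : ℂ)} = 0)
    (hpi : Integrable (K ⟨0, p⟩) l) (hqi : Integrable (K ⟨0, q⟩) l)
    (h0 : 0 ≤ t) (h1 : t ≤ 1) :
    U l ⟨0, (1 - t) * p + t * q⟩ ≤ (1 - t) * U l ⟨0, p⟩ + t * U l ⟨0, q⟩
      - 1 / 100 * (t * (1 - t) * (q - p) ^ 2) := by
  rcases h0.eq_or_lt with rfl | h0'
  · simp
  rcases h1.eq_or_lt with rfl | h1'
  · simp
  obtain ⟨hci, hcl⟩ := cvxB_cw hΓ hl hs hd hfar hM
  have hX : 0 ≤ t * (1 - t) * (q - p) ^ 2 :=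
    mul_nonneg (mul_nonneg h0 (by linarith)) (sq_nonneg _)
  set y : ℝ := (1 - t) * p + t * q with hy
  have hyp : p < y := by
    have : 0 < t * (q - p) := mul_pos h0' (by linarith)
    rw [hy]; linarith [this]
  have hyq : y < q := by
    have : 0 < (1 - t) * (q - p) := mul_pos (by linarith) (by linarith)
    rw [hy]; linarith [this]
  have hyi : Integrable (K ⟨0, y⟩) l := by
    refine gap_int hΓ hl hs (η := min (y - p) (q - y)) (lt_min (by linarith) (by linarith)) ?_ 0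
    refine measure_mono_null ?_ hgap
    intro z hz
    have hz' : |z.im - y| < min (y - p) (q - y) := hz
    have h3 := abs_lt.1 hz'
    have h4 := min_le_left (y - p) (q - y)
    have h5 := min_le_right (y - p) (q - y)
    exact ⟨by linarith [h3.1], by linarith [h3.2]⟩
  have hae : ∀ᵐ w ∂l, (w.re = 0 ∧ |w.im| ≤ b ∧ (w.im < p ∨ q < w.im)) ∨ b < |w.im| := by
    have a1 : ∀ᵐ w ∂l, ¬ (|w.im| ≤ b ∧ w.re ≠ 0) := by rw [ae_iff]; simpa using hax
    have a2 : ∀ᵐ w ∂l, ¬ (p < w.im ∧ w.im < q) := by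
      rw [ae_iff]; simpa only [not_not] using hgap
    have a3 : ∀ᵐ w ∂l, w ≠ (⟨0, p⟩ : ℂ) := by
      rw [ae_iff]; simpa only [ne_eq, not_not, ofPred_eq_eq_singleton] using hp0
    have a4 : ∀ᵐ w ∂l, w ≠ (⟨0, q⟩ : ℂ) := by
      rw [ae_iff]; simpa only [ne_eq, not_not, ofPred_eq_eq_singleton] using hq0
    filter_upwards [a1, a2, a3, a4] with w w1 w2 w3 w4
    by_cases hw : b < |w.im|
    · exact Or.inr hw
    · push Not at hw
      left
      have hre : w.re = 0 := by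
        by_contra hne
        exact w1 ⟨hw, hne⟩
      refine ⟨hre, hw, ?_⟩
      by_contra hcon
      push Not at hcon
      rcases hcon.1.eq_or_lt with h | h
      · exact w3 (Complex.ext hre h.symm)
      · rcases hcon.2.eq_or_lt with h' | h'
        · exact w4 (Complex.ext hre h')
        · exact w2 ⟨h, h'⟩
  have hR1 : Integrable (fun w => (1 - t) * K ⟨0, p⟩ w + t * K ⟨0, q⟩ w) l :=
    (hpi.const_mul _).add (hqi.const_mul _)
  have hR2 : Integrable (fun w => cw d w / 2 * (t * (1 - t) * (q - p) ^ 2)) l :=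
    (hci.div_const 2).mul_const _
  have hle : U l ⟨0, y⟩ ≤ ∫ w, ((1 - t) * K ⟨0, p⟩ w + t * K ⟨0, q⟩ w
      - cw d w / 2 * (t * (1 - t) * (q - p) ^ 2)) ∂l := by
    unfold U
    refine integral_mono_ae hyi (hR1.sub hR2) ?_
    exact hae.mono fun w hw => cvx_pt hd hdb hb hp hpq hq h0 h1 hw
  rw [integral_sub hR1 hR2, integral_add (hpi.const_mul _) (hqi.const_mul _),
    integral_const_mul, integral_const_mul, integral_mul_const, integral_div] at hle
  have h6 : 1 / 100 * (t * (1 - t) * (q - p) ^ 2) ≤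
      (∫ w, cw d w ∂l) / 2 * (t * (1 - t) * (q - p) ^ 2) :=
    mul_le_mul_of_nonneg_right (by linarith) hX
  have h7 : U l ⟨0, p⟩ = ∫ w, K ⟨0, p⟩ w ∂l := rfl
  have h8 : U l ⟨0, q⟩ = ∫ w, K ⟨0, q⟩ w ∂l := rfl
  rw [h7, h8]
  linarith

end Pool.Agent.H5.AF
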