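import Mathlib

set_option autoImplicit false
open MeasureTheory Set Filter Topology
open scoped ENNReal NNReal

/-!
Definitions for `MP_a6fbd6_an`, question Q2 (max-min continua in a piecewise linear field).
-/

namespace Pool.Agent.H5.AF

/-- The piecewise linear external field `φ` of the problem. -/
noncomputable def phi (k₁ k₂ : ℝ) (z : ℂ) : ℝ := if 0 < z.re then -(k₁ * z.re) else k₂ * z.re

/-- Positive part of `log (1 / |z - t|)`, with the value `∞` on the diagonal. -/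
noncomputable def kpos (p : ℂ × ℂ) : ℝ≥0∞ :=
  if p.1 = p.2 then ⊤ else ENNReal.ofReal (-Real.log ‖p.1 - p.2‖)

/-- Negative part of `log (1 / |z - t|)`. -/
noncomputable def kneg (p : ℂ × ℂ) : ℝ≥0∞ := ENNReal.ofReal (Real.log ‖p.1 - p.2‖)

/-- The weighted energy `E_φ(μ) = ∬ log (1/|z - t|) dμ dμ + 2 ∫ φ dμ`, an extended real. -/
noncomputable def En (k₁ k₂ : ℝ) (μ : Measure ℂ) : EReal :=
  ((∫⁻ p, kpos p ∂(μ.prod μ) : ℝ≥0∞) : EReal) - ((∫⁻ p, kneg p ∂(μ.prod μ) : ℝ≥0∞) : EReal)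
    + ((2 * ∫ z, phi k₁ k₂ z ∂μ : ℝ) : EReal)

/-- The equilibrium energy `E_φ[Γ]`: the minimal energy of a probability measure carried by `Γ`. -/
noncomputable def EqEn (k₁ k₂ : ℝ) (Γ : Set ℂ) : EReal :=
  ⨅ μ : {μ : Measure ℂ // IsProbabilityMeasure μ ∧ μ Γᶜ = 0}, En k₁ k₂ μ.1

/-- The class `𝒯`: compact connected sets containing `z₁ = -ε₁ + i` and `z₂ = ε₂ - i`. -/
def Cls (ε₁ ε₂ : ℝ) (Γ : Set ℂ) : Prop :=
  IsCompact Γ ∧ IsConnected Γ ∧ (⟨-ε₁, 1⟩ : ℂ) ∈ Γ ∧ (⟨ε₂, -1⟩ : ℂ) ∈ Γ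

/-- `Γ` is a max-min continuum: it maximises the equilibrium energy over the class `𝒯`. -/
def MaxMin (k₁ k₂ ε₁ ε₂ : ℝ) (Γ : Set ℂ) : Prop :=
  Cls ε₁ ε₂ Γ ∧ ∀ Γ' : Set ℂ, Cls ε₁ ε₂ Γ' → EqEn k₁ k₂ Γ' ≤ EqEn k₁ k₂ Γ

/-! ### real valued level -/

/-- The logarithmic kernel (real valued, with the junk value `0` on the diagonal). -/
noncomputable def K (z w : ℂ) : ℝ := -Real.log ‖z - w‖

/-- Mutual energy. -/
noncomputable def M (μ ν : Measure ℂ) : ℝ := ∫ p : ℂ × ℂ, K p.1 p.2 ∂(μ.prod ν)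

/-- Logarithmic potential. -/
noncomputable def U (l : Measure ℂ) (z : ℂ) : ℝ := ∫ w, K z w ∂l

/-- The weighted energy at the real level. -/
noncomputable def E (k₁ k₂ : ℝ) (μ : Measure ℂ) : ℝ := M μ μ + 2 * ∫ z, phi k₁ k₂ z ∂μ

/-- The Frostman constant of an equilibrium measure. -/
noncomputable def Fr (k₁ k₂ : ℝ) (l : Measure ℂ) : ℝ := M l l + ∫ z, phi k₁ k₂ z ∂l

/-- `μ` is a probability measure carried by `Γ` with finite logarithmic energy. -/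
structure FE (Γ : Set ℂ) (μ : Measure ℂ) : Prop where
  prob : IsProbabilityMeasure μ
  supp : μ Γᶜ = 0
  atom : ∀ z, μ {z} = 0
  int : Integrable (fun p : ℂ × ℂ => K p.1 p.2) (μ.prod μ)

/-- `l` is an equilibrium measure of `Γ` in the field `φ`. -/
structure IsEq (k₁ k₂ : ℝ) (Γ : Set ℂ) (l : Measure ℂ) : Prop where
  fe : FE Γ l
  min : ∀ μ, FE Γ μ → E k₁ k₂ l ≤ E k₁ k₂ μ

/-- `Γ` is a max-min continuum with equilibrium measure `l` (real level). -/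
structure RMax (k₁ k₂ ε₁ ε₂ : ℝ) (Γ : Set ℂ) (l : Measure ℂ) : Prop where
  cls : Cls ε₁ ε₂ Γ
  eq : IsEq k₁ k₂ Γ l
  max : ∀ (Γ' : Set ℂ) (l' : Measure ℂ), Cls ε₁ ε₂ Γ' → IsEq k₁ k₂ Γ' l' →
    E k₁ k₂ l' ≤ E k₁ k₂ l

/-- The arcsine law on `[-1,1]`: image of the normalised Lebesgue measure of `[0,π]` under `cos`. -/
noncomputable def arc : Measure ℝ :=
  (ENNReal.ofReal (1 / Real.pi)) • ((volume.restrict (Icc 0 Real.pi)).map Real.cos)

/-- The arcsine law on `[m-r, m+r]`. -/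
noncomputable def arcS (m r : ℝ) : Measure ℝ := arc.map (fun s => m + r * s)

/-- The kernel of the envelope inequality. -/
noncomputable def qk (β : ℝ → ℝ) (p : ℂ × ℂ) : ℝ :=
  (β p.1.im - β p.2.im) ^ 2 / ‖p.1 - p.2‖ ^ 2 * (|p.1.re| * |p.2.re|)

/-- All the information on a max-min continuum which is used at the end of the proof. -/
structure Sit (k₁ k₂ b d η : ℝ) (Γ : Set ℂ) (l : Measure ℂ) (g : ℝ → ℂ) : Prop where
  cpt : IsCompact Γ
  eq : IsEq k₁ k₂ Γ l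
  gm : Measurable g
  gs : ∀ y ∈ Icc (-1 : ℝ) 1, g y ∈ Γ ∧ (g y).im = y
  d0 : 0 < d
  db : d < b
  b1 : b ≤ 1
  axis : l {z : ℂ | |z.im| ≤ b ∧ z.re ≠ 0} = 0
  e1 : ∫ z, |z.re| ∂l ≤ η
  e2 : l.real {z : ℂ | 3 ≤ |z.im|} ≤ η
  e3 : ∫ y, |(g y).re| ∂arc ≤ η
  e4 : ∫ y, (U l (g y) + phi k₁ k₂ (g y) - Fr k₁ k₂ l) ∂arc ≤ η

/-! ### elementary facts -/

theorem phi_nonpos {k₁ k₂ : ℝ} (h₁ : 0 < k₁) (h₂ : 0 < k₂) (z : ℂ) : phi k₁ k₂ z ≤ 0 := by
  unfold phi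
  split_ifs with h
  · have := mul_pos h₁ h; linarith
  · push Not at h; exact mul_nonpos_of_nonneg_of_nonpos h₂.le h

theorem phi_le {k₁ k₂ : ℝ} (h₁ : 0 < k₁) (h₂ : 0 < k₂) (z : ℂ) :
    phi k₁ k₂ z ≤ -(min k₁ k₂ * |z.re|) := by
  unfold phi
  split_ifs with h
  · rw [abs_of_pos h]
    have := mul_le_mul_of_nonneg_right (min_le_left k₁ k₂) h.le
    linarith
  · push Not at h
    rw [abs_of_nonpos h]
    have := mul_le_mul_of_nonneg_right (min_le_right k₁ k₂) (neg_nonneg.2 h)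
    linarith

theorem le_phi {k₁ k₂ : ℝ} (h₁ : 0 < k₁) (h₂ : 0 < k₂) (z : ℂ) :
    -(max k₁ k₂ * |z.re|) ≤ phi k₁ k₂ z := by
  unfold phi
  split_ifs with h
  · rw [abs_of_pos h]
    have := mul_le_mul_of_nonneg_right (le_max_left k₁ k₂) h.le
    linarith
  · push Not at h
    rw [abs_of_nonpos h]
    have := mul_le_mul_of_nonneg_right (le_max_right k₁ k₂) (neg_nonneg.2 h)
    linarith

/-- `φ` is the minimum/maximum of two linear functions. -/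
theorem phi_eq {k₁ k₂ : ℝ} (h₁ : 0 < k₁) (h₂ : 0 < k₂) (z : ℂ) :
    phi k₁ k₂ z = min (-(k₁ * z.re)) (k₂ * z.re) := by
  unfold phi
  split_ifs with h
  · rw [min_eq_left]
    have := mul_pos h₁ h; have := mul_pos h₂ h; linarith
  · push Not at h
    rw [min_eq_right]
    have := mul_nonpos_of_nonneg_of_nonpos h₂.le h
    have := mul_nonpos_of_nonneg_of_nonpos h₁.le h
    linarith

theorem phi_continuous {k₁ k₂ : ℝ} (h₁ : 0 < k₁) (h₂ : 0 < k₂) : Continuous (phi k₁ k₂) := by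
  have e : phi k₁ k₂ = fun z : ℂ => min (-(k₁ * z.re)) (k₂ * z.re) := by
    funext z; exact phi_eq h₁ h₂ z
  rw [e]
  fun_prop

theorem phi_axis {k₁ k₂ : ℝ} (y : ℝ) : phi k₁ k₂ ⟨0, y⟩ = 0 := by simp [phi]

theorem K_comm (z w : ℂ) : K z w = K w z := by unfold K; rw [norm_sub_rev]

theorem measurable_K : Measurable (fun p : ℂ × ℂ => K p.1 p.2) := by
  unfold K
  fun_prop

theorem measurable_K_left (z : ℂ) : Measurable (K z) := by
  unfold K
  fun_prop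

/-- lower bound of the kernel on bounded sets -/
theorem K_ge {R : ℝ} {z w : ℂ} (hz : ‖z‖ ≤ R) (hw : ‖w‖ ≤ R) : -(2 * R) ≤ K z w := by
  have hR : 0 ≤ R := (norm_nonneg z).trans hz
  have h : ‖z - w‖ ≤ 2 * R := (norm_sub_le z w).trans (by linarith)
  unfold K
  have h2 := Real.log_le_self (norm_nonneg (z - w))
  linarith

end Pool.Agent.H5.AF
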