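import Pool.Agent.H5.AF.Defs
import Pool.Agent.H5.AF.Uniq
set_option autoImplicit false
open MeasureTheory Set Filter Topology
open scoped ENNReal NNReal

namespace Pool.Agent.H5.AF

/-!
Part FRO1. First Frostman inequality.
-/

theorem fro_U_measurable (l : Measure ℂ) [SFinite l] : Measurable (U l) := by
  have h : StronglyMeasurable (fun p : ℂ × ℂ => K p.1 p.2) := measurable_K.stronglyMeasurable
  exact (h.integral_prod_right (ν := l)).measurable

theorem fro_phi_integrable {Γ : Set ℂ} (hΓ : IsCompact Γ) {k₁ k₂ : ℝ} (h₁ : 0 < k₁) (h₂ : 0 < k₂)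
    {μ : Measure ℂ} (hμ : FE Γ μ) : Integrable (phi k₁ k₂) μ := by
  have := hμ.prob
  have h : IntegrableOn (phi k₁ k₂) Γ μ :=
    (phi_continuous h₁ h₂).continuousOn.integrableOn_compact hΓ
  have h2 : μ.restrict Γ = μ := by
    apply Measure.restrict_eq_self_of_ae_mem
    rw [ae_iff]
    exact hμ.supp
  rw [IntegrableOn, h2] at h
  exact h

theorem U_integrable {Γ : Set ℂ} (hΓ : IsCompact Γ) {l μ : Measure ℂ} (hl : FE Γ l)
    (hμ : FE Γ μ) : Integrable (U l) μ ∧ M l μ = ∫ z, U l z ∂μ ∧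
      ∀ᵐ z ∂μ, Integrable (K z) l := by
  have := hl.prob
  have := hμ.prob
  have h := mut_int hΓ hμ hl
  refine ⟨h.integral_prod_left, ?_, h.prod_right_ae⟩
  rw [M_comm hl.prob hμ.prob]
  unfold M
  rw [integral_prod _ h]
  rfl

theorem F1 {Γ : Set ℂ} (hΓ : IsCompact Γ) {k₁ k₂ : ℝ} (h₁ : 0 < k₁) (h₂ : 0 < k₂)
    {l μ : Measure ℂ} (hl : IsEq k₁ k₂ Γ l) (hμ : FE Γ μ) :
    Fr k₁ k₂ l ≤ M l μ + ∫ z, phi k₁ k₂ z ∂μ := by
  by_contra hc
  rw [not_le] at hc
  set a := M l l with ha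
  set b := M l μ with hb
  set c := M μ μ with hcd
  set p := ∫ z, phi k₁ k₂ z ∂l with hp
  set q := ∫ z, phi k₁ k₂ z ∂μ with hq
  have hFr : Fr k₁ k₂ l = a + p := rfl
  rw [hFr] at hc
  have hpos : 2 * b ≤ a + c := mut_le hΓ hl.fe hμ
  have key : ∀ t : ℝ, 0 < t → t ≤ 1 → 2 * (a + p - (b + q)) ≤ t * (a + c - 2 * b) := by
    intro t ht0 ht1
    have h3 := hl.min _ (FE_mix hΓ hl.fe hμ ht0.le ht1)
    rw [E_mix h₁ h₂ hΓ hl.fe hμ ht0.le ht1] at h3
    have hE : E k₁ k₂ l = a + 2 * p := rfl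
    rw [hE, ← ha, ← hb, ← hcd, ← hp, ← hq] at h3
    have h4 : t * (2 * (a + p - (b + q))) ≤ t * (t * (a + c - 2 * b)) := by nlinarith
    exact le_of_mul_le_mul_left h4 ht0
  set B := a + c - 2 * b with hB
  have hB0 : 0 ≤ B := by linarith
  set δ := a + p - (b + q) with hδ
  have hδ0 : 0 < δ := by linarith
  have h5 := key (min 1 (δ / (B + 1))) (lt_min one_pos (by positivity)) (min_le_left _ _)
  have h6 : min 1 (δ / (B + 1)) * B ≤ δ := by
    calc min 1 (δ / (B + 1)) * B ≤ δ / (B + 1) * B :=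
          mul_le_mul_of_nonneg_right (min_le_right _ _) hB0
      _ ≤ δ / (B + 1) * (B + 1) := by
          apply mul_le_mul_of_nonneg_left (by linarith)
          positivity
      _ = δ := by field_simp
  linarith

theorem F1_ae {Γ : Set ℂ} (hΓ : IsCompact Γ) {k₁ k₂ : ℝ} (h₁ : 0 < k₁) (h₂ : 0 < k₂)
    {l μ : Measure ℂ} (hl : IsEq k₁ k₂ Γ l) (hμ : FE Γ μ) :
    ∀ᵐ z ∂μ, Fr k₁ k₂ l ≤ U l z + phi k₁ k₂ z := by
  have := hl.fe.prob
  have := hμ.prob
  by_contra hc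
  set A : Set ℂ := {z | ¬ Fr k₁ k₂ l ≤ U l z + phi k₁ k₂ z} with hA
  have hA0 : μ A ≠ 0 := fun h => hc (by rw [ae_iff]; exact h)
  have hAm : MeasurableSet A := by
    apply MeasurableSet.compl
    exact measurableSet_le measurable_const
      ((fro_U_measurable l).add (phi_continuous h₁ h₂).measurable)
  have hAtop : μ A ≠ ⊤ := measure_ne_top μ A
  set ν : Measure ℂ := (μ A)⁻¹ • μ.restrict A with hν
  have hprob : IsProbabilityMeasure ν := by
    constructor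
    rw [hν, Measure.smul_apply, Measure.restrict_apply_univ, smul_eq_mul]
    exact ENNReal.inv_mul_cancel hA0 hAtop
  have hac : ν ≪ μ := by
    rw [hν]
    exact (Measure.smul_absolutelyContinuous).trans Measure.restrict_le_self.absolutelyContinuous
  have hfe : FE Γ ν := by
    refine ⟨hprob, hac hμ.supp, fun z => hac (hμ.atom z), ?_⟩
    have h3 : ν.prod ν = ((μ A)⁻¹ * (μ A)⁻¹) • (μ.prod μ).restrict (A ×ˢ A) := by
      rw [hν, Measure.prod_smul_left, Measure.prod_smul_right, Measure.prod_restrict, smul_smul]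
    rw [h3]
    apply Integrable.smul_measure
    · exact hμ.int.restrict
    · exact ENNReal.mul_ne_top (ENNReal.inv_ne_top.2 hA0) (ENNReal.inv_ne_top.2 hA0)
  have h4 := F1 hΓ h₁ h₂ hl hfe
  obtain ⟨h5, h6, -⟩ := U_integrable hΓ hl.fe hfe
  have h7 := fro_phi_integrable hΓ h₁ h₂ hfe
  rw [h6, ← integral_add h5 h7] at h4
  have hint : Integrable (fun z => Fr k₁ k₂ l - (U l z + phi k₁ k₂ z)) ν :=
    (integrable_const _).sub (h5.add h7)
  have h8 : ∫ z, (Fr k₁ k₂ l - (U l z + phi k₁ k₂ z)) ∂ν ≤ 0 := by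
    have e : ∫ z, (Fr k₁ k₂ l - (U l z + phi k₁ k₂ z)) ∂ν =
        ∫ _, Fr k₁ k₂ l ∂ν - ∫ z, (U l z + phi k₁ k₂ z) ∂ν :=
      integral_sub (integrable_const _) (h5.add h7)
    rw [e, integral_const]
    simp only [probReal_univ, smul_eq_mul, one_mul]
    linarith
  have hpos : ∀ᵐ z ∂ν, 0 < Fr k₁ k₂ l - (U l z + phi k₁ k₂ z) := by
    have h9 : ∀ᵐ z ∂(μ.restrict A), z ∈ A := ae_restrict_mem hAm
    have h10 : ∀ᵐ z ∂ν, z ∈ A := (Measure.smul_absolutelyContinuous).ae_le h9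
    filter_upwards [h10] with z hz
    have hz : ¬ Fr k₁ k₂ l ≤ U l z + phi k₁ k₂ z := hz
    rw [not_le] at hz
    linarith
  have h11 : ∫ z, (Fr k₁ k₂ l - (U l z + phi k₁ k₂ z)) ∂ν = 0 :=
    le_antisymm h8 (integral_nonneg_of_ae (by filter_upwards [hpos] with z hz; exact hz.le))
  rw [integral_eq_zero_iff_of_nonneg_ae (by filter_upwards [hpos] with z hz; exact hz.le) hint]
    at h11
  have h12 : ∀ᵐ _ ∂ν, False := by
    filter_upwards [h11, hpos] with z hz1 hz2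
    have : Fr k₁ k₂ l - (U l z + phi k₁ k₂ z) = 0 := hz1
    linarith
  rw [ae_iff] at h12
  simp at h12

end Pool.Agent.H5.AF
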