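import Pool.Agent.H5.AF.Defs
import Pool.Agent.H5.AF.Fro1
set_option autoImplicit false
open MeasureTheory Set Filter Topology
open scoped ENNReal NNReal

namespace Pool.Agent.H5.AF

/-!
Part FRO2. Second Frostman inequality, on the support.
Paper proof: `∫ (U l + φ) dl = Fr` and `U l + φ ≥ Fr` `l`-a.e. (`F1_ae` with `μ = l`), so
`U l + φ = Fr` and `K z` integrable, `l`-a.e.  If `z` is in the support there are `z_j → z` with
this property; for every `n`, `w ↦ min (K z w) n` is continuous in `z` uniformly enough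
(dominated convergence: for `w ≠ z` by continuity, `l {z} = 0`), so
`∫ min (K z w) n dl(w) = lim_j ∫ min (K z_j w) n dl ≤ liminf (Fr - φ z_j) = Fr - φ z`;
monotone convergence in `n` (kernel bounded below on the compact set).  Or: Fatou directly.
-/

theorem F2 {Γ : Set ℂ} (hΓ : IsCompact Γ) {k₁ k₂ : ℝ} (h₁ : 0 < k₁) (h₂ : 0 < k₂)
    {l : Measure ℂ} (hl : IsEq k₁ k₂ Γ l) {z : ℂ} (hz : ∀ r > 0, 0 < l (Metric.ball z r)) :
    Integrable (K z) l ∧ U l z + phi k₁ k₂ z ≤ Fr k₁ k₂ l := by
  have hprob : IsProbabilityMeasure l := hl.fe.prob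
  obtain ⟨hUi, hUM, hKi⟩ := U_integrable hΓ hl.fe hl.fe
  have hF1 := F1_ae hΓ h₁ h₂ hl hl.fe
  have hΓae : ∀ᵐ w ∂l, w ∈ Γ := by
    rw [ae_iff]
    exact hl.fe.supp
  -- `φ` is integrable
  obtain ⟨R, hR⟩ := hΓ.isBounded.exists_norm_le
  have hphi_cont := phi_continuous h₁ h₂
  have hphi : Integrable (phi k₁ k₂) l := by
    obtain ⟨B, hB⟩ := hΓ.exists_bound_of_continuousOn (f := phi k₁ k₂) hphi_cont.continuousOn
    refine Integrable.of_bound hphi_cont.aestronglyMeasurable B ?_
    filter_upwards [hΓae] with w hw using hB w hw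
  -- equality almost everywhere
  have hEq : ∀ᵐ w ∂l, U l w + phi k₁ k₂ w = Fr k₁ k₂ l := by
    have hint : Integrable (fun w => U l w + phi k₁ k₂ w - Fr k₁ k₂ l) l :=
      (hUi.add hphi).sub (integrable_const _)
    have h0 : ∫ w, (U l w + phi k₁ k₂ w - Fr k₁ k₂ l) ∂l = 0 := by
      have hUφ : Integrable (fun w => U l w + phi k₁ k₂ w) l := hUi.add hphi
      rw [integral_sub hUφ (integrable_const _), integral_add hUi hphi]
      simp only [integral_const, probReal_univ, smul_eq_mul, one_mul]
      unfold Fr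
      rw [hUM]
      ring
    have h1 := (integral_eq_zero_iff_of_nonneg_ae (f := fun w => U l w + phi k₁ k₂ w - Fr k₁ k₂ l)
      (by filter_upwards [hF1] with w hw; simp only [Pi.zero_apply]; linarith) hint).1 h0
    filter_upwards [h1] with w hw
    simp only [Pi.zero_apply] at hw
    linarith
  have hG : ∀ᵐ w ∂l, w ∈ Γ ∧ U l w + phi k₁ k₂ w = Fr k₁ k₂ l ∧ Integrable (K w) l := by
    filter_upwards [hΓae, hEq, hKi] with w a b c using ⟨a, b, c⟩
  have hseq : ∀ n : ℕ, ∃ w ∈ Metric.ball z (1 / ((n : ℝ) + 1)),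
      w ∈ Γ ∧ U l w + phi k₁ k₂ w = Fr k₁ k₂ l ∧ Integrable (K w) l := by
    intro n
    by_contra hcon
    push Not at hcon
    have hb := hz (1 / ((n : ℝ) + 1)) (by positivity)
    have : l (Metric.ball z (1 / ((n : ℝ) + 1))) = 0 := by
      refine measure_mono_null ?_ (ae_iff.1 hG)
      intro w hw
      intro hc
      exact hcon w hw hc.1 hc.2.1 hc.2.2
    rw [this] at hb
    exact lt_irrefl _ hb
  choose zs hzs hzΓ hzE hzI using hseq
  have hlim : Tendsto zs atTop (𝓝 z) := by
    rw [tendsto_iff_dist_tendsto_zero]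
    refine squeeze_zero (fun n => dist_nonneg) (fun n => (Metric.mem_ball.1 (hzs n)).le) ?_
    exact tendsto_one_div_add_atTop_nhds_zero_nat
  have hzmem : z ∈ Γ := hΓ.isClosed.mem_of_tendsto hlim (Eventually.of_forall hzΓ)
  set C : ℝ := 2 * R with hC
  have hKnn : ∀ a ∈ Γ, ∀ᵐ w ∂l, 0 ≤ K a w + C := by
    intro a ha
    filter_upwards [hΓae] with w hw
    have := K_ge (hR a ha) (hR w hw)
    linarith
  -- the integrals of the shifted kernels
  have hval : ∀ n, ∫⁻ w, ENNReal.ofReal (K (zs n) w + C) ∂l =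
      ENNReal.ofReal (Fr k₁ k₂ l - phi k₁ k₂ (zs n) + C) := by
    intro n
    have hKC : Integrable (fun w => K (zs n) w + C) l := (hzI n).add (integrable_const C)
    rw [← ofReal_integral_eq_lintegral_ofReal hKC (hKnn _ (hzΓ n))]
    congr 1
    rw [integral_add (hzI n) (integrable_const C)]
    simp only [integral_const, probReal_univ, smul_eq_mul, one_mul]
    have := hzE n
    unfold U at this
    linarith
  have hnn : 0 ≤ Fr k₁ k₂ l - phi k₁ k₂ z + C := by
    have ht : Tendsto (fun n => Fr k₁ k₂ l - phi k₁ k₂ (zs n) + C) atTop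
        (𝓝 (Fr k₁ k₂ l - phi k₁ k₂ z + C)) :=
      ((tendsto_const_nhds.sub ((hphi_cont.tendsto z).comp hlim))).add tendsto_const_nhds
    refine ge_of_tendsto' ht fun n => ?_
    have h3 : 0 ≤ ∫ w, (K (zs n) w + C) ∂l := integral_nonneg_of_ae (hKnn _ (hzΓ n))
    rw [integral_add (hzI n) (integrable_const C)] at h3
    simp only [integral_const, probReal_univ, smul_eq_mul, one_mul] at h3
    have := hzE n
    unfold U at this
    linarith
  have hfatou : ∫⁻ w, ENNReal.ofReal (K z w + C) ∂l ≤
      ENNReal.ofReal (Fr k₁ k₂ l - phi k₁ k₂ z + C) := by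
    have hmeas : ∀ n, Measurable fun w => ENNReal.ofReal (K (zs n) w + C) := fun n =>
      ((measurable_K_left (zs n)).add_const C).ennreal_ofReal
    have hf := lintegral_liminf_le (μ := l) (u := (atTop : Filter ℕ)) hmeas
    have e1 : ∫⁻ w, ENNReal.ofReal (K z w + C) ∂l =
        ∫⁻ w, liminf (fun n => ENNReal.ofReal (K (zs n) w + C)) atTop ∂l := by
      apply lintegral_congr_ae
      have hne : ∀ᵐ w ∂l, w ≠ z := by
        rw [ae_iff]
        simpa using hl.fe.atom z
      filter_upwards [hne] with w hw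
      symm
      apply Tendsto.liminf_eq
      apply (ENNReal.continuous_ofReal.tendsto _).comp
      apply Tendsto.add _ tendsto_const_nhds
      unfold K
      apply Tendsto.neg
      have hne0 : ‖z - w‖ ≠ 0 := by
        rw [norm_ne_zero_iff, sub_ne_zero]
        exact fun e => hw e.symm
      exact ((Real.continuousAt_log hne0).tendsto).comp ((hlim.sub_const w).norm)
    have e2 : liminf (fun n => ∫⁻ w, ENNReal.ofReal (K (zs n) w + C) ∂l) atTop =
        ENNReal.ofReal (Fr k₁ k₂ l - phi k₁ k₂ z + C) := by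
      apply Tendsto.liminf_eq
      simp_rw [hval]
      apply (ENNReal.continuous_ofReal.tendsto _).comp
      exact ((tendsto_const_nhds.sub ((hphi_cont.tendsto z).comp hlim))).add tendsto_const_nhds
    rw [e1, ← e2]
    exact hf
  have hKint : Integrable (fun w => K z w + C) l := by
    rw [← lintegral_ofReal_ne_top_iff_integrable
      ((measurable_K_left z).add_const C).aestronglyMeasurable (hKnn z hzmem)]
    exact ne_top_of_le_ne_top ENNReal.ofReal_ne_top hfatou
  have hKz : Integrable (K z) l := by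
    have h4 : Integrable (fun w => K z w + C - C) l := hKint.sub (integrable_const (μ := l) C)
    have h5 : (fun w => K z w + C - C) = K z := by
      funext w
      ring
    rwa [h5] at h4
  refine ⟨hKz, ?_⟩
  rw [← ofReal_integral_eq_lintegral_ofReal hKint (hKnn z hzmem),
    ENNReal.ofReal_le_ofReal_iff hnn, integral_add hKz (integrable_const C)] at hfatou
  simp only [integral_const, probReal_univ, smul_eq_mul, one_mul] at hfatou
  unfold U
  linarith

end Pool.Agent.H5.AF
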