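import Pool.Agent.H5.AF.Defs
import Pool.Agent.H5.AF.CvxB
import Pool.Agent.H5.AF.Fro2
import Pool.Agent.H5.AF.Dom
set_option autoImplicit false
open MeasureTheory Set Filter Topology
open scoped ENNReal NNReal

namespace Pool.Agent.H5.AF

/-!
Part GAP. The final step: no gap of the support in `[-h, h]`.
Paper proof: let `S = {y | ∀ r > 0, 0 < l (ball ⟨0,y⟩ r)}` (closed; contained in `{y | ⟨0,y⟩ ∈ Γ}` since
`Γ` is closed and `l Γᶜ = 0`).  If `|y| ≤ b` then a neighbourhood statement: `l {p < im < q} = 0` iff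
`S ∩ (p,q) = ∅` for `-b ≤ p < q ≤ b` (`l` lives on the axis there; Lindelöf/compactness, or
`Measure.support`).  By the two mass hypotheses `S` meets `[h, b-d)` and `(-(b-d), -h]`.  Suppose `|y₀| ≤ h`
and `y₀ ∉ S`.  `p = sSup (S ∩ (-∞,y₀])`, `q = sInf (S ∩ [y₀,∞))` are in `S`, `-(b-d) < p < y₀ < q < b-d` and
`l {p < im < q} = 0`.  `F2` at `⟨0,p⟩`, `⟨0,q⟩` (`φ = 0` there): integrable, `U l ≤ Fr`.  `gap_cvx`:
`U l ⟨0,y⟩ < Fr` for `p < y < q`.  By `off_le`, `phi_le` also `W (g y) ≤ U l ⟨0,y⟩ - (κ/2)|re g y| < Fr` for all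
`y ∈ (p,q)`, contradicting `F1_ae` for `μ = arc.map g` (`dom_FE`) and `arc_pos`.
-/

/-- the points of the imaginary axis in the support of `l` -/
def gapS (l : Measure ℂ) : Set ℝ := {y : ℝ | ∀ r > 0, 0 < l (Metric.ball (⟨0, y⟩ : ℂ) r)}

theorem gap_dist (y y' : ℝ) : dist (⟨0, y⟩ : ℂ) ⟨0, y'⟩ = |y - y'| := by
  rw [Complex.dist_eq]
  have : ((⟨0, y⟩ : ℂ) - ⟨0, y'⟩) = ((y - y' : ℝ) : ℂ) * Complex.I := by
    apply Complex.ext <;> simp
  rw [this]
  simp only [norm_mul, Complex.norm_I, mul_one, Complex.norm_real, Real.norm_eq_abs]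

theorem gapS_closed (l : Measure ℂ) : IsClosed (gapS l) := by
  rw [← isOpen_compl_iff, Metric.isOpen_iff]
  intro y hy
  have hy' : ∃ r > 0, l (Metric.ball (⟨0, y⟩ : ℂ) r) = 0 := by
    by_contra hcon
    push Not at hcon
    exact hy fun r hr => pos_iff_ne_zero.2 (hcon r hr)
  obtain ⟨r, hr, h0⟩ := hy'
  refine ⟨r / 2, half_pos hr, ?_⟩
  intro y' hy1 hy2
  have h3 := hy2 (r / 2) (half_pos hr)
  have hsub : Metric.ball (⟨0, y'⟩ : ℂ) (r / 2) ⊆ Metric.ball (⟨0, y⟩ : ℂ) r := by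
    apply Metric.ball_subset_ball'
    rw [gap_dist]
    rw [Metric.mem_ball, Real.dist_eq] at hy1
    linarith
  have := measure_mono_null hsub h0
  rw [this] at h3
  exact lt_irrefl _ h3

theorem gapS_mem {Γ : Set ℂ} (hΓ : IsCompact Γ) {l : Measure ℂ} (hs : l Γᶜ = 0) {y : ℝ}
    (hy : y ∈ gapS l) : (⟨0, y⟩ : ℂ) ∈ Γ := by
  by_contra hcon
  have ho : IsOpen Γᶜ := hΓ.isClosed.isOpen_compl
  obtain ⟨r, hr, hsub⟩ := Metric.isOpen_iff.1 ho _ hcon
  have h3 := hy r hr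
  rw [measure_mono_null hsub hs] at h3
  exact lt_irrefl _ h3

theorem gap_null {l : Measure ℂ} {b p q : ℝ}
    (hax : l {z : ℂ | |z.im| ≤ b ∧ z.re ≠ 0} = 0) (hp : -b ≤ p) (hq : q ≤ b)
    (hS : ∀ y, p < y → y < q → y ∉ gapS l) : l {z : ℂ | p < z.im ∧ z.im < q} = 0 := by
  have h1 : l {z : ℂ | z.re = 0 ∧ p < z.im ∧ z.im < q} = 0 := by
    apply measure_null_of_locally_null
    rintro z ⟨hz0, hz1, hz2⟩
    have hy := hS z.im hz1 hz2
    have hy' : ∃ r > 0, l (Metric.ball (⟨0, z.im⟩ : ℂ) r) = 0 := by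
      by_contra hcon
      push Not at hcon
      exact hy fun r hr => pos_iff_ne_zero.2 (hcon r hr)
    obtain ⟨r, hr, h0⟩ := hy'
    have hz : z = ⟨0, z.im⟩ := Complex.ext hz0 rfl
    refine ⟨Metric.ball (⟨0, z.im⟩ : ℂ) r, ?_, h0⟩
    apply mem_nhdsWithin_of_mem_nhds
    rw [← hz]
    exact Metric.ball_mem_nhds z hr
  refine measure_mono_null ?_ (measure_union_null h1 hax)
  rintro z ⟨hz1, hz2⟩
  by_cases hz0 : z.re = 0
  · left; exact ⟨hz0, hz1, hz2⟩
  · right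
    refine ⟨?_, hz0⟩
    rw [abs_le]
    constructor <;> linarith

theorem gap_final {k₁ k₂ b d h η : ℝ} (h₁ : 0 < k₁) (h₂ : 0 < k₂) {Γ : Set ℂ} {l : Measure ℂ}
    {g : ℝ → ℂ} (hS : Sit k₁ k₂ b d η Γ l g) (hη : η ≤ 1 / 10) (hη' : η ≤ d ^ 3 / 1000)
    (hη'' : η ≤ min k₁ k₂ / 2 * d ^ 2) (h0 : 0 ≤ h) (hh : h < b - d)
    (hr : 0 < l {z : ℂ | h < z.im ∧ z.im < b - d})
    (hl : 0 < l {z : ℂ | -(b - d) < z.im ∧ z.im < -h}) {y : ℝ} (hy : |y| ≤ h) :
    (⟨0, y⟩ : ℂ) ∈ Γ := by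
  have hd0 := hS.d0
  have hdb := hS.db
  have hb1 := hS.b1
  have hcpt := hS.cpt
  have hsupp := hS.eq.fe.supp
  have hprob := hS.eq.fe.prob
  have hax := hS.axis
  -- the support meets both sides
  obtain ⟨y₁, hy1, hy1', hy1S⟩ : ∃ y₁, h < y₁ ∧ y₁ < b - d ∧ y₁ ∈ gapS l := by
    by_contra hcon
    push Not at hcon
    have := gap_null (l := l) (b := b) (p := h) (q := b - d) hax (by linarith) (by linarith)
      (fun y a c => hcon y a c)
    rw [this] at hr
    exact lt_irrefl _ hr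
  obtain ⟨y₂, hy2, hy2', hy2S⟩ : ∃ y₂, -(b - d) < y₂ ∧ y₂ < -h ∧ y₂ ∈ gapS l := by
    by_contra hcon
    push Not at hcon
    have := gap_null (l := l) (b := b) (p := -(b - d)) (q := -h) hax (by linarith) (by linarith)
      (fun y a c => hcon y a c)
    rw [this] at hl
    exact lt_irrefl _ hl
  by_cases hyS : y ∈ gapS l
  · exact gapS_mem hcpt hsupp hyS
  exfalso
  rw [abs_le] at hy
  have hcl := gapS_closed l
  set P : Set ℝ := gapS l ∩ Iic y with hP
  set Q : Set ℝ := gapS l ∩ Ici y with hQ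
  have hPne : P.Nonempty := ⟨y₂, hy2S, by simp only [mem_Iic]; linarith⟩
  have hQne : Q.Nonempty := ⟨y₁, hy1S, by simp only [mem_Ici]; linarith⟩
  have hPbd : BddAbove P := ⟨y, fun x hx => hx.2⟩
  have hQbd : BddBelow Q := ⟨y, fun x hx => hx.2⟩
  have hpP : sSup P ∈ P := (hcl.inter isClosed_Iic).csSup_mem hPne hPbd
  have hqQ : sInf Q ∈ Q := (hcl.inter isClosed_Ici).csInf_mem hQne hQbd
  set p := sSup P with hp_def
  set q := sInf Q with hq_def
  have hpy : p < y := lt_of_le_of_ne hpP.2 (fun e => hyS (e ▸ hpP.1))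
  have hyq : y < q := lt_of_le_of_ne hqQ.2 (fun e => hyS (e ▸ hqQ.1))
  have hp2 : y₂ ≤ p := le_csSup hPbd ⟨hy2S, by simp only [mem_Iic]; linarith⟩
  have hq2 : q ≤ y₁ := csInf_le hQbd ⟨hy1S, by simp only [mem_Ici]; linarith⟩
  have hpq : p < q := hpy.trans hyq
  have hgap : l {z : ℂ | p < z.im ∧ z.im < q} = 0 := by
    apply gap_null (b := b) hax (by linarith) (by linarith)
    intro x hx1 hx2 hxS
    rcases le_total x y with hxy | hxy
    · exact absurd (le_csSup hPbd ⟨hxS, hxy⟩) (not_le.2 hx1)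
    · exact absurd (csInf_le hQbd ⟨hxS, hxy⟩) (not_le.2 hx2)
  -- Frostman at the ends
  have fp := F2 hcpt h₁ h₂ hS.eq hpP.1
  have fq := F2 hcpt h₁ h₂ hS.eq hqQ.1
  rw [phi_axis, add_zero] at fp fq
  have hlow : ∀ x, p < x → x < q → U l ⟨0, x⟩ < Fr k₁ k₂ l := by
    intro x hx1 hx2
    have hqp : 0 < q - p := by linarith
    set t := (x - p) / (q - p) with ht
    have ht0 : 0 < t := div_pos (by linarith) hqp
    have ht1 : t < 1 := by rw [ht, div_lt_one hqp]; linarith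
    have hxe : (1 - t) * p + t * q = x := by
      have : t * (q - p) = x - p := by rw [ht]; field_simp
      linarith
    have key := gap_cvx hcpt hprob hsupp hd0 hdb hb1 hax (hS.e2.trans hη) (hS.e1.trans hη')
      (p := p) (q := q) (t := t) (by linarith) hpq (by linarith) hgap
      (hS.eq.fe.atom _) (hS.eq.fe.atom _) fp.1 fq.1 ht0.le ht1.le
    rw [hxe] at key
    have hpos : 0 < 1 / 100 * (t * (1 - t) * (q - p) ^ 2) := by
      have h1t : 0 < 1 - t := by linarith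
      positivity
    have a1 : (1 - t) * U l ⟨0, p⟩ ≤ (1 - t) * Fr k₁ k₂ l :=
      mul_le_mul_of_nonneg_left fp.2 (by linarith)
    have a2 : t * U l ⟨0, q⟩ ≤ t * Fr k₁ k₂ l := mul_le_mul_of_nonneg_left fq.2 ht0.le
    linarith
  have hκ : 0 < min k₁ k₂ := lt_min h₁ h₂
  have hlow2 : ∀ x, p < x → x < q → ∀ r : ℝ,
      U l ⟨r, x⟩ + phi k₁ k₂ ⟨r, x⟩ < Fr k₁ k₂ l := by
    intro x hx1 hx2 r
    have hη0 : 0 < min (x - p) (q - x) := lt_min (by linarith) (by linarith)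
    have hgap' : l {z : ℂ | |z.im - x| < min (x - p) (q - x)} = 0 := by
      refine measure_mono_null ?_ hgap
      intro z hz
      simp only [mem_setOf_eq, lt_min_iff, abs_lt] at hz ⊢
      constructor <;> linarith [hz.1.1, hz.2.2]
    have h3 := off_le hcpt hprob hsupp (κ := min k₁ k₂) (y := x) hκ hd0 hax
      (by rw [abs_le]; constructor <;> linarith) hη0 hgap' (hS.e1.trans hη'') r
    have h4 := phi_le h₁ h₂ (⟨r, x⟩ : ℂ)
    have h5 := hlow x hx1 hx2
    simp only at h4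
    have h6 : 0 ≤ min k₁ k₂ * |r| := by positivity
    linarith
  -- Frostman for the push-forward of the arcsine law
  have hFE : FE Γ (arc.map g) := by
    have := dom_FE (Γ := Γ) hcpt (p := fun z : ℂ => z.im)
      (fun z w => by
        have := Complex.abs_im_le_norm (z - w)
        simpa using this)
      (m := 0) (r := 1) one_pos hS.gm
      (fun s hs => hS.gs s (by simpa using hs))
    rwa [arcS_zero_one] at this
  have hae := F1_ae hcpt h₁ h₂ hS.eq hFE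
  have hae2 : ∀ᵐ s ∂arc, Fr k₁ k₂ l ≤ U l (g s) + phi k₁ k₂ (g s) :=
    ae_of_ae_map hS.gm.aemeasurable hae
  have hpos := arc_pos (a := p) (b := q) (by linarith) hpq (by linarith)
  have hzero : arc (Ioo p q) = 0 := by
    refine measure_mono_null ?_ (ae_iff.1 hae2)
    intro s hs
    simp only [mem_setOf_eq, not_le]
    have him : (g s).im = s := (hS.gs s ⟨by linarith [hs.1], by linarith [hs.2]⟩).2
    have hg : g s = ⟨(g s).re, s⟩ := Complex.ext rfl him
    rw [hg]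
    exact hlow2 s hs.1 hs.2 _
  rw [hzero] at hpos
  exact lt_irrefl _ hpos

end Pool.Agent.H5.AF
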