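import Pool.Agent.H5.AF.Defs
import Pool.Agent.H5.AF.CvxB
import Pool.Agent.H5.AF.Fro1
import Pool.Agent.H5.AF.Dom
set_option autoImplicit false
open MeasureTheory Set Filter Topology
open scoped ENNReal NNReal

namespace Pool.Agent.H5.AF

/-!
Part MASS. Every fixed interval of the axis carries mass, when `η` is small.
Paper proof: suppose `l {u < im < v} = 0`. `κ = min k₁ k₂`, `ℓ = (v-u)/5`, and the three intervals
`I₁ = (u+ℓ,u+2ℓ)`, `I₂ = (u+2ℓ,u+3ℓ)`, `I₃ = (u+3ℓ,u+4ℓ)`, each of positive `arc` measure `a₁,a₂,a₃`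
(`arc_pos`).  `V y = U l ⟨0,y⟩`, `F = Fr k₁ k₂ l`.  For `y` in `(u+ℓ, v-ℓ)` there is a gap of size `ℓ`;
`off_le` + `phi_le` give `W(g y) ≤ V y - (κ/2)|re g y| ≤ V y`, and `W (g y) ≥ F` for `arc`-a.e. `y` (`F1_ae` with
`μ = arc.map g`, FE by `dom_FE`), so `V ≥ F` a.e. on `(u+ℓ,v-ℓ)`.  Also `V y ≤ W(g y) + (max k₁ k₂ + 1/ℓ)|re g y|`
(`off_lip`, `le_phi`).  So `∫_{I_j} (V - F) darc ≤ ∫ (W(g y) - F) darc + (k + 1/ℓ) ∫|re g y| darc ≤
(1 + k + 1/ℓ) η` and there are `y₁ ∈ I₁`, `y₃ ∈ I₃` with `V y_j - F ≤ (1+k+1/ℓ) η / a_j`.  By `gap_cvx`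
on `[y₁, y₃]`, for all `y ∈ I₂`: `V y ≤ F + (1+k+1/ℓ) η / min a₁ a₃ - (1/100) (y-y₁)(y₃-y)`.  For `η` small this
is `< F` on the middle part of `I₂`, a set of positive `arc` measure: contradiction.
(To have `(y-y₁)(y₃-y) ≥ c > 0` use the middle third of `I₂`.)
-/

theorem mass_markov {h : ℝ → ℝ} (hi : Integrable h arc) (h0 : ∀ᵐ y ∂arc, 0 ≤ h y) {I : Set ℝ}
    (hI : MeasurableSet I) {T : ℝ} (hT : ∫ y, h y ∂arc < T * arc.real I) :
    ∃ y ∈ I, h y ≤ T := by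
  have := arc_prob
  by_contra hcon
  push Not at hcon
  have h1 : ∫ _y in I, T ∂arc ≤ ∫ y in I, h y ∂arc :=
    setIntegral_mono_on integrableOn_const hi.integrableOn hI (fun y hy => (hcon y hy).le)
  have h2 : ∫ y in I, h y ∂arc ≤ ∫ y, h y ∂arc := setIntegral_le_integral hi h0
  rw [setIntegral_const, smul_eq_mul, mul_comm] at h1
  linarith

theorem mass_FE {k₁ k₂ b d η : ℝ} {Γ : Set ℂ} {l : Measure ℂ} {g : ℝ → ℂ}
    (hS : Sit k₁ k₂ b d η Γ l g) : FE Γ (arc.map g) := by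
  have h := dom_FE (Γ := Γ) (p := Complex.im) hS.cpt
    (fun z w => by rw [← Complex.sub_im]; exact Complex.abs_im_le_norm _)
    (m := 0) (r := 1) one_pos (g := g) hS.gm (fun s hs => hS.gs s (by simpa using hs))
  rwa [arcS_zero_one] at h

theorem mass_ae_mem {k₁ k₂ b d η : ℝ} {Γ : Set ℂ} {l : Measure ℂ} {g : ℝ → ℂ}
    (hS : Sit k₁ k₂ b d η Γ l g) : ∀ᵐ y ∂arc, g y ∈ Γ ∧ (g y).im = y := by
  have h := arc_compl
  filter_upwards [measure_eq_zero_iff_ae_notMem.1 h] with y hy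
  exact hS.gs y (by simpa using hy)

theorem mass_ae_ge {k₁ k₂ b d η : ℝ} (h₁ : 0 < k₁) (h₂ : 0 < k₂) {Γ : Set ℂ} {l : Measure ℂ}
    {g : ℝ → ℂ} (hS : Sit k₁ k₂ b d η Γ l g) :
    ∀ᵐ y ∂arc, Fr k₁ k₂ l ≤ U l (g y) + phi k₁ k₂ (g y) :=
  ae_of_ae_map hS.gm.aemeasurable (F1_ae hS.cpt h₁ h₂ hS.eq (mass_FE hS))

theorem mass_int_U {k₁ k₂ b d η : ℝ} {Γ : Set ℂ} {l : Measure ℂ}
    {g : ℝ → ℂ} (hS : Sit k₁ k₂ b d η Γ l g) : Integrable (fun y => U l (g y)) arc :=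
  (U_integrable hS.cpt hS.eq.fe (mass_FE hS)).1.comp_measurable hS.gm

theorem mass_int_phi {k₁ k₂ b d η : ℝ} (h₁ : 0 < k₁) (h₂ : 0 < k₂) {Γ : Set ℂ} {l : Measure ℂ}
    {g : ℝ → ℂ} (hS : Sit k₁ k₂ b d η Γ l g) : Integrable (fun y => phi k₁ k₂ (g y)) arc := by
  have := arc_prob
  obtain ⟨C, hC⟩ := hS.cpt.exists_bound_of_continuousOn (phi_continuous h₁ h₂).continuousOn
  refine Integrable.of_bound (((phi_continuous h₁ h₂).measurable.comp hS.gm).aestronglyMeasurable)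
    C ?_
  filter_upwards [mass_ae_mem hS] with y hy
  exact hC _ hy.1

theorem mass_int_re {k₁ k₂ b d η : ℝ} {Γ : Set ℂ} {l : Measure ℂ}
    {g : ℝ → ℂ} (hS : Sit k₁ k₂ b d η Γ l g) : Integrable (fun y => |(g y).re|) arc := by
  have := arc_prob
  have hc : Continuous (fun z : ℂ => |z.re|) := by fun_prop
  obtain ⟨C, hC⟩ := hS.cpt.exists_bound_of_continuousOn hc.continuousOn
  refine Integrable.of_bound ((hc.measurable.comp hS.gm).aestronglyMeasurable) C ?_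
  filter_upwards [mass_ae_mem hS] with y hy
  exact hC _ hy.1

theorem mass {k₁ k₂ b d u v : ℝ} (h₁ : 0 < k₁) (h₂ : 0 < k₂) (hd : 0 < d) (hdb : d < b)
    (hb : b ≤ 1) (hu : -(b - d) ≤ u) (huv : u < v) (hv : v ≤ b - d) :
    ∃ η₀ : ℝ, 0 < η₀ ∧ ∀ (η : ℝ) (Γ : Set ℂ) (l : Measure ℂ) (g : ℝ → ℂ), 0 ≤ η → η ≤ η₀ →
      Sit k₁ k₂ b d η Γ l g → 0 < l {z : ℂ | u < z.im ∧ z.im < v} := by
  have := arc_prob
  obtain ⟨κ, hκe⟩ : ∃ κ : ℝ, κ = min k₁ k₂ := ⟨_, rfl⟩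
  have hκ : 0 < κ := by rw [hκe]; exact lt_min h₁ h₂
  obtain ⟨k, hke⟩ : ∃ k : ℝ, k = max k₁ k₂ := ⟨_, rfl⟩
  have hk : 0 < k := by rw [hke]; exact h₁.trans_le (le_max_left _ _)
  obtain ⟨r, hr⟩ : ∃ r : ℝ, r = (v - u) / 5 := ⟨_, rfl⟩
  have hr0 : 0 < r := by rw [hr]; linarith
  have hvr : v = u + 5 * r := by rw [hr]; ring
  obtain ⟨a₁, ha₁⟩ : ∃ a : ℝ, a = arc.real (Ioo (u + r) (u + 2 * r)) := ⟨_, rfl⟩
  obtain ⟨a₃, ha₃⟩ : ∃ a : ℝ, a = arc.real (Ioo (u + 3 * r) (u + 4 * r)) := ⟨_, rfl⟩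
  have ha₁0 : 0 < a₁ := by
    rw [ha₁]
    exact ENNReal.toReal_pos (arc_pos (by linarith) (by linarith) (by linarith)).ne'
      (measure_ne_top _ _)
  have ha₃0 : 0 < a₃ := by
    rw [ha₃]
    exact ENNReal.toReal_pos (arc_pos (by linarith) (by linarith) (by linarith)).ne'
      (measure_ne_top _ _)
  obtain ⟨a, ha, ha1, ha3⟩ : ∃ a : ℝ, 0 < a ∧ a ≤ a₁ ∧ a ≤ a₃ :=
    ⟨min a₁ a₃, lt_min ha₁0 ha₃0, min_le_left _ _, min_le_right _ _⟩
  obtain ⟨T, hT⟩ : ∃ T : ℝ, T = r ^ 2 / 1800 := ⟨_, rfl⟩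
  have hT0 : 0 < T := by rw [hT]; positivity
  obtain ⟨A, hA⟩ : ∃ A : ℝ, A = 1 + k + 1 / r := ⟨_, rfl⟩
  have hA0 : 0 < A := by rw [hA]; positivity
  refine ⟨min (min (κ / 2 * d ^ 2) (d ^ 3 / 1000)) (min (1 / 10) (T * a / (2 * A))), ?_, ?_⟩
  · have p1 : 0 < T * a / (2 * A) := by positivity
    have p2 : 0 < κ / 2 * d ^ 2 := by positivity
    have p3 : 0 < d ^ 3 / 1000 := by positivity
    exact lt_min (lt_min p2 p3) (lt_min (by norm_num) p1)
  intro η Γ l g hη0 hη hS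
  have q1 : η ≤ κ / 2 * d ^ 2 := hη.trans ((min_le_left _ _).trans (min_le_left _ _))
  have q2 : η ≤ d ^ 3 / 1000 := hη.trans ((min_le_left _ _).trans (min_le_right _ _))
  have q3 : η ≤ 1 / 10 := hη.trans ((min_le_right _ _).trans (min_le_left _ _))
  have q4 : A * η < T * a := by
    have h := hη.trans ((min_le_right _ _).trans (min_le_right _ _))
    have h2 : A * η ≤ A * (T * a / (2 * A)) := mul_le_mul_of_nonneg_left h hA0.le
    have h3 : A * (T * a / (2 * A)) = T * a / 2 := by field_simp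
    have h4 : 0 < T * a := by positivity
    rw [h3] at h2
    linarith
  by_contra hcon
  have hgap : l {z : ℂ | u < z.im ∧ z.im < v} = 0 := by
    have := not_lt.1 hcon
    exact le_antisymm this zero_le
  have hlp : IsProbabilityMeasure l := hS.eq.fe.prob
  have hls : l Γᶜ = 0 := hS.eq.fe.supp
  have hgy : ∀ y : ℝ, u + r ≤ y → y ≤ v - r → l {z : ℂ | |z.im - y| < r} = 0 := by
    intro y y1 y2
    refine measure_mono_null (fun z hz => ?_) hgap
    simp only [mem_setOf_eq, abs_lt] at hz ⊢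
    constructor <;> linarith [hz.1, hz.2]
  obtain ⟨F, hF⟩ : ∃ F : ℝ, F = Fr k₁ k₂ l := ⟨_, rfl⟩
  have e1 := hS.e1
  have e2 := hS.e2
  have e3 := hS.e3
  have e4 := hS.e4
  rw [← hF] at e4
  -- `W (g y) ≤ V y` in the gap
  have hW : ∀ y : ℝ, u + r ≤ y → y ≤ v - r → (g y).im = y →
      U l (g y) + phi k₁ k₂ (g y) ≤ U l ⟨0, y⟩ := by
    intro y y1 y2 hy
    have e : g y = ⟨(g y).re, y⟩ := by
      apply Complex.ext <;> simp [hy]
    have h := off_le (κ := κ) hS.cpt hlp hls (b := b) (d := d) hκ hd hS.axis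
      (abs_le.2 ⟨by linarith, by linarith⟩) hr0 (hgy y y1 y2) (e1.trans q1) (g y).re
    rw [← e] at h
    have h' := phi_le h₁ h₂ (g y)
    rw [← hκe] at h'
    have : 0 ≤ κ * |(g y).re| := by positivity
    linarith
  -- `V y ≤ W (g y) + (k + 1/r) |re|`
  have hV : ∀ y : ℝ, u + r ≤ y → y ≤ v - r → (g y).im = y →
      U l ⟨0, y⟩ ≤ U l (g y) + phi k₁ k₂ (g y) + (k + 1 / r) * |(g y).re| := by
    intro y y1 y2 hy
    have e : g y = ⟨(g y).re, y⟩ := by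
      apply Complex.ext <;> simp [hy]
    have h := off_lip hS.cpt hlp hls hr0 (hgy y y1 y2) (g y).re
    rw [← e] at h
    have h' := le_phi h₁ h₂ (g y)
    rw [← hke] at h'
    have h2 := (abs_le.1 h).1
    have h3 : |(g y).re| / r = 1 / r * |(g y).re| := by ring
    rw [h3] at h2
    linarith
  have hae := mass_ae_ge h₁ h₂ hS
  rw [← hF] at hae
  have hmem := mass_ae_mem hS
  -- the function `h`
  obtain ⟨hh, hhe⟩ : ∃ hh : ℝ → ℝ, hh = fun y =>
    (U l (g y) + phi k₁ k₂ (g y) - F) + (k + 1 / r) * |(g y).re| := ⟨_, rfl⟩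
  have i1 : Integrable (fun y => U l (g y) + phi k₁ k₂ (g y) - F) arc :=
    ((mass_int_U hS).add (mass_int_phi h₁ h₂ hS)).sub (integrable_const _)
  have i2 : Integrable (fun y => (k + 1 / r) * |(g y).re|) arc := (mass_int_re hS).const_mul _
  have hhi : Integrable hh arc := by
    rw [hhe]; exact i1.add i2
  have hh0 : ∀ᵐ y ∂arc, 0 ≤ hh y := by
    filter_upwards [hae] with y hy
    rw [hhe]
    have : 0 ≤ (k + 1 / r) * |(g y).re| := by positivity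
    simp only
    linarith
  have hhint : ∫ y, hh y ∂arc ≤ A * η := by
    rw [hhe, integral_add i1 i2, integral_const_mul]
    have : (k + 1 / r) * ∫ y, |(g y).re| ∂arc ≤ (k + 1 / r) * η :=
      mul_le_mul_of_nonneg_left e3 (by positivity)
    calc _ ≤ η + (k + 1 / r) * η := add_le_add e4 this
      _ = A * η := by rw [hA]; ring
  obtain ⟨y₁, hy₁, hy₁'⟩ := mass_markov hhi hh0 (I := Ioo (u + r) (u + 2 * r))
    measurableSet_Ioo (T := T) (by
      rw [← ha₁]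
      exact (hhint.trans_lt q4).trans_le (mul_le_mul_of_nonneg_left ha1 hT0.le))
  obtain ⟨y₃, hy₃, hy₃'⟩ := mass_markov hhi hh0 (I := Ioo (u + 3 * r) (u + 4 * r))
    measurableSet_Ioo (T := T) (by
      rw [← ha₃]
      exact (hhint.trans_lt q4).trans_le (mul_le_mul_of_nonneg_left ha3 hT0.le))
  have V1 : U l ⟨0, y₁⟩ ≤ F + T := by
    have h1 := hV y₁ hy₁.1.le (by linarith [hy₁.2]) (hS.gs y₁ ⟨by linarith [hy₁.1], by
      linarith [hy₁.2]⟩).2
    rw [hhe] at hy₁'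
    simp only at hy₁'
    linarith
  have V3 : U l ⟨0, y₃⟩ ≤ F + T := by
    have h1 := hV y₃ (by linarith [hy₃.1]) (by linarith [hy₃.2]) (hS.gs y₃ ⟨by linarith [hy₃.1], by
      linarith [hy₃.2]⟩).2
    rw [hhe] at hy₃'
    simp only at hy₃'
    linarith
  have hlt : y₁ < y₃ := by linarith [hy₁.2, hy₃.1]
  -- the potential in the middle
  have hmid : ∀ y : ℝ, u + 2 * r + r / 3 < y → y < u + 3 * r - r / 3 → U l ⟨0, y⟩ < F := by
    intro y y1 y2
    obtain ⟨t, ht⟩ : ∃ t : ℝ, t = (y - y₁) / (y₃ - y₁) := ⟨_, rfl⟩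
    have hpos : 0 < y₃ - y₁ := by linarith
    have ty : (1 - t) * y₁ + t * y₃ = y := by
      have : t * (y₃ - y₁) = y - y₁ := by rw [ht]; field_simp
      linarith
    have t0 : 0 ≤ t := by rw [ht]; exact div_nonneg (by linarith [hy₁.2]) hpos.le
    have t1 : t ≤ 1 := by
      rw [ht, div_le_one hpos]; linarith [hy₃.1]
    have h := gap_cvx hS.cpt hlp hls hd hdb hb hS.axis (e2.trans q3) (e1.trans q2)
      (p := y₁) (q := y₃) (t := t) (by linarith [hy₁.1]) hlt (by linarith [hy₃.2])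
      (measure_mono_null (fun z hz => by
        simp only [mem_setOf_eq] at hz ⊢
        constructor <;> linarith [hz.1, hz.2, hy₁.1, hy₃.2]) hgap)
      (hS.eq.fe.atom _) (hS.eq.fe.atom _)
      (gap_int hS.cpt hlp hls hr0 (hgy y₁ hy₁.1.le (by linarith [hy₁.2])) 0)
      (gap_int hS.cpt hlp hls hr0 (hgy y₃ (by linarith [hy₃.1]) (by linarith [hy₃.2])) 0)
      t0 t1
    rw [ty] at h
    have h2 : t * (1 - t) * (y₃ - y₁) ^ 2 = (y - y₁) * (y₃ - y) := by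
      rw [ht]; field_simp; ring
    rw [h2] at h
    have h3 : r ^ 2 / 9 < (y - y₁) * (y₃ - y) := by
      have b1 : r / 3 < y - y₁ := by linarith [hy₁.2]
      have b2 : r / 3 < y₃ - y := by linarith [hy₃.1]
      nlinarith
    have h4 : (1 - t) * U l ⟨0, y₁⟩ + t * U l ⟨0, y₃⟩ ≤ F + T := by
      have c1 := mul_le_mul_of_nonneg_left V1 (by linarith : (0 : ℝ) ≤ 1 - t)
      have c2 := mul_le_mul_of_nonneg_left V3 t0
      linarith
    rw [hT] at h4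
    linarith
  -- contradiction on a set of positive measure
  have hfin : 0 < arc (Ioo (u + 2 * r + r / 3) (u + 3 * r - r / 3)) :=
    arc_pos (by linarith) (by linarith) (by linarith)
  have hnull : arc (Ioo (u + 2 * r + r / 3) (u + 3 * r - r / 3)) = 0 := by
    rw [measure_eq_zero_iff_ae_notMem]
    filter_upwards [hae, hmem] with y hy hy2 hyI
    have h1 := hW y (by linarith [hyI.1]) (by linarith [hyI.2]) hy2.2
    have h2 := hmid y hyI.1 hyI.2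
    linarith
  exact absurd hnull hfin.ne'

end Pool.Agent.H5.AF
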