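import Pool.Agent.H5.AF.Defs
import Pool.Agent.H5.AF.Dom
import Pool.Agent.H5.AF.Pos
set_option autoImplicit false
open MeasureTheory Set Filter Topology
open scoped ENNReal NNReal

namespace Pool.Agent.H5.AF

/-!
Part SEG. The competitor `[z₁, z₂]`.
Paper proof: the segment is `{m₀ + t c | t ∈ [-1,1]}`, `m₀ = (z₁+z₂)/2`, `c = (z₁ - z₂)/2 =
-(ε₁+ε₂)/2 + i`, `1 ≤ ‖c‖ ≤ 1 + ((ε₁+ε₂)/2)² /2 ≤ 1 + ε`.  With `α` the image of `arc` under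
`t ↦ m₀ + t c` the potential of `α` is `log 2 - log ‖c‖` on the segment (`arc_pot_eq`), so
`2 M μ α ≤ M μ μ + M α α` gives `M μ μ ≥ log 2 - log ‖c‖ ≥ log 2 - ε`; and `φ ≥ -max k₁ k₂ * ε`.
(`α` is the push-forward of `arcS 0 1 = arc` by the section `g s = m₀ + s c` of `p = im`,
so `dom_FE`, `dom_M` apply; `im m₀ = 0`, `im c = 1`.)
-/

theorem seg_compact (x y : ℂ) : IsCompact (segment ℝ x y) := by
  rw [segment_eq_image]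
  exact isCompact_Icc.image (by fun_prop)

theorem seg_cls (ε₁ ε₂ : ℝ) : Cls ε₁ ε₂ (segment ℝ (⟨-ε₁, 1⟩ : ℂ) (⟨ε₂, -1⟩ : ℂ)) := by
  refine ⟨seg_compact _ _, ?_, left_mem_segment ℝ _ _, right_mem_segment ℝ _ _⟩
  exact ((convex_segment _ _).isPathConnected ⟨_, left_mem_segment ℝ _ _⟩).isConnected

/-- parametrisation of the segment by the imaginary part -/
noncomputable def segG (ε₁ ε₂ : ℝ) (s : ℝ) : ℂ := ⟨(ε₂ - ε₁) / 2 - s * ((ε₁ + ε₂) / 2), s⟩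

theorem segG_eq (ε₁ ε₂ s : ℝ) :
    segG ε₁ ε₂ s = (((ε₂ - ε₁) / 2 : ℝ) : ℂ) + (s : ℂ) * (⟨-((ε₁ + ε₂) / 2), 1⟩ : ℂ) := by
  apply Complex.ext
  · simp [segG]; ring
  · simp [segG]

theorem segG_meas (ε₁ ε₂ : ℝ) : Measurable (segG ε₁ ε₂) := by
  have : segG ε₁ ε₂ = fun s : ℝ =>
      (((ε₂ - ε₁) / 2 : ℝ) : ℂ) + (s : ℂ) * (⟨-((ε₁ + ε₂) / 2), 1⟩ : ℂ) := by
    funext s; exact segG_eq ε₁ ε₂ s
  rw [this]
  have : Continuous fun s : ℝ =>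
      (((ε₂ - ε₁) / 2 : ℝ) : ℂ) + (s : ℂ) * (⟨-((ε₁ + ε₂) / 2), 1⟩ : ℂ) := by fun_prop
  exact this.measurable

theorem segG_mem {ε₁ ε₂ s : ℝ} (hs : s ∈ Icc (-1 : ℝ) 1) :
    segG ε₁ ε₂ s ∈ segment ℝ (⟨-ε₁, 1⟩ : ℂ) (⟨ε₂, -1⟩ : ℂ) := by
  refine ⟨(1 + s) / 2, (1 - s) / 2, by linarith [hs.1], by linarith [hs.2], by ring, ?_⟩
  apply Complex.ext
  · simp [segG]; ring
  · simp [segG]; ring

theorem seg_mem_iff {ε₁ ε₂ : ℝ} {z : ℂ} (hz : z ∈ segment ℝ (⟨-ε₁, 1⟩ : ℂ) (⟨ε₂, -1⟩ : ℂ)) :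
    z.im ∈ Icc (-1 : ℝ) 1 ∧ z = segG ε₁ ε₂ z.im := by
  obtain ⟨a, b, ha, hb, hab, rfl⟩ := hz
  have hb' : b = 1 - a := by linarith
  subst hb'
  constructor
  · simp
    constructor <;> linarith
  · apply Complex.ext
    · simp [segG]; ring
    · simp [segG]

theorem seg_re_le {ε₁ ε₂ : ℝ} (e₁ : 0 < ε₁) (e₂ : 0 < ε₂) {z : ℂ}
    (hz : z ∈ segment ℝ (⟨-ε₁, 1⟩ : ℂ) (⟨ε₂, -1⟩ : ℂ)) : |z.re| ≤ max ε₁ ε₂ := by
  obtain ⟨a, b, ha, hb, hab, rfl⟩ := hz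
  have h1 := le_max_left ε₁ ε₂
  have h2 := le_max_right ε₁ ε₂
  have hb' : b = 1 - a := by linarith
  subst hb'
  have hre : (a • (⟨-ε₁, 1⟩ : ℂ) + (1 - a) • (⟨ε₂, -1⟩ : ℂ)).re = -(a * ε₁) + (1 - a) * ε₂ := by
    simp
  rw [hre, abs_le]
  constructor
  · nlinarith
  · nlinarith

theorem segG_norm {ε₁ ε₂ s t : ℝ} :
    ‖segG ε₁ ε₂ s - segG ε₁ ε₂ t‖ = |s - t| * ‖(⟨-((ε₁ + ε₂) / 2), 1⟩ : ℂ)‖ := by
  rw [segG_eq, segG_eq]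
  have : (((ε₂ - ε₁) / 2 : ℝ) : ℂ) + (s : ℂ) * (⟨-((ε₁ + ε₂) / 2), 1⟩ : ℂ)
      - ((((ε₂ - ε₁) / 2 : ℝ) : ℂ) + (t : ℂ) * (⟨-((ε₁ + ε₂) / 2), 1⟩ : ℂ))
      = ((s - t : ℝ) : ℂ) * (⟨-((ε₁ + ε₂) / 2), 1⟩ : ℂ) := by push_cast; ring
  rw [this, norm_mul, Complex.norm_real, Real.norm_eq_abs]

theorem segC_pos (ε₁ ε₂ : ℝ) : 0 < ‖(⟨-((ε₁ + ε₂) / 2), 1⟩ : ℂ)‖ := by
  rw [norm_pos_iff]
  intro h
  have := congrArg Complex.im h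
  simp at this

theorem segC_log {ε₁ ε₂ : ℝ} (e₁ : 0 < ε₁) (e₂ : 0 < ε₂)
    (e₁' : ε₁ ≤ 1) (e₂' : ε₂ ≤ 1) :
    Real.log ‖(⟨-((ε₁ + ε₂) / 2), 1⟩ : ℂ)‖ ≤ max ε₁ ε₂ := by
  have h1 := le_max_left ε₁ ε₂
  have h2 := le_max_right ε₁ ε₂
  have h3 : max ε₁ ε₂ ≤ 1 := max_le e₁' e₂'
  have hc := segC_pos ε₁ ε₂
  have hle : ‖(⟨-((ε₁ + ε₂) / 2), 1⟩ : ℂ)‖ ≤ 1 + max ε₁ ε₂ := by
    refine (Complex.norm_le_abs_re_add_abs_im _).trans ?_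
    simp only [abs_neg, abs_one]
    rw [abs_of_pos (by linarith)]
    linarith
  have := Real.log_le_log hc hle
  have h4 : Real.log (1 + max ε₁ ε₂) ≤ max ε₁ ε₂ := by
    have := Real.log_le_sub_one_of_pos (show 0 < 1 + max ε₁ ε₂ by linarith)
    linarith
  linarith

theorem seg_U {ε₁ ε₂ : ℝ} {w : ℂ} (hw : w ∈ segment ℝ (⟨-ε₁, 1⟩ : ℂ) (⟨ε₂, -1⟩ : ℂ)) :
    U ((arcS 0 1).map (segG ε₁ ε₂)) w
      = Real.log 2 - Real.log ‖(⟨-((ε₁ + ε₂) / 2), 1⟩ : ℂ)‖ := by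
  obtain ⟨hi, hg⟩ := seg_mem_iff hw
  set t := w.im with ht
  unfold U
  rw [integral_map (segG_meas ε₁ ε₂).aemeasurable (measurable_K_left w).aestronglyMeasurable,
    arcS_zero_one]
  have hprob := arc_prob
  have hae : ∀ᵐ s ∂arc, K w (segG ε₁ ε₂ s)
      = -Real.log |t - s| - Real.log ‖(⟨-((ε₁ + ε₂) / 2), 1⟩ : ℂ)‖ := by
    have h0 : ∀ᵐ s ∂arc, s ≠ t := by
      rw [ae_iff]
      simpa using arc_atom t
    filter_upwards [h0] with s hs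
    unfold K
    rw [hg, segG_norm, Real.log_mul (abs_ne_zero.2 (sub_ne_zero.2 (Ne.symm hs)))
      (segC_pos ε₁ ε₂).ne']
    ring
  rw [integral_congr_ae hae, integral_sub (arc_pot_int t) (integrable_const _),
    arc_pot_eq (abs_le.2 ⟨hi.1, hi.2⟩)]
  simp

theorem seg_lower {k₁ k₂ ε₁ ε₂ : ℝ} (h₁ : 0 < k₁) (h₂ : 0 < k₂) (e₁ : 0 < ε₁) (e₂ : 0 < ε₂)
    (e₁' : ε₁ ≤ 1) (e₂' : ε₂ ≤ 1) {μ : Measure ℂ}
    (hμ : FE (segment ℝ (⟨-ε₁, 1⟩ : ℂ) (⟨ε₂, -1⟩ : ℂ)) μ) :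
    Real.log 2 - (1 + 2 * max k₁ k₂) * max ε₁ ε₂ ≤ E k₁ k₂ μ := by
  set Γ := segment ℝ (⟨-ε₁, 1⟩ : ℂ) (⟨ε₂, -1⟩ : ℂ) with hΓdef
  have hΓ : IsCompact Γ := seg_compact _ _
  have hp : ∀ z w : ℂ, |z.im - w.im| ≤ ‖z - w‖ := by
    intro z w
    have := Complex.abs_im_le_norm (z - w)
    simpa using this
  have hgΓ : ∀ s ∈ Icc ((0 : ℝ) - 1) (0 + 1), segG ε₁ ε₂ s ∈ Γ ∧ (segG ε₁ ε₂ s).im = s := by
    intro s hs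
    refine ⟨segG_mem ?_, rfl⟩
    simpa using hs
  set α := (arcS 0 1).map (segG ε₁ ε₂) with hα
  have hαFE : FE Γ α := dom_FE (p := Complex.im) hΓ hp one_pos (segG_meas ε₁ ε₂) hgΓ
  set L := Real.log 2 - Real.log ‖(⟨-((ε₁ + ε₂) / 2), 1⟩ : ℂ)‖ with hL
  have key : ∀ ν : Measure ℂ, IsProbabilityMeasure ν → ν Γᶜ = 0 → M ν α = L := by
    intro ν hν hν'
    have h := dom_M (p := Complex.im) hΓ hΓ hp one_pos (segG_meas ε₁ ε₂) hgΓ hν hν'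
    rw [h.2.1]
    have hae : ∀ᵐ w ∂ν, U α w = L := by
      have : ∀ᵐ w ∂ν, w ∈ Γ := by
        rw [ae_iff]; exact hν'
      filter_upwards [this] with w hw
      exact seg_U hw
    rw [integral_congr_ae hae]
    simp
  have hμα := key μ hμ.prob hμ.supp
  have hαα := key α hαFE.prob hαFE.supp
  have hmut := mut_le hΓ hμ hαFE
  have hM : L ≤ M μ μ := by linarith
  have hlog := segC_log e₁ e₂ e₁' e₂'
  have hprob := hμ.prob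
  have hφ : -(max k₁ k₂ * max ε₁ ε₂) ≤ ∫ z, phi k₁ k₂ z ∂μ := by
    have hmem : ∀ᵐ z ∂μ, z ∈ Γ := by
      rw [ae_iff]; exact hμ.supp
    have hk : 0 < max k₁ k₂ := lt_max_of_lt_left h₁
    have hlow : ∀ᵐ z ∂μ, -(max k₁ k₂ * max ε₁ ε₂) ≤ phi k₁ k₂ z := by
      filter_upwards [hmem] with z hz
      refine le_trans ?_ (le_phi h₁ h₂ z)
      have := mul_le_mul_of_nonneg_left (seg_re_le e₁ e₂ hz) hk.le
      linarith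
    have hint : Integrable (phi k₁ k₂) μ := by
      refine Integrable.mono' (g := fun _ => max k₁ k₂ * max ε₁ ε₂) (integrable_const _)
        (phi_continuous h₁ h₂).aestronglyMeasurable ?_
      filter_upwards [hlow] with z hz
      rw [Real.norm_eq_abs, abs_le]
      refine ⟨hz, (phi_nonpos h₁ h₂ z).trans ?_⟩
      exact mul_nonneg hk.le (le_max_of_le_left e₁.le)
    calc -(max k₁ k₂ * max ε₁ ε₂) = ∫ z, -(max k₁ k₂ * max ε₁ ε₂) ∂μ := by simp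
      _ ≤ _ := integral_mono_ae (integrable_const _) hint hlow
  unfold E
  nlinarith

end Pool.Agent.H5.AF
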