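import Pool.Agent.H5.AF.Defs
import Pool.Agent.H5.AF.Seg
import Pool.Agent.H5.AF.Fro1
import Pool.Agent.H5.AF.Equi
set_option autoImplicit false
open MeasureTheory Set Filter Topology
open scoped ENNReal NNReal

namespace Pool.Agent.H5.AF

/-!
Part TEN. Quantitative consequences of maximality.
Paper proof: with `C = 1 + 2 max k₁ k₂`, `ε = max ε₁ ε₂`, `κ = min k₁ k₂`: by maximality and
`seg_lower` `E l ≥ log 2 - C ε`.  With `μ = arc.map g` (`FE Γ μ` by `dom_FE`, `arcS_zero_one`,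
`p = im`): `F1` gives `Fr ≤ M l μ + ∫ φ dμ`, and by `dom_M`, `dom_U`, `arc_pot_le`, `arc_pot_far`
`M l μ ≤ log 2 * l{|im|<3} - log 2 * l{|im|≥3} = log 2 - 2 log 2 * l{|im| ≥ 3}`, `∫ φ dμ ≤ -κ ∫|re g|`.
`E l = Fr + ∫ φ dl ≤ Fr - κ ∫ |re| dl`.  So
`log 2 - Cε ≤ log 2 - 2 log 2 l{|im|≥3} - κ∫|re g| darc - κ∫|re| dl`, and `2 log 2 ≥ 1`.
Last item: `∫ (U l + φ) dμ = M l μ + ∫ φ dμ ≤ log 2 ≤ E l + Cε ≤ Fr + Cε`.
-/

/-- a continuous function is integrable for a probability measure carried by a compact set -/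
theorem ten_int {Γ : Set ℂ} (hΓ : IsCompact Γ) {μ : Measure ℂ} (hμ : IsProbabilityMeasure μ)
    (hs : μ Γᶜ = 0) {f : ℂ → ℝ} (hf : Continuous f) : Integrable f μ := by
  obtain ⟨C, hC⟩ := (hΓ.image hf).isBounded.exists_norm_le
  refine (integrable_const C).mono' hf.aestronglyMeasurable ?_
  have hae : ∀ᵐ z ∂μ, z ∈ Γ := by rw [ae_iff]; exact hs
  filter_upwards [hae] with z hz
  exact hC _ (mem_image_of_mem f hz)

theorem ten_segE {k₁ k₂ ε₁ ε₂ : ℝ} (h₁ : 0 < k₁) (h₂ : 0 < k₂) (e₁ : 0 < ε₁) (e₂ : 0 < ε₂)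
    (e₁' : ε₁ ≤ 1) (e₂' : ε₂ ≤ 1) {Γ : Set ℂ} {l : Measure ℂ} (hl : RMax k₁ k₂ ε₁ ε₂ Γ l) :
    Real.log 2 - (1 + 2 * max k₁ k₂) * max ε₁ ε₂ ≤ E k₁ k₂ l := by
  have hS := seg_cls ε₁ ε₂
  obtain ⟨l', hl'⟩ := exists_eq hS.1 h₁ h₂ (cls_FE hS)
  exact (seg_lower h₁ h₂ e₁ e₂ e₁' e₂' hl'.fe).trans (hl.max _ l' hS hl')

theorem ten {k₁ k₂ ε₁ ε₂ : ℝ} (h₁ : 0 < k₁) (h₂ : 0 < k₂) (e₁ : 0 < ε₁) (e₂ : 0 < ε₂)
    (e₁' : ε₁ ≤ 1) (e₂' : ε₂ ≤ 1) {Γ : Set ℂ} {l : Measure ℂ} (hl : RMax k₁ k₂ ε₁ ε₂ Γ l)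
    {g : ℝ → ℂ} (hg : Measurable g) (hgs : ∀ y ∈ Icc (-1 : ℝ) 1, g y ∈ Γ ∧ (g y).im = y) :
    min k₁ k₂ * ∫ z, |z.re| ∂l ≤ (1 + 2 * max k₁ k₂) * max ε₁ ε₂ ∧
    l.real {z : ℂ | 3 ≤ |z.im|} ≤ (1 + 2 * max k₁ k₂) * max ε₁ ε₂ ∧
    min k₁ k₂ * ∫ y, |(g y).re| ∂arc ≤ (1 + 2 * max k₁ k₂) * max ε₁ ε₂ ∧
    ∫ y, (U l (g y) + phi k₁ k₂ (g y) - Fr k₁ k₂ l) ∂arc ≤ (1 + 2 * max k₁ k₂) * max ε₁ ε₂ := by
  have hE := ten_segE h₁ h₂ e₁ e₂ e₁' e₂' hl
  have hΓ : IsCompact Γ := hl.cls.1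
  have hlp := hl.eq.fe.prob
  have hls := hl.eq.fe.supp
  have hp : ∀ z w : ℂ, |z.im - w.im| ≤ ‖z - w‖ := by
    intro z w
    rw [← Complex.sub_im]
    exact Complex.abs_im_le_norm _
  have hgs' : ∀ s ∈ Icc ((0 : ℝ) - 1) (0 + 1), g s ∈ Γ ∧ (g s).im = s := by
    intro s hs
    apply hgs
    simpa using hs
  have hν := dom_FE (m := 0) (r := 1) hΓ hp one_pos hg hgs'
  have hU : ∀ w, Integrable (K w) ((arcS 0 1).map g) ∧
      U ((arcS 0 1).map g) w ≤ ∫ s, -Real.log |w.im - s| ∂(arcS 0 1) :=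
    dom_U (m := 0) (r := 1) hΓ hp one_pos hg hgs'
  obtain ⟨hM1, hM2, hM3⟩ := dom_M (m := 0) (r := 1) hΓ hΓ hp one_pos hg hgs' hlp hls
  rw [arcS_zero_one] at hν hU hM1 hM2 hM3
  set ν : Measure ℂ := arc.map g with hνdef
  have harc := arc_prob
  -- the Frostman inequality
  have hF := F1 hΓ h₁ h₂ hl.eq hν
  -- the bound on the mutual energy
  set S : Set ℂ := {z : ℂ | 3 ≤ |z.im|} with hS
  have hSm : MeasurableSet S := by
    apply measurableSet_le measurable_const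
    exact (Complex.measurable_im).abs
  have hUle : ∀ w, U ν w ≤ Real.log 2 - S.indicator (fun _ => 2 * Real.log 2) w := by
    intro w
    by_cases hw : w ∈ S
    · rw [indicator_of_mem hw]
      have := arc_pot_far (t := w.im) hw
      linarith [(hU w).2]
    · rw [indicator_of_notMem hw]
      have := arc_pot_le w.im
      linarith [(hU w).2]
  have hMle : M l ν ≤ Real.log 2 - 2 * Real.log 2 * l.real S := by
    rw [hM2]
    have hi : Integrable (S.indicator (fun _ : ℂ => 2 * Real.log 2)) l :=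
      (integrable_const _).indicator hSm
    have h : ∫ w, U ν w ∂l ≤ ∫ w, (Real.log 2 - S.indicator (fun _ => 2 * Real.log 2) w) ∂l :=
      integral_mono hM3 ((integrable_const (Real.log 2)).sub hi) hUle
    rw [integral_sub (integrable_const _) hi, integral_indicator_const _ hSm] at h
    simp only [integral_const, probReal_univ, smul_eq_mul, one_mul] at h
    linarith
  -- the field
  have hφc := phi_continuous h₁ h₂
  have hφν : ∫ z, phi k₁ k₂ z ∂ν ≤ -(min k₁ k₂ * ∫ y, |(g y).re| ∂arc) := by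
    have hi1 : Integrable (phi k₁ k₂) ν := ten_int hΓ hν.prob hν.supp hφc
    have hi2 : Integrable (fun z : ℂ => |z.re|) ν :=
      ten_int hΓ hν.prob hν.supp (Complex.continuous_re.abs)
    have h := integral_mono hi1 (hi2.const_mul (min k₁ k₂)).neg (fun z => phi_le h₁ h₂ z)
    simp only [Pi.neg_apply] at h
    rw [integral_neg, integral_const_mul] at h
    rw [hνdef, integral_map hg.aemeasurable
      (Complex.continuous_re.abs.aestronglyMeasurable)] at h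
    exact h
  have hφl : ∫ z, phi k₁ k₂ z ∂l ≤ -(min k₁ k₂ * ∫ z, |z.re| ∂l) := by
    have hi1 : Integrable (phi k₁ k₂) l := ten_int hΓ hlp hls hφc
    have hi2 : Integrable (fun z : ℂ => |z.re|) l :=
      ten_int hΓ hlp hls (Complex.continuous_re.abs)
    have h := integral_mono hi1 (hi2.const_mul (min k₁ k₂)).neg (fun z => phi_le h₁ h₂ z)
    simp only [Pi.neg_apply] at h
    rw [integral_neg, integral_const_mul] at h
    exact h
  have hκ : 0 < min k₁ k₂ := lt_min h₁ h₂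
  have hA : 0 ≤ min k₁ k₂ * ∫ z, |z.re| ∂l :=
    mul_nonneg hκ.le (integral_nonneg fun z => abs_nonneg _)
  have hB : 0 ≤ min k₁ k₂ * ∫ y, |(g y).re| ∂arc :=
    mul_nonneg hκ.le (integral_nonneg fun z => abs_nonneg _)
  have hP : 0 ≤ l.real S := measureReal_nonneg
  have hlog : (1 : ℝ) ≤ 2 * Real.log 2 := by
    have := Real.log_two_gt_d9
    linarith
  have hP' : l.real S ≤ 2 * Real.log 2 * l.real S := by
    have := mul_le_mul_of_nonneg_right hlog hP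
    linarith
  have hEF : E k₁ k₂ l = Fr k₁ k₂ l + ∫ z, phi k₁ k₂ z ∂l := by
    unfold E Fr; ring
  rw [hEF] at hE
  refine ⟨by linarith, by linarith, by linarith, ?_⟩
  obtain ⟨hV1, hV2, -⟩ := U_integrable hΓ hl.eq.fe hν
  have hi1 : Integrable (phi k₁ k₂) ν := ten_int hΓ hν.prob hν.supp hφc
  have hνp := hν.prob
  have hi2 : Integrable (fun z => U l z + phi k₁ k₂ z - Fr k₁ k₂ l) ν :=
    (hV1.add hi1).sub (integrable_const _)
  have hmap : ∫ y, (U l (g y) + phi k₁ k₂ (g y) - Fr k₁ k₂ l) ∂arc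
      = ∫ z, (U l z + phi k₁ k₂ z - Fr k₁ k₂ l) ∂ν := by
    rw [hνdef]
    exact (integral_map hg.aemeasurable (by rw [← hνdef]; exact hi2.aestronglyMeasurable)).symm
  rw [hmap, integral_sub (f := fun z => U l z + phi k₁ k₂ z) (hV1.add hi1) (integrable_const _),
    integral_add hV1 hi1, ← hV2]
  simp only [integral_const, probReal_univ, smul_eq_mul, one_mul]
  linarith

end Pool.Agent.H5.AF
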