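import Pool.Agent.H5.AF.Defs
import Pool.Agent.H5.AF.Dom
import Pool.Agent.H5.AF.Sect
set_option autoImplicit false
open MeasureTheory Set Filter Topology
open scoped ENNReal NNReal

namespace Pool.Agent.H5.AF

/-!
Part X1. Large continua have small equilibrium energy.
Paper proof: if `z₁, a ∈ Γ` with `‖a - z₁‖ ≥ 2r` then with `p z = ‖z - z₁‖`, the radial section
(`exists_norm_section` with `c = z₁`) and `arcS r r` (carried by `[0, 2r]`): `μ = (arcS r r).map g` is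
`FE Γ` and `M μ μ = ∫ U μ dμ ≤ log 2 - log r` (`dom_M`, `dom_U`, `arcS_pot_le`), `φ ≤ 0`, so
`E l ≤ log 2 - log r`.
-/

theorem energy_le_of_far {k₁ k₂ ε₁ ε₂ : ℝ} (h₁ : 0 < k₁) (h₂ : 0 < k₂) {Γ : Set ℂ}
    {l : Measure ℂ} (hΓ : Cls ε₁ ε₂ Γ) (hl : IsEq k₁ k₂ Γ l) {r : ℝ} (hr : 0 < r) {a : ℂ}
    (ha : a ∈ Γ) (har : 2 * r ≤ ‖a - ⟨-ε₁, 1⟩‖) :
    E k₁ k₂ l ≤ Real.log 2 - Real.log r := by
  obtain ⟨hc, hconn, hz, -⟩ := hΓ
  obtain ⟨g, hg, hgs⟩ := exists_norm_section hc hconn.isPreconnected (c := ⟨-ε₁, 1⟩) hz ha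
  obtain ⟨p, hpe⟩ : ∃ p : ℂ → ℝ, p = fun z => ‖z - ⟨-ε₁, 1⟩‖ := ⟨_, rfl⟩
  have hp : ∀ z w, |p z - p w| ≤ ‖z - w‖ := by
    intro z w
    rw [hpe]
    have h := abs_norm_sub_norm_le (z - (⟨-ε₁, 1⟩ : ℂ)) (w - ⟨-ε₁, 1⟩)
    rwa [sub_sub_sub_cancel_right] at h
  have hgΓ : ∀ s ∈ Icc (r - r) (r + r), g s ∈ Γ ∧ p (g s) = s := by
    intro s hs
    rw [hpe]
    refine hgs s ⟨?_, ?_⟩
    · rw [sub_self, norm_zero]; linarith [hs.1]
    · linarith [hs.2]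
  have hFE : FE Γ ((arcS r r).map g) := dom_FE hc hp hr hg hgΓ
  obtain ⟨i1, i2, i3⟩ := dom_M hc hc hp hr hg hgΓ (l := (arcS r r).map g) hFE.prob hFE.supp
  have hprob := hFE.prob
  have hM : M ((arcS r r).map g) ((arcS r r).map g) ≤ Real.log 2 - Real.log r := by
    rw [i2]
    calc ∫ w, U ((arcS r r).map g) w ∂((arcS r r).map g)
        ≤ ∫ _w, (Real.log 2 - Real.log r) ∂((arcS r r).map g) := by
          refine integral_mono i3 (integrable_const _) (fun w => ?_)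
          exact (dom_U hc hp hr hg hgΓ w).2.trans (arcS_pot_le r hr (p w))
      _ = Real.log 2 - Real.log r := by simp
  have hphi : ∫ z, phi k₁ k₂ z ∂((arcS r r).map g) ≤ 0 :=
    integral_nonpos (fun z => phi_nonpos h₁ h₂ z)
  have hmin := hl.min _ hFE
  have he : E k₁ k₂ ((arcS r r).map g) = M ((arcS r r).map g) ((arcS r r).map g)
    + 2 * ∫ z, phi k₁ k₂ z ∂((arcS r r).map g) := rfl
  linarith

end Pool.Agent.H5.AF
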