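import Pool.Agent.H5.AF.Defs

set_option autoImplicit false
open MeasureTheory Set Filter Topology
open scoped ENNReal NNReal

namespace Pool.Agent.H5.AF

/-!
Part X2. Blaschke selection for continua of the class.
Paper proof: `NonemptyCompacts ↥(closedBall 0 R)` is a compact metric space (Hausdorff distance);
a subsequence of the `Γ n` converges to some `Γ'`; `Γ'` is compact, contains `z₁`, `z₂`, and is
connected: otherwise `Γ' = A ∪ B` with `A, B` disjoint nonempty compact at distance `> 3δ`, and for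
large `n` `Γ n` is in the disjoint open `δ`-neighbourhoods of `A`, `B` and meets both.
-/

/-- Blaschke selection for nonempty compact sets in a ball. -/
theorem X2_select {R : ℝ} {Γ : ℕ → Set ℂ} (hc : ∀ n, IsCompact (Γ n)) (hn : ∀ n, (Γ n).Nonempty)
    (hR : ∀ n, Γ n ⊆ Metric.closedBall 0 R) :
    ∃ (φ : ℕ → ℕ) (Γ' : Set ℂ), StrictMono φ ∧ IsCompact Γ' ∧ Γ'.Nonempty ∧
      ∀ δ > 0, ∀ᶠ n in atTop, (∀ z ∈ Γ', ∃ z' ∈ Γ (φ n), dist z z' < δ) ∧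
        (∀ z ∈ Γ (φ n), ∃ z' ∈ Γ', dist z z' < δ) := by
  haveI : CompactSpace (Metric.closedBall (0 : ℂ) R) :=
    isCompact_iff_compactSpace.1 (isCompact_closedBall 0 R)
  have hcp : ∀ n, IsCompact ((Subtype.val : Metric.closedBall (0 : ℂ) R → ℂ) ⁻¹' Γ n) := by
    intro n
    exact (Topology.IsClosedEmbedding.isCompact_preimage
      (Metric.isClosed_closedBall.isClosedEmbedding_subtypeVal) (hc n))
  have hnp : ∀ n, ((Subtype.val : Metric.closedBall (0 : ℂ) R → ℂ) ⁻¹' Γ n).Nonempty := by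
    intro n
    obtain ⟨z, hz⟩ := hn n
    exact ⟨⟨z, hR n hz⟩, hz⟩
  let K : ℕ → TopologicalSpace.NonemptyCompacts (Metric.closedBall (0 : ℂ) R) :=
    fun n => ⟨⟨_, hcp n⟩, hnp n⟩
  obtain ⟨a, φ, hφ, ha⟩ := CompactSpace.tendsto_subseq K
  refine ⟨φ, Subtype.val '' (a : Set (Metric.closedBall (0 : ℂ) R)), hφ,
    a.isCompact.image continuous_subtype_val, a.nonempty.image _, ?_⟩
  intro δ hδ
  have h1 := Metric.tendsto_atTop.1 ha δ hδ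
  obtain ⟨N, hN⟩ := h1
  filter_upwards [eventually_ge_atTop N] with n hn'
  have h2 := hN n hn'
  rw [Metric.NonemptyCompacts.dist_eq] at h2
  have hfin : Metric.hausdorffEDist ((K ∘ φ) n : Set (Metric.closedBall (0 : ℂ) R))
      (a : Set (Metric.closedBall (0 : ℂ) R)) ≠ ⊤ :=
    Metric.hausdorffEDist_ne_top_of_nonempty_of_bounded (hnp (φ n)) a.nonempty
      (hcp (φ n)).isBounded a.isCompact.isBounded
  constructor
  · rintro z ⟨z, hz, rfl⟩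
    obtain ⟨w, hw, hd⟩ := Metric.exists_dist_lt_of_hausdorffDist_lt' hz h2 hfin
    exact ⟨w, hw, by rw [dist_comm]; exact hd⟩
  · intro z hz
    obtain ⟨w, hw, hd⟩ := Metric.exists_dist_lt_of_hausdorffDist_lt
      (x := (⟨z, hR _ hz⟩ : Metric.closedBall (0 : ℂ) R)) (s := ((K ∘ φ) n : Set (Metric.closedBall (0 : ℂ) R))) hz h2 hfin
    exact ⟨w, ⟨w, hw, rfl⟩, hd⟩

/-- A limit of connected sets is connected. -/
theorem X2_conn {Γ : ℕ → Set ℂ} {Γ' : Set ℂ} (hc : IsCompact Γ') (hn : Γ'.Nonempty)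
    (hcon : ∀ n, IsConnected (Γ n))
    (h : ∀ δ > 0, ∀ᶠ n in atTop, (∀ z ∈ Γ', ∃ z' ∈ Γ n, dist z z' < δ) ∧
        (∀ z ∈ Γ n, ∃ z' ∈ Γ', dist z z' < δ)) : IsConnected Γ' := by
  refine ⟨hn, ?_⟩
  rw [isPreconnected_closed_iff]
  intro A B hA hB hAB hAn hBn
  by_contra hne
  rw [not_nonempty_iff_eq_empty] at hne
  have hA' : IsCompact (Γ' ∩ A) := hc.inter_right hA
  have hB' : IsCompact (Γ' ∩ B) := hc.inter_right hB
  have hdis : Disjoint (Γ' ∩ A) (Γ' ∩ B) := by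
    rw [Set.disjoint_iff]
    rintro x ⟨⟨hx, hxA⟩, -, hxB⟩
    have : x ∈ Γ' ∩ (A ∩ B) := ⟨hx, hxA, hxB⟩
    rw [hne] at this
    exact this
  obtain ⟨δ, hδ, hd⟩ := hdis.exists_thickenings hA' hB'.isClosed
  obtain ⟨n, hn1, hn2⟩ := (h δ hδ).exists
  have hsub : Γ n ⊆ Metric.thickening δ (Γ' ∩ A) ∪ Metric.thickening δ (Γ' ∩ B) := by
    intro z hz
    obtain ⟨w, hw, hzw⟩ := hn2 z hz
    rcases hAB hw with h' | h'
    · left
      exact Metric.mem_thickening_iff.2 ⟨w, ⟨hw, h'⟩, hzw⟩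
    · right
      exact Metric.mem_thickening_iff.2 ⟨w, ⟨hw, h'⟩, hzw⟩
  have hmeetA : (Γ n ∩ Metric.thickening δ (Γ' ∩ A)).Nonempty := by
    obtain ⟨x, hx⟩ := hAn
    obtain ⟨w, hw, hd'⟩ := hn1 x hx.1
    exact ⟨w, hw, Metric.mem_thickening_iff.2 ⟨x, hx, by rw [dist_comm]; exact hd'⟩⟩
  have hmeetB : (Γ n ∩ Metric.thickening δ (Γ' ∩ B)).Nonempty := by
    obtain ⟨x, hx⟩ := hBn
    obtain ⟨w, hw, hd'⟩ := hn1 x hx.1
    exact ⟨w, hw, Metric.mem_thickening_iff.2 ⟨x, hx, by rw [dist_comm]; exact hd'⟩⟩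
  obtain ⟨x, -, hx1, hx2⟩ := (hcon n).isPreconnected _ _ Metric.isOpen_thickening
    Metric.isOpen_thickening hsub hmeetA hmeetB
  exact Set.disjoint_left.1 hd hx1 hx2

/-- A point in all the sets is in the limit. -/
theorem X2_mem {Γ : ℕ → Set ℂ} {Γ' : Set ℂ} (hc : IsCompact Γ') {z : ℂ} (hz : ∀ n, z ∈ Γ n)
    (h : ∀ δ > 0, ∀ᶠ n in atTop, (∀ z ∈ Γ', ∃ z' ∈ Γ n, dist z z' < δ) ∧
        (∀ z ∈ Γ n, ∃ z' ∈ Γ', dist z z' < δ)) : z ∈ Γ' := by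
  rw [← hc.isClosed.closure_eq, Metric.mem_closure_iff]
  intro ε hε
  obtain ⟨n, -, hn⟩ := (h ε hε).exists
  exact hn z (hz n)

theorem blaschke {ε₁ ε₂ R : ℝ} {Γ : ℕ → Set ℂ} (hΓ : ∀ n, Cls ε₁ ε₂ (Γ n))
    (hR : ∀ n, Γ n ⊆ Metric.closedBall 0 R) :
    ∃ (φ : ℕ → ℕ) (Γ' : Set ℂ), StrictMono φ ∧ Cls ε₁ ε₂ Γ' ∧
      ∀ δ > 0, ∀ᶠ n in atTop, ∀ z ∈ Γ', ∃ z' ∈ Γ (φ n), ‖z - z'‖ < δ := by
  obtain ⟨φ, Γ', hφ, hc, hn, h⟩ := X2_select (fun n => (hΓ n).1) (fun n => (hΓ n).2.1.nonempty) hR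
  refine ⟨φ, Γ', hφ, ⟨hc, X2_conn hc hn (fun n => (hΓ (φ n)).2.1) h,
    X2_mem hc (fun n => (hΓ (φ n)).2.2.1) h, X2_mem hc (fun n => (hΓ (φ n)).2.2.2) h⟩, ?_⟩
  intro δ hδ
  filter_upwards [h δ hδ] with n hn' z hz
  obtain ⟨z', hz', hd⟩ := hn'.1 z hz
  exact ⟨z', hz', by rw [← dist_eq_norm]; exact hd⟩

end Pool.Agent.H5.AF
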