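import Pool.Agent.H5.AF.Defs
import Pool.Agent.H5.AF.Dom
import Pool.Agent.H5.AF.Sect
set_option autoImplicit false
open MeasureTheory Set Filter Topology
open scoped ENNReal NNReal

namespace Pool.Agent.H5.AF

/-!
Part X3A. Radial measures on continua.
Paper proof: `Γ` contains `z'` with `‖c - z'‖ < δ` and one of `z₁, z₂` is at distance `≥ 1` of `c`
(as `‖z₁ - z₂‖ ≥ 2`), `3δ ≤ 1`; so there is a radial section `g` of `‖· - c‖` on `[δ, 3δ]`
(`exists_norm_section`) and `ν = (arcS (2δ) δ).map g`.  Items: support in the closed ball of radius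
`3δ`, potential `≤ log 2 - log δ` everywhere.  `nu_far`: two such measures with far centres:
`K z w ≤ -log (‖c-c'‖ - 6δ)` on the supports.
-/

/-- a point of the continuum at distance at least `1`. -/
theorem x3a_far {ε₁ ε₂ : ℝ} {Γ : Set ℂ} (hΓ : Cls ε₁ ε₂ Γ) (c : ℂ) : ∃ b ∈ Γ, 1 ≤ ‖b - c‖ := by
  obtain ⟨_, _, h1, h2⟩ := hΓ
  by_contra hcon
  push Not at hcon
  have a1 := hcon _ h1
  have a2 := hcon _ h2
  have hd : (2 : ℝ) ≤ ‖(⟨-ε₁, 1⟩ : ℂ) - ⟨ε₂, -1⟩‖ := by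
    have h := Complex.abs_im_le_norm ((⟨-ε₁, 1⟩ : ℂ) - ⟨ε₂, -1⟩)
    have e : ((⟨-ε₁, 1⟩ : ℂ) - ⟨ε₂, -1⟩).im = 2 := by
      simp only [Complex.sub_im]; norm_num
    rw [e, abs_of_pos (by norm_num : (0 : ℝ) < 2)] at h
    exact h
  have h3 : ‖(⟨-ε₁, 1⟩ : ℂ) - ⟨ε₂, -1⟩‖ ≤ ‖(⟨-ε₁, 1⟩ : ℂ) - c‖ + ‖(⟨ε₂, -1⟩ : ℂ) - c‖ := by
    have e : (⟨-ε₁, 1⟩ : ℂ) - ⟨ε₂, -1⟩ = ((⟨-ε₁, 1⟩ : ℂ) - c) - ((⟨ε₂, -1⟩ : ℂ) - c) := by ring
    rw [e]
    exact norm_sub_le _ _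
  linarith

theorem exists_nu {ε₁ ε₂ : ℝ} {Γ : Set ℂ} (hΓ : Cls ε₁ ε₂ Γ) {δ : ℝ} (hδ : 0 < δ)
    (hδ1 : δ ≤ 1 / 3) {c : ℂ} (hc : ∃ z' ∈ Γ, ‖c - z'‖ < δ) :
    ∃ ν : Measure ℂ, FE Γ ν ∧ ν (Metric.closedBall c (3 * δ))ᶜ = 0 ∧
      (∀ w, Integrable (K w) ν) ∧ (∀ w, U ν w ≤ Real.log 2 - Real.log δ) := by
  obtain ⟨z', hz', hz'd⟩ := hc
  obtain ⟨b, hb, hb1⟩ := x3a_far hΓ c
  have hcpt := hΓ.1
  have hconn := hΓ.2.1
  obtain ⟨g, hgm, hg⟩ := exists_norm_section hcpt hconn.isPreconnected (c := c) hz' hb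
  have hp : ∀ z w : ℂ, |(fun z : ℂ => ‖z - c‖) z - (fun z : ℂ => ‖z - c‖) w| ≤ ‖z - w‖ := by
    intro z w
    have h := abs_norm_sub_norm_le (z - c) (w - c)
    have e : z - c - (w - c) = z - w := by ring
    rw [e] at h
    exact h
  have hgΓ : ∀ s ∈ Icc (2 * δ - δ) (2 * δ + δ), g s ∈ Γ ∧ (fun z : ℂ => ‖z - c‖) (g s) = s := by
    intro s hs
    refine hg s ⟨?_, ?_⟩
    · have := hs.1
      rw [norm_sub_rev] at hz'd
      linarith
    · have := hs.2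
      linarith
  have hgB : ∀ s ∈ Icc (2 * δ - δ) (2 * δ + δ), g s ∈ Metric.closedBall c (3 * δ) ∧
      (fun z : ℂ => ‖z - c‖) (g s) = s := by
    intro s hs
    obtain ⟨_, h2⟩ := hgΓ s hs
    refine ⟨?_, h2⟩
    rw [mem_closedBall_iff_norm]
    have h3 : ‖g s - c‖ = s := h2
    rw [h3]
    have := hs.2
    linarith
  refine ⟨(arcS (2 * δ) δ).map g, dom_FE hcpt hp hδ hgm hgΓ,
    (dom_prob (p := fun z : ℂ => ‖z - c‖) hδ hgm hgB (isCompact_closedBall c (3 * δ))).2,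
    fun w => (dom_U hcpt hp hδ hgm hgΓ w).1, fun w => ?_⟩
  exact (dom_U hcpt hp hδ hgm hgΓ w).2.trans (arcS_pot_le (2 * δ) hδ _)

theorem x3a_ae {Γ : Set ℂ} {ν : Measure ℂ} (h : ν Γᶜ = 0) : ∀ᵐ z ∂ν, z ∈ Γ := by
  rw [ae_iff]
  exact h

theorem x3a_prod_ae {Γ Γ' : Set ℂ} {ν ν' : Measure ℂ} [IsProbabilityMeasure ν]
    [IsProbabilityMeasure ν'] (h : ν Γᶜ = 0) (h' : ν' Γ'ᶜ = 0) :
    ∀ᵐ q ∂(ν'.prod ν), q.1 ∈ Γ' ∧ q.2 ∈ Γ := by
  have a1 : ∀ᵐ q ∂(ν'.prod ν), q.1 ∈ Γ' :=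
    (Measure.quasiMeasurePreserving_fst (μ := ν') (ν := ν)).ae (x3a_ae h')
  have a2 : ∀ᵐ q ∂(ν'.prod ν), q.2 ∈ Γ :=
    (Measure.quasiMeasurePreserving_snd (μ := ν') (ν := ν)).ae (x3a_ae h)
  filter_upwards [a1, a2] with q h1 h2 using ⟨h1, h2⟩

theorem nu_near {Γ Γ' : Set ℂ} (hΓ : IsCompact Γ) (hΓ' : IsCompact Γ') {ν ν' : Measure ℂ}
    {δ : ℝ} (hν : FE Γ ν) (hν' : FE Γ' ν') (hi : ∀ w, Integrable (K w) ν)
    (hu : ∀ w, U ν w ≤ Real.log 2 - Real.log δ) :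
    Integrable (fun q : ℂ × ℂ => K q.1 q.2) (ν'.prod ν) ∧ M ν' ν ≤ Real.log 2 - Real.log δ := by
  have := hν.prob
  have := hν'.prob
  obtain ⟨R₁, hR₁⟩ := hΓ.isBounded.exists_norm_le
  obtain ⟨R₂, hR₂⟩ := hΓ'.isBounded.exists_norm_le
  set R := max R₁ R₂ with hR
  have hlow : ∀ z ∈ Γ', ∀ w ∈ Γ, ‖K z w‖ ≤ K z w + 4 * R := by
    intro z hz w hw
    have h := K_ge (R := R) ((hR₂ z hz).trans (le_max_right _ _))
      ((hR₁ w hw).trans (le_max_left _ _))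
    have hR0 : 0 ≤ R := (norm_nonneg z).trans ((hR₂ z hz).trans (le_max_right _ _))
    rw [Real.norm_eq_abs, abs_le]
    constructor <;> linarith
  have hmeas : AEStronglyMeasurable (fun q : ℂ × ℂ => K q.1 q.2) (ν'.prod ν) :=
    measurable_K.aestronglyMeasurable
  have hint : Integrable (fun q : ℂ × ℂ => K q.1 q.2) (ν'.prod ν) := by
    rw [integrable_prod_iff hmeas]
    refine ⟨Eventually.of_forall fun w => hi w, ?_⟩
    refine Integrable.of_bound (C := Real.log 2 - Real.log δ + 4 * R) ?_ ?_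
    · exact hmeas.norm.integral_prod_right'
    · filter_upwards [x3a_ae hν'.supp] with z hz
      have h1 : ∫ w, ‖K z w‖ ∂ν ≤ ∫ w, (K z w + 4 * R) ∂ν := by
        refine integral_mono_ae (hi z).norm ((hi z).add (integrable_const _)) ?_
        filter_upwards [x3a_ae hν.supp] with w hw using hlow z hz w hw
      have h2 : ∫ w, (K z w + 4 * R) ∂ν = U ν z + 4 * R := by
        rw [integral_add (hi z) (integrable_const _)]
        simp [U]
      have h3 : 0 ≤ ∫ w, ‖K z w‖ ∂ν := integral_nonneg fun w => norm_nonneg _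
      have h4 : ‖∫ w, ‖K (z, w).1 (z, w).2‖ ∂ν‖ = ∫ w, ‖K z w‖ ∂ν := by
        rw [Real.norm_eq_abs, abs_of_nonneg h3]
      rw [h4]
      have := hu z
      linarith
  refine ⟨hint, ?_⟩
  have e : M ν' ν = ∫ z, U ν z ∂ν' := by
    unfold M U
    exact integral_prod _ hint
  rw [e]
  have hUi : Integrable (U ν) ν' := hint.integral_prod_left
  have h5 : ∫ z, U ν z ∂ν' ≤ ∫ _z, (Real.log 2 - Real.log δ) ∂ν' :=
    integral_mono hUi (integrable_const _) hu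
  simpa using h5

theorem nu_far {ν ν' : Measure ℂ} (hν : IsProbabilityMeasure ν) (hν' : IsProbabilityMeasure ν')
    {δ : ℝ} (hδ : 0 < δ) {c c' : ℂ} (hc : ν (Metric.closedBall c (3 * δ))ᶜ = 0)
    (hc' : ν' (Metric.closedBall c' (3 * δ))ᶜ = 0) (hcc : 6 * δ < ‖c - c'‖) :
    M ν' ν ≤ -Real.log (‖c - c'‖ - 6 * δ) := by
  have hpos : 0 < ‖c - c'‖ - 6 * δ := by linarith
  have hae := x3a_prod_ae hc hc'
  have hdist : ∀ z ∈ Metric.closedBall c' (3 * δ), ∀ w ∈ Metric.closedBall c (3 * δ),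
      ‖c - c'‖ - 6 * δ ≤ ‖z - w‖ ∧ ‖z - w‖ ≤ ‖c - c'‖ + 6 * δ := by
    intro z hz w hw
    rw [mem_closedBall_iff_norm] at hz hw
    constructor
    · have h1 : ‖c - c'‖ ≤ ‖z - w‖ + ‖z - c'‖ + ‖w - c‖ := by
        have e : c - c' = -(z - w) + (z - c') + -(w - c) := by ring
        rw [e]
        refine (norm_add_le _ _).trans ?_
        refine add_le_add ((norm_add_le _ _).trans ?_) ?_
        · rw [norm_neg]
        · rw [norm_neg]
      linarith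
    · have h1 : ‖z - w‖ ≤ ‖c - c'‖ + ‖z - c'‖ + ‖w - c‖ := by
        have e : z - w = -(c - c') + (z - c') + -(w - c) := by ring
        rw [e]
        refine (norm_add_le _ _).trans ?_
        refine add_le_add ((norm_add_le _ _).trans ?_) ?_
        · rw [norm_neg]
        · rw [norm_neg]
      linarith
  have hup : ∀ᵐ q ∂(ν'.prod ν), K q.1 q.2 ≤ -Real.log (‖c - c'‖ - 6 * δ) := by
    filter_upwards [hae] with q hq
    have h := hdist q.1 hq.1 q.2 hq.2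
    unfold K
    have := Real.log_le_log hpos h.1
    linarith
  have hlo : ∀ᵐ q ∂(ν'.prod ν), -Real.log (‖c - c'‖ + 6 * δ) ≤ K q.1 q.2 := by
    filter_upwards [hae] with q hq
    have h := hdist q.1 hq.1 q.2 hq.2
    unfold K
    have := Real.log_le_log (hpos.trans_le h.1) h.2
    linarith
  have hint : Integrable (fun q : ℂ × ℂ => K q.1 q.2) (ν'.prod ν) := by
    refine Integrable.of_bound (C := |Real.log (‖c - c'‖ - 6 * δ)| + |Real.log (‖c - c'‖ + 6 * δ)|)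
      measurable_K.aestronglyMeasurable ?_
    filter_upwards [hup, hlo] with q h1 h2
    rw [Real.norm_eq_abs, abs_le]
    have a1 := neg_abs_le (Real.log (‖c - c'‖ - 6 * δ))
    have a2 := le_abs_self (Real.log (‖c - c'‖ + 6 * δ))
    have a3 := abs_nonneg (Real.log (‖c - c'‖ - 6 * δ))
    have a4 := abs_nonneg (Real.log (‖c - c'‖ + 6 * δ))
    constructor <;> linarith
  unfold M
  have h := integral_mono_ae hint (integrable_const (-Real.log (‖c - c'‖ - 6 * δ))) hup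
  simpa using h

end Pool.Agent.H5.AF
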