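import Pool.Agent.H5.AF.Defs
import Pool.Agent.H5.AF.X3a
set_option autoImplicit false
open MeasureTheory Set Filter Topology
open scoped ENNReal NNReal

namespace Pool.Agent.H5.AF

/-!
Part X3B. Upper semicontinuity of the equilibrium energy on continua.
Paper proof: `e_δ z w = 16δ/‖z-w‖` if `‖z-w‖ ≥ 16δ`, `log 32` otherwise; `0 ≤ e_δ ≤ log 32`, `e_δ → 0`
off the diagonal, so `∬ e_δ dμ dμ → 0`.  Fix `δ` with `∬ e_δ + 8 k δ ≤ η`, `δ ≤ 1/3`
(`k = max k₁ k₂`).  Take a measurable map `c : ℂ → ℂ` with finitely many values, with values in `Γ`,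
`‖z - c z‖ ≤ δ` on `Γ` (finite `δ`-net); `Q_i` its level sets; `ν_i` from `exists_nu` at the centre `c_i`
for the continuum `Γ''`; `μ'' = Σ μ(Q_i) ν_i`.  Then
`M μ'' μ'' = ΣΣ μ(Q_i) μ(Q_j) M ν_i ν_j = ∬ M ν_{c z} ν_{c w} dμ dμ ≤ ∬ (K + e_δ) dμ dμ`:
if `‖z-w‖ ≥ 16δ`: `‖c z - c w‖ - 6δ ≥ ‖z-w‖ - 8δ`, `-log(‖z-w‖-8δ) ≤ K z w + 16δ/‖z-w‖`;
else `M ≤ log 2 - log δ ≤ K z w + log 32`.  `∫ φ dν_i ≤ φ z + 4kδ` for `z ∈ Q_i`.
-/

namespace X3B

theorem sum_prod (s : Finset ℕ) (ν : ℕ → Measure ℂ) [∀ i, IsFiniteMeasure (ν i)] (τ : Measure ℂ)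
    [IsFiniteMeasure τ] : (∑ i ∈ s, ν i).prod τ = ∑ i ∈ s, (ν i).prod τ := by
  classical
  induction s using Finset.induction_on with
  | empty => simp
  | insert a s ha ih =>
    rw [Finset.sum_insert ha, Finset.sum_insert ha, Measure.add_prod, ih]

theorem prod_sum' (s : Finset ℕ) (ν : ℕ → Measure ℂ) [∀ i, IsFiniteMeasure (ν i)] (τ : Measure ℂ)
    [IsFiniteMeasure τ] : τ.prod (∑ i ∈ s, ν i) = ∑ i ∈ s, τ.prod (ν i) := by
  classical
  induction s using Finset.induction_on with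
  | empty => simp
  | insert a s ha ih =>
    rw [Finset.sum_insert ha, Finset.sum_insert ha, Measure.prod_add, ih]

/-- finite mixtures -/
noncomputable def mix (N : ℕ) (a : ℕ → ℝ≥0) (ν : ℕ → Measure ℂ) : Measure ℂ :=
  ∑ i ∈ Finset.range N, a i • ν i

theorem mix_prod (N : ℕ) (a : ℕ → ℝ≥0) (ν : ℕ → Measure ℂ) [∀ i, IsFiniteMeasure (ν i)] :
    (mix N a ν).prod (mix N a ν) =
      ∑ i ∈ Finset.range N, ∑ j ∈ Finset.range N, (a i * a j) • ((ν i).prod (ν j)) := by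
  unfold mix
  rw [sum_prod]
  refine Finset.sum_congr rfl fun i _ => ?_
  rw [prod_sum']
  refine Finset.sum_congr rfl fun j _ => ?_
  rw [Measure.prod_smul_left, Measure.prod_smul_right, smul_smul]

theorem integrable_mix_prod {N : ℕ} {a : ℕ → ℝ≥0} {ν : ℕ → Measure ℂ} [∀ i, IsFiniteMeasure (ν i)]
    {f : ℂ × ℂ → ℝ} (hf : ∀ i j, Integrable f ((ν i).prod (ν j))) :
    Integrable f ((mix N a ν).prod (mix N a ν)) := by
  rw [mix_prod, integrable_finsetSum_measure]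
  intro i _
  rw [integrable_finsetSum_measure]
  intro j _
  exact (hf i j).smul_measure_nnreal

theorem integral_mix_prod {N : ℕ} {a : ℕ → ℝ≥0} {ν : ℕ → Measure ℂ} [∀ i, IsFiniteMeasure (ν i)]
    {f : ℂ × ℂ → ℝ} (hf : ∀ i j, Integrable f ((ν i).prod (ν j))) :
    ∫ p, f p ∂((mix N a ν).prod (mix N a ν)) =
      ∑ i ∈ Finset.range N, ∑ j ∈ Finset.range N,
        (a i : ℝ) * (a j : ℝ) * ∫ p, f p ∂((ν i).prod (ν j)) := by
  rw [mix_prod, integral_finsetSum_measure]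
  · refine Finset.sum_congr rfl fun i _ => ?_
    rw [integral_finsetSum_measure]
    · refine Finset.sum_congr rfl fun j _ => ?_
      rw [integral_smul_nnreal_measure, NNReal.smul_def, smul_eq_mul, NNReal.coe_mul]
    · intro j _
      exact (hf i j).smul_measure_nnreal
  · intro i _
    rw [integrable_finsetSum_measure]
    intro j _
    exact (hf i j).smul_measure_nnreal

theorem integral_mix {N : ℕ} {a : ℕ → ℝ≥0} {ν : ℕ → Measure ℂ} 
    {f : ℂ → ℝ} (hf : ∀ i, Integrable f (ν i)) :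
    ∫ p, f p ∂(mix N a ν) = ∑ i ∈ Finset.range N, (a i : ℝ) * ∫ p, f p ∂(ν i) := by
  unfold mix
  rw [integral_finsetSum_measure]
  · refine Finset.sum_congr rfl fun i _ => ?_
    rw [integral_smul_nnreal_measure, NNReal.smul_def, smul_eq_mul]
  · intro i _
    exact (hf i).smul_measure_nnreal

/-- the level sets of a map to `ℕ` -/
noncomputable def wt (μ : Measure ℂ) (I : ℂ → ℕ) (i : ℕ) : ℝ≥0 := (μ (I ⁻¹' {i})).toNNReal

theorem indicator_sum {N : ℕ} {I : ℂ → ℕ} (hI : ∀ z, I z < N) (G : ℕ → ℝ) (z : ℂ) :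
    G (I z) = ∑ i ∈ Finset.range N, (I ⁻¹' {i}).indicator (fun _ => G i) z := by
  rw [Finset.sum_eq_single (I z)]
  · simp
  · intro b _ hb
    simp [Set.indicator, Ne.symm hb]
  · intro h
    exact absurd (Finset.mem_range.2 (hI z)) h

theorem integral_wt {μ : Measure ℂ} [IsFiniteMeasure μ] {N : ℕ} {I : ℂ → ℕ} (hI : ∀ z, I z < N)
    (hm : Measurable I) (G : ℕ → ℝ) :
    Integrable (fun z => G (I z)) μ ∧
    ∫ z, G (I z) ∂μ = ∑ i ∈ Finset.range N, (wt μ I i : ℝ) * G i := by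
  have hi : ∀ i, Integrable (fun z => (I ⁻¹' {i}).indicator (fun _ => G i) z) μ := fun i =>
    (integrable_const (G i)).indicator (hm (measurableSet_singleton i))
  have e : (fun z => G (I z)) =
      fun z => ∑ i ∈ Finset.range N, (I ⁻¹' {i}).indicator (fun _ => G i) z := by
    funext z; exact indicator_sum hI G z
  constructor
  · rw [e]
    exact integrable_finsetSum _ fun i _ => hi i
  · rw [e, integral_finsetSum _ fun i _ => hi i]
    refine Finset.sum_congr rfl fun i _ => ?_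
    rw [integral_indicator (hm (measurableSet_singleton i)), integral_const]
    simp only [wt, Measure.real, smul_eq_mul, MeasurableSet.univ, Measure.restrict_apply, univ_inter,
      ENNReal.coe_toNNReal_eq_toReal]

theorem integral_wt2 {μ : Measure ℂ} [IsFiniteMeasure μ] {N : ℕ} {I : ℂ → ℕ} (hI : ∀ z, I z < N)
    (hm : Measurable I) (G : ℕ → ℕ → ℝ) :
    Integrable (fun p : ℂ × ℂ => G (I p.1) (I p.2)) (μ.prod μ) ∧
    ∫ p : ℂ × ℂ, G (I p.1) (I p.2) ∂(μ.prod μ) =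
      ∑ i ∈ Finset.range N, ∑ j ∈ Finset.range N, (wt μ I i : ℝ) * (wt μ I j : ℝ) * G i j := by
  -- bounded measurable
  have hmeas : Measurable (fun p : ℂ × ℂ => G (I p.1) (I p.2)) := by
    have h1 : Measurable (fun q : ℕ × ℕ => G q.1 q.2) := measurable_of_countable _
    exact h1.comp ((hm.comp measurable_fst).prodMk (hm.comp measurable_snd))
  have hint : Integrable (fun p : ℂ × ℂ => G (I p.1) (I p.2)) (μ.prod μ) := by
    obtain ⟨C, hC⟩ : ∃ C : ℝ, ∀ i ∈ Finset.range N, ∀ j ∈ Finset.range N, |G i j| ≤ C := by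
      refine ⟨∑ i ∈ Finset.range N, ∑ j ∈ Finset.range N, |G i j|, fun i hi j hj => ?_⟩
      have h1 : |G i j| ≤ ∑ j ∈ Finset.range N, |G i j| :=
        Finset.single_le_sum (f := fun j => |G i j|) (fun _ _ => abs_nonneg _) hj
      have h2 : ∑ j ∈ Finset.range N, |G i j| ≤
          ∑ i ∈ Finset.range N, ∑ j ∈ Finset.range N, |G i j| :=
        Finset.single_le_sum (f := fun i => ∑ j ∈ Finset.range N, |G i j|)
          (fun _ _ => Finset.sum_nonneg fun _ _ => abs_nonneg _) hi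
      exact h1.trans h2
    refine Integrable.of_bound hmeas.aestronglyMeasurable C (ae_of_all _ fun p => ?_)
    rw [Real.norm_eq_abs]
    exact hC _ (Finset.mem_range.2 (hI _)) _ (Finset.mem_range.2 (hI _))
  refine ⟨hint, ?_⟩
  rw [integral_prod _ hint]
  have h1 : ∀ z : ℂ, ∫ w, G (I z) (I w) ∂μ = ∑ j ∈ Finset.range N, (wt μ I j : ℝ) * G (I z) j :=
    fun z => (integral_wt hI hm (G (I z))).2
  have h2 : ∫ z, ∫ w, G (I z) (I w) ∂μ ∂μ =
      ∫ z, (fun i => ∑ j ∈ Finset.range N, (wt μ I j : ℝ) * G i j) (I z) ∂μ := by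
    refine integral_congr_ae (ae_of_all _ fun z => ?_)
    exact h1 z
  rw [h2, (integral_wt hI hm (fun i => ∑ j ∈ Finset.range N, (wt μ I j : ℝ) * G i j)).2]
  refine Finset.sum_congr rfl fun i _ => ?_
  rw [Finset.mul_sum]
  refine Finset.sum_congr rfl fun j _ => ?_
  ring

theorem wt_sum {μ : Measure ℂ} [IsProbabilityMeasure μ] {N : ℕ} {I : ℂ → ℕ} (hI : ∀ z, I z < N)
    (hm : Measurable I) : ∑ i ∈ Finset.range N, (wt μ I i : ℝ≥0∞) = 1 := by
  have h := (integral_wt (μ := μ) hI hm (fun _ => (1 : ℝ))).2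
  simp only [integral_const, smul_eq_mul, mul_one, probReal_univ] at h
  rw [← ENNReal.ofNNReal_finsetSum, ← ENNReal.coe_one, ENNReal.coe_inj]
  rw [← NNReal.coe_inj, NNReal.coe_sum, NNReal.coe_one]
  exact h.symm

/-- error kernel -/
noncomputable def ek (δ : ℝ) (p : ℂ × ℂ) : ℝ := 4 * min 1 (16 * δ / ‖p.1 - p.2‖)

theorem measurable_ek (δ : ℝ) : Measurable (ek δ) := by
  unfold ek
  fun_prop

theorem ek_bound {δ : ℝ} (hδ : 0 ≤ δ) (p : ℂ × ℂ) : 0 ≤ ek δ p ∧ ek δ p ≤ 4 := by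
  unfold ek
  have h1 : 0 ≤ 16 * δ / ‖p.1 - p.2‖ := by positivity
  have h2 : 0 ≤ min 1 (16 * δ / ‖p.1 - p.2‖) := le_min zero_le_one h1
  have h3 := min_le_left 1 (16 * δ / ‖p.1 - p.2‖)
  constructor <;> linarith

theorem ek_tendsto (p : ℂ × ℂ) : Tendsto (fun n : ℕ => ek (1 / ((n : ℝ) + 1)) p) atTop (𝓝 0) := by
  have h1 : Tendsto (fun n : ℕ => 1 / ((n : ℝ) + 1)) atTop (𝓝 0) :=
    tendsto_one_div_add_atTop_nhds_zero_nat
  have h2 : Continuous (fun δ : ℝ => ek δ p) := by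
    unfold ek
    fun_prop
  have h3 : ek 0 p = 0 := by simp [ek]
  have h4 := (h2.tendsto 0).comp h1
  rw [h3] at h4
  exact h4

theorem ek_integral_tendsto (μ : Measure ℂ) [IsFiniteMeasure μ] :
    Tendsto (fun n : ℕ => ∫ p, ek (1 / ((n : ℝ) + 1)) p ∂(μ.prod μ)) atTop (𝓝 0) := by
  have h := tendsto_integral_of_dominated_convergence (μ := μ.prod μ)
    (F := fun n : ℕ => ek (1 / ((n : ℝ) + 1))) (f := fun _ => (0 : ℝ)) (fun _ => (4 : ℝ))
    (fun n => (measurable_ek _).aestronglyMeasurable) (integrable_const _)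
    (fun n => ae_of_all _ fun p => ?_) (ae_of_all _ fun p => ek_tendsto p)
  · simpa using h
  · have hn : (0 : ℝ) ≤ 1 / ((n : ℝ) + 1) := by positivity
    have := ek_bound hn p
    rw [Real.norm_eq_abs, abs_of_nonneg this.1]
    exact this.2

theorem log32 : Real.log 2 + Real.log 16 ≤ 4 := by
  have h : Real.log 16 = 4 * Real.log 2 := by
    rw [show (16 : ℝ) = 2 ^ (4 : ℕ) by norm_num, Real.log_pow]
    norm_num
  have := Real.log_two_lt_d9
  rw [h]
  linarith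

/-- far case -/
theorem far_ineq {δ d : ℝ} (hδ : 0 < δ) (hd : 16 * δ ≤ d) :
    -Real.log (d - 8 * δ) ≤ -Real.log d + 16 * δ / d := by
  have hd0 : 0 < d := by linarith
  have hx : 0 < (d - 8 * δ) / d := div_pos (by linarith) hd0
  have h1 := Real.one_sub_inv_le_log_of_pos hx
  have h2 : Real.log ((d - 8 * δ) / d) = Real.log (d - 8 * δ) - Real.log d :=
    Real.log_div (by linarith) hd0.ne'
  have h3 : 1 - ((d - 8 * δ) / d)⁻¹ ≥ -(16 * δ / d) := by
    rw [inv_div]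
    have h4 : 0 < d - 8 * δ := by linarith
    have h5 : d / (d - 8 * δ) ≤ 1 + 16 * δ / d := by
      rw [div_le_iff₀ h4]
      have h6 : (1 + 16 * δ / d) * (d - 8 * δ) = d + 8 * δ - 128 * δ ^ 2 / d := by
        field_simp
        ring
      rw [h6]
      have h7 : 128 * δ ^ 2 / d ≤ 8 * δ := by
        rw [div_le_iff₀ hd0]
        nlinarith
      linarith
    linarith
  linarith

theorem mix_apply (N : ℕ) (a : ℕ → ℝ≥0) (ν : ℕ → Measure ℂ) (s : Set ℂ) :
    mix N a ν s = ∑ i ∈ Finset.range N, (a i : ℝ≥0∞) * ν i s := by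
  unfold mix
  rw [Measure.finsetSum_apply]
  rfl

theorem phi_lip {k₁ k₂ : ℝ} (h₁ : 0 < k₁) (h₂ : 0 < k₂) (z w : ℂ) :
    |phi k₁ k₂ z - phi k₁ k₂ w| ≤ max k₁ k₂ * ‖z - w‖ := by
  rw [phi_eq h₁ h₂, phi_eq h₁ h₂]
  refine (abs_min_sub_min_le_max _ _ _ _).trans ?_
  have hre : |z.re - w.re| ≤ ‖z - w‖ := by
    have := Complex.abs_re_le_norm (z - w)
    simpa using this
  refine max_le ?_ ?_
  · have h : |-(k₁ * z.re) - -(k₁ * w.re)| = k₁ * |z.re - w.re| := by
      rw [show -(k₁ * z.re) - -(k₁ * w.re) = -(k₁ * (z.re - w.re)) by ring, abs_neg, abs_mul,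
        abs_of_pos h₁]
    rw [h]
    exact mul_le_mul (le_max_left _ _) hre (abs_nonneg _) (h₁.le.trans (le_max_left _ _))
  · have h : |k₂ * z.re - k₂ * w.re| = k₂ * |z.re - w.re| := by
      rw [show k₂ * z.re - k₂ * w.re = k₂ * (z.re - w.re) by ring, abs_mul, abs_of_pos h₂]
    rw [h]
    exact mul_le_mul (le_max_right _ _) hre (abs_nonneg _) (h₂.le.trans (le_max_right _ _))

theorem diag_null {μ : Measure ℂ} [IsFiniteMeasure μ] (h : ∀ z, μ {z} = 0) :
    ∀ᵐ p : ℂ × ℂ ∂(μ.prod μ), p.1 ≠ p.2 := by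
  have hm : MeasurableSet {p : ℂ × ℂ | p.1 = p.2} := measurableSet_eq_fun measurable_fst measurable_snd
  rw [ae_iff]
  have e : {a : ℂ × ℂ | ¬ a.1 ≠ a.2} = {p : ℂ × ℂ | p.1 = p.2} := by
    ext p; simp
  rw [e, Measure.measure_prod_null hm]
  refine ae_of_all _ fun z => ?_
  have e2 : Prod.mk z ⁻¹' {p : ℂ × ℂ | p.1 = p.2} = {z} := by
    ext w; simp [eq_comm]
  simp only [e2, h z, Pi.zero_apply]

theorem phi_int {k₁ k₂ : ℝ} (h₁ : 0 < k₁) (h₂ : 0 < k₂) {Γ : Set ℂ} (hΓ : IsCompact Γ)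
    {ν : Measure ℂ} [IsFiniteMeasure ν] (hν : ν Γᶜ = 0) : Integrable (phi k₁ k₂) ν := by
  obtain ⟨C, hC⟩ := hΓ.exists_bound_of_continuousOn (phi_continuous h₁ h₂).continuousOn
  refine Integrable.of_bound (phi_continuous h₁ h₂).aestronglyMeasurable C ?_
  have : ∀ᵐ z ∂ν, z ∈ Γ := by rw [ae_iff]; exact hν
  exact this.mono fun z hz => hC z hz

end X3B

open X3B

theorem usc {k₁ k₂ : ℝ} (h₁ : 0 < k₁) (h₂ : 0 < k₂) {Γ' : Set ℂ} (hΓ' : IsCompact Γ')
    {μ : Measure ℂ} (hμ : FE Γ' μ) {η : ℝ} (hη : 0 < η) :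
    ∃ δ > 0, ∀ (ε₁ ε₂ : ℝ) (Γ'' : Set ℂ), Cls ε₁ ε₂ Γ'' →
      (∀ z ∈ Γ', ∃ z' ∈ Γ'', ‖z - z'‖ < δ) → ∃ μ'', FE Γ'' μ'' ∧
        E k₁ k₂ μ'' ≤ E k₁ k₂ μ + η := by
  classical
  have hprob := hμ.prob
  have hae : ∀ᵐ z ∂μ, z ∈ Γ' := by rw [ae_iff]; exact hμ.supp
  set k := max k₁ k₂ with hk
  have hk0 : 0 < k := lt_max_of_lt_left h₁
  -- the scale
  have hlim : Tendsto (fun n : ℕ => ∫ p, ek (1 / ((n : ℝ) + 1)) p ∂(μ.prod μ) +
      8 * k * (1 / ((n : ℝ) + 1))) atTop (𝓝 0) := by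
    have h1 := ek_integral_tendsto μ
    have h2 : Tendsto (fun n : ℕ => 8 * k * (1 / ((n : ℝ) + 1))) atTop (𝓝 (8 * k * 0)) :=
      tendsto_one_div_add_atTop_nhds_zero_nat.const_mul (8 * k)
    have h3 := h1.add h2
    simpa using h3
  obtain ⟨n, hn, hn2⟩ := ((hlim.eventually_lt_const hη).and (eventually_ge_atTop 2)).exists
  set δ : ℝ := 1 / ((n : ℝ) + 1) with hδdef
  have hδ : 0 < δ := by positivity
  have hδ3 : δ ≤ 1 / 3 := by
    rw [hδdef]
    have h2 : (2 : ℝ) ≤ n := by exact_mod_cast hn2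
    exact one_div_le_one_div_of_le (by norm_num) (by linarith)
  refine ⟨δ, hδ, ?_⟩
  intro ε₁ ε₂ Γ'' hcls hclose
  have cΓ'' : IsCompact Γ'' := hcls.1
  -- the net
  have hne : Γ'.Nonempty := by
    by_contra h
    rw [Set.not_nonempty_iff_eq_empty] at h
    have h2 := hμ.supp
    rw [h, compl_empty, measure_univ] at h2
    exact one_ne_zero h2
  have hnon : Nonempty Γ' := hne.to_subtype
  set e : ℕ → ℂ := fun i => (TopologicalSpace.denseSeq Γ' i : ℂ) with he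
  have heΓ : ∀ i, e i ∈ Γ' := fun i => (TopologicalSpace.denseSeq Γ' i).2
  obtain ⟨t, ht⟩ := hΓ'.elim_finite_subcover (fun i : ℕ => Metric.ball (e i) δ)
    (fun i => Metric.isOpen_ball) (by
      intro z hz
      obtain ⟨i, hi⟩ := (TopologicalSpace.denseRange_denseSeq Γ').exists_dist_lt ⟨z, hz⟩ hδ
      exact mem_iUnion.2 ⟨i, by simpa [Metric.mem_ball, Subtype.dist_eq] using hi⟩)
  obtain ⟨N, hN⟩ : ∃ N, ∀ i ∈ t, i ≤ N := ⟨t.sup id, fun i hi => Finset.le_sup (f := id) hi⟩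
  set I : ℂ → ℕ := fun z => SimpleFunc.nearestPtInd e N z with hI
  have hIm : Measurable I := (SimpleFunc.nearestPtInd e N).measurable
  have hIN : ∀ z, I z < N + 1 := fun z => Nat.lt_succ_of_le (SimpleFunc.nearestPtInd_le e N z)
  have hIc : ∀ z ∈ Γ', ‖z - e (I z)‖ < δ := by
    intro z hz
    obtain ⟨i, hit, hi⟩ : ∃ i ∈ t, z ∈ Metric.ball (e i) δ := by
      have := ht hz
      simpa using this
    have h1 : edist (SimpleFunc.nearestPt e N z) z ≤ edist (e i) z :=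
      SimpleFunc.edist_nearestPt_le e z (hN i hit)
    have h2 : SimpleFunc.nearestPt e N z = e (I z) := rfl
    rw [h2, edist_dist, edist_dist, ENNReal.ofReal_le_ofReal_iff dist_nonneg] at h1
    rw [← dist_eq_norm, dist_comm]
    refine h1.trans_lt ?_
    rw [dist_comm]
    exact hi
  choose ν hνFE hνball hνint hνU using fun i => exists_nu hcls hδ hδ3 (hclose (e i) (heΓ i))
  have hνp : ∀ i, IsProbabilityMeasure (ν i) := fun i => (hνFE i).prob
  have hnear : ∀ i j, Integrable (fun q : ℂ × ℂ => K q.1 q.2) ((ν i).prod (ν j)) ∧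
      M (ν i) (ν j) ≤ Real.log 2 - Real.log δ := fun i j =>
    nu_near cΓ'' cΓ'' (hνFE j) (hνFE i) (hνint j) (hνU j)
  have hsum := wt_sum (μ := μ) hIN hIm
  refine ⟨mix (N + 1) (wt μ I) ν, ⟨⟨?_⟩, ?_, ?_, ?_⟩, ?_⟩
  · rw [mix_apply]
    simp only [measure_univ, mul_one]
    exact hsum
  · rw [mix_apply]
    exact Finset.sum_eq_zero fun i _ => by rw [(hνFE i).supp, mul_zero]
  · intro z
    rw [mix_apply]
    exact Finset.sum_eq_zero fun i _ => by rw [(hνFE i).atom, mul_zero]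
  · exact integrable_mix_prod fun i j => (hnear i j).1
  -- the energy
  have hφ : ∫ z, phi k₁ k₂ z ∂(mix (N + 1) (wt μ I) ν) ≤ ∫ z, phi k₁ k₂ z ∂μ + 4 * k * δ := by
    rw [integral_mix fun i => phi_int h₁ h₂ cΓ'' (hνFE i).supp,
      ← (integral_wt (μ := μ) hIN hIm (fun i => ∫ p, phi k₁ k₂ p ∂(ν i))).2]
    have hφi : Integrable (phi k₁ k₂) μ := phi_int h₁ h₂ hΓ' hμ.supp
    have h1 : ∫ z, phi k₁ k₂ z ∂μ + 4 * k * δ = ∫ z, (phi k₁ k₂ z + 4 * k * δ) ∂μ := by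
      rw [integral_add hφi (integrable_const _)]
      simp
    rw [h1]
    refine integral_mono_ae (integral_wt (μ := μ) hIN hIm (fun i => ∫ p, phi k₁ k₂ p ∂(ν i))).1
      (hφi.add (integrable_const _)) ?_
    filter_upwards [hae] with z hz
    have h2 : ∫ p, phi k₁ k₂ p ∂(ν (I z)) ≤ ∫ _p, (phi k₁ k₂ z + 4 * k * δ) ∂(ν (I z)) := by
      refine integral_mono_ae (phi_int h₁ h₂ cΓ'' (hνFE _).supp) (integrable_const _) ?_
      have h3 : ∀ᵐ w ∂(ν (I z)), w ∈ Metric.closedBall (e (I z)) (3 * δ) := by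
        rw [ae_iff]; exact hνball (I z)
      filter_upwards [h3] with w hw
      have h4 := phi_lip h₁ h₂ w z
      rw [Metric.mem_closedBall, dist_eq_norm] at hw
      have h5 : ‖w - z‖ ≤ 4 * δ := by
        have h6 : w - z = (w - e (I z)) - (z - e (I z)) := by ring
        rw [h6]
        have := norm_sub_le (w - e (I z)) (z - e (I z))
        have := hIc z hz
        linarith
      have h7 := le_of_abs_le h4
      have h8 : max k₁ k₂ * ‖w - z‖ ≤ k * (4 * δ) := mul_le_mul_of_nonneg_left h5 hk0.le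
      linarith
    refine h2.trans ?_
    simp
  have hM : M (mix (N + 1) (wt μ I) ν) (mix (N + 1) (wt μ I) ν) ≤
      M μ μ + ∫ p, ek δ p ∂(μ.prod μ) := by
    have h0 : M (mix (N + 1) (wt μ I) ν) (mix (N + 1) (wt μ I) ν) =
        ∫ p : ℂ × ℂ, M (ν (I p.1)) (ν (I p.2)) ∂(μ.prod μ) := by
      rw [(integral_wt2 (μ := μ) hIN hIm (fun i j => M (ν i) (ν j))).2]
      unfold M
      rw [integral_mix_prod fun i j => (hnear i j).1]
    rw [h0]
    have hek : Integrable (ek δ) (μ.prod μ) := by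
      refine Integrable.of_bound (measurable_ek δ).aestronglyMeasurable 4 (ae_of_all _ fun p => ?_)
      rw [Real.norm_eq_abs, abs_of_nonneg (ek_bound hδ.le p).1]
      exact (ek_bound hδ.le p).2
    have h1 : M μ μ + ∫ p, ek δ p ∂(μ.prod μ) = ∫ p : ℂ × ℂ, (K p.1 p.2 + ek δ p) ∂(μ.prod μ) := by
      rw [integral_add hμ.int hek]
      rfl
    rw [h1]
    refine integral_mono_ae (integral_wt2 (μ := μ) hIN hIm (fun i j => M (ν i) (ν j))).1
      (hμ.int.add hek) ?_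
    have hfst : ∀ᵐ p : ℂ × ℂ ∂(μ.prod μ), p.1 ∈ Γ' :=
      Measure.quasiMeasurePreserving_fst.ae hae
    have hsnd : ∀ᵐ p : ℂ × ℂ ∂(μ.prod μ), p.2 ∈ Γ' :=
      Measure.quasiMeasurePreserving_snd.ae hae
    filter_upwards [hfst, hsnd, diag_null hμ.atom] with p hp1 hp2 hp12
    have hd0 : 0 < ‖p.1 - p.2‖ := norm_pos_iff.2 (sub_ne_zero.2 hp12)
    show M (ν (I p.1)) (ν (I p.2)) ≤ K p.1 p.2 + ek δ p
    rcases le_or_gt (16 * δ) ‖p.1 - p.2‖ with hd | hd
    · -- far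
      have hc1 := hIc p.1 hp1
      have hc2 := hIc p.2 hp2
      have h3 : ‖p.1 - p.2‖ - 2 * δ ≤ ‖e (I p.1) - e (I p.2)‖ := by
        have h4 : p.1 - p.2 = (p.1 - e (I p.1)) + (e (I p.1) - e (I p.2)) - (p.2 - e (I p.2)) := by
          ring
        have h5 := norm_sub_le ((p.1 - e (I p.1)) + (e (I p.1) - e (I p.2))) (p.2 - e (I p.2))
        have h6 := norm_add_le (p.1 - e (I p.1)) (e (I p.1) - e (I p.2))
        rw [← h4] at h5
        linarith
      have h7 := nu_far (ν := ν (I p.2)) (ν' := ν (I p.1)) inferInstance inferInstance hδ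
        (hνball (I p.2)) (hνball (I p.1)) (by rw [norm_sub_rev]; linarith)
      rw [norm_sub_rev] at h7
      have h8 : -Real.log (‖e (I p.1) - e (I p.2)‖ - 6 * δ) ≤ -Real.log (‖p.1 - p.2‖ - 8 * δ) := by
        apply neg_le_neg
        apply Real.log_le_log <;> linarith
      have h9 := far_ineq hδ hd
      have h10 : 16 * δ / ‖p.1 - p.2‖ ≤ ek δ p := by
        unfold ek
        have h11 : 16 * δ / ‖p.1 - p.2‖ ≤ 1 := by
          rw [div_le_one hd0]; exact hd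
        rw [min_eq_right h11]
        have : 0 ≤ 16 * δ / ‖p.1 - p.2‖ := by positivity
        linarith
      unfold K
      linarith
    · -- near
      have h3 := (hnear (I p.1) (I p.2)).2
      have h4 : 4 ≤ ek δ p := by
        unfold ek
        have h11 : 1 ≤ 16 * δ / ‖p.1 - p.2‖ := by
          rw [le_div_iff₀ hd0]; linarith
        rw [min_eq_left h11]
        norm_num
      have h5 : Real.log ‖p.1 - p.2‖ ≤ Real.log 16 + Real.log δ := by
        rw [← Real.log_mul (by norm_num) hδ.ne']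
        exact Real.log_le_log hd0 hd.le
      have h6 := log32
      unfold K
      linarith
  unfold E
  linarith

end Pool.Agent.H5.AF
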