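import Pool.Agent.H5.AF.Defs
import Pool.Agent.H5.AF.X1
import Pool.Agent.H5.AF.X2
import Pool.Agent.H5.AF.X3b
import Pool.Agent.H5.AF.Seg
import Pool.Agent.H5.AF.Equi
set_option autoImplicit false
open MeasureTheory Set Filter Topology
open scoped ENNReal NNReal

namespace Pool.Agent.H5.AF

/-!
Part X4. Existence of a max-min continuum.
Paper proof: `s = sup {E l | Cls Γ, IsEq Γ l}` is finite: bounded above by `log 2` or any bound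
(`E l ≤ log 2 - log 1 = log 2` by `energy_le_of_far` with `r = 1`, `a = z₂`, `‖z₁-z₂‖ ≥ 2`), the set is nonempty
(`seg_cls`, `cls_FE`, `exists_eq`).  Take a maximising sequence `Γ n`, `l n` with `E (l n) ≥ s - 1`;
then by `energy_le_of_far` all `Γ n` are in a fixed ball.  `blaschke`: `Γ'`; equilibrium measure `l'`
of `Γ'` (`cls_FE`, `exists_eq`).  By `usc` for `η > 0`, `E (l (φ n)) ≤ E μ'' ≤ E l' + η` for large `n`, so `s ≤ E l'`.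
-/

theorem x4_im_far {ε₁ ε₂ : ℝ} : 2 * (1 : ℝ) ≤ ‖(⟨ε₂, -1⟩ : ℂ) - ⟨-ε₁, 1⟩‖ := by
  have h := Complex.abs_im_le_norm ((⟨ε₂, -1⟩ : ℂ) - ⟨-ε₁, 1⟩)
  have e : ((⟨ε₂, -1⟩ : ℂ) - ⟨-ε₁, 1⟩).im = -2 := by
    rw [Complex.sub_im]; norm_num
  rw [e] at h
  norm_num at h
  linarith

theorem exists_rmax {k₁ k₂ ε₁ ε₂ : ℝ} (h₁ : 0 < k₁) (h₂ : 0 < k₂) (e₁ : 0 < ε₁) (e₂ : 0 < ε₂) :
    ∃ Γ l, RMax k₁ k₂ ε₁ ε₂ Γ l := by
  obtain ⟨S, hS⟩ : ∃ S : Set ℝ, S = {e | ∃ (Γ : Set ℂ) (l : Measure ℂ), Cls ε₁ ε₂ Γ ∧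
      IsEq k₁ k₂ Γ l ∧ E k₁ k₂ l = e} := ⟨_, rfl⟩
  have hbdd : BddAbove S := by
    refine ⟨Real.log 2 - Real.log 1, ?_⟩
    rintro e he
    rw [hS] at he
    obtain ⟨Γ, l, hΓ, hl, rfl⟩ := he
    exact energy_le_of_far h₁ h₂ hΓ hl one_pos hΓ.2.2.2 x4_im_far
  have hne : S.Nonempty := by
    obtain ⟨l, hl⟩ := exists_eq (seg_cls ε₁ ε₂).1 h₁ h₂ (cls_FE (seg_cls ε₁ ε₂))
    refine ⟨E k₁ k₂ l, ?_⟩
    rw [hS]
    exact ⟨_, l, seg_cls ε₁ ε₂, hl, rfl⟩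
  have hseq : ∀ n : ℕ, ∃ (Γ : Set ℂ) (l : Measure ℂ), Cls ε₁ ε₂ Γ ∧ IsEq k₁ k₂ Γ l ∧
      sSup S - 1 / ((n : ℝ) + 1) < E k₁ k₂ l := by
    intro n
    have hlt : sSup S - 1 / ((n : ℝ) + 1) < sSup S := by
      have : 0 < 1 / ((n : ℝ) + 1) := by positivity
      linarith
    obtain ⟨e, he, hlt'⟩ := exists_lt_of_lt_csSup hne hlt
    rw [hS] at he
    obtain ⟨Γ, l, hΓ, hl, rfl⟩ := he
    exact ⟨Γ, l, hΓ, hl, hlt'⟩
  choose Γ l hΓ hl hE using hseq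
  obtain ⟨r, hr⟩ : ∃ r : ℝ, r = Real.exp (Real.log 2 - sSup S + 1) := ⟨_, rfl⟩
  have hr0 : 0 < r := by rw [hr]; exact Real.exp_pos _
  have hrl : Real.log r = Real.log 2 - sSup S + 1 := by rw [hr, Real.log_exp]
  have hball : ∀ n, Γ n ⊆ Metric.closedBall 0 (‖(⟨-ε₁, 1⟩ : ℂ)‖ + 2 * r) := by
    intro n a ha
    have hlt : ‖a - ⟨-ε₁, 1⟩‖ < 2 * r := by
      by_contra hcon
      push Not at hcon
      have h1 := energy_le_of_far h₁ h₂ (hΓ n) (hl n) hr0 ha hcon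
      have h2 := hE n
      have h3 : 1 / ((n : ℝ) + 1) ≤ 1 := by
        rw [div_le_one (by positivity)]
        have : (0 : ℝ) ≤ n := Nat.cast_nonneg n
        linarith
      rw [hrl] at h1
      linarith
    rw [mem_closedBall_zero_iff]
    have h4 : ‖a‖ ≤ ‖a - ⟨-ε₁, 1⟩‖ + ‖(⟨-ε₁, 1⟩ : ℂ)‖ := by
      have := norm_add_le (a - ⟨-ε₁, 1⟩) (⟨-ε₁, 1⟩ : ℂ)
      rwa [sub_add_cancel] at this
    linarith
  obtain ⟨φ, Γ', hφ, hΓ', happ⟩ := blaschke hΓ hball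
  obtain ⟨l', hl'⟩ := exists_eq hΓ'.1 h₁ h₂ (cls_FE hΓ')
  have hs : sSup S ≤ E k₁ k₂ l' := by
    refine le_of_forall_pos_le_add ?_
    intro η hη
    obtain ⟨δ, hδ, hus⟩ := usc h₁ h₂ hΓ'.1 hl'.fe hη
    have hlim : Tendsto (fun n : ℕ => sSup S - 1 / (((φ n : ℕ) : ℝ) + 1)) atTop
        (𝓝 (sSup S - 0)) :=
      tendsto_const_nhds.sub
        ((tendsto_one_div_add_atTop_nhds_zero_nat (𝕜 := ℝ)).comp hφ.tendsto_atTop)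
    rw [sub_zero] at hlim
    refine le_of_tendsto hlim ?_
    filter_upwards [happ δ hδ] with n hn
    obtain ⟨μ, hμ, hμE⟩ := hus ε₁ ε₂ (Γ (φ n)) (hΓ (φ n)) hn
    exact ((hE (φ n)).le.trans ((hl (φ n)).min μ hμ)).trans hμE
  refine ⟨Γ', l', hΓ', hl', fun Γ'' l'' hΓ'' hl'' => ?_⟩
  refine le_trans (le_csSup hbdd ?_) hs
  rw [hS]
  exact ⟨Γ'', l'', hΓ'', hl'', rfl⟩

end Pool.Agent.H5.AF
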