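import Pool.Agent.H5.AF.Conv
import Pool.Agent.H5.AF.Ten
import Pool.Agent.H5.AF.Bri
import Pool.Agent.H5.AF.Mass
import Pool.Agent.H5.AF.Gap
import Pool.Agent.H5.AF.X4

set_option autoImplicit false
open MeasureTheory Set Filter Topology
open scoped ENNReal NNReal

namespace Pool.Agent.H5.AF

theorem rmax_of_maxmin {k₁ k₂ ε₁ ε₂ : ℝ} (h₁ : 0 < k₁) (h₂ : 0 < k₂) {Γ : Set ℂ}
    (hΓ : MaxMin k₁ k₂ ε₁ ε₂ Γ) : ∃ l, RMax k₁ k₂ ε₁ ε₂ Γ l := by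
  obtain ⟨l, hl⟩ := exists_eq hΓ.1.1 h₁ h₂ (cls_FE hΓ.1)
  refine ⟨l, hΓ.1, hl, fun Γ' l' hΓ' hl' => ?_⟩
  have h := hΓ.2 Γ' hΓ'
  rw [EqEn_eq h₁ h₂ hΓ'.1 hl', EqEn_eq h₁ h₂ hΓ.1.1 hl] at h
  exact_mod_cast h

theorem maxmin_of_rmax {k₁ k₂ ε₁ ε₂ : ℝ} (h₁ : 0 < k₁) (h₂ : 0 < k₂) {Γ : Set ℂ}
    {l : Measure ℂ} (hl : RMax k₁ k₂ ε₁ ε₂ Γ l) : MaxMin k₁ k₂ ε₁ ε₂ Γ := by
  refine ⟨hl.cls, fun Γ' hΓ' => ?_⟩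
  obtain ⟨l', hl'⟩ := exists_eq hΓ'.1 h₁ h₂ (cls_FE hΓ')
  rw [EqEn_eq h₁ h₂ hΓ'.1 hl', EqEn_eq h₁ h₂ hl.cls.1 hl.eq]
  exact_mod_cast hl.max Γ' l' hΓ' hl'

theorem contains {k₁ k₂ h : ℝ} (h₁ : 0 < k₁) (h₂ : 0 < k₂) (h0 : 0 < h) (h1 : h < 1) :
    ∃ ε₀ : ℝ, 0 < ε₀ ∧ ε₀ ≤ 1 ∧ ∀ ε₁ ε₂ : ℝ, 0 < ε₁ → ε₁ < ε₀ → 0 < ε₂ → ε₂ < ε₀ →
      ∀ (Γ : Set ℂ) (l : Measure ℂ), RMax k₁ k₂ ε₁ ε₂ Γ l → ∀ y : ℝ, |y| ≤ h →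
        (⟨0, y⟩ : ℂ) ∈ Γ := by
  obtain ⟨d, hd⟩ : ∃ d : ℝ, d = (1 - h) / 4 := ⟨_, rfl⟩
  obtain ⟨b, hb⟩ : ∃ b : ℝ, b = (1 + h) / 2 := ⟨_, rfl⟩
  have hd0 : 0 < d := by rw [hd]; linarith
  have hdb : d < b := by rw [hd, hb]; linarith
  have hb1 : b < 1 := by rw [hb]; linarith
  have hb0 : 0 < b := by rw [hb]; linarith
  have hbd : h < b - d := by rw [hd, hb]; linarith
  have hκ : 0 < min k₁ k₂ := lt_min h₁ h₂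
  obtain ⟨κ, hκe⟩ : ∃ κ : ℝ, κ = min k₁ k₂ := ⟨_, rfl⟩
  rw [← hκe] at hκ
  have hk : 0 < max k₁ k₂ := h₁.trans_le (le_max_left _ _)
  obtain ⟨C, hC⟩ : ∃ C : ℝ, C = 1 + 2 * max k₁ k₂ := ⟨_, rfl⟩
  have hC0 : 0 < C := by rw [hC]; linarith
  obtain ⟨η₁, hη₁, H₁⟩ := mass (k₁ := k₁) (k₂ := k₂) (b := b) (d := d) (u := h) (v := b - d)
    h₁ h₂ hd0 hdb hb1.le (by linarith) hbd le_rfl
  obtain ⟨η₂, hη₂, H₂⟩ := mass (k₁ := k₁) (k₂ := k₂) (b := b) (d := d) (u := -(b - d)) (v := -h)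
    h₁ h₂ hd0 hdb hb1.le le_rfl (by linarith) (by linarith)
  obtain ⟨η, hη0, a1, a2, a3, a4, a5, a6⟩ : ∃ η : ℝ, 0 < η ∧ η ≤ η₁ ∧ η ≤ η₂ ∧ η ≤ 1 / 10 ∧
      η ≤ d ^ 3 / 1000 ∧ η ≤ κ / 2 * d ^ 2 ∧ η ≤ κ * (1 - b) ^ 2 / 2048 := by
    have p1 : 0 < d ^ 3 / 1000 := by positivity
    have p2 : 0 < κ / 2 * d ^ 2 := by positivity
    have p3 : 0 < κ * (1 - b) ^ 2 / 2048 := by
      have : 0 < 1 - b := by linarith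
      positivity
    refine ⟨min (min (min η₁ η₂) (min (1 / 10) (d ^ 3 / 1000)))
      (min (κ / 2 * d ^ 2) (κ * (1 - b) ^ 2 / 2048)), ?_, ?_, ?_, ?_, ?_, ?_, ?_⟩
    · refine lt_min (lt_min (lt_min hη₁ hη₂) (lt_min (by norm_num) p1)) (lt_min p2 p3)
    · exact (min_le_left _ _).trans ((min_le_left _ _).trans (min_le_left _ _))
    · exact (min_le_left _ _).trans ((min_le_left _ _).trans (min_le_right _ _))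
    · exact (min_le_left _ _).trans ((min_le_right _ _).trans (min_le_left _ _))
    · exact (min_le_left _ _).trans ((min_le_right _ _).trans (min_le_right _ _))
    · exact (min_le_right _ _).trans (min_le_left _ _)
    · exact (min_le_right _ _).trans (min_le_right _ _)
  have hm1 : 0 < min κ 1 := lt_min hκ one_pos
  refine ⟨min 1 (η * min κ 1 / C), lt_min one_pos (by positivity), min_le_left _ _, ?_⟩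
  intro ε₁ ε₂ e₁ e₁' e₂ e₂' Γ l hl y hy
  have f1 : ε₁ ≤ 1 := e₁'.le.trans (min_le_left _ _)
  have f2 : ε₂ ≤ 1 := e₂'.le.trans (min_le_left _ _)
  have f3 : C * max ε₁ ε₂ ≤ η * min κ 1 := by
    have : max ε₁ ε₂ ≤ η * min κ 1 / C :=
      max_le (e₁'.le.trans (min_le_right _ _)) (e₂'.le.trans (min_le_right _ _))
    calc C * max ε₁ ε₂ ≤ C * (η * min κ 1 / C) := mul_le_mul_of_nonneg_left this hC0.le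
      _ = η * min κ 1 := by field_simp
  obtain ⟨g, hg, hgs⟩ := exists_im_section hl.cls
  obtain ⟨t1, t2, t3, t4⟩ := ten h₁ h₂ e₁ e₂ f1 f2 hl hg hgs
  rw [← hC] at t1 t2 t3 t4
  rw [← hκe] at t1 t3
  have g1 : η * min κ 1 ≤ η := by
    calc η * min κ 1 ≤ η * 1 := mul_le_mul_of_nonneg_left (min_le_right _ _) hη0.le
      _ = η := mul_one η
  have g2 : η * min κ 1 ≤ κ * η := by
    rw [mul_comm κ η]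
    exact mul_le_mul_of_nonneg_left (min_le_left _ _) hη0.le
  have s1 : ∫ z, |z.re| ∂l ≤ η := le_of_mul_le_mul_left (t1.trans (f3.trans g2)) hκ
  have s3 : ∫ y, |(g y).re| ∂arc ≤ η := le_of_mul_le_mul_left (t3.trans (f3.trans g2)) hκ
  have hS : Sit k₁ k₂ b d η Γ l g :=
    { cpt := hl.cls.1
      eq := hl.eq
      gm := hg
      gs := hgs
      d0 := hd0
      db := hdb
      b1 := hb1.le
      axis := off_axis_zero h₁ h₂ hl hb0.le hb1 (by rw [← hκe]; exact s1.trans a6)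
      e1 := s1
      e2 := t2.trans (f3.trans g1)
      e3 := s3
      e4 := t4.trans (f3.trans g1) }
  exact gap_final h₁ h₂ hS a3 a4 (by rw [← hκe]; exact a5) h0.le hbd
    (H₁ η Γ l g hη0.le a1 hS) (H₂ η Γ l g hη0.le a2 hS) hy

/-- The full statement. -/
theorem main (k₁ k₂ h : ℝ) (h₁ : 0 < k₁) (h₂ : 0 < k₂) (h0 : 0 < h) (h1 : h < 1) :
    ∃ ε₀ : ℝ, 0 < ε₀ ∧ ∀ ε₁ ε₂ : ℝ, 0 < ε₁ → ε₁ < ε₀ → 0 < ε₂ → ε₂ < ε₀ →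
      (∃ Γ, MaxMin k₁ k₂ ε₁ ε₂ Γ) ∧
        ∀ Γ, MaxMin k₁ k₂ ε₁ ε₂ Γ → ∀ y : ℝ, |y| ≤ h → (⟨0, y⟩ : ℂ) ∈ Γ := by
  obtain ⟨ε₀, e0, -, H⟩ := contains h₁ h₂ h0 h1
  refine ⟨ε₀, e0, fun ε₁ ε₂ e₁ e₁' e₂ e₂' => ⟨?_, fun Γ hΓ y hy => ?_⟩⟩
  · obtain ⟨Γ, l, hl⟩ := exists_rmax (k₁ := k₁) (k₂ := k₂) h₁ h₂ e₁ e₂
    exact ⟨Γ, maxmin_of_rmax h₁ h₂ hl⟩
  · obtain ⟨l, hl⟩ := rmax_of_maxmin h₁ h₂ hΓ
    exact H ε₁ ε₂ e₁ e₁' e₂ e₂' Γ l hl y hy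

end Pool.Agent.H5.AF
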